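import Mathlib
import Pool.Agent.Helper540.Taylor

set_option autoImplicit false

namespace Pool.Agent.Helper540

open Metric Set Filter Topology Asymptotics

section NearZero

variable {E F : Type*} [NormedAddCommGroup E] [NormedSpace ℂ E]

/-- A holomorphic map tangent to the identity at the origin is close to the identity,
with a Lipschitz type estimate. -/
theorem near_zero {h : E → E} {R : ℝ} (hR : 0 < R) (hd : DifferentiableOn ℂ h (ball 0 R))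
    (h0 : h 0 = 0) (h1 : fderiv ℂ h 0 = ContinuousLinearMap.id ℂ E) :
    ∃ δ > 0, ∃ C ≥ 0, δ < R ∧ ∀ p p' : E, ‖p‖ < δ → ‖p'‖ < δ →
      ‖h p - h p' - (p - p')‖ ≤ C * max ‖p‖ ‖p'‖ * ‖p - p'‖ := by
  obtain ⟨r, hr, M, hM0, hsub, hM⟩ := exists_bound isOpen_ball hd (mem_ball_self hR)
  have hrR : r ≤ R ∨ True := Or.inr trivial
  have hd' : DifferentiableOn ℂ h (ball 0 r) := hd.mono hsub
  have hsec : ∀ z ∈ ball (0 : E) r, ‖h z - z‖ ≤ 4 * M * (‖z‖ / r) ^ 2 := by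
    intro z hz
    have := norm_sub_sub_fderiv_le hr hd' hM hz
    simpa [h0, h1] using this
  refine ⟨min (r / 8) (R / 2), by positivity, 128 * M / r ^ 2, by positivity,
    (min_le_right _ _).trans_lt (by linarith), ?_⟩
  intro p p' hp hp'
  have hp8 : ‖p‖ < r / 8 := hp.trans_le (min_le_left _ _)
  have hp8' : ‖p'‖ < r / 8 := hp'.trans_le (min_le_left _ _)
  set s := max ‖p‖ ‖p'‖ with hs
  have hs8 : s < r / 8 := max_lt hp8 hp8'
  have hsp : ‖p‖ ≤ s := le_max_left _ _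
  have hsp' : ‖p'‖ ≤ s := le_max_right _ _
  have hs0 : 0 ≤ s := (norm_nonneg _).trans hsp
  rcases hs0.eq_or_lt with hs0 | hs0
  · have e1 : p = 0 := norm_le_zero_iff.1 (by rw [hs0]; exact hsp)
    have e2 : p' = 0 := norm_le_zero_iff.1 (by rw [hs0]; exact hsp')
    simp [e1, e2]
  have hgd : DifferentiableOn ℂ (fun z => h z - z) (ball 0 (8 * s)) :=
    (hd'.mono (ball_subset_ball (by linarith))).sub differentiableOn_id
  have hgM : ∀ z ∈ ball (0 : E) (8 * s), ‖h z - z‖ ≤ 4 * M * (8 * s / r) ^ 2 := by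
    intro z hz
    have hz' : ‖z‖ < 8 * s := by simpa using hz
    refine (hsec z (ball_subset_ball (by linarith) hz)).trans ?_
    gcongr
  have hpm : p' ∈ ball (0 : E) (8 * s / 2) := by
    rw [mem_ball_zero_iff]; linarith
  have hpm' : p ∈ ball p' (8 * s / 2) := by
    rw [mem_ball, dist_eq_norm]
    calc ‖p - p'‖ ≤ ‖p‖ + ‖p'‖ := norm_sub_le _ _
      _ < 8 * s / 2 := by linarith
  have := lipschitz_half hgd hgM hpm hpm'
  have e : h p - h p' - (p - p') = (h p - p) - (h p' - p') := by abel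
  rw [e]
  refine this.trans (le_of_eq ?_)
  field_simp
  ring

end NearZero

section Disc

variable {E : Type*} [NormedAddCommGroup E] [InnerProductSpace ℂ E]

theorem q_ne {ρ : ℝ} (hρ : 0 ≤ ρ) (hρ1 : ρ < 1) {τ : ℂ} (hτ : ‖τ‖ ≤ 1) :
    1 - ρ ≤ ‖1 - (ρ : ℂ) * τ‖ ∧ (1 - (ρ : ℂ) * τ) ≠ 0 := by
  have h1 : ‖(ρ : ℂ) * τ‖ ≤ ρ := by
    rw [norm_mul, Complex.norm_real, Real.norm_of_nonneg hρ]
    exact mul_le_of_le_one_right hρ hτ
  have h2 : 1 - ρ ≤ ‖1 - (ρ : ℂ) * τ‖ := by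
    have := norm_sub_norm_le (1 : ℂ) ((ρ : ℂ) * τ)
    rw [norm_one] at this
    linarith
  refine ⟨h2, ?_⟩
  intro h
  rw [h, norm_zero] at h2
  linarith

theorem disc_norm {u w : E} (hu : ‖u‖ = 1) (hw : ‖w‖ = 1) {c x y ρ : ℝ}
    (huw : inner ℂ u w = (c : ℂ)) (hy : 0 ≤ y) (hy1 : y ≤ 1)
    (e1 : x ^ 2 + y ^ 2 = 1 + ρ ^ 2) (e2 : x * y * c = ρ) {τ : ℂ} (hτ : ‖τ‖ ≤ 1) :
    ‖(y : ℂ) • u - (τ * x) • w‖ ≤ ‖1 - (ρ : ℂ) * τ‖ := by
  have h1 : ‖(y : ℂ) • u - (τ * x) • w‖ ^ 2 = y ^ 2 - 2 * ρ * τ.re + ‖τ‖ ^ 2 * x ^ 2 := by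
    rw [@norm_sub_sq ℂ, norm_smul, norm_smul, hu, hw, inner_smul_left, inner_smul_right, huw,
      ← e2]
    simp only [mul_one, Complex.norm_real, norm_mul, Complex.conj_ofReal, RCLike.re_eq_complex_re,
      Real.norm_eq_abs, sq_abs, mul_pow]
    have : ((y : ℂ) * (τ * x * c)).re = y * (τ.re * x * c) := by
      have : (y : ℂ) * (τ * x * c) = ((y * x * c : ℝ) : ℂ) * τ := by push_cast; ring
      rw [this, Complex.re_ofReal_mul]; ring
    rw [this]; ring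
  have h2 : ‖1 - (ρ : ℂ) * τ‖ ^ 2 = 1 - 2 * ρ * τ.re + ρ ^ 2 * ‖τ‖ ^ 2 := by
    rw [← Complex.normSq_eq_norm_sq, ← Complex.normSq_eq_norm_sq, Complex.normSq_apply,
      Complex.normSq_apply]
    simp
    ring
  have h3 : ‖τ‖ ^ 2 ≤ 1 := by
    have := norm_nonneg τ
    nlinarith
  have h4 : ‖(y : ℂ) • u - (τ * x) • w‖ ^ 2 ≤ ‖1 - (ρ : ℂ) * τ‖ ^ 2 := by
    rw [h1, h2]
    have hx : x ^ 2 = 1 + ρ ^ 2 - y ^ 2 := by linarith
    rw [hx]
    have hy2 : y ^ 2 ≤ 1 := by nlinarith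
    nlinarith
  exact (pow_le_pow_iff_left₀ (norm_nonneg _) (norm_nonneg _) two_ne_zero).1 h4

/-- Real part of the average of a nonnegative quantity. -/
theorem re_circleAverage_nonneg {G : ℂ → ℂ} (hG : CircleIntegrable G 0 1)
    (h : ∀ z : ℂ, ‖z‖ = 1 → 0 ≤ (G z).re) : 0 ≤ (Real.circleAverage G 0 1).re := by
  have h1 := Complex.reCLM.circleAverage_comp_comm hG
  have h2 : 0 ≤ Real.circleAverage (Complex.reCLM ∘ G) 0 1 := by
    apply Real.circleAverage_nonneg_of_nonneg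
    intro z hz
    simp only [abs_one, mem_sphere_iff_norm, sub_zero] at hz
    simpa using h z hz
  rw [h1] at h2
  simpa using h2

variable [CompleteSpace E]

/-- The main inequality, obtained by averaging over the boundary of a rational disc. -/
theorem key_ineq {h : E → E} {R₁ : ℝ} (hR : 1 < R₁) (hd : DifferentiableOn ℂ h (ball 0 R₁))
    (h0 : h 0 = 0) (h1 : fderiv ℂ h 0 = ContinuousLinearMap.id ℂ E)
    (hpos : ∀ z, ‖z‖ ≤ 1 → 0 ≤ (inner ℂ z (h z)).re) {m : ℕ} (hm : 2 ≤ m) {u w : E}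
    (hu : ‖u‖ = 1) (hw : ‖w‖ = 1) {c x y ρ : ℝ} (huw : inner ℂ u w = (c : ℂ))
    (hy : 0 ≤ y) (hy1 : y ≤ 1) (hρ : 0 ≤ ρ) (hρ1 : ρ < 1)
    (e1 : x ^ 2 + y ^ 2 = 1 + ρ ^ 2) (e2 : x * y * c = ρ) :
    x * y ^ m * (inner ℂ w (tc m (fun t : ℂ => h (t • u)))).re ≤ 1 + ρ ^ 2 := by
  have hR0 : 0 < R₁ := by linarith
  have hwu : inner ℂ w u = (c : ℂ) := by
    rw [← inner_conj_symm, huw, Complex.conj_ofReal]
  set q : ℂ → ℂ := fun ζ => 1 - (ρ : ℂ) * ζ ^ (m - 1) with hq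
  set v : E := ((ρ * y : ℝ) : ℂ) • u - (x : ℂ) • w with hv
  set z : ℂ → E := fun ζ => ζ • ((y : ℂ) • u) + ((q ζ)⁻¹ * ζ ^ m) • v with hz
  have hmm : ∀ ζ : ℂ, ζ ^ m = ζ * ζ ^ (m - 1) := by
    intro ζ
    rw [← pow_succ']
    congr 1
    omega
  have hpow : ∀ {ζ : ℂ}, ‖ζ‖ ≤ 1 → ‖ζ ^ (m - 1)‖ ≤ 1 := by
    intro ζ hζ
    rw [norm_pow]
    exact pow_le_one₀ (norm_nonneg _) hζ
  have hqne : ∀ {ζ : ℂ}, ‖ζ‖ ≤ 1 → q ζ ≠ 0 := fun hζ => (q_ne hρ hρ1 (hpow hζ)).2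
  have hqz : ∀ {ζ : ℂ}, ‖ζ‖ ≤ 1 → q ζ • z ζ = ζ • ((y : ℂ) • u - (ζ ^ (m - 1) * x) • w) := by
    intro ζ hζ
    have := hqne hζ
    have e0 : q ζ • ((q ζ)⁻¹ * ζ ^ m) • v = ζ ^ m • v := by
      rw [smul_smul, ← mul_assoc, mul_inv_cancel₀ this, one_mul]
    simp only [hz]
    rw [smul_add, e0, hmm ζ]
    simp only [hq, hv]
    push_cast
    module
  have hzn : ∀ {ζ : ℂ}, ‖ζ‖ ≤ 1 → ‖z ζ‖ ≤ ‖ζ‖ := by
    intro ζ hζ
    have h2 := hqne hζ
    have h3 : ‖q ζ‖ * ‖z ζ‖ ≤ ‖q ζ‖ * ‖ζ‖ := by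
      rw [← norm_smul, hqz hζ, norm_smul, mul_comm]
      exact mul_le_mul_of_nonneg_right (disc_norm hu hw huw hy hy1 e1 e2 (hpow hζ)) (norm_nonneg _)
    exact le_of_mul_le_mul_left h3 (norm_pos_iff.2 h2)
  set H : ℂ → E := fun ζ => h (z ζ) with hH
  have hzd : ∀ {ζ : ℂ}, ‖ζ‖ ≤ 1 → DifferentiableAt ℂ z ζ := by
    intro ζ hζ
    have h2 : (1 : ℂ) - (ρ : ℂ) * ζ ^ (m - 1) ≠ 0 := hqne hζ
    simp only [hz, hq]
    fun_prop (disch := assumption)
  have hHd : ∀ {ζ : ℂ}, ‖ζ‖ ≤ 1 → DifferentiableAt ℂ H ζ := by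
    intro ζ hζ
    have h2 : z ζ ∈ ball (0 : E) R₁ := by
      rw [mem_ball_zero_iff]
      exact (hzn hζ).trans_lt (hζ.trans_lt hR)
    exact (hd.differentiableAt (isOpen_ball.mem_nhds h2)).comp ζ (hzd hζ)
  have hHon : DifferentiableOn ℂ H (closedBall 0 1) := fun ζ hζ =>
    (hHd (by simpa using hζ)).differentiableWithinAt
  have hcl : closure (ball (0 : ℂ) 1) = closedBall 0 1 := closure_ball _ one_ne_zero
  have hLon : ∀ p : E, DifferentiableOn ℂ (fun ζ => inner ℂ p (H ζ)) (closedBall 0 1) := by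
    intro p
    have : (fun ζ => inner ℂ p (H ζ)) = fun ζ => (innerSL ℂ p) (H ζ) := by
      ext ζ; simp
    rw [this]
    exact (innerSL ℂ p).differentiable.comp_differentiableOn hHon
  have hLdc : ∀ p : E, DiffContOnCl ℂ (fun ζ => inner ℂ p (H ζ)) (ball 0 1) := fun p =>
    DifferentiableOn.diffContOnCl (by rw [hcl]; exact hLon p)
  have hz0 : z 0 = 0 := by
    have : m ≠ 0 := by omega
    simp [hz, this]
  have hH0 : H 0 = 0 := by simp [hH, hz0, h0]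
  -- the Taylor coefficients of `H`
  obtain ⟨δ, hδ, C, hC0, hδR, hC⟩ := near_zero hR0 hd h0 h1
  have hbig : ∀ ζ ∈ ball (0 : ℂ) (min δ 1),
      ‖H ζ - h (ζ • ((y : ℂ) • u)) - ζ ^ m • v‖ ≤
        ((C + ρ) / (1 - ρ) * ‖v‖) * ‖ζ‖ ^ (m + 1) := by
    intro ζ hζ
    have hζ' : ‖ζ‖ < min δ 1 := by simpa using hζ
    have hζ1 : ‖ζ‖ ≤ 1 := (hζ'.trans_le (min_le_right _ _)).le
    have hζδ : ‖ζ‖ < δ := hζ'.trans_le (min_le_left _ _)
    have hyu : ‖ζ • ((y : ℂ) • u)‖ ≤ ‖ζ‖ := by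
      rw [norm_smul, norm_smul, hu, mul_one, Complex.norm_real, Real.norm_of_nonneg hy]
      exact mul_le_of_le_one_right (norm_nonneg _) hy1
    have key := hC (z ζ) (ζ • ((y : ℂ) • u)) ((hzn hζ1).trans_lt hζδ) (hyu.trans_lt hζδ)
    have hdiff : z ζ - ζ • ((y : ℂ) • u) = ((q ζ)⁻¹ * ζ ^ m) • v := by simp [hz]
    rw [hdiff] at key
    have hqn := (q_ne hρ hρ1 (hpow hζ1)).1
    have h1ρ : 0 < 1 - ρ := by linarith
    have hqi : ‖(q ζ)⁻¹‖ ≤ (1 - ρ)⁻¹ := by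
      rw [norm_inv]
      exact inv_anti₀ h1ρ hqn
    have hsplit : H ζ - h (ζ • ((y : ℂ) • u)) - ζ ^ m • v =
        (h (z ζ) - h (ζ • ((y : ℂ) • u)) - ((q ζ)⁻¹ * ζ ^ m) • v) +
          ((q ζ)⁻¹ * (ρ * ζ ^ (m - 1)) * ζ ^ m) • v := by
      have e3 : ((q ζ)⁻¹ * ζ ^ m) = ζ ^ m + (q ζ)⁻¹ * (ρ * ζ ^ (m - 1)) * ζ ^ m := by
        have h5 := hqne hζ1
        have h6 : (ρ : ℂ) * ζ ^ (m - 1) = 1 - q ζ := by simp [hq]
        rw [h6]
        field_simp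
        ring
      rw [e3]
      simp only [hH]
      module
    rw [hsplit]
    have t1 : ‖h (z ζ) - h (ζ • ((y : ℂ) • u)) - ((q ζ)⁻¹ * ζ ^ m) • v‖ ≤
        C * ‖ζ‖ * ((1 - ρ)⁻¹ * ‖ζ‖ ^ m * ‖v‖) := by
      refine key.trans ?_
      have hmax : max ‖z ζ‖ ‖ζ • ((y : ℂ) • u)‖ ≤ ‖ζ‖ := max_le (hzn hζ1) hyu
      have e4 : ‖((q ζ)⁻¹ * ζ ^ m) • v‖ = ‖(q ζ)⁻¹‖ * ‖ζ‖ ^ m * ‖v‖ := by
        rw [norm_smul, norm_mul, norm_pow]
      rw [e4]
      gcongr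
    have t2 : ‖((q ζ)⁻¹ * (ρ * ζ ^ (m - 1)) * ζ ^ m) • v‖ ≤
        (1 - ρ)⁻¹ * (ρ * ‖ζ‖) * ‖ζ‖ ^ m * ‖v‖ := by
      rw [norm_smul, norm_mul, norm_mul, norm_mul, norm_pow, norm_pow, Complex.norm_real,
        Real.norm_of_nonneg hρ]
      have : ‖ζ‖ ^ (m - 1) ≤ ‖ζ‖ := by
        calc ‖ζ‖ ^ (m - 1) ≤ ‖ζ‖ ^ 1 :=
              pow_le_pow_of_le_one (norm_nonneg _) hζ1 (by omega)
          _ = ‖ζ‖ := pow_one _
      gcongr
    calc _ ≤ _ := norm_add_le _ _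
      _ ≤ C * ‖ζ‖ * ((1 - ρ)⁻¹ * ‖ζ‖ ^ m * ‖v‖) +
          (1 - ρ)⁻¹ * (ρ * ‖ζ‖) * ‖ζ‖ ^ m * ‖v‖ := add_le_add t1 t2
      _ = _ := by rw [pow_succ]; field_simp
  have hslice : DifferentiableOn ℂ (fun ζ : ℂ => h (ζ • ((y : ℂ) • u))) (ball 0 1) := by
    intro ζ hζ
    have hζ' : ‖ζ‖ < 1 := by simpa using hζ
    have h2 : ζ • ((y : ℂ) • u) ∈ ball (0 : E) R₁ := by
      rw [mem_ball_zero_iff, norm_smul, norm_smul, hu, mul_one, Complex.norm_real,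
        Real.norm_of_nonneg hy]
      calc ‖ζ‖ * y ≤ 1 * 1 := by gcongr
        _ < R₁ := by linarith
    have h3 : DifferentiableAt ℂ (fun ζ : ℂ => ζ • ((y : ℂ) • u)) ζ := by fun_prop
    exact ((hd.differentiableAt (isOpen_ball.mem_nhds h2)).comp ζ h3).differentiableWithinAt
  have hHball : DifferentiableOn ℂ H (ball 0 1) := hHon.mono ball_subset_closedBall
  have cdH : ∀ n : ℕ, ContDiffAt ℂ n H 0 := fun n => contDiffAt_of_ball one_pos hHball n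
  have cdS : ∀ n : ℕ, ContDiffAt ℂ n (fun ζ : ℂ => h (ζ • ((y : ℂ) • u))) 0 :=
    fun n => contDiffAt_of_ball one_pos hslice n
  have htm : tc m H = tc m (fun ζ : ℂ => h (ζ • ((y : ℂ) • u))) + v := by
    have h3 : tc m (fun ζ => H ζ - h (ζ • ((y : ℂ) • u)) - ζ ^ m • v) = 0 := by
      apply tc_eq_zero_of_bound m (R := min δ 1) (by positivity) _ hbig
      have hs : ball (0 : ℂ) (min δ 1) ⊆ ball 0 1 := ball_subset_ball (min_le_right _ _)
      exact ((hHball.mono hs).sub (hslice.mono hs)).sub (by fun_prop)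
    rw [tc_sub m ((cdH m).sub (cdS m)) (by fun_prop), tc_sub m (cdH m) (cdS m), tc_pow_smul,
      if_pos rfl] at h3
    rw [sub_sub, sub_eq_zero] at h3
    exact h3
  have hym : tc m (fun ζ : ℂ => h (ζ • ((y : ℂ) • u))) =
      ((y : ℂ) ^ m) • tc m (fun t : ℂ => h (t • u)) := by
    have hs1 : DifferentiableOn ℂ (fun ζ : ℂ => h (ζ • u)) (ball 0 1) := by
      intro ζ hζ
      have hζ' : ‖ζ‖ < 1 := by simpa using hζ
      have h2 : ζ • u ∈ ball (0 : E) R₁ := by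
        rw [mem_ball_zero_iff, norm_smul, hu, mul_one]
        linarith
      have h3 : DifferentiableAt ℂ (fun ζ : ℂ => ζ • u) ζ := by fun_prop
      exact ((hd.differentiableAt (isOpen_ball.mem_nhds h2)).comp ζ h3).differentiableWithinAt
    rw [← tc_comp_smul one_pos hs1 m (y : ℂ)]
    simp only [smul_smul, smul_eq_mul]
  have hm0 : m ≠ 0 := by omega
  have hm1 : m - 1 ≠ 0 := by omega
  have hz1 : HasDerivAt z ((y : ℂ) • u) 0 := by
    have hqd : HasDerivAt q (-(ρ * ((m - 1 : ℕ) * (0 : ℂ) ^ (m - 1 - 1)))) 0 := by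
      exact ((hasDerivAt_pow (m - 1) (0 : ℂ)).const_mul (ρ : ℂ)).const_sub 1
    have hq0 : q 0 ≠ 0 := hqne (by simp)
    have h5 := (hqd.inv hq0).mul (hasDerivAt_pow m (0 : ℂ))
    have h6 := ((hasDerivAt_id (0 : ℂ)).smul_const ((y : ℂ) • u)).add (h5.smul_const v)
    refine h6.congr_deriv ?_
    simp [hm0, hm1]
  have hH1 : HasDerivAt H ((y : ℂ) • u) 0 := by
    have h5 : HasFDerivAt h (ContinuousLinearMap.id ℂ E) (z 0) := by
      rw [hz0, ← h1]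
      exact (hd.differentiableAt (ball_mem_nhds _ hR0)).hasFDerivAt
    exact h5.comp_hasDerivAt 0 hz1
  have ht1 : tc 1 H = (y : ℂ) • u := tc_one hH1
  -- the averaged function
  set a : ℂ → ℂ := fun ζ => inner ℂ u (H ζ) with ha
  set b : ℂ → ℂ := fun ζ => inner ℂ w (H ζ) with hb
  have htc : ∀ (p : E) (n : ℕ), tc n (fun ζ => inner ℂ p (H ζ)) = inner ℂ p (tc n H) := by
    intro p n
    have := tc_clm (innerSL ℂ p) n (cdH n)
    simpa using this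
  have havg : ∀ (p : E) (n : ℕ), Real.circleAverage (fun ζ => (ζ ^ n)⁻¹ * inner ℂ p (H ζ)) 0 1 =
      inner ℂ p (tc n H) := by
    intro p n
    have := tc_circleAverage one_pos n (hLdc p)
    rw [htc] at this
    simpa using this
  have hcont : ∀ p : E, ContinuousOn (fun ζ => inner ℂ p (H ζ)) (sphere 0 1) := fun p =>
    (hLon p).continuousOn.mono sphere_subset_closedBall
  have hinv : ∀ n : ℕ, ContinuousOn (fun ζ : ℂ => (ζ ^ n)⁻¹) (sphere 0 1) := by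
    intro n
    apply ContinuousOn.inv₀ (by fun_prop)
    intro ζ hζ
    have : ‖ζ‖ = 1 := by simpa using hζ
    apply pow_ne_zero
    intro h7
    rw [h7, norm_zero] at this
    norm_num at this
  have hci : ∀ {f : ℂ → ℂ}, ContinuousOn f (sphere 0 1) → CircleIntegrable f 0 1 := by
    intro f hf
    apply ContinuousOn.circleIntegrable zero_le_one
    simpa using hf
  have i1 : CircleIntegrable (fun ζ => (ζ ^ 1)⁻¹ * a ζ) 0 1 := hci ((hinv 1).mul (hcont u))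
  have i2 : CircleIntegrable (fun ζ => ζ ^ (m - 2) * a ζ) 0 1 :=
    hci ((by fun_prop : ContinuousOn (fun ζ : ℂ => ζ ^ (m - 2)) (sphere 0 1)).mul (hcont u))
  have i3 : CircleIntegrable (fun ζ => (ζ ^ m)⁻¹ * b ζ) 0 1 := hci ((hinv m).mul (hcont w))
  have i4 : CircleIntegrable (fun ζ => (ζ ^ 1)⁻¹ * b ζ) 0 1 := hci ((hinv 1).mul (hcont w))
  set G : ℂ → ℂ := fun ζ => (y : ℂ) • ((ζ ^ 1)⁻¹ * a ζ) - ((ρ * y : ℝ) : ℂ) • (ζ ^ (m - 2) * a ζ)
    - (x : ℂ) • ((ζ ^ m)⁻¹ * b ζ) + ((ρ * x : ℝ) : ℂ) • ((ζ ^ 1)⁻¹ * b ζ) with hG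
  have j1 := i1.const_fun_smul (a := (y : ℂ))
  have j2 := i2.const_fun_smul (a := ((ρ * y : ℝ) : ℂ))
  have j3 := i3.const_fun_smul (a := (x : ℂ))
  have j4 := i4.const_fun_smul (a := ((ρ * x : ℝ) : ℂ))
  have hGi : CircleIntegrable G 0 1 := by
    exact ((j1.sub j2).sub j3).add j4
  have avg2 : Real.circleAverage (fun ζ => ζ ^ (m - 2) * a ζ) 0 1 = 0 := by
    have h7 : DiffContOnCl ℂ (fun ζ => ζ ^ (m - 2) * a ζ) (ball 0 1) := by
      apply DifferentiableOn.diffContOnCl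
      rw [hcl]
      exact (by fun_prop : DifferentiableOn ℂ (fun ζ : ℂ => ζ ^ (m - 2)) (closedBall 0 1)).mul
        (hLon u)
    have h8 := DiffContOnCl.circleAverage (c := (0 : ℂ)) (R := 1) (by simpa using h7)
    rw [h8]
    simp [ha, hH0]
  have hGavg : Real.circleAverage G 0 1 =
      (y : ℂ) • inner ℂ u (tc 1 H) - ((ρ * y : ℝ) : ℂ) • 0 - (x : ℂ) • inner ℂ w (tc m H)
        + ((ρ * x : ℝ) : ℂ) • inner ℂ w (tc 1 H) := by
    have k1 := havg u 1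
    have k3 := havg w m
    have k4 := havg w 1
    have hG' : G = (((fun ζ => (y : ℂ) • ((ζ ^ 1)⁻¹ * a ζ)) -
        (fun ζ => ((ρ * y : ℝ) : ℂ) • (ζ ^ (m - 2) * a ζ))) -
        (fun ζ => (x : ℂ) • ((ζ ^ m)⁻¹ * b ζ))) +
        (fun ζ => ((ρ * x : ℝ) : ℂ) • ((ζ ^ 1)⁻¹ * b ζ)) := rfl
    rw [hG', Real.circleAverage_add ((j1.sub j2).sub j3) j4,
      Real.circleAverage_sub (j1.sub j2) j3, Real.circleAverage_sub j1 j2,
      Real.circleAverage_fun_smul, Real.circleAverage_fun_smul,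
      Real.circleAverage_fun_smul, Real.circleAverage_fun_smul, k1, k3, k4, avg2]
  have hGpos : ∀ ζ : ℂ, ‖ζ‖ = 1 → 0 ≤ (G ζ).re := by
    intro ζ hζ
    have hζ0 : ζ ≠ 0 := by
      intro h7
      rw [h7, norm_zero] at hζ
      norm_num at hζ
    have hconj : ∀ n : ℕ, (starRingEnd ℂ) (ζ ^ n) = (ζ ^ n)⁻¹ := by
      intro n
      have : ‖ζ ^ n‖ = 1 := by rw [norm_pow, hζ, one_pow]
      rw [Complex.inv_def, Complex.normSq_eq_norm_sq, this]
      simp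
    have e5 : G ζ = q ζ * inner ℂ (q ζ • z ζ) (H ζ) := by
      rw [hqz hζ.le, inner_smul_left, inner_sub_left, inner_smul_left, inner_smul_left,
        map_mul, Complex.conj_ofReal, Complex.conj_ofReal, hconj]
      have hc1 : (starRingEnd ℂ) ζ = ζ⁻¹ := by simpa using hconj 1
      rw [hc1]
      have e6 : ζ ^ m = ζ ^ 2 * ζ ^ (m - 2) := by
        rw [← pow_add]; congr 1; omega
      have e7 : ζ ^ (m - 1) = ζ * ζ ^ (m - 2) := by
        rw [← pow_succ']; congr 1; omega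
      have hs : ζ ^ (m - 2) ≠ 0 := pow_ne_zero _ hζ0
      simp only [hG, hq, ha, hb, e6, e7, smul_eq_mul]
      push_cast
      field_simp
      ring
    have e8 : G ζ = ((‖q ζ‖ ^ 2 : ℝ) : ℂ) * inner ℂ (z ζ) (H ζ) := by
      rw [e5, inner_smul_left, ← mul_assoc, Complex.mul_conj, Complex.normSq_eq_norm_sq]
    rw [e8, Complex.re_ofReal_mul]
    exact mul_nonneg (by positivity) (hpos _ ((hzn hζ.le).trans hζ.le))
  have hfin := re_circleAverage_nonneg hGi hGpos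
  rw [hGavg, ht1, htm, hym] at hfin
  have e9 : inner ℂ w v = ((ρ * y * c - x : ℝ) : ℂ) := by
    rw [hv, inner_sub_right, inner_smul_right, inner_smul_right, hwu, inner_self_eq_norm_sq_to_K,
      hw]
    simp
  have e10 : inner ℂ u ((y : ℂ) • u) = ((y : ℝ) : ℂ) := by
    rw [inner_smul_right, inner_self_eq_norm_sq_to_K, hu]
    simp
  have e11 : inner ℂ w ((y : ℂ) • u) = ((y * c : ℝ) : ℂ) := by
    rw [inner_smul_right, hwu]
    simp
  rw [e10, e11, inner_add_right, inner_smul_right, e9] at hfin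
  set P : ℂ := inner ℂ w (tc m (fun t : ℂ => h (t • u))) with hP
  have e12 : ((y : ℂ) • ((y : ℝ) : ℂ) - ((ρ * y : ℝ) : ℂ) • (0 : ℂ)
      - (x : ℂ) • ((y : ℂ) ^ m * P + ((ρ * y * c - x : ℝ) : ℂ))
      + ((ρ * x : ℝ) : ℂ) • ((y * c : ℝ) : ℂ)) =
      ((x ^ 2 + y ^ 2 : ℝ) : ℂ) - ((x * y ^ m : ℝ) : ℂ) * P := by
    simp only [smul_eq_mul]
    push_cast
    ring
  rw [e12, Complex.sub_re, Complex.ofReal_re, Complex.re_ofReal_mul, e1] at hfin
  linarith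

/-- Real inequality behind the choice of parameters. -/
theorem param_ineq {Y t : ℝ} (hY : 2 / 3 ≤ Y) (hY1 : Y < 1) (ht0 : 0 ≤ t) (ht1 : t ≤ 1) :
    ((1 - Y) / (1 - t * Y) + Y) ^ 2 * (1 - Y) ≤ (1 - Y) / (1 - t * Y) := by
  have hD : 0 < 1 - t * Y := by nlinarith
  have hDne : 1 - t * Y ≠ 0 := hD.ne'
  have e1 : (1 - Y) / (1 - t * Y) + Y = (1 - t * Y ^ 2) / (1 - t * Y) := by
    rw [eq_div_iff hDne, add_mul, div_mul_cancel₀ _ hDne]
    ring
  rw [e1, div_pow, div_mul_eq_mul_div, div_le_div_iff₀ (by positivity) hD]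
  have h1 : 1 - 2 * Y + t * Y ^ 3 ≤ 0 := by
    have h2 : t * Y ^ 3 ≤ Y ^ 3 := mul_le_of_le_one_left (by positivity) ht1
    nlinarith [mul_nonneg (sub_nonneg.2 hY1.le) (by nlinarith : (0 : ℝ) ≤ Y ^ 2 + Y - 1)]
  have h3 : (1 - t * Y ^ 2) ^ 2 ≤ 1 - t * Y := by
    nlinarith [mul_nonneg (mul_nonneg ht0 (by linarith : (0 : ℝ) ≤ Y)) (neg_nonneg.2 h1)]
  have h4 : 0 ≤ (1 - Y) * (1 - t * Y) := mul_nonneg (by linarith) hD.le
  nlinarith [mul_le_mul_of_nonneg_left h3 h4]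

/-- Sharp bound for all homogeneous parts of maps in the Caratheodory family. -/
theorem norm_tc_le {h : E → E} (hd : DifferentiableOn ℂ h (ball 0 1)) (h0 : h 0 = 0)
    (h1 : fderiv ℂ h 0 = ContinuousLinearMap.id ℂ E)
    (hpos : ∀ z ∈ ball (0 : E) 1, 0 ≤ (inner ℂ z (h z)).re) {m : ℕ} (hm : 2 ≤ m) {u : E}
    (hu : ‖u‖ = 1) :
    ‖tc m (fun t : ℂ => h (t • u))‖ ≤ Real.sqrt (((m : ℝ) + 1) ^ (m + 1) / (m : ℝ) ^ m) := by
  set P : E := tc m (fun t : ℂ => h (t • u)) with hP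
  rcases eq_or_ne P 0 with hP0 | hP0
  · rw [hP0, norm_zero]; positivity
  have hp : 0 < ‖P‖ := norm_pos_iff.2 hP0
  set w₀ : E := ((‖P‖ : ℂ)⁻¹) • P with hw₀
  have hw₀n : ‖w₀‖ = 1 := by
    rw [hw₀, norm_smul, norm_inv, Complex.norm_real, norm_norm, inv_mul_cancel₀ hp.ne']
  set c₀ : ℂ := inner ℂ u w₀ with hc₀
  -- a phase rotating the inner product to a nonnegative real number
  obtain ⟨l, hl1, hl⟩ : ∃ l : ℂ, ‖l‖ = 1 ∧ l ^ (m - 1) * c₀ = (‖c₀‖ : ℂ) := by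
    rcases eq_or_ne c₀ 0 with h2 | h2
    · exact ⟨1, by simp, by simp [h2]⟩
    · obtain ⟨l, hl⟩ := IsAlgClosed.exists_pow_nat_eq ((‖c₀‖ : ℂ) / c₀) (by omega : 0 < m - 1)
      have h3 : (‖c₀‖ : ℂ) ≠ 0 := by exact_mod_cast (norm_pos_iff.2 h2).ne'
      refine ⟨l, ?_, by rw [hl, div_mul_cancel₀ _ h2]⟩
      have h4 : ‖l‖ ^ (m - 1) = 1 := by
        rw [← norm_pow, hl, norm_div, Complex.norm_real, norm_norm, div_self]
        exact (norm_pos_iff.2 h2).ne'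
      exact (pow_eq_one_iff_of_nonneg (norm_nonneg _) (by omega)).1 h4
  set c : ℝ := ‖c₀‖ with hc
  have hc0 : 0 ≤ c := norm_nonneg _
  have hc1 : c ≤ 1 := by
    have := norm_inner_le_norm (𝕜 := ℂ) u w₀
    rwa [hu, hw₀n, one_mul] at this
  set u' : E := l • u with hu'
  have hu'n : ‖u'‖ = 1 := by rw [hu', norm_smul, hl1, hu, one_mul]
  set w : E := (l ^ m) • w₀ with hw
  have hwn : ‖w‖ = 1 := by rw [hw, norm_smul, norm_pow, hl1, one_pow, hw₀n, one_mul]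
  have hll : (starRingEnd ℂ) l * l = 1 := by
    rw [mul_comm, Complex.mul_conj, Complex.normSq_eq_norm_sq, hl1]; simp
  have hu'w : inner ℂ u' w = (c : ℂ) := by
    rw [hu', hw, inner_smul_left, inner_smul_right, ← hl, ← hc₀]
    have : l ^ m = l * l ^ (m - 1) := by rw [← pow_succ']; congr 1; omega
    rw [this, ← mul_assoc, ← mul_assoc, hll, one_mul]
  -- parameters
  set Y : ℝ := (m : ℝ) / (m + 1) with hY
  have hm' : (2 : ℝ) ≤ m := by exact_mod_cast hm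
  have hY23 : 2 / 3 ≤ Y := by
    rw [hY, div_le_div_iff₀ (by norm_num) (by linarith)]; linarith
  have hY1 : Y < 1 := by
    rw [hY, div_lt_one (by linarith)]; linarith
  have hY0 : 0 < Y := by linarith
  set t : ℝ := c ^ 2 with ht
  have ht0 : 0 ≤ t := by positivity
  have ht1 : t ≤ 1 := by rw [ht]; nlinarith
  have hD : 0 < 1 - t * Y := by nlinarith
  set X : ℝ := (1 - Y) / (1 - t * Y) with hX
  have hX0 : 0 < X := div_pos (by linarith) hD
  have hX1 : X ≤ 1 := by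
    rw [hX, div_le_one hD]; nlinarith
  have hXD : X * (1 - t * Y) = 1 - Y := by
    rw [hX, div_mul_cancel₀ _ hD.ne']
  have hXY : X + Y = 1 + t * X * Y := by linarith
  set x : ℝ := Real.sqrt X with hx
  set y : ℝ := Real.sqrt Y with hy
  have hx2 : x ^ 2 = X := Real.sq_sqrt hX0.le
  have hy2 : y ^ 2 = Y := Real.sq_sqrt hY0.le
  have hx0 : 0 < x := Real.sqrt_pos.2 hX0
  have hy0 : 0 < y := Real.sqrt_pos.2 hY0
  have hy1 : y ≤ 1 := by
    rw [hy, Real.sqrt_le_one]; exact hY1.le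
  set ρ : ℝ := x * y * c with hρ
  have hρ0 : 0 ≤ ρ := by positivity
  have hρ2 : ρ ^ 2 = t * X * Y := by
    rw [hρ, mul_pow, mul_pow, hx2, hy2, ht]; ring
  have hρ1 : ρ < 1 := by
    have h5 : ρ ^ 2 < 1 := by
      rw [hρ2]
      calc t * X * Y ≤ 1 * 1 * Y := by gcongr
        _ < 1 := by linarith
    nlinarith
  have e1 : x ^ 2 + y ^ 2 = 1 + ρ ^ 2 := by rw [hx2, hy2, hρ2]; exact hXY
  -- dilations of `h`
  have hr : ∀ r : ℝ, 0 < r → r < 1 → x * y ^ m * (r ^ (m - 1) * ‖P‖) ≤ 1 + ρ ^ 2 := by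
    intro r hr0 hr1
    have hrc : (r : ℂ) ≠ 0 := by exact_mod_cast hr0.ne'
    set g : E → E := fun z => ((r : ℂ)⁻¹) • h ((r : ℂ) • z) with hg
    have hmap : ∀ z ∈ ball (0 : E) (r⁻¹), (r : ℂ) • z ∈ ball (0 : E) 1 := by
      intro z hz
      rw [mem_ball_zero_iff] at *
      rw [norm_smul, Complex.norm_real, Real.norm_of_nonneg hr0.le]
      calc r * ‖z‖ < r * r⁻¹ := by gcongr
        _ = 1 := mul_inv_cancel₀ hr0.ne'
    have hgd : DifferentiableOn ℂ g (ball 0 (r⁻¹)) := by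
      intro z hz
      have h2 : DifferentiableAt ℂ h ((r : ℂ) • z) :=
        hd.differentiableAt (isOpen_ball.mem_nhds (hmap z hz))
      have h3 : DifferentiableAt ℂ (fun z : E => (r : ℂ) • z) z := by fun_prop
      exact ((h2.comp z h3).const_smul ((r : ℂ)⁻¹)).differentiableWithinAt
    have hg0 : g 0 = 0 := by simp [hg, h0]
    have hg1 : fderiv ℂ g 0 = ContinuousLinearMap.id ℂ E := by
      have h2 : HasFDerivAt h (ContinuousLinearMap.id ℂ E) ((r : ℂ) • (0 : E)) := by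
        rw [smul_zero, ← h1]
        exact (hd.differentiableAt (ball_mem_nhds _ one_pos)).hasFDerivAt
      have h3 : HasFDerivAt (fun z : E => (r : ℂ) • z) ((r : ℂ) • ContinuousLinearMap.id ℂ E) 0 :=
        (hasFDerivAt_id (0 : E)).const_smul (r : ℂ)
      have h4 := (h2.comp (0 : E) h3).const_smul ((r : ℂ)⁻¹)
      rw [show g = (r : ℂ)⁻¹ • (h ∘ fun z : E => (r : ℂ) • z) from rfl, h4.fderiv]
      ext z
      simp only [Complex.coe_smul, FunLike.coe_smul, Pi.smul_apply,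
        ContinuousLinearMap.comp_apply, ContinuousLinearMap.id_apply]
      have e6 : (r : ℂ)⁻¹ • (r : ℂ) • z = z := by
        rw [smul_smul, inv_mul_cancel₀ hrc, one_smul]
      simpa using e6
    have hgpos : ∀ z, ‖z‖ ≤ 1 → 0 ≤ (inner ℂ z (g z)).re := by
      intro z hz
      have hzb : z ∈ ball (0 : E) (r⁻¹) := by
        rw [mem_ball_zero_iff]
        exact hz.trans_lt ((one_lt_inv₀ hr0).2 hr1)
      have h2 := hpos _ (hmap z hzb)
      have h3 : inner ℂ z (g z) = ((r⁻¹ * r⁻¹ : ℝ) : ℂ) * inner ℂ ((r : ℂ) • z) (h ((r : ℂ) • z)) := by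
        rw [hg, inner_smul_right, inner_smul_left, Complex.conj_ofReal]
        push_cast
        field_simp
      rw [h3, Complex.re_ofReal_mul]
      positivity
    have key := key_ineq (R₁ := r⁻¹) ((one_lt_inv₀ hr0).2 hr1) hgd hg0 hg1 hgpos hm hu'n hwn hu'w
      hy0.le hy1 hρ0 hρ1 e1 rfl
    have hs1 : DifferentiableOn ℂ (fun t : ℂ => h (t • u)) (ball 0 1) := by
      intro ζ hζ
      have hζ' : ‖ζ‖ < 1 := by simpa using hζ
      have h2 : ζ • u ∈ ball (0 : E) 1 := by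
        rw [mem_ball_zero_iff, norm_smul, hu, mul_one]
        linarith
      have h3 : DifferentiableAt ℂ (fun ζ : ℂ => ζ • u) ζ := by fun_prop
      exact ((hd.differentiableAt (isOpen_ball.mem_nhds h2)).comp ζ h3).differentiableWithinAt
    have htc : tc m (fun t : ℂ => g (t • u')) = ((r : ℂ)⁻¹ * (r * l) ^ m) • P := by
      have h5 : (fun t : ℂ => g (t • u')) =
          fun t : ℂ => ((r : ℂ)⁻¹) • (fun s : ℂ => h (s • u)) (t • ((r : ℂ) * l)) := by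
        ext1 t
        simp only [hg, hu', smul_smul, smul_eq_mul]
        congr 3
        ring
      have h6 := tc_comp_smul one_pos hs1 m ((r : ℂ) * l)
      have h7 : DifferentiableOn ℂ (fun t : ℂ => (fun s : ℂ => h (s • u)) (t • ((r : ℂ) * l)))
          (ball 0 1) := by
        intro ζ hζ
        have hζ' : ‖ζ‖ < 1 := by simpa using hζ
        have h2 : ζ • ((r : ℂ) * l) ∈ ball (0 : ℂ) 1 := by
          rw [mem_ball_zero_iff, norm_smul, norm_mul, hl1, mul_one, Complex.norm_real,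
            Real.norm_of_nonneg hr0.le]
          nlinarith [norm_nonneg ζ]
        have h3 : DifferentiableAt ℂ (fun ζ : ℂ => ζ • ((r : ℂ) * l)) ζ := by fun_prop
        exact ((hs1.differentiableAt (isOpen_ball.mem_nhds h2)).comp ζ h3).differentiableWithinAt
      have h8 := tc_clm ((r : ℂ)⁻¹ • ContinuousLinearMap.id ℂ E) m (contDiffAt_of_ball one_pos h7 m)
      rw [h5]
      simp only [FunLike.coe_smul, Pi.smul_apply, ContinuousLinearMap.id_apply] at h8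
      rw [h8, h6, smul_smul]
    rw [htc, inner_smul_right] at key
    have hinner : inner ℂ w P = (starRingEnd ℂ) (l ^ m) * ‖P‖ := by
      rw [hw, inner_smul_left, hw₀, inner_smul_left, inner_self_eq_norm_sq_to_K, map_inv₀,
        Complex.conj_ofReal]
      have : (‖P‖ : ℂ) ≠ 0 := by exact_mod_cast hp.ne'
      simp only [Complex.coe_algebraMap]
      field_simp
    have h9 : (r : ℂ)⁻¹ * (r * l) ^ m * inner ℂ w P = ((r ^ (m - 1) * ‖P‖ : ℝ) : ℂ) := by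
      rw [hinner, map_pow, mul_pow]
      have h10 : l ^ m * (starRingEnd ℂ) l ^ m = 1 := by
        rw [← mul_pow, mul_comm, hll, one_pow]
      have h11 : (r : ℂ) ^ m = r * r ^ (m - 1) := by rw [← pow_succ']; congr 1; omega
      calc (r : ℂ)⁻¹ * (r ^ m * l ^ m) * ((starRingEnd ℂ) l ^ m * ‖P‖)
          = (r : ℂ)⁻¹ * r ^ m * (l ^ m * (starRingEnd ℂ) l ^ m) * ‖P‖ := by ring
        _ = ((r ^ (m - 1) * ‖P‖ : ℝ) : ℂ) := by
          rw [h10, h11]; push_cast; field_simp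
    rw [h9, Complex.ofReal_re] at key
    exact key
  have hlim : x * y ^ m * ‖P‖ ≤ 1 + ρ ^ 2 := by
    have hl2 : Tendsto (fun r : ℝ => x * y ^ m * (r ^ (m - 1) * ‖P‖)) (𝓝[<] 1)
        (𝓝 (x * y ^ m * ((1 : ℝ) ^ (m - 1) * ‖P‖))) := by
      apply Tendsto.mono_left _ nhdsWithin_le_nhds
      apply Continuous.tendsto
      fun_prop
    rw [one_pow, one_mul] at hl2
    refine le_of_tendsto hl2 ?_
    filter_upwards [Ioo_mem_nhdsLT (zero_lt_one (α := ℝ))] with r hr'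
    exact hr r hr'.1 hr'.2
  -- conclusion
  have h12 : (x * y ^ m * ‖P‖) ^ 2 ≤ (1 + ρ ^ 2) ^ 2 := by
    have : 0 ≤ x * y ^ m * ‖P‖ := by positivity
    gcongr
  have h13 : X * Y ^ m * ‖P‖ ^ 2 ≤ (X + Y) ^ 2 := by
    have e3 : (x * y ^ m * ‖P‖) ^ 2 = X * Y ^ m * ‖P‖ ^ 2 := by
      rw [← hx2, ← hy2]; ring
    rw [e3] at h12
    rw [hXY, ← hρ2]
    exact h12
  have h14 := param_ineq hY23 hY1 ht0 ht1
  rw [← hX] at h14
  have h15 : Y ^ m * (1 - Y) * ‖P‖ ^ 2 ≤ 1 := by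
    have h16 : X * (Y ^ m * (1 - Y) * ‖P‖ ^ 2) ≤ X * 1 := by
      calc X * (Y ^ m * (1 - Y) * ‖P‖ ^ 2) = (X * Y ^ m * ‖P‖ ^ 2) * (1 - Y) := by ring
        _ ≤ (X + Y) ^ 2 * (1 - Y) := by
            apply mul_le_mul_of_nonneg_right h13; linarith
        _ ≤ X * 1 := by rw [mul_one]; exact h14
    exact le_of_mul_le_mul_left h16 hX0
  apply Real.le_sqrt_of_sq_le
  have hmp : (0 : ℝ) < m := by linarith
  have e4 : Y ^ m * (1 - Y) = (m : ℝ) ^ m / ((m : ℝ) + 1) ^ (m + 1) := by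
    rw [hY, div_pow, pow_succ]
    field_simp
    ring
  rw [e4] at h15
  rw [le_div_iff₀ (by positivity)]
  rw [div_mul_eq_mul_div, div_le_one (by positivity)] at h15
  linarith

end Disc

end Pool.Agent.Helper540
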