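import Mathlib

set_option autoImplicit false

namespace Pool.Agent.Helper540

open Metric Set Filter Topology

theorem re_nonneg_center {G : ℂ → ℂ} (hG : ∀ ζ ∈ closedBall (0 : ℂ) 1, DifferentiableAt ℂ G ζ)
    (h : ∀ ζ : ℂ, ‖ζ‖ = 1 → 0 ≤ (G ζ).re) : 0 ≤ (G 0).re := by
  have h1 : DiffContOnCl ℂ (fun ζ => Complex.exp (-G ζ)) (ball 0 1) := by
    have h' : ∀ ζ ∈ closedBall (0 : ℂ) 1,
        DifferentiableAt ℂ (fun ζ => Complex.exp (-G ζ)) ζ := fun ζ hζ => (hG ζ hζ).neg.cexp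
    refine ⟨fun ζ hζ => (h' ζ (ball_subset_closedBall hζ)).differentiableWithinAt, ?_⟩
    rw [closure_ball _ one_ne_zero]
    exact fun ζ hζ => (h' ζ hζ).continuousAt.continuousWithinAt
  have h2 : ∀ ζ ∈ frontier (ball (0 : ℂ) 1), ‖Complex.exp (-G ζ)‖ ≤ 1 := by
    intro ζ hζ
    rw [frontier_ball _ one_ne_zero] at hζ
    have h' := h ζ (by simpa using hζ)
    rw [Complex.norm_exp, Real.exp_le_one_iff]
    simpa using h'
  have h3 := Complex.norm_le_of_forall_mem_frontier_norm_le isBounded_ball h1 h2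
    (subset_closure (mem_ball_self one_pos))
  rw [Complex.norm_exp, Real.exp_le_one_iff] at h3
  simpa using h3

theorem dslope_diff {f : ℂ → ℂ} (hf : ∀ ζ ∈ closedBall (0 : ℂ) 1, DifferentiableAt ℂ f ζ) {c : ℂ}
    (hc : c ∈ ball (0 : ℂ) 1) :
    ∀ ζ ∈ closedBall (0 : ℂ) 1, DifferentiableAt ℂ (dslope f c) ζ := by
  intro ζ hζ
  by_cases h : ζ = c
  · subst h
    have h1 : DifferentiableOn ℂ f (ball 0 1) :=
      fun z hz => (hf z (ball_subset_closedBall hz)).differentiableWithinAt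
    have h2 := (Complex.differentiableOn_dslope (isOpen_ball.mem_nhds hc)).2 h1
    exact h2.differentiableAt (isOpen_ball.mem_nhds hc)
  · exact (differentiableAt_dslope_of_ne h).2 (hf ζ hζ)

section Cert

variable {E : Type*} [NormedAddCommGroup E] [InnerProductSpace ℂ E]

theorem normSq_X {s : ℝ} (ζ : ℂ) :
    ‖1 - (s : ℂ) * ζ‖ ^ 2 - ‖(s : ℂ) - ζ‖ ^ 2 = (1 - s ^ 2) * (1 - ‖ζ‖ ^ 2) := by
  rw [← Complex.normSq_eq_norm_sq, ← Complex.normSq_eq_norm_sq, ← Complex.normSq_eq_norm_sq,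
    Complex.normSq_apply, Complex.normSq_apply, Complex.normSq_apply]
  simp
  ring

theorem norm_pair {e y : E} (he : ‖e‖ = 1) (hey : inner ℂ e y = 0) (a b : ℂ) :
    ‖a • e + b • y‖ ^ 2 = ‖a‖ ^ 2 + ‖b‖ ^ 2 * ‖y‖ ^ 2 := by
  rw [@norm_add_sq ℂ, inner_smul_left, inner_smul_right, hey, norm_smul, norm_smul, he]
  simp
  ring

/-- The certificate inequality for maps holomorphic on a neighbourhood of the closed ball. -/
theorem cert_closed {g : E → E} {R₁ : ℝ} (hR : 1 < R₁) (hd : DifferentiableOn ℂ g (ball 0 R₁))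
    (h0 : g 0 = 0) (h1 : fderiv ℂ g 0 = ContinuousLinearMap.id ℂ E)
    (hpos : ∀ z, ‖z‖ ≤ 1 → 0 ≤ (inner ℂ z (g z)).re) {e y : E} (he : ‖e‖ = 1)
    (hey : inner ℂ e y = 0) {ν : ℂ} (hνy : ‖ν‖ ^ 2 + ‖y‖ ^ 2 ≤ 1) {s ρ τ : ℝ} (hs : 0 < s)
    (hs1 : s < 1) (hρ : 0 ≤ ρ) (hρτ : ρ ^ 2 + τ ^ 2 = 1) (hρν : ρ * ‖ν‖ < 1) :
    (1 - s ^ 2) * (inner ℂ (ν • e + (τ : ℂ) • y) (g (((s * ρ : ℝ) : ℂ) • e))).re ≤
      s ^ 2 + (s * ρ) * (1 + s ^ 2) * ν.re + (s * ρ) ^ 2 * ‖ν‖ ^ 2 := by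
  set U : E := ν • e + (τ : ℂ) • y with hU
  set q : ℂ → ℂ := fun ζ => (1 - s * ζ) + ρ * ν * (s - ζ) with hq
  set A : ℂ → E := fun ζ => ((1 - s * ζ) * ρ) • e + (s - ζ) • U with hA
  set zz : ℂ → E := fun ζ => (ζ / q ζ) • A ζ with hzz
  have hsc : (s : ℂ) ≠ 0 := by exact_mod_cast hs.ne'
  have hee : inner ℂ e e = (1 : ℂ) := by rw [inner_self_eq_norm_sq_to_K, he]; norm_num
  have hye : inner ℂ y e = (0 : ℂ) := by rw [← inner_conj_symm, hey, map_zero]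
  have heU : inner ℂ e U = ν := by
    rw [hU, inner_add_right, inner_smul_right, inner_smul_right, hee, hey]; ring
  have hUe : inner ℂ U e = (starRingEnd ℂ) ν := by rw [← inner_conj_symm, heU]
  have hUn : ‖U‖ ^ 2 = ‖ν‖ ^ 2 + τ ^ 2 * ‖y‖ ^ 2 := by
    rw [hU, norm_pair he hey]
    simp
  have hAe : ∀ ζ, A ζ = ((1 - s * ζ) * ρ + (s - ζ) * ν) • e + ((s - ζ) * τ) • y := by
    intro ζ
    simp only [hA, hU]
    module
  have hX : ∀ ζ : ℂ, ‖ζ‖ ≤ 1 → ‖(s : ℂ) - ζ‖ ≤ ‖1 - (s : ℂ) * ζ‖ := by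
    intro ζ hζ
    have h2 := normSq_X (s := s) ζ
    have h3 : 0 ≤ (1 - s ^ 2) * (1 - ‖ζ‖ ^ 2) := by
      apply mul_nonneg
      · nlinarith
      · nlinarith [norm_nonneg ζ]
    have h4 : ‖(s : ℂ) - ζ‖ ^ 2 ≤ ‖1 - (s : ℂ) * ζ‖ ^ 2 := by linarith
    exact (pow_le_pow_iff_left₀ (norm_nonneg _) (norm_nonneg _) two_ne_zero).1 h4
  have hX0 : ∀ ζ : ℂ, ‖ζ‖ ≤ 1 → (1 - (s : ℂ) * ζ) ≠ 0 := by
    intro ζ hζ h
    have h2 : (s : ℂ) * ζ = 1 := by linear_combination -h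
    have h3 : ‖(s : ℂ) * ζ‖ = 1 := by rw [h2, norm_one]
    rw [norm_mul, Complex.norm_real, Real.norm_of_nonneg hs.le] at h3
    nlinarith [norm_nonneg ζ]
  have hq0 : ∀ ζ : ℂ, ‖ζ‖ ≤ 1 → q ζ ≠ 0 := by
    intro ζ hζ h
    have h2 : (1 - (s : ℂ) * ζ) = -(ρ * ν * (s - ζ)) := by
      simp only [hq] at h
      linear_combination h
    have h3 : ‖1 - (s : ℂ) * ζ‖ = ρ * ‖ν‖ * ‖(s : ℂ) - ζ‖ := by
      rw [h2, norm_neg, norm_mul, norm_mul, Complex.norm_real, Real.norm_of_nonneg hρ]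
    have h4 := hX ζ hζ
    have h5 : 0 < ‖1 - (s : ℂ) * ζ‖ := norm_pos_iff.2 (hX0 ζ hζ)
    have h6 : 0 ≤ ρ * ‖ν‖ := by positivity
    nlinarith [norm_nonneg ((s : ℂ) - ζ)]
  have hAq : ∀ ζ : ℂ, ‖ζ‖ ≤ 1 → ‖A ζ‖ ≤ ‖q ζ‖ := by
    intro ζ hζ
    have h2 : ‖A ζ‖ ^ 2 = ‖(1 - s * ζ) * ρ + (s - ζ) * ν‖ ^ 2
        + ‖(s : ℂ) - ζ‖ ^ 2 * τ ^ 2 * ‖y‖ ^ 2 := by
      rw [hAe, norm_pair he hey, norm_mul, Complex.norm_real, mul_pow, Real.norm_eq_abs, sq_abs]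
    have h3 : ‖q ζ‖ ^ 2 - ‖(1 - s * ζ) * ρ + (s - ζ) * ν‖ ^ 2 =
        (1 - ρ ^ 2) * (‖1 - (s : ℂ) * ζ‖ ^ 2 - ‖ν‖ ^ 2 * ‖(s : ℂ) - ζ‖ ^ 2) := by
      simp only [hq]
      generalize (1 - (s : ℂ) * ζ) = X
      generalize ((s : ℂ) - ζ) = Z
      rw [← Complex.normSq_eq_norm_sq, ← Complex.normSq_eq_norm_sq, ← Complex.normSq_eq_norm_sq,
        ← Complex.normSq_eq_norm_sq, ← Complex.normSq_eq_norm_sq,
        Complex.normSq_apply, Complex.normSq_apply, Complex.normSq_apply, Complex.normSq_apply,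
        Complex.normSq_apply]
      simp
      ring
    have h4 := hX ζ hζ
    have h5 : ‖(s : ℂ) - ζ‖ ^ 2 ≤ ‖1 - (s : ℂ) * ζ‖ ^ 2 :=
      pow_le_pow_left₀ (norm_nonneg _) h4 2
    have h6 : ‖A ζ‖ ^ 2 ≤ ‖q ζ‖ ^ 2 := by
      have h7 : ‖q ζ‖ ^ 2 - ‖A ζ‖ ^ 2 = τ ^ 2 *
          ((‖1 - (s : ℂ) * ζ‖ ^ 2 - ‖(s : ℂ) - ζ‖ ^ 2) +
            ‖(s : ℂ) - ζ‖ ^ 2 * (1 - (‖ν‖ ^ 2 + ‖y‖ ^ 2))) := by
        rw [h2]
        have h8 : 1 - ρ ^ 2 = τ ^ 2 := by linarith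
        rw [h8] at h3
        linear_combination h3
      have h9 : 0 ≤ ‖q ζ‖ ^ 2 - ‖A ζ‖ ^ 2 := by
        rw [h7]
        apply mul_nonneg (sq_nonneg _)
        apply add_nonneg (by linarith)
        exact mul_nonneg (sq_nonneg _) (by linarith)
      linarith
    exact (pow_le_pow_iff_left₀ (norm_nonneg _) (norm_nonneg _) two_ne_zero).1 h6
  have hzn : ∀ ζ : ℂ, ‖ζ‖ ≤ 1 → ‖zz ζ‖ ≤ 1 := by
    intro ζ hζ
    simp only [hzz]
    rw [norm_smul, norm_div]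
    have h2 : 0 < ‖q ζ‖ := norm_pos_iff.2 (hq0 ζ hζ)
    rw [div_mul_eq_mul_div, div_le_one h2]
    calc ‖ζ‖ * ‖A ζ‖ ≤ 1 * ‖q ζ‖ := mul_le_mul hζ (hAq ζ hζ) (norm_nonneg _) zero_le_one
      _ = ‖q ζ‖ := one_mul _
  have hqd : ∀ ζ, DifferentiableAt ℂ q ζ := by
    intro ζ
    simp only [hq]
    fun_prop
  have hAd : ∀ ζ, DifferentiableAt ℂ A ζ := by
    intro ζ
    simp only [hA]
    fun_prop
  have hzd : ∀ ζ ∈ closedBall (0 : ℂ) 1, DifferentiableAt ℂ zz ζ := by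
    intro ζ hζ
    have h2 := hq0 ζ (by simpa using hζ)
    exact (differentiableAt_id.div (hqd ζ) h2).smul (hAd ζ)
  have hgd : ∀ ζ ∈ closedBall (0 : ℂ) 1, DifferentiableAt ℂ (fun ζ => g (zz ζ)) ζ := by
    intro ζ hζ
    have h2 : zz ζ ∈ ball (0 : E) R₁ := by
      rw [mem_ball_zero_iff]
      exact (hzn ζ (by simpa using hζ)).trans_lt hR
    exact (hd.differentiableAt (isOpen_ball.mem_nhds h2)).comp ζ (hzd ζ hζ)
  set aF : ℂ → ℂ := fun ζ => inner ℂ e (g (zz ζ)) with haF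
  set bF : ℂ → ℂ := fun ζ => inner ℂ U (g (zz ζ)) with hbF
  have haD : ∀ ζ ∈ closedBall (0 : ℂ) 1, DifferentiableAt ℂ aF ζ := fun ζ hζ =>
    ((innerSL ℂ e).differentiableAt).comp ζ (hgd ζ hζ)
  have hbD : ∀ ζ ∈ closedBall (0 : ℂ) 1, DifferentiableAt ℂ bF ζ := fun ζ hζ =>
    ((innerSL ℂ U).differentiableAt).comp ζ (hgd ζ hζ)
  have hzz0 : zz 0 = 0 := by simp [hzz]
  have haF0 : aF 0 = 0 := by simp [haF, hzz0, h0]
  have hbF0 : bF 0 = 0 := by simp [hbF, hzz0, h0]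
  have hq00 : q 0 ≠ 0 := hq0 0 (by simp)
  have hzder : HasDerivAt zz ((q 0)⁻¹ • A 0) 0 := by
    have h2 : HasDerivAt (fun ζ : ℂ => ζ / q ζ) ((q 0)⁻¹) 0 := by
      have h3 := (hasDerivAt_id (0 : ℂ)).div (hqd 0).hasDerivAt hq00
      refine h3.congr_deriv ?_
      rw [id, zero_mul, sub_zero, one_mul]
      field_simp
    have h3 := h2.smul (hAd 0).hasDerivAt
    refine h3.congr_deriv ?_
    rw [zero_div, zero_smul, zero_add]
  have hgder : HasDerivAt (fun ζ => g (zz ζ)) ((q 0)⁻¹ • A 0) 0 := by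
    have h2 : HasFDerivAt g (ContinuousLinearMap.id ℂ E) (zz 0) := by
      rw [hzz0, ← h1]
      exact (hd.differentiableAt (isOpen_ball.mem_nhds (mem_ball_self (by linarith)))).hasFDerivAt
    have h3 := h2.comp_hasDerivAt 0 hzder
    simpa [Function.comp_def] using h3
  have hUU : inner ℂ U U = ((‖U‖ ^ 2 : ℝ) : ℂ) := by
    rw [inner_self_eq_norm_sq_to_K]
    simp
  have hader : deriv aF 0 = (q 0)⁻¹ * (ρ + s * ν) := by
    have h2 : HasDerivAt aF (inner ℂ e ((q 0)⁻¹ • A 0)) 0 :=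
      ((innerSL ℂ e).hasFDerivAt).comp_hasDerivAt 0 hgder
    rw [h2.deriv, inner_smul_right]
    congr 1
    simp only [hA]
    rw [inner_add_right, inner_smul_right, inner_smul_right, hee, heU]
    ring
  have hbder : deriv bF 0 = (q 0)⁻¹ * (ρ * (starRingEnd ℂ) ν + s * (‖U‖ ^ 2 : ℝ)) := by
    have h2 : HasDerivAt bF (inner ℂ U ((q 0)⁻¹ • A 0)) 0 :=
      ((innerSL ℂ U).hasFDerivAt).comp_hasDerivAt 0 hgder
    rw [h2.deriv, inner_smul_right]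
    congr 1
    simp only [hA]
    rw [inner_add_right, inner_smul_right, inner_smul_right, hUe, hUU]
    ring
  have hsb : (s : ℂ) ∈ ball (0 : ℂ) 1 := by
    rw [mem_ball_zero_iff, Complex.norm_real, Real.norm_of_nonneg hs.le]; exact hs1
  have hsn : ‖(s : ℂ)‖ ≤ 1 := by
    rw [Complex.norm_real, Real.norm_of_nonneg hs.le]; exact hs1.le
  have h1s : (1 - (s : ℂ) * s) ≠ 0 := hX0 _ hsn
  have h1s2 : (1 - (s : ℂ) ^ 2) ≠ 0 := by rw [sq]; exact h1s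
  have hzs : zz s = ((s * ρ : ℝ) : ℂ) • e := by
    simp only [hzz, hA, hq]
    rw [sub_self, zero_smul, mul_zero, add_zero, add_zero, smul_smul]
    congr 1
    push_cast
    field_simp
  set c : ℂ := bF s / s with hc
  set N : ℂ → ℂ := fun ζ => q ζ * dslope bF 0 ζ - c * (1 - s * ζ) with hN
  have hdb0 := dslope_diff hbD (mem_ball_self (x := (0 : ℂ)) one_pos)
  have hda0 := dslope_diff haD (mem_ball_self (x := (0 : ℂ)) one_pos)
  have hND : ∀ ζ ∈ closedBall (0 : ℂ) 1, DifferentiableAt ℂ N ζ := by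
    intro ζ hζ
    simp only [hN]
    exact ((hqd ζ).mul (hdb0 ζ hζ)).sub (by fun_prop)
  have hdN := dslope_diff hND hsb
  have hds : ∀ (f : ℂ → ℂ) (a b : ℂ), b ≠ a → dslope f a b = (f b - f a) / (b - a) := by
    intro f a b hab
    rw [dslope_of_ne f hab, slope_def_field]
  have hNs : N s = 0 := by
    simp only [hN]
    rw [hds bF 0 s hsc, hbF0, hc]
    simp only [hq]
    field_simp
    ring
  set Θ : ℂ → ℂ := fun ζ => ρ * q ζ * dslope aF 0 ζ / (1 - s * ζ) - dslope N s ζ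
    + (starRingEnd ℂ) c * (s - ζ) / (1 - s * ζ) with hΘ
  have hΘD : ∀ ζ ∈ closedBall (0 : ℂ) 1, DifferentiableAt ℂ Θ ζ := by
    intro ζ hζ
    have h2 := hX0 ζ (by simpa using hζ)
    simp only [hΘ]
    refine DifferentiableAt.add (DifferentiableAt.sub ?_ (hdN ζ hζ)) ?_
    · exact (((hqd ζ).const_mul _).mul (hda0 ζ hζ)).div (by fun_prop) h2
    · exact DifferentiableAt.div (by fun_prop) (by fun_prop) h2
  have hΘpos : ∀ ζ : ℂ, ‖ζ‖ = 1 → 0 ≤ (Θ ζ).re := by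
    intro ζ hζ
    have hζ0 : ζ ≠ 0 := by
      intro h; rw [h, norm_zero] at hζ; exact zero_ne_one hζ
    have hζs : ζ ≠ s := by
      intro h; rw [h, Complex.norm_real, Real.norm_of_nonneg hs.le] at hζ; linarith
    have hX1 := hX0 ζ hζ.le
    have hq1 := hq0 ζ hζ.le
    have hZ1 : (s : ℂ) - ζ ≠ 0 := sub_ne_zero.2 hζs.symm
    have hZ2 : ζ - (s : ℂ) ≠ 0 := sub_ne_zero.2 hζs
    have hcc : ζ * (starRingEnd ℂ) ζ = 1 := by
      rw [Complex.mul_conj, Complex.normSq_eq_norm_sq, hζ]; norm_num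
    -- the value of Theta
    have e1 : Θ ζ = (ρ * q ζ * aF ζ / (ζ * (1 - s * ζ)) + q ζ * bF ζ / (ζ * (s - ζ)))
        + (-(c * ((1 - s * ζ) / (s - ζ))) + (starRingEnd ℂ) c * ((s - ζ) / (1 - s * ζ))) := by
      simp only [hΘ]
      rw [hds aF 0 ζ hζ0, hds N s ζ hζs, hNs, haF0]
      simp only [hN]
      rw [hds bF 0 ζ hζ0, hbF0]
      have h5 : ζ - (s : ℂ) = -(s - ζ) := by ring
      rw [h5]
      generalize (1 - (s : ℂ) * ζ) = X at hX1 ⊢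
      generalize ((s : ℂ) - ζ) = Z at hZ1 ⊢
      generalize q ζ = q'
      field_simp
      ring
    have e2 : (1 - (s : ℂ) * ζ) / (s - ζ) = (starRingEnd ℂ) (((s : ℂ) - ζ) / (1 - s * ζ)) := by
      have h7 : (starRingEnd ℂ) (1 - (s : ℂ) * ζ) ≠ 0 := (map_ne_zero _).2 hX1
      rw [map_div₀, div_eq_div_iff hZ1 h7]
      simp only [map_sub, map_mul, map_one, Complex.conj_ofReal]
      linear_combination ((s : ℂ) ^ 2 - 1) * hcc
    have e3 : (-(c * ((1 - s * ζ) / (s - ζ))) +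
        (starRingEnd ℂ) c * (((s : ℂ) - ζ) / (1 - s * ζ))).re = 0 := by
      rw [e2]
      have h8 : (starRingEnd ℂ) c * (((s : ℂ) - ζ) / (1 - s * ζ)) =
          (starRingEnd ℂ) (c * (starRingEnd ℂ) (((s : ℂ) - ζ) / (1 - s * ζ))) := by
        rw [map_mul, Complex.conj_conj]
      rw [h8]
      generalize c * (starRingEnd ℂ) (((s : ℂ) - ζ) / (1 - s * ζ)) = w
      simp
    have e4 : (ρ * q ζ * aF ζ / (ζ * (1 - s * ζ)) + q ζ * bF ζ / (ζ * (s - ζ))) =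
        ((‖q ζ‖ ^ 2 / ‖1 - (s : ℂ) * ζ‖ ^ 2 : ℝ) : ℂ) * inner ℂ (zz ζ) (g (zz ζ)) := by
      have h9 : inner ℂ (zz ζ) (g (zz ζ)) = (starRingEnd ℂ) (ζ / q ζ) *
          ((starRingEnd ℂ) ((1 - s * ζ) * ρ) * aF ζ + (starRingEnd ℂ) (s - ζ) * bF ζ) := by
        have h10 : inner ℂ (zz ζ) (g (zz ζ)) =
            inner ℂ ((ζ / q ζ) • A ζ) (g (zz ζ)) := rfl
        rw [h10, inner_smul_left]
        congr 1
        simp only [hA]
        rw [inner_add_left, inner_smul_left, inner_smul_left]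
      rw [h9]
      have h11 : ((‖q ζ‖ ^ 2 / ‖1 - (s : ℂ) * ζ‖ ^ 2 : ℝ) : ℂ) =
          (q ζ * (starRingEnd ℂ) (q ζ)) / ((1 - s * ζ) * (starRingEnd ℂ) (1 - s * ζ)) := by
        rw [Complex.mul_conj, Complex.mul_conj, Complex.normSq_eq_norm_sq,
          Complex.normSq_eq_norm_sq]
        push_cast
        ring
      rw [h11]
      have h12 : (starRingEnd ℂ) (q ζ) ≠ 0 := (map_ne_zero _).2 hq1
      have h13 : (starRingEnd ℂ) (1 - (s : ℂ) * ζ) ≠ 0 := (map_ne_zero _).2 hX1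
      have h14 : (1 - (s : ℂ) * ζ) * (starRingEnd ℂ) (1 - (s : ℂ) * ζ) =
          (s - ζ) * (starRingEnd ℂ) ((s : ℂ) - ζ) := by
        simp only [map_sub, map_mul, map_one, Complex.conj_ofReal]
        linear_combination ((s : ℂ) ^ 2 - 1) * hcc
      rw [map_mul, map_div₀, Complex.conj_ofReal]
      have h15 : (starRingEnd ℂ) ζ = ζ⁻¹ := by
        field_simp
        linear_combination hcc
      rw [h15]
      generalize (starRingEnd ℂ) (q ζ) = qc at h12 ⊢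
      generalize q ζ = q' at hq1 ⊢
      generalize (starRingEnd ℂ) (1 - (s : ℂ) * ζ) = Xc at h13 h14 ⊢
      generalize (starRingEnd ℂ) ((s : ℂ) - ζ) = Zc at h14 ⊢
      generalize (1 - (s : ℂ) * ζ) = X at hX1 h14 ⊢
      generalize ((s : ℂ) - ζ) = Z at hZ1 h14 ⊢
      generalize aF ζ = a'
      generalize bF ζ = b'
      field_simp
      linear_combination b' * h14
    rw [e1, Complex.add_re, e3, add_zero, e4, Complex.re_ofReal_mul]
    exact mul_nonneg (by positivity) (hpos _ (hzn ζ hζ.le))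
  have hfin := re_nonneg_center hΘD hΘpos
  have hΘ0 : Θ 0 = ρ * (ρ + s * ν) + (ρ * (starRingEnd ℂ) ν + s * (‖U‖ ^ 2 : ℝ) - c) / s
      + (starRingEnd ℂ) c * s := by
    simp only [hΘ]
    rw [dslope_same, hader, hds N s 0 hsc.symm, hNs]
    simp only [hN]
    rw [dslope_same, hbder]
    have h5 : (0 : ℂ) - s = -s := by ring
    rw [h5]
    field_simp
    ring
  have hc' : c = inner ℂ U (g (((s * ρ : ℝ) : ℂ) • e)) / s := by
    rw [hc]
    simp only [hbF]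
    rw [hzs]
  set I : ℝ := (inner ℂ U (g (((s * ρ : ℝ) : ℂ) • e))).re with hI
  have hcre : c.re = I / s := by
    rw [hc', Complex.div_ofReal_re]
  have hre : (Θ 0).re = ρ * (ρ + s * ν.re) + (ρ * ν.re + s * ‖U‖ ^ 2 - I / s) / s
      + I / s * s := by
    rw [hΘ0]
    simp only [Complex.add_re, Complex.sub_re, Complex.re_ofReal_mul, Complex.div_ofReal_re,
      Complex.re_mul_ofReal, Complex.conj_re, Complex.ofReal_re, hcre]
  rw [hre] at hfin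
  have h20 : ρ * (ρ + s * ν.re) + (ρ * ν.re + s * ‖U‖ ^ 2 - I / s) / s + I / s * s =
      (s ^ 2 * ρ ^ 2 + s * ρ * (1 + s ^ 2) * ν.re + s ^ 2 * ‖U‖ ^ 2 - (1 - s ^ 2) * I) / s ^ 2 := by
    field_simp
    ring
  rw [h20] at hfin
  have h21 : 0 ≤ s ^ 2 * ρ ^ 2 + s * ρ * (1 + s ^ 2) * ν.re + s ^ 2 * ‖U‖ ^ 2 - (1 - s ^ 2) * I := by
    by_contra hneg
    push Not at hneg
    have := div_neg_of_neg_of_pos hneg (by positivity : 0 < s ^ 2)
    linarith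
  have h22 : s ^ 2 * ‖U‖ ^ 2 ≤ s ^ 2 - s ^ 2 * ρ ^ 2 + (s * ρ) ^ 2 * ‖ν‖ ^ 2 := by
    rw [hUn]
    have h23 : τ ^ 2 = 1 - ρ ^ 2 := by linarith
    have h24 : τ ^ 2 * ‖y‖ ^ 2 ≤ τ ^ 2 * (1 - ‖ν‖ ^ 2) :=
      mul_le_mul_of_nonneg_left (by linarith) (sq_nonneg _)
    rw [h23] at h24 ⊢
    nlinarith [mul_le_mul_of_nonneg_left h24 (sq_nonneg s)]
  linarith

/-- The certificate inequality for the Caratheodory family. -/
theorem cert {h : E → E} (hd : DifferentiableOn ℂ h (ball 0 1)) (h0 : h 0 = 0)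
    (h1 : fderiv ℂ h 0 = ContinuousLinearMap.id ℂ E)
    (hpos : ∀ z ∈ ball (0 : E) 1, z ≠ 0 → 0 < (inner ℂ z (h z)).re) {e y : E} (he : ‖e‖ = 1)
    (hey : inner ℂ e y = 0) {ν : ℂ} (hνy : ‖ν‖ ^ 2 + ‖y‖ ^ 2 ≤ 1) {s ρ τ : ℝ} (hs : 0 < s)
    (hs1 : s < 1) (hρ : 0 ≤ ρ) (hρτ : ρ ^ 2 + τ ^ 2 = 1) (hρν : ρ * ‖ν‖ < 1) :
    (1 - s ^ 2) * (inner ℂ (ν • e + (τ : ℂ) • y) (h (((s * ρ : ℝ) : ℂ) • e))).re ≤
      s ^ 2 + (s * ρ) * (1 + s ^ 2) * ν.re + (s * ρ) ^ 2 * ‖ν‖ ^ 2 := by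
  have hh : HasFDerivAt h (ContinuousLinearMap.id ℂ E) 0 := by
    rw [← h1]
    exact (hd.differentiableAt (isOpen_ball.mem_nhds (mem_ball_self one_pos))).hasFDerivAt
  set x : E := ((s * ρ : ℝ) : ℂ) • e with hx
  have hρ1 : ρ ≤ 1 := by nlinarith [sq_nonneg τ]
  have hxb : x ∈ ball (0 : E) 1 := by
    rw [mem_ball_zero_iff, hx, norm_smul, he, Complex.norm_real,
      Real.norm_of_nonneg (by positivity)]
    nlinarith
  set U : E := ν • e + (τ : ℂ) • y with hU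
  have key : ∀ t : ℝ, t ∈ Ioo (0 : ℝ) 1 →
      (1 - s ^ 2) * (inner ℂ U ((t : ℂ)⁻¹ • h ((t : ℂ) • x))).re ≤
      s ^ 2 + (s * ρ) * (1 + s ^ 2) * ν.re + (s * ρ) ^ 2 * ‖ν‖ ^ 2 := by
    intro t ht
    have htc : (t : ℂ) ≠ 0 := by exact_mod_cast ht.1.ne'
    have hnt : ‖(t : ℂ)‖ = t := by rw [Complex.norm_real, Real.norm_of_nonneg ht.1.le]
    have hmem : ∀ z ∈ ball (0 : E) (1 / t), (t : ℂ) • z ∈ ball (0 : E) 1 := by
      intro z hz
      rw [mem_ball_zero_iff] at hz ⊢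
      rw [norm_smul, hnt]
      calc t * ‖z‖ < t * (1 / t) := mul_lt_mul_of_pos_left hz ht.1
        _ = 1 := by field_simp [ht.1.ne']
    apply cert_closed (g := fun z => (t : ℂ)⁻¹ • h ((t : ℂ) • z)) (R₁ := 1 / t)
      (one_lt_one_div ht.1 ht.2) ?_ ?_ ?_ ?_ he hey hνy hs hs1 hρ hρτ hρν
    · intro z hz
      have h2 := hd.differentiableAt (isOpen_ball.mem_nhds (hmem z hz))
      have h3 : DifferentiableAt ℂ (fun z : E => (t : ℂ) • z) z := by fun_prop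
      exact ((h2.comp z h3).const_smul _).differentiableWithinAt
    · simp [h0]
    · have h3 : HasFDerivAt (fun z : E => (t : ℂ) • z)
          ((t : ℂ) • ContinuousLinearMap.id ℂ E) 0 := (hasFDerivAt_id (0 : E)).const_smul _
      have h4 : HasFDerivAt h (ContinuousLinearMap.id ℂ E) ((t : ℂ) • (0 : E)) := by
        rw [smul_zero]; exact hh
      have h5 := (h4.comp (0 : E) h3).const_smul ((t : ℂ)⁻¹)
      have h6 := h5.fderiv
      simp only [Function.comp_def] at h6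
      rw [show (fun z : E => (t : ℂ)⁻¹ • h ((t : ℂ) • z)) =
        ((t : ℂ)⁻¹ • fun x => h ((t : ℂ) • x)) from rfl, h6]
      ext v
      change (t : ℂ)⁻¹ • ((t : ℂ) • v) = v
      rw [smul_smul, inv_mul_cancel₀ htc, one_smul]
    · intro z hz
      by_cases hz0 : z = 0
      · simp [hz0]
      have hzb : (t : ℂ) • z ∈ ball (0 : E) 1 := by
        rw [mem_ball_zero_iff, norm_smul, hnt]
        nlinarith [ht.1, ht.2, norm_nonneg z]
      have h2 := hpos _ hzb (smul_ne_zero htc hz0)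
      rw [inner_smul_left, Complex.conj_ofReal, Complex.re_ofReal_mul] at h2
      have h3 : 0 < (inner ℂ z (h ((t : ℂ) • z))).re := pos_of_mul_pos_right h2 ht.1.le
      rw [inner_smul_right, ← Complex.ofReal_inv, Complex.re_ofReal_mul]
      exact mul_nonneg (inv_nonneg.2 ht.1.le) h3.le
  have hcont : ContinuousAt (fun t : ℝ =>
      (1 - s ^ 2) * (inner ℂ U ((t : ℂ)⁻¹ • h ((t : ℂ) • x))).re) 1 := by
    have h2 : ContinuousAt (fun t : ℝ => (t : ℂ) • x) 1 :=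
      (Complex.continuous_ofReal.smul continuous_const).continuousAt
    have h3 : ContinuousAt h (((1 : ℝ) : ℂ) • x) := by
      rw [Complex.ofReal_one, one_smul]
      exact (hd.differentiableAt (isOpen_ball.mem_nhds hxb)).continuousAt
    have h4 : ContinuousAt (fun t : ℝ => h ((t : ℂ) • x)) 1 :=
      ContinuousAt.comp (g := h) (f := fun t : ℝ => (t : ℂ) • x) h3 h2
    have h5 : ContinuousAt (fun t : ℝ => (t : ℂ)⁻¹) 1 :=
      Complex.continuous_ofReal.continuousAt.inv₀ (by norm_num)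
    have h6 : ContinuousAt (fun t : ℝ => (t : ℂ)⁻¹ • h ((t : ℂ) • x)) 1 := h5.smul h4
    have h7 : ContinuousAt (fun t : ℝ => inner ℂ U ((t : ℂ)⁻¹ • h ((t : ℂ) • x))) 1 :=
      ((innerSL ℂ U).continuous.continuousAt).comp h6
    exact continuousAt_const.mul (Complex.continuous_re.continuousAt.comp h7)
  have hlim : Tendsto (fun t : ℝ =>
      (1 - s ^ 2) * (inner ℂ U ((t : ℂ)⁻¹ • h ((t : ℂ) • x))).re) (𝓝[<] 1)
      (𝓝 ((1 - s ^ 2) * (inner ℂ U (h x)).re)) := by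
    have h2 := hcont.tendsto.mono_left (nhdsWithin_le_nhds (s := Iio (1 : ℝ)))
    simpa using h2
  apply le_of_tendsto hlim
  have h8 : Ioo (0 : ℝ) 1 ∈ 𝓝[<] (1 : ℝ) := Ioo_mem_nhdsLT one_pos
  filter_upwards [h8] with t ht
  exact key t ht

end Cert

end Pool.Agent.Helper540
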