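import Mathlib
import Pool.Agent.Helper540.Near

set_option autoImplicit false

namespace Pool.Agent.Helper540

open Metric Set Filter Topology Asymptotics

/-- Harnack type inequalities for functions with positive real part on the disc. -/
theorem herglotz_bounds {p : ℂ → ℂ} (hp : DifferentiableOn ℂ p (ball 0 1)) (hp0 : p 0 = 1)
    (hre : ∀ ζ ∈ ball (0 : ℂ) 1, 0 < (p ζ).re) {ζ : ℂ} (hζ : ‖ζ‖ < 1) :
    (1 - ‖ζ‖) / (1 + ‖ζ‖) ≤ (p ζ).re ∧ ‖p ζ‖ ≤ (1 + ‖ζ‖) / (1 - ‖ζ‖) := by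
  have hne : ∀ w ∈ ball (0 : ℂ) 1, p w + 1 ≠ 0 := by
    intro w hw h
    have := hre w hw
    have h2 : (p w + 1).re = 0 := by rw [h]; rfl
    rw [Complex.add_re, Complex.one_re] at h2
    linarith
  set φ : ℂ → ℂ := fun w => (p w - 1) / (p w + 1) with hφ
  have hφd : DifferentiableOn ℂ φ (ball 0 1) :=
    (hp.sub_const 1).div (hp.add_const 1) hne
  have hmaps : MapsTo φ (ball 0 1) (closedBall 0 1) := by
    intro w hw
    rw [mem_closedBall_zero_iff, hφ]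
    simp only [norm_div]
    rw [div_le_one (norm_pos_iff.2 (hne w hw))]
    have h1 := hre w hw
    have : ‖p w - 1‖ ^ 2 ≤ ‖p w + 1‖ ^ 2 := by
      rw [← Complex.normSq_eq_norm_sq, ← Complex.normSq_eq_norm_sq, Complex.normSq_apply,
        Complex.normSq_apply]
      simp
      nlinarith
    exact (pow_le_pow_iff_left₀ (norm_nonneg _) (norm_nonneg _) two_ne_zero).1 this
  have hφ0 : φ 0 = 0 := by simp [hφ, hp0]
  have hs : ‖φ ζ‖ ≤ ‖ζ‖ := Complex.norm_le_norm_of_mapsTo_ball hφd hmaps hφ0 hζ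
  have hζm : ζ ∈ ball (0 : ℂ) 1 := by simpa using hζ
  have h1 : ‖p ζ - 1‖ ≤ ‖ζ‖ * ‖p ζ + 1‖ := by
    rw [hφ] at hs
    simp only [norm_div] at hs
    rwa [div_le_iff₀ (norm_pos_iff.2 (hne ζ hζm))] at hs
  set r := ‖ζ‖ with hr
  have hr0 : 0 ≤ r := norm_nonneg _
  have h2 : ‖p ζ - 1‖ ^ 2 ≤ r ^ 2 * ‖p ζ + 1‖ ^ 2 := by
    rw [← mul_pow]; gcongr
  have e1 : ‖p ζ - 1‖ ^ 2 = ‖p ζ‖ ^ 2 - 2 * (p ζ).re + 1 := by
    rw [← Complex.normSq_eq_norm_sq, ← Complex.normSq_eq_norm_sq, Complex.normSq_apply,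
      Complex.normSq_apply]
    simp; ring
  have e2 : ‖p ζ + 1‖ ^ 2 = ‖p ζ‖ ^ 2 + 2 * (p ζ).re + 1 := by
    rw [← Complex.normSq_eq_norm_sq, ← Complex.normSq_eq_norm_sq, Complex.normSq_apply,
      Complex.normSq_apply]
    simp; ring
  rw [e1, e2] at h2
  have h3 := Complex.abs_re_le_norm (p ζ)
  have h4 : (p ζ).re ≤ ‖p ζ‖ := (le_abs_self _).trans h3
  have h5 : 0 < (p ζ).re := hre ζ hζm
  have h6 : (p ζ).re ^ 2 ≤ ‖p ζ‖ ^ 2 := by nlinarith
  have hr2 : 0 < 1 - r ^ 2 := by nlinarith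
  constructor
  · -- `(1 - r^2) a^2 - 2 (1 + r^2) a + (1 - r^2) ≤ 0`
    rw [div_le_iff₀ (by linarith)]
    by_contra hcon
    push Not at hcon
    set a := (p ζ).re
    have h7 : (1 - r ^ 2) * a ^ 2 - 2 * (1 + r ^ 2) * a + (1 - r ^ 2) ≤ 0 := by nlinarith
    have h8 : (1 - r ^ 2) * a ^ 2 - 2 * (1 + r ^ 2) * a + (1 - r ^ 2) =
        (a * (1 + r) - (1 - r)) * (a * (1 - r) - (1 + r)) := by ring
    rw [h8] at h7
    have h9 : a * (1 - r) - (1 + r) < 0 := by nlinarith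
    nlinarith
  · rw [le_div_iff₀ (by linarith)]
    by_contra hcon
    push Not at hcon
    set b := ‖p ζ‖
    have hb0 : 0 < b := by linarith
    have h7 : (1 - r ^ 2) * b ^ 2 - 2 * (1 + r ^ 2) * b + (1 - r ^ 2) ≤ 0 := by nlinarith
    have h8 : (1 - r ^ 2) * b ^ 2 - 2 * (1 + r ^ 2) * b + (1 - r ^ 2) =
        (b * (1 + r) - (1 - r)) * (b * (1 - r) - (1 + r)) := by ring
    rw [h8] at h7
    have h9 : 0 < b * (1 + r) - (1 - r) := by nlinarith
    nlinarith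

section Cara

variable {E : Type*} [NormedAddCommGroup E] [InnerProductSpace ℂ E]

/-- Membership in the (normalised) Caratheodory family, as a structure. -/
structure Cara (h : E → E) : Prop where
  diff : DifferentiableOn ℂ h (ball 0 1)
  zero : h 0 = 0
  fder : fderiv ℂ h 0 = ContinuousLinearMap.id ℂ E
  pos : ∀ z ∈ ball (0 : E) 1, z ≠ 0 → 0 < (inner ℂ z (h z)).re

/-- The slice function of a Caratheodory map. -/
theorem Cara.slice {h : E → E} (hh : Cara h) {u : E} (hu : ‖u‖ = 1) :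
    ∃ p : ℂ → ℂ, DifferentiableOn ℂ p (ball 0 1) ∧ p 0 = 1 ∧
      (∀ ζ ∈ ball (0 : ℂ) 1, 0 < (p ζ).re) ∧
      ∀ ζ ∈ ball (0 : ℂ) 1, inner ℂ (ζ • u) (h (ζ • u)) = (‖ζ‖ ^ 2 : ℝ) * p ζ := by
  set F : ℂ → ℂ := fun ζ => inner ℂ u (h (ζ • u)) with hF
  have hmem : ∀ ζ ∈ ball (0 : ℂ) 1, ζ • u ∈ ball (0 : E) 1 := by
    intro ζ hζ
    rw [mem_ball_zero_iff] at *
    rw [norm_smul, hu, mul_one]
    exact hζ
  have hFd : DifferentiableOn ℂ F (ball 0 1) := by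
    have h1 : DifferentiableOn ℂ (fun ζ : ℂ => h (ζ • u)) (ball 0 1) :=
      hh.diff.comp (by fun_prop) hmem
    exact (innerSL ℂ u).differentiable.comp_differentiableOn h1
  have hF0 : F 0 = 0 := by simp [hF, hh.zero]
  have hFder : deriv F 0 = 1 := by
    have h1 : HasFDerivAt h (ContinuousLinearMap.id ℂ E) ((0 : ℂ) • u) := by
      rw [zero_smul, ← hh.fder]
      exact (hh.diff.differentiableAt (ball_mem_nhds _ one_pos)).hasFDerivAt
    have h2 : HasDerivAt (fun ζ : ℂ => ζ • u) ((1 : ℂ) • u) 0 :=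
      (hasDerivAt_id (0 : ℂ)).smul_const u
    have h3 := h1.comp_hasDerivAt 0 h2
    have h4 := (innerSL ℂ u).hasFDerivAt.comp_hasDerivAt 0 h3
    have h5 : HasDerivAt F ((innerSL ℂ u) ((ContinuousLinearMap.id ℂ E) ((1 : ℂ) • u))) 0 := h4
    rw [h5.deriv]
    simp [inner_self_eq_norm_sq_to_K, hu]
  have hpd : DifferentiableOn ℂ (dslope F 0) (ball 0 1) :=
    (Complex.differentiableOn_dslope (ball_mem_nhds _ one_pos)).2 hFd
  have hp0 : dslope F 0 0 = 1 := by rw [dslope_same, hFder]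
  have hmul : ∀ ζ, ζ * dslope F 0 ζ = F ζ := by
    intro ζ
    have := sub_smul_dslope F 0 ζ
    simpa [hF0] using this
  have hfor : ∀ ζ ∈ ball (0 : ℂ) 1,
      inner ℂ (ζ • u) (h (ζ • u)) = (‖ζ‖ ^ 2 : ℝ) * dslope F 0 ζ := by
    intro ζ _
    rw [inner_smul_left]
    have : (starRingEnd ℂ) ζ * inner ℂ u (h (ζ • u)) = (starRingEnd ℂ) ζ * (ζ * dslope F 0 ζ) := by
      rw [hmul]
    rw [this, ← mul_assoc, mul_comm ((starRingEnd ℂ) ζ), Complex.mul_conj,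
      Complex.normSq_eq_norm_sq]
  refine ⟨dslope F 0, hpd, hp0, ?_, hfor⟩
  intro ζ hζ
  rcases eq_or_ne ζ 0 with h0 | h0
  · rw [h0, hp0]; simp
  · have hne : ζ • u ≠ 0 := by
      have : u ≠ 0 := by
        intro h
        rw [h, norm_zero] at hu
        norm_num at hu
      exact smul_ne_zero h0 this
    have h1 := hh.pos _ (hmem ζ hζ) hne
    rw [hfor ζ hζ, Complex.re_ofReal_mul] at h1
    have h2 : 0 < ‖ζ‖ ^ 2 := by positivity
    exact (mul_pos_iff_of_pos_left h2).1 h1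

/-- Pfaltzgraff's inequalities. -/
theorem Cara.re_inner_ge {h : E → E} (hh : Cara h) {z : E} (hz : ‖z‖ < 1) :
    ‖z‖ ^ 2 * ((1 - ‖z‖) / (1 + ‖z‖)) ≤ (inner ℂ z (h z)).re ∧
      ‖inner ℂ z (h z)‖ ≤ ‖z‖ ^ 2 * ((1 + ‖z‖) / (1 - ‖z‖)) := by
  rcases eq_or_ne z 0 with h0 | h0
  · simp [h0]
  have hzp : 0 < ‖z‖ := norm_pos_iff.2 h0
  set u : E := ((‖z‖ : ℂ)⁻¹) • z with hu
  have hun : ‖u‖ = 1 := by
    rw [hu, norm_smul, norm_inv, Complex.norm_real, norm_norm, inv_mul_cancel₀ hzp.ne']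
  have hzu : (‖z‖ : ℂ) • u = z := by
    rw [hu, smul_smul, mul_inv_cancel₀, one_smul]
    exact_mod_cast hzp.ne'
  obtain ⟨p, hpd, hp0, hpre, hp⟩ := hh.slice hun
  have hn : ‖(‖z‖ : ℂ)‖ = ‖z‖ := by simp
  have hm : (‖z‖ : ℂ) ∈ ball (0 : ℂ) 1 := by rw [mem_ball_zero_iff, hn]; exact hz
  have hb := herglotz_bounds hpd hp0 hpre (ζ := (‖z‖ : ℂ)) (by rw [hn]; exact hz)
  have h1 := hp _ hm
  rw [hzu, hn] at h1
  rw [hn] at hb
  rw [h1]
  constructor
  · rw [Complex.re_ofReal_mul]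
    exact mul_le_mul_of_nonneg_left hb.1 (by positivity)
  · rw [norm_mul, Complex.norm_real, Real.norm_of_nonneg (by positivity)]
    exact mul_le_mul_of_nonneg_left hb.2 (by positivity)

theorem Cara.re_inner_nonneg {h : E → E} (hh : Cara h) {z : E} (hz : ‖z‖ < 1) :
    0 ≤ (inner ℂ z (h z)).re :=
  le_trans (by
    have := norm_nonneg z
    have : 0 ≤ 1 - ‖z‖ := by linarith
    positivity) (hh.re_inner_ge hz).1

/-- A uniform bound on compact subballs. -/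
theorem Cara.norm_le {h : E → E} (hh : Cara h) {R ρ : ℝ} (hR : 0 ≤ R) (hρ : 0 < ρ)
    (hRρ : R + ρ < 1) {z : E} (hz : ‖z‖ ≤ R) :
    ‖h z‖ ≤ ρ⁻¹ * ((1 + (R + ρ)) / (1 - (R + ρ))) := by
  rcases eq_or_ne (h z) 0 with h0 | h0
  · rw [h0, norm_zero]
    have : 0 < 1 - (R + ρ) := by linarith
    positivity
  have hhp : 0 < ‖h z‖ := norm_pos_iff.2 h0
  set w : E := ((‖h z‖ : ℂ)⁻¹) • h z with hw
  have hwn : ‖w‖ = 1 := by
    rw [hw, norm_smul, norm_inv, Complex.norm_real, norm_norm, inv_mul_cancel₀ hhp.ne']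
  have hwi : inner ℂ w (h z) = (‖h z‖ : ℂ) := by
    rw [hw, inner_smul_left, inner_self_eq_norm_sq_to_K, map_inv₀, Complex.conj_ofReal]
    have : (‖h z‖ : ℂ) ≠ 0 := by exact_mod_cast hhp.ne'
    simp only [Complex.coe_algebraMap]
    field_simp
  -- the disc `ζ ↦ z + ζ w`, `|ζ| ≤ ρ`
  have hmem : ∀ ζ ∈ closedBall (0 : ℂ) ρ, ‖z + ζ • w‖ ≤ R + ρ := by
    intro ζ hζ
    have : ‖ζ‖ ≤ ρ := by simpa using hζ
    calc ‖z + ζ • w‖ ≤ ‖z‖ + ‖ζ • w‖ := norm_add_le _ _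
      _ ≤ R + ρ := by rw [norm_smul, hwn, mul_one]; linarith
  have hd : DifferentiableOn ℂ (fun ζ : ℂ => h (z + ζ • w)) (closedBall 0 ρ) := by
    apply hh.diff.comp (by fun_prop)
    intro ζ hζ
    rw [mem_ball_zero_iff]
    exact (hmem ζ hζ).trans_lt hRρ
  have hdin : ∀ p : E, DifferentiableOn ℂ (fun ζ : ℂ => inner ℂ p (h (z + ζ • w)))
      (closedBall 0 ρ) := fun p =>
    (innerSL ℂ p).differentiable.comp_differentiableOn hd
  have hcl : closure (ball (0 : ℂ) ρ) = closedBall 0 ρ := closure_ball _ hρ.ne'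
  have hdc : ∀ p : E, DiffContOnCl ℂ (fun ζ : ℂ => inner ℂ p (h (z + ζ • w))) (ball 0 ρ) :=
    fun p => DifferentiableOn.diffContOnCl (by rw [hcl]; exact hdin p)
  have a1 : Real.circleAverage (fun ζ : ℂ => inner ℂ w (h (z + ζ • w))) 0 ρ = (‖h z‖ : ℂ) := by
    have := DiffContOnCl.circleAverage (c := (0 : ℂ)) (R := ρ)
      (by rw [abs_of_pos hρ]; exact hdc w)
    rw [this]
    simpa using hwi
  have a2 : Real.circleAverage (fun ζ : ℂ => ζ * inner ℂ z (h (z + ζ • w))) 0 ρ = 0 := by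
    have h2 : DiffContOnCl ℂ (fun ζ : ℂ => ζ * inner ℂ z (h (z + ζ • w))) (ball 0 ρ) :=
      DifferentiableOn.diffContOnCl (by rw [hcl]; exact differentiableOn_id.mul (hdin z))
    have := DiffContOnCl.circleAverage (c := (0 : ℂ)) (R := ρ)
      (by rw [abs_of_pos hρ]; exact h2)
    rw [this]
    simp
  have hci : ∀ {f : ℂ → ℂ}, ContinuousOn f (closedBall 0 ρ) → CircleIntegrable f 0 ρ :=
    fun {f} hf => ContinuousOn.circleIntegrable hρ.le (hf.mono sphere_subset_closedBall)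
  have i1 : CircleIntegrable (fun ζ : ℂ => inner ℂ w (h (z + ζ • w))) 0 ρ :=
    hci (hdin w).continuousOn
  have i2 : CircleIntegrable (fun ζ : ℂ => ζ * inner ℂ z (h (z + ζ • w))) 0 ρ :=
    hci ((differentiableOn_id.mul (hdin z)).continuousOn)
  have i1' := i1.const_fun_smul (a := ((ρ ^ 2 : ℝ) : ℂ))
  have hsum : Real.circleAverage ((fun ζ : ℂ => ζ * inner ℂ z (h (z + ζ • w))) +
      fun ζ : ℂ => ((ρ ^ 2 : ℝ) : ℂ) • inner ℂ w (h (z + ζ • w))) 0 ρ =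
      ((ρ ^ 2 * ‖h z‖ : ℝ) : ℂ) := by
    rw [Real.circleAverage_add i2 i1', Real.circleAverage_fun_smul, a1, a2]
    simp
  have hbound : ∀ ζ ∈ sphere (0 : ℂ) ρ, ‖((fun ζ : ℂ => ζ * inner ℂ z (h (z + ζ • w))) +
      fun ζ : ℂ => ((ρ ^ 2 : ℝ) : ℂ) • inner ℂ w (h (z + ζ • w))) ζ‖ ≤
      ρ * ((1 + (R + ρ)) / (1 - (R + ρ))) := by
    intro ζ hζ
    have hζn : ‖ζ‖ = ρ := by simpa using hζ
    have hζm : ζ ∈ closedBall (0 : ℂ) ρ := sphere_subset_closedBall hζ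
    have hz1 := hmem ζ hζm
    have e1 : ((fun ζ : ℂ => ζ * inner ℂ z (h (z + ζ • w))) +
        fun ζ : ℂ => ((ρ ^ 2 : ℝ) : ℂ) • inner ℂ w (h (z + ζ • w))) ζ =
        ζ * inner ℂ (z + ζ • w) (h (z + ζ • w)) := by
      have hc : ζ * (starRingEnd ℂ) ζ = ((ρ ^ 2 : ℝ) : ℂ) := by
        rw [Complex.mul_conj, Complex.normSq_eq_norm_sq, hζn]
      simp only [Pi.add_apply, inner_add_left, inner_smul_left, smul_eq_mul, ← hc]
      ring
    rw [e1, norm_mul, hζn]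
    apply mul_le_mul_of_nonneg_left _ hρ.le
    refine (hh.re_inner_ge (hz1.trans_lt hRρ)).2.trans ?_
    have h3 : 0 ≤ ‖z + ζ • w‖ := norm_nonneg _
    have h4 : 0 < 1 - (R + ρ) := by linarith
    calc ‖z + ζ • w‖ ^ 2 * ((1 + ‖z + ζ • w‖) / (1 - ‖z + ζ • w‖))
        ≤ 1 * ((1 + (R + ρ)) / (1 - (R + ρ))) := by
          have h5 : ‖z + ζ • w‖ ^ 2 ≤ 1 := by nlinarith
          have h6 : 0 ≤ (1 + ‖z + ζ • w‖) / (1 - ‖z + ζ • w‖) :=
            div_nonneg (by linarith) (by linarith)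
          have h7 : (1 + ‖z + ζ • w‖) / (1 - ‖z + ζ • w‖) ≤ (1 + (R + ρ)) / (1 - (R + ρ)) := by
            apply div_le_div₀ <;> linarith
          exact mul_le_mul h5 h7 h6 zero_le_one
      _ = _ := one_mul _
  have hfin : ‖Real.circleAverage ((fun ζ : ℂ => ζ * inner ℂ z (h (z + ζ • w))) +
      fun ζ : ℂ => ((ρ ^ 2 : ℝ) : ℂ) • inner ℂ w (h (z + ζ • w))) 0 ρ‖ ≤
      ρ * ((1 + (R + ρ)) / (1 - (R + ρ))) := by
    rw [Real.circleAverage]
    have h8 := intervalIntegral.norm_integral_le_of_norm_le_const (a := 0) (b := 2 * Real.pi)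
      (C := ρ * ((1 + (R + ρ)) / (1 - (R + ρ))))
      (f := fun θ => ((fun ζ : ℂ => ζ * inner ℂ z (h (z + ζ • w))) +
      fun ζ : ℂ => ((ρ ^ 2 : ℝ) : ℂ) • inner ℂ w (h (z + ζ • w))) (circleMap 0 ρ θ))
      (fun θ _ => hbound _ (circleMap_mem_sphere _ hρ.le θ))
    rw [norm_smul, norm_inv, Real.norm_of_nonneg (by positivity)]
    rw [sub_zero, abs_of_pos (by positivity)] at h8
    rw [inv_mul_le_iff₀ (by positivity)]
    linarith
  rw [hsum, Complex.norm_real, Real.norm_of_nonneg (by positivity)] at hfin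
  rw [inv_mul_eq_div, le_div_iff₀ hρ]
  nlinarith

/-- Uniform second order estimate at the origin. -/
theorem Cara.second_order {h : E → E} (hh : Cara h) {z : E} (hz : ‖z‖ < 1 / 4) :
    ‖h z - z‖ ≤ 800 * ‖z‖ ^ 2 := by
  have hb : ∀ w ∈ ball (0 : E) (1 / 4), ‖h w‖ ≤ 12 := by
    intro w hw
    have hw' : ‖w‖ < 1 / 4 := by simpa using hw
    have := hh.norm_le (R := 1 / 4) (ρ := 1 / 4) (by norm_num) (by norm_num) (by norm_num) hw'.le
    norm_num at this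
    exact this
  have := norm_sub_sub_fderiv_le (by norm_num) (hh.diff.mono (ball_subset_ball (by norm_num))) hb
    (w := z) (by simpa using hz)
  rw [hh.zero, hh.fder] at this
  simp only [sub_zero, ContinuousLinearMap.id_apply] at this
  refine this.trans ?_
  have := sq_nonneg ‖z‖
  have e : 4 * 12 * (‖z‖ / (1 / 4)) ^ 2 = 768 * ‖z‖ ^ 2 := by ring
  rw [e]
  linarith

end Cara

end Pool.Agent.Helper540
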