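import Mathlib
import Pool.Agent.Helper540.Slice
import Pool.Agent.Helper540.Cara
import Pool.Agent.Helper540.Osgood

set_option autoImplicit false

namespace Pool.Agent.Helper540

open Metric Set Filter Topology

section Closed

variable {E : Type*} [NormedAddCommGroup E] [InnerProductSpace ℂ E]

theorem re_inner_self' (z : E) : (inner ℂ z z : ℂ).re = ‖z‖ ^ 2 := by
  have := inner_self_eq_norm_sq (𝕜 := ℂ) z
  simpa using this

/-- The condition `Re ≥ 0` self-improves. -/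
theorem Cara.of_nonneg {h : E → E} (hd : DifferentiableOn ℂ h (ball 0 1)) (h0 : h 0 = 0)
    (h1 : fderiv ℂ h 0 = ContinuousLinearMap.id ℂ E)
    (hpos : ∀ z ∈ ball (0 : E) 1, 0 ≤ (inner ℂ z (h z)).re) : Cara h := by
  have hmix : ∀ θ : ℝ, 0 < θ → θ < 1 →
      Cara (fun z => ((1 - θ : ℝ) : ℂ) • h z + ((θ : ℝ) : ℂ) • z) := by
    intro θ hθ hθ1
    refine ⟨?_, ?_, ?_, ?_⟩
    · have h2 : DifferentiableOn ℂ (fun z : E => ((θ : ℝ) : ℂ) • z) (ball 0 1) := by fun_prop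
      exact (hd.fun_const_smul _).fun_add h2
    · simp [h0]
    · have h2 : HasFDerivAt h (ContinuousLinearMap.id ℂ E) 0 := by
        rw [← h1]; exact (hd.differentiableAt (ball_mem_nhds _ one_pos)).hasFDerivAt
      have h3 := (h2.const_smul ((1 - θ : ℝ) : ℂ)).add
        ((hasFDerivAt_id (𝕜 := ℂ) (0 : E)).const_smul ((θ : ℝ) : ℂ))
      have h4 : HasFDerivAt (fun z => ((1 - θ : ℝ) : ℂ) • h z + ((θ : ℝ) : ℂ) • z)
        (((1 - θ : ℝ) : ℂ) • ContinuousLinearMap.id ℂ E +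
          ((θ : ℝ) : ℂ) • ContinuousLinearMap.id ℂ E) 0 := h3
      rw [h4.fderiv, ← add_smul]
      have : (((1 - θ : ℝ) : ℂ) + ((θ : ℝ) : ℂ)) = 1 := by push_cast; ring
      rw [this, one_smul]
    · intro z hz hz0
      rw [inner_add_right, inner_smul_right, inner_smul_right, Complex.add_re,
        Complex.re_ofReal_mul, Complex.re_ofReal_mul, re_inner_self']
      have h2 := hpos z hz
      have h3 : 0 < ‖z‖ := norm_pos_iff.2 hz0
      have h4 : 0 ≤ (1 - θ) * (inner ℂ z (h z)).re := mul_nonneg (by linarith) h2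
      positivity
  refine ⟨hd, h0, h1, ?_⟩
  intro z hz hz0
  have hz1 : ‖z‖ < 1 := by simpa using hz
  have hzp : 0 < ‖z‖ := norm_pos_iff.2 hz0
  have key : ∀ θ : ℝ, 0 < θ → θ < 1 → ‖z‖ ^ 2 * ((1 - ‖z‖) / (1 + ‖z‖)) ≤
      (1 - θ) * (inner ℂ z (h z)).re + θ * ‖z‖ ^ 2 := by
    intro θ hθ hθ1
    have := ((hmix θ hθ hθ1).re_inner_ge hz1).1
    rwa [inner_add_right, inner_smul_right, inner_smul_right, Complex.add_re,
        Complex.re_ofReal_mul, Complex.re_ofReal_mul, re_inner_self'] at this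
  have hlim : ‖z‖ ^ 2 * ((1 - ‖z‖) / (1 + ‖z‖)) ≤ (inner ℂ z (h z)).re := by
    have h2 : Tendsto (fun θ : ℝ => (1 - θ) * (inner ℂ z (h z)).re + θ * ‖z‖ ^ 2) (𝓝[>] 0)
        (𝓝 ((1 - 0) * (inner ℂ z (h z)).re + 0 * ‖z‖ ^ 2)) := by
      apply Tendsto.mono_left _ nhdsWithin_le_nhds
      have : Continuous (fun θ : ℝ => (1 - θ) * (inner ℂ z (h z)).re + θ * ‖z‖ ^ 2) := by fun_prop
      exact this.tendsto 0
    rw [sub_zero, one_mul, zero_mul, add_zero] at h2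
    apply ge_of_tendsto h2
    filter_upwards [Ioo_mem_nhdsGT (zero_lt_one (α := ℝ))] with θ hθ using key θ hθ.1 hθ.2
  refine lt_of_lt_of_le ?_ hlim
  have : 0 < 1 - ‖z‖ := by linarith
  positivity

/-- Closedness of the Caratheodory family. -/
theorem Cara.of_tendsto [ProperSpace E] {h : ℕ → E → E} {g : E → E} (hh : ∀ n, Cara (h n))
    (hlim : TendstoLocallyUniformlyOn h g atTop (ball 0 1)) : Cara g := by
  have hcE : CompleteSpace E := inferInstance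
  have hpt : ∀ z ∈ ball (0 : E) 1, Tendsto (fun n => h n z) atTop (𝓝 (g z)) := fun z hz =>
    hlim.tendsto_at hz
  have h0m : (0 : E) ∈ ball (0 : E) 1 := mem_ball_self one_pos
  have hcomp := (tendstoLocallyUniformlyOn_iff_forall_isCompact isOpen_ball).1 hlim
  have hgd : DifferentiableOn ℂ g (ball 0 1) := by
    intro z hz
    have hz1 : ‖z‖ < 1 := by simpa using hz
    set R : ℝ := (1 - ‖z‖) / 2 with hR
    have hR0 : 0 < R := by rw [hR]; linarith
    have hsub : closedBall z R ⊆ ball 0 1 := by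
      intro w hw
      rw [mem_closedBall, dist_eq_norm] at hw
      rw [mem_ball_zero_iff]
      calc ‖w‖ = ‖(w - z) + z‖ := by simp
        _ ≤ ‖w - z‖ + ‖z‖ := norm_add_le _ _
        _ < 1 := by linarith
    have h1 := (hcomp (closedBall z R) hsub (isCompact_closedBall z R)).mono
      ball_subset_closedBall
    have h2 := differentiableOn_of_uniform_limit
      (fun n => (hh n).diff.mono (ball_subset_closedBall.trans hsub)) h1
    exact (h2.differentiableAt (ball_mem_nhds _ (by linarith))).differentiableWithinAt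
  have hg0 : g 0 = 0 := by
    have h1 := hpt 0 h0m
    simp only [(hh _).zero] at h1
    exact tendsto_nhds_unique h1 tendsto_const_nhds |>.symm ▸ rfl
  have hsec : ∀ z : E, ‖z‖ < 1 / 4 → ‖g z - z‖ ≤ 800 * ‖z‖ ^ 2 := by
    intro z hz
    have h1 := ((hpt z (by rw [mem_ball_zero_iff]; linarith)).sub_const z).norm
    exact le_of_tendsto' h1 (fun n => (hh n).second_order hz)
  have hg1 : fderiv ℂ g 0 = ContinuousLinearMap.id ℂ E := by
    apply HasFDerivAt.fderiv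
    rw [hasFDerivAt_iff_isLittleO_nhds_zero]
    simp only [zero_add, hg0, sub_zero, ContinuousLinearMap.id_apply]
    have h4 : (fun z : E => g z - z) =O[𝓝 0] fun z : E => ‖z‖ ^ 2 := by
      apply Asymptotics.IsBigO.of_bound 800
      filter_upwards [ball_mem_nhds (0 : E) (by norm_num : (0 : ℝ) < 1 / 4)] with z hz
      rw [norm_pow, norm_norm]
      exact hsec z (by simpa using hz)
    refine h4.trans_isLittleO ?_
    exact Asymptotics.isLittleO_norm_pow_id one_lt_two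
  refine Cara.of_nonneg hgd hg0 hg1 ?_
  intro z hz
  have hz1 : ‖z‖ < 1 := by simpa using hz
  have h1 : Tendsto (fun n => (inner ℂ z (h n z)).re) atTop (𝓝 (inner ℂ z (g z)).re) := by
    have h2 : Tendsto (fun n => inner ℂ z (h n z)) atTop (𝓝 (inner ℂ z (g z))) :=
      ((innerSL ℂ z).continuous.tendsto _).comp (hpt z hz)
    exact (Complex.continuous_re.tendsto _).comp h2
  exact ge_of_tendsto' h1 (fun n => (hh n).re_inner_nonneg hz1)

end Closed

section Trans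

variable {E : Type} [NormedAddCommGroup E] [InnerProductSpace ℂ E] [FiniteDimensional ℂ E]

/-- A normalized Loewner chain whose rescaled maps are locally uniformly bounded. -/
structure LC (F : ℝ → E → E) : Prop where
  holo : ∀ t, 0 ≤ t → DifferentiableOn ℂ (F t) (ball 0 1)
  inj : ∀ t, 0 ≤ t → InjOn (F t) (ball 0 1)
  zero : ∀ t, 0 ≤ t → F t 0 = 0
  deriv : ∀ t, 0 ≤ t → fderiv ℂ (F t) 0 = ((Real.exp t : ℝ) : ℂ) • ContinuousLinearMap.id ℂ E
  sub : ∀ s t, 0 ≤ s → s ≤ t → F s '' ball 0 1 ⊆ F t '' ball 0 1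
  bdd : ∀ r : ℝ, r < 1 → ∃ M : ℝ, ∀ t, 0 ≤ t → ∀ z : E, ‖z‖ ≤ r → ‖F t z‖ ≤ M * Real.exp t

/-- The transition maps of a Loewner chain. -/
theorem LC.transition {F : ℝ → E → E} (hF : LC F) {s t : ℝ} (hs : 0 ≤ s) (hst : s ≤ t) :
    ∃ v : E → E, DifferentiableOn ℂ v (ball 0 1) ∧ MapsTo v (ball 0 1) (ball 0 1) ∧ v 0 = 0 ∧
      (∀ z ∈ ball (0 : E) 1, F t (v z) = F s z) ∧
      fderiv ℂ v 0 = ((Real.exp (s - t) : ℝ) : ℂ) • ContinuousLinearMap.id ℂ E := by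
  have ht : 0 ≤ t := hs.trans hst
  have hex : ∀ z : E, ∃ w : E, z ∈ ball (0 : E) 1 → w ∈ ball (0 : E) 1 ∧ F t w = F s z := by
    intro z
    by_cases hz : z ∈ ball (0 : E) 1
    · obtain ⟨w, hw, hwz⟩ := hF.sub s t hs hst ⟨z, hz, rfl⟩
      exact ⟨w, fun _ => ⟨hw, hwz⟩⟩
    · exact ⟨0, fun h => absurd h hz⟩
  choose v hv using hex
  have h0 : (0 : E) ∈ ball (0 : E) 1 := mem_ball_self one_pos
  have hv0 : v 0 = 0 := by
    apply hF.inj t ht (hv 0 h0).1 h0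
    rw [(hv 0 h0).2, hF.zero s hs, hF.zero t ht]
  have hd : DifferentiableOn ℂ v (ball 0 1) :=
    differentiableOn_of_comp rfl isOpen_ball isOpen_ball (hF.holo t ht) (hF.inj t ht)
      (hF.holo s hs) (fun z hz => (hv z hz).1) (fun z hz => (hv z hz).2)
  refine ⟨v, hd, fun z hz => (hv z hz).1, hv0, fun z hz => (hv z hz).2, ?_⟩
  have hb : ball (0 : E) 1 ∈ 𝓝 (0 : E) := isOpen_ball.mem_nhds h0
  have hvd : HasFDerivAt v (fderiv ℂ v 0) 0 := (hd.differentiableAt hb).hasFDerivAt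
  have hFt : HasFDerivAt (F t) (fderiv ℂ (F t) 0) (v 0) := by
    rw [hv0]
    exact ((hF.holo t ht).differentiableAt hb).hasFDerivAt
  have hFs : HasFDerivAt (F s) (fderiv ℂ (F s) 0) 0 :=
    ((hF.holo s hs).differentiableAt hb).hasFDerivAt
  have hcomp := hFt.comp 0 hvd
  have heq : F t ∘ v =ᶠ[𝓝 0] F s := by
    filter_upwards [hb] with z hz using (hv z hz).2
  have h1 := (hcomp.congr_of_eventuallyEq heq.symm).unique hFs
  rw [hF.deriv t ht, hF.deriv s hs] at h1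
  have hexp : ((Real.exp (s - t) : ℝ) : ℂ) * ((Real.exp t : ℝ) : ℂ) = ((Real.exp s : ℝ) : ℂ) := by
    rw [← Complex.ofReal_mul, ← Real.exp_add]; congr 2; ring
  have hne : ((Real.exp t : ℝ) : ℂ) ≠ 0 := by exact_mod_cast (Real.exp_pos t).ne'
  ext1 x
  have h2 := congrArg (fun T : E →L[ℂ] E => T x) h1
  simp only [ContinuousLinearMap.comp_apply, smul_apply,
    ContinuousLinearMap.id_apply] at h2 ⊢
  have h3 : ((Real.exp t : ℝ) : ℂ) • (fderiv ℂ v 0 x - ((Real.exp (s - t) : ℝ) : ℂ) • x) = 0 := by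
    rw [smul_sub, h2, smul_smul, mul_comm, hexp, sub_self]
  exact sub_eq_zero.1 ((smul_eq_zero.1 h3).resolve_left hne)

/-- Infinitesimal version of a transition map. -/
theorem cara_quot {v : E → E} (hvd : DifferentiableOn ℂ v (ball 0 1))
    (hvm : MapsTo v (ball 0 1) (ball 0 1)) (hv0 : v 0 = 0) {lam : ℝ} (hlam1 : lam < 1)
    (hvD : fderiv ℂ v 0 = (lam : ℂ) • ContinuousLinearMap.id ℂ E) :
    Cara (fun z => (1 - (lam : ℂ))⁻¹ • (z - v z)) := by
  have hlamC : (1 - (lam : ℂ)) ≠ 0 := by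
    intro h
    have : (1 - lam : ℝ) = 0 := by exact_mod_cast h
    linarith
  apply Cara.of_nonneg
  · have h1 : DifferentiableOn ℂ (fun z : E => z) (ball 0 1) := differentiableOn_id
    exact (h1.fun_sub hvd).fun_const_smul ((1 - (lam : ℂ))⁻¹)
  · simp [hv0]
  · have hb : ball (0 : E) 1 ∈ 𝓝 (0 : E) := ball_mem_nhds _ one_pos
    have hvd0 : HasFDerivAt v ((lam : ℂ) • ContinuousLinearMap.id ℂ E) 0 := by
      rw [← hvD]
      exact (hvd.differentiableAt hb).hasFDerivAt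
    have h1 : HasFDerivAt (fun z => (1 - (lam : ℂ))⁻¹ • (z - v z)) ((1 - (lam : ℂ))⁻¹ •
        (ContinuousLinearMap.id ℂ E - (lam : ℂ) • ContinuousLinearMap.id ℂ E)) 0 :=
      ((hasFDerivAt_id (𝕜 := ℂ) (0 : E)).sub hvd0).const_smul (1 - (lam : ℂ))⁻¹
    rw [h1.fderiv]
    ext1 x
    show (1 - (lam : ℂ))⁻¹ • (x - (lam : ℂ) • x) = x
    rw [show x - (lam : ℂ) • x = (1 - (lam : ℂ)) • x by rw [sub_smul, one_smul], smul_smul,
      inv_mul_cancel₀ hlamC, one_smul]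
  · intro z hz
    have hvz : ‖v z‖ ≤ ‖z‖ := Complex.norm_le_norm_of_mapsTo_ball hvd
      (hvm.mono_right ball_subset_closedBall) hv0 (mem_ball_zero_iff.1 hz)
    have h1 : inner ℂ z ((1 - (lam : ℂ))⁻¹ • (z - v z)) =
        ((1 - lam : ℝ) : ℂ)⁻¹ * (inner ℂ z z - inner ℂ z (v z)) := by
      simp only [inner_smul_right, inner_sub_right]
      push_cast
      ring
    rw [h1, ← Complex.ofReal_inv, Complex.re_ofReal_mul, Complex.sub_re]
    have h2 : (inner ℂ z z : ℂ).re = ‖z‖ ^ 2 := re_inner_self' z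
    have h3 : (inner ℂ z (v z) : ℂ).re ≤ ‖z‖ * ‖v z‖ :=
      (Complex.re_le_norm _).trans (norm_inner_le_norm _ _)
    have h4 : ‖z‖ * ‖v z‖ ≤ ‖z‖ * ‖z‖ := by gcongr
    apply mul_nonneg
    · exact inv_nonneg.2 (by linarith)
    · rw [h2]; nlinarith

omit [FiniteDimensional ℂ E] in
theorem slice_diff {h : E → E} (hd : DifferentiableOn ℂ h (ball 0 1)) {u : E} (hu : ‖u‖ ≤ 1) :
    DifferentiableOn ℂ (fun ζ : ℂ => h (ζ • u)) (ball 0 1) := by
  apply hd.comp (by fun_prop)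
  intro ζ hζ
  rw [mem_ball_zero_iff] at *
  rw [norm_smul]
  calc ‖ζ‖ * ‖u‖ ≤ ‖ζ‖ * 1 := by gcongr
    _ < 1 := by linarith

/-- Second coefficients along a chain. -/
theorem LC.tc_two {F : ℝ → E → E} (hF : LC F) {s t : ℝ} (hs : 0 ≤ s) (hst : s < t) :
    ∃ g : E → E, Cara g ∧ ∀ u : E, ‖u‖ = 1 → tc 2 (fun ζ : ℂ => F s (ζ • u)) =
      ((Real.exp (s - t) : ℝ) : ℂ) ^ 2 • tc 2 (fun ζ : ℂ => F t (ζ • u)) -
        ((Real.exp t * (1 - Real.exp (s - t)) : ℝ) : ℂ) • tc 2 (fun ζ : ℂ => g (ζ • u)) := by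
  have ht : 0 ≤ t := hs.trans hst.le
  obtain ⟨v, hvd, hvm, hv0, hvF, hvD⟩ := hF.transition hs hst.le
  set lam : ℝ := Real.exp (s - t) with hlam
  have hlam0 : 0 < lam := Real.exp_pos _
  have hlam1 : lam < 1 := by rw [hlam, Real.exp_lt_one_iff]; linarith
  have hlamC : (1 - (lam : ℂ)) ≠ 0 := by
    intro h
    have : (1 - lam : ℝ) = 0 := by exact_mod_cast h
    linarith
  refine ⟨_, cara_quot hvd hvm hv0 hlam1 hvD, ?_⟩
  intro u hu
  have hgC := cara_quot hvd hvm hv0 hlam1 hvD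
  set g : E → E := fun z => (1 - (lam : ℂ))⁻¹ • (z - v z) with hg
  have hgd := hgC.diff
  have hvs : DifferentiableOn ℂ (fun ζ : ℂ => v (ζ • u)) (ball 0 1) := slice_diff hvd hu.le
  have hvtc : tc 2 (fun ζ : ℂ => v (ζ • u)) =
        -((1 - (lam : ℂ)) • tc 2 (fun ζ : ℂ => g (ζ • u))) := by
    have h2 : (fun ζ : ℂ => v (ζ • u)) = fun ζ : ℂ => ζ ^ 1 • u -
        ((1 - (lam : ℂ)) • ContinuousLinearMap.id ℂ E) (g (ζ • u)) := by
      ext1 ζ
      simp only [hg, smul_apply, ContinuousLinearMap.id_apply, smul_smul,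
        mul_inv_cancel₀ hlamC, one_smul, pow_one]
      abel
    have hgs : ContDiffAt ℂ 2 (fun ζ : ℂ => g (ζ • u)) 0 :=
      contDiffAt_of_ball one_pos (slice_diff hgd hu.le) 2
    have hgs2 : ContDiffAt ℂ 2 (fun ζ : ℂ => ((1 - (lam : ℂ)) •
        ContinuousLinearMap.id ℂ E) (g (ζ • u))) 0 :=
      (ContinuousLinearMap.contDiff _).contDiffAt.comp 0 hgs
    rw [h2, tc_sub 2 (by fun_prop) hgs2, tc_pow_smul, if_neg (by norm_num), tc_clm _ 2 hgs]
    simp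
  -- the expansion of the composition
  have hFs := hF.holo s hs
  have hFt := hF.holo t ht
  set A : ℂ := ((Real.exp t : ℝ) : ℂ) with hA
  have hFtD : fderiv ℂ (F t) 0 = A • ContinuousLinearMap.id ℂ E := hF.deriv _ ht
  obtain ⟨d1, hd1, C1, hC1, hd1R, hb1⟩ := near_zero_gen one_pos hFt
  obtain ⟨d2, hd2, C2, hC2, hd2R, hb2⟩ := near_zero_gen one_pos hvd
  have hslF : ∀ a : ℂ, ‖a‖ ≤ 1 → DifferentiableOn ℂ
      (fun ζ : ℂ => F t ((ζ * a) • u)) (ball 0 1) := by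
    intro a ha
    have h1 : (fun ζ : ℂ => F t ((ζ * a) • u)) = fun ζ : ℂ => F t (ζ • (a • u)) := by
      ext1 ζ; rw [smul_smul]
    rw [h1]
    apply slice_diff hFt
    rw [norm_smul, hu, mul_one]
    exact ha
  have hlamn : ‖(lam : ℂ)‖ = lam := by rw [Complex.norm_real, Real.norm_of_nonneg hlam0.le]
  have hdiffR : DifferentiableOn ℂ (fun ζ : ℂ => F s (ζ • u) - F t ((ζ * (lam : ℂ)) • u) -
      (A • ContinuousLinearMap.id ℂ E) (v (ζ • u) - ζ ^ 1 • ((lam : ℂ) • u))) (ball 0 1) := by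
    apply DifferentiableOn.sub
    · exact (slice_diff hFs hu.le).sub (hslF _ (by rw [hlamn]; exact hlam1.le))
    · apply (ContinuousLinearMap.differentiable _).comp_differentiableOn
      exact hvs.sub (by fun_prop)
  have hzero : tc 2 (fun ζ : ℂ => F s (ζ • u) - F t ((ζ * (lam : ℂ)) • u) -
      (A • ContinuousLinearMap.id ℂ E) (v (ζ • u) - ζ ^ 1 • ((lam : ℂ) • u))) = 0 := by
    set ρ : ℝ := min d1 d2 with hρ
    have hρ0 : 0 < ρ := lt_min hd1 hd2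
    have hρ1 : ρ ≤ 1 := (min_le_left _ _).trans hd1R.le
    apply tc_eq_zero_of_bound (R := ρ) (C := C1 * C2) 2 hρ0
      (hdiffR.mono (ball_subset_ball hρ1))
    intro ζ hζ
    rw [mem_ball_zero_iff] at hζ
    have hζ1 : ‖ζ • u‖ = ‖ζ‖ := by rw [norm_smul, hu, mul_one]
    have hζb : ζ • u ∈ ball (0 : E) 1 := by
      rw [mem_ball_zero_iff, hζ1]; linarith
    have hvζ : ‖v (ζ • u)‖ ≤ ‖ζ‖ := by
      rw [← hζ1]
      exact Complex.norm_le_norm_of_mapsTo_ball hvd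
        (hvm.mono_right ball_subset_closedBall) hv0 (mem_ball_zero_iff.1 hζb)
    have hlζ : ‖(ζ * (lam : ℂ)) • u‖ ≤ ‖ζ‖ := by
      rw [norm_smul, norm_mul, hu, mul_one, hlamn]
      exact mul_le_of_le_one_right (norm_nonneg _) hlam1.le
    have hp1 : ‖v (ζ • u)‖ < d1 := hvζ.trans_lt (hζ.trans_le (min_le_left _ _))
    have hp2 : ‖(ζ * (lam : ℂ)) • u‖ < d1 := hlζ.trans_lt (hζ.trans_le (min_le_left _ _))
    have h1 := hb1 _ _ hp1 hp2
    rw [hvF _ hζb, hFtD] at h1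
    have h2 := hb2 (ζ • u) 0 (by rw [hζ1]; exact hζ.trans_le (min_le_right _ _))
      (by rw [norm_zero]; exact hd2)
    rw [hv0, hvD, sub_zero, sub_zero, norm_zero, hζ1, max_eq_left (norm_nonneg _)] at h2
    have h3 : ‖v (ζ • u) - (ζ * (lam : ℂ)) • u‖ ≤ C2 * ‖ζ‖ * ‖ζ‖ := by
      have h4 : ((lam : ℂ) • ContinuousLinearMap.id ℂ E) (ζ • u) = (ζ * (lam : ℂ)) • u := by
        simp only [smul_apply, ContinuousLinearMap.id_apply, smul_smul]
        rw [mul_comm]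
      rw [h4] at h2
      exact h2
    have h5 : max ‖v (ζ • u)‖ ‖(ζ * (lam : ℂ)) • u‖ ≤ ‖ζ‖ := max_le hvζ hlζ
    have h6 : ζ ^ 1 • ((lam : ℂ) • u) = (ζ * (lam : ℂ)) • u := by rw [pow_one, smul_smul]
    rw [h6]
    calc _ ≤ C1 * max ‖v (ζ • u)‖ ‖(ζ * (lam : ℂ)) • u‖ *
          ‖v (ζ • u) - (ζ * (lam : ℂ)) • u‖ := h1
      _ ≤ C1 * ‖ζ‖ * (C2 * ‖ζ‖ * ‖ζ‖) := by gcongr
      _ = C1 * C2 * ‖ζ‖ ^ (2 + 1) := by ring
  have hsF : ContDiffAt ℂ 2 (fun ζ : ℂ => F s (ζ • u)) 0 :=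
    contDiffAt_of_ball one_pos (slice_diff hFs hu.le) 2
  have hsFt : ContDiffAt ℂ 2 (fun ζ : ℂ => F t ((ζ * (lam : ℂ)) • u)) 0 :=
    contDiffAt_of_ball one_pos (hslF _ (by rw [hlamn]; exact hlam1.le)) 2
  have hsv : ContDiffAt ℂ 2 (fun ζ : ℂ => v (ζ • u)) 0 := contDiffAt_of_ball one_pos hvs 2
  have hsp : ContDiffAt ℂ 2 (fun ζ : ℂ => ζ ^ 1 • ((lam : ℂ) • u)) 0 := by fun_prop
  have hsc2 : ContDiffAt ℂ 2 (fun ζ : ℂ => (A • ContinuousLinearMap.id ℂ E)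
      (v (ζ • u) - ζ ^ 1 • ((lam : ℂ) • u))) 0 :=
    (ContinuousLinearMap.contDiff _).contDiffAt.comp 0 (hsv.sub hsp)
  rw [tc_sub 2 (hsF.sub hsFt) hsc2, tc_sub 2 hsF hsFt, tc_clm _ 2 (hsv.sub hsp),
    tc_sub 2 hsv hsp, tc_pow_smul, if_neg (by norm_num), sub_zero] at hzero
  have hsc : tc 2 (fun ζ : ℂ => F t ((ζ * (lam : ℂ)) • u)) =
      (lam : ℂ) ^ 2 • tc 2 (fun ζ : ℂ => F t (ζ • u)) := by
    have := tc_comp_smul one_pos (slice_diff hFt hu.le) 2 (lam : ℂ)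
    simpa [smul_eq_mul] using this
  rw [hsc, hvtc] at hzero
  have h1 : tc 2 (fun ζ : ℂ => F s (ζ • u)) -
      ((lam : ℂ) ^ 2 • tc 2 (fun ζ : ℂ => F t (ζ • u)) -
        ((Real.exp t * (1 - lam) : ℝ) : ℂ) • tc 2 (fun ζ : ℂ => g (ζ • u))) = 0 := by
    rw [← hzero]
    simp only [smul_apply, ContinuousLinearMap.id_apply, smul_neg, smul_smul]
    have : ((Real.exp t * (1 - lam) : ℝ) : ℂ) = A * (1 - (lam : ℂ)) := by
      rw [hA]; push_cast; ring
    rw [this]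
    abel
  exact sub_eq_zero.1 h1

/-- Cauchy estimate for second coefficients. -/
theorem norm_tc_two_le {f : E → E} (hf : DifferentiableOn ℂ f (ball 0 1)) {u : E} (hu : ‖u‖ ≤ 1)
    {r C : ℝ} (hr : 0 < r) (hr1 : r < 1) (hC : ∀ z : E, ‖z‖ ≤ r → ‖f z‖ ≤ C) :
    ‖tc 2 (fun ζ : ℂ => f (ζ • u))‖ ≤ C / r ^ 2 := by
  have h2 : DiffContOnCl ℂ (fun ζ : ℂ => f (ζ • u)) (ball 0 r) := by
    apply DifferentiableOn.diffContOnCl_ball (slice_diff hf hu)
    exact closedBall_subset_ball hr1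
  have h3 := Complex.norm_iteratedDeriv_le_of_forall_mem_sphere_norm_le 2 hr
    h2 (C := C) (by
      intro ζ hζ
      apply hC
      rw [norm_smul]
      rw [mem_sphere_zero_iff_norm] at hζ
      rw [hζ]
      exact mul_le_of_le_one_right hr.le hu)
  rw [tc, norm_smul]
  have h4 : ‖((Nat.factorial 2 : ℕ) : ℂ)⁻¹‖ = 1 / 2 := by norm_num [Nat.factorial]
  rw [h4]
  have h5 : ((Nat.factorial 2 : ℕ) : ℝ) = 2 := by norm_num [Nat.factorial]
  rw [h5] at h3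
  calc 1 / 2 * ‖iteratedDeriv 2 (fun ζ : ℂ => f (ζ • u)) 0‖ ≤ 1 / 2 * (2 * C / r ^ 2) := by gcongr
    _ = C / r ^ 2 := by ring

end Trans

end Pool.Agent.Helper540
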