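import Mathlib
import Pool.Agent.Helper540.Trans

set_option autoImplicit false

namespace Pool.Agent.Helper540

open Metric Set Filter Topology

section Lip

variable {E : Type} [NormedAddCommGroup E] [InnerProductSpace ℂ E] [FiniteDimensional ℂ E]

theorem exp_diff_facts {s t : ℝ} (hst : s ≤ t) :
    0 ≤ 1 - Real.exp (s - t) ∧ 1 - Real.exp (s - t) ≤ t - s := by
  constructor
  · have : Real.exp (s - t) ≤ 1 := Real.exp_le_one_iff.2 (by linarith)
    linarith
  · have := Real.add_one_le_exp (s - t)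
    linarith

/-- A uniform bound on closed subballs for the Caratheodory family. -/
theorem exists_cara_bound {r : ℝ} (hr1 : r < 1) :
    ∃ C : ℝ, 0 ≤ C ∧ ∀ h : E → E, Cara h → ∀ z : E, ‖z‖ ≤ r → ‖h z‖ ≤ C := by
  rcases lt_or_ge r 0 with h0 | h0
  · exact ⟨0, le_rfl, fun h _ z hz => absurd (norm_nonneg z) (by linarith)⟩
  · refine ⟨((1 - r) / 2)⁻¹ * ((1 + (r + (1 - r) / 2)) / (1 - (r + (1 - r) / 2))), ?_, ?_⟩
    · have h1 : 0 < (1 - r) / 2 := by linarith
      have h2 : 0 < 1 - (r + (1 - r) / 2) := by linarith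
      positivity
    · intro h hh z hz
      exact hh.norm_le h0 (by linarith) (by linarith) hz

/-- Transition maps are close to the identity. -/
theorem LC.transition_close {F : ℝ → E → E} (hF : LC F) {r : ℝ} (hr1 : r < 1) :
    ∃ C : ℝ, 0 ≤ C ∧ ∀ s t : ℝ, 0 ≤ s → s ≤ t → ∀ z : E, ‖z‖ ≤ r →
      ∃ w : E, ‖w‖ ≤ r ∧ F t w = F s z ∧ ‖z - w‖ ≤ C * (t - s) := by
  obtain ⟨C, hC0, hC⟩ := exists_cara_bound (E := E) hr1
  refine ⟨C, hC0, fun s t hs hst z hz => ?_⟩
  rcases hst.eq_or_lt with heq | hlt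
  · refine ⟨z, hz, by rw [heq], ?_⟩
    rw [heq]; simp
  · obtain ⟨v, hvd, hvm, hv0, hvF, hvD⟩ := hF.transition hs hst
    have hzb : z ∈ ball (0 : E) 1 := by rw [mem_ball_zero_iff]; linarith
    have hlam1 : Real.exp (s - t) < 1 := by rw [Real.exp_lt_one_iff]; linarith
    have hvz : ‖v z‖ ≤ ‖z‖ := Complex.norm_le_norm_of_mapsTo_ball hvd
        (hvm.mono_right ball_subset_closedBall) hv0 (mem_ball_zero_iff.1 hzb)
    refine ⟨v z, hvz.trans hz, hvF z hzb, ?_⟩
    have h1 := hC _ (cara_quot hvd hvm hv0 hlam1 hvD) z hz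
    rw [norm_smul, norm_inv] at h1
    have h2 : ‖(1 - ((Real.exp (s - t) : ℝ) : ℂ))‖ = 1 - Real.exp (s - t) := by
      have : (1 - ((Real.exp (s - t) : ℝ) : ℂ)) = ((1 - Real.exp (s - t) : ℝ) : ℂ) := by
        push_cast; ring
      rw [this, Complex.norm_real, Real.norm_of_nonneg (by linarith)]
    rw [h2, inv_mul_le_iff₀ (by linarith)] at h1
    calc ‖z - v z‖ ≤ (1 - Real.exp (s - t)) * C := h1
      _ ≤ (t - s) * C := by
          apply mul_le_mul_of_nonneg_right (exp_diff_facts hst).2 hC0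
      _ = C * (t - s) := mul_comm _ _

/-- Chains are locally Lipschitz in the space variable. -/
theorem LC.fderiv_bound {F : ℝ → E → E} (hF : LC F) {r : ℝ} (hr1 : r < 1) (T : ℝ) :
    ∃ K : ℝ, 0 ≤ K ∧ ∀ t : ℝ, 0 ≤ t → t ≤ T → ∀ z : E, ‖z‖ ≤ r → ‖fderiv ℂ (F t) z‖ ≤ K := by
  obtain ⟨M, hM⟩ := hF.bdd ((1 + r) / 2) (by linarith)
  set M' : ℝ := |M| * Real.exp T with hM'
  have hM'0 : 0 ≤ M' := by positivity
  refine ⟨4 * M' / ((1 - r) / 2), by
    have : 0 < (1 - r) / 2 := by linarith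
    positivity, fun t ht htT z hz => ?_⟩
  have hsub : ∀ w ∈ ball z ((1 - r) / 2), ‖w‖ ≤ (1 + r) / 2 := by
    intro w hw
    rw [mem_ball, dist_eq_norm] at hw
    calc ‖w‖ = ‖(w - z) + z‖ := by simp
      _ ≤ ‖w - z‖ + ‖z‖ := norm_add_le _ _
      _ ≤ (1 + r) / 2 := by linarith
  apply norm_fderiv_le_half (c := z) (R := (1 - r) / 2) (M := M')
  · apply (hF.holo t ht).mono
    intro w hw
    rw [mem_ball_zero_iff]
    linarith [hsub w hw]
  · intro w hw
    refine (hM t ht w (hsub w hw)).trans ?_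
    calc M * Real.exp t ≤ |M| * Real.exp t := by gcongr; exact le_abs_self M
      _ ≤ |M| * Real.exp T := by gcongr
  · exact mem_ball_self (by linarith)

/-- Chains are locally Lipschitz in time, locally uniformly in space. -/
theorem LC.lip {F : ℝ → E → E} (hF : LC F) {r : ℝ} (hr1 : r < 1) (T : ℝ) :
    ∃ K : ℝ, 0 ≤ K ∧ ∀ s t : ℝ, 0 ≤ s → s ≤ t → t ≤ T → ∀ z : E, ‖z‖ ≤ r →
      ‖F t z - F s z‖ ≤ K * (t - s) := by
  obtain ⟨C, hC0, hC⟩ := hF.transition_close hr1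
  obtain ⟨K, hK0, hK⟩ := hF.fderiv_bound hr1 T
  refine ⟨K * C, by positivity, fun s t hs hst htT z hz => ?_⟩
  obtain ⟨w, hw, hwF, hwz⟩ := hC s t hs hst z hz
  have ht : 0 ≤ t := hs.trans hst
  rw [← hwF]
  have h1 : ‖F t z - F t w‖ ≤ K * ‖z - w‖ := by
    have hconv : Convex ℝ (closedBall (0 : E) r) := convex_closedBall _ _
    apply Convex.norm_image_sub_le_of_norm_fderiv_le (𝕜 := ℂ) (s := closedBall (0 : E) r) _ _
      hconv
    · simpa using hw
    · simpa using hz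
    · intro x hx
      have hx' : ‖x‖ ≤ r := by simpa using hx
      exact (hF.holo t ht).differentiableAt (isOpen_ball.mem_nhds (by
        rw [mem_ball_zero_iff]; linarith))
    · intro x hx
      exact hK t ht htT x (by simpa using hx)
  calc ‖F t z - F t w‖ ≤ K * ‖z - w‖ := h1
    _ ≤ K * (C * (t - s)) := by gcongr
    _ = K * C * (t - s) := by ring

/-- Time regularity of the derivatives. -/
theorem LC.fderiv_lip {F : ℝ → E → E} (hF : LC F) {r : ℝ} (hr1 : r < 1) (T : ℝ) :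
    ∃ K : ℝ, 0 ≤ K ∧ ∀ s t : ℝ, 0 ≤ s → s ≤ t → t ≤ T → ∀ z : E, ‖z‖ ≤ r →
      ‖fderiv ℂ (F t) z - fderiv ℂ (F s) z‖ ≤ K * (t - s) := by
  obtain ⟨K, hK0, hK⟩ := hF.lip (r := (1 + r) / 2) (by linarith) T
  refine ⟨4 * K / ((1 - r) / 2), by
    have : 0 < (1 - r) / 2 := by linarith
    positivity, fun s t hs hst htT z hz => ?_⟩
  have ht : 0 ≤ t := hs.trans hst
  have hsub : ∀ w ∈ ball z ((1 - r) / 2), ‖w‖ ≤ (1 + r) / 2 := by
    intro w hw
    rw [mem_ball, dist_eq_norm] at hw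
    calc ‖w‖ = ‖(w - z) + z‖ := by simp
      _ ≤ ‖w - z‖ + ‖z‖ := norm_add_le _ _
      _ ≤ (1 + r) / 2 := by linarith
  have hsub1 : ball z ((1 - r) / 2) ⊆ ball 0 1 := by
    intro w hw
    rw [mem_ball_zero_iff]
    linarith [hsub w hw]
  have hzm : z ∈ ball z ((1 - r) / 2 / 2) := mem_ball_self (by linarith)
  have hzb : z ∈ ball (0 : E) 1 := by rw [mem_ball_zero_iff]; linarith
  have h1 := norm_fderiv_le_half (f := fun x => F t x - F s x) (c := z) (R := (1 - r) / 2)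
    (M := K * (t - s)) (((hF.holo t ht).mono hsub1).fun_sub ((hF.holo s hs).mono hsub1))
    (fun w hw => hK s t hs hst htT w (hsub w hw)) hzm
  rw [fderiv_fun_sub ((hF.holo t ht).differentiableAt (isOpen_ball.mem_nhds hzb))
    ((hF.holo s hs).differentiableAt (isOpen_ball.mem_nhds hzb))] at h1
  calc _ ≤ _ := h1
    _ = _ := by ring

/-- Decay of the normalized second coefficients. -/
theorem LC.tc_bound {F : ℝ → E → E} (hF : LC F) :
    ∃ M : ℝ, 0 ≤ M ∧ ∀ t : ℝ, 0 ≤ t → ∀ u : E, ‖u‖ ≤ 1 →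
      ‖tc 2 (fun ζ : ℂ => F t (ζ • u))‖ ≤ M * Real.exp t := by
  obtain ⟨M, hM⟩ := hF.bdd (1 / 2) (by norm_num)
  refine ⟨4 * |M|, by positivity, fun t ht u hu => ?_⟩
  have h1 := norm_tc_two_le (hF.holo t ht) hu (r := 1 / 2) (C := |M| * Real.exp t) (by norm_num)
    (by norm_num) (fun z hz => (hM t ht z hz).trans (by gcongr; exact le_abs_self M))
  refine h1.trans (le_of_eq ?_)
  ring

/-- The sharp bound for the slice coefficient. -/
theorem LC.re_tc_le {F : ℝ → E → E} (hF : LC F) (hcara : ∀ g : E → E, Cara g → ∀ u : E, ‖u‖ = 1 →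
      ‖inner ℂ u (tc 2 (fun ζ : ℂ => g (ζ • u)))‖ ≤ 2) {u : E} (hu : ‖u‖ = 1) {t : ℝ}
    (ht : 0 ≤ t) : (inner ℂ u (tc 2 (fun ζ : ℂ => F t (ζ • u)))).re ≤ 2 * Real.exp t := by
  set b : ℝ → ℝ := fun s => Real.exp (-s) * (inner ℂ u (tc 2 (fun ζ : ℂ => F s (ζ • u)))).re with hb
  obtain ⟨M, hM0, hM⟩ := hF.tc_bound
  have hbM : ∀ s, 0 ≤ s → b s ≤ M := by
    intro s hs
    have h1 : (inner ℂ u (tc 2 (fun ζ : ℂ => F s (ζ • u)))).re ≤ M * Real.exp s := by
      refine ((le_abs_self _).trans (Complex.abs_re_le_norm _)).trans ?_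
      refine (norm_inner_le_norm _ _).trans ?_
      rw [hu, one_mul]
      exact hM s hs u hu.le
    have h2 : Real.exp (-s) * Real.exp s = 1 := by rw [← Real.exp_add]; simp
    calc b s ≤ Real.exp (-s) * (M * Real.exp s) := by simp only [hb]; gcongr
      _ = M * (Real.exp (-s) * Real.exp s) := by ring
      _ = M := by rw [h2, mul_one]
  have hstep : ∀ s, 0 ≤ s → ∀ δ, 0 < δ → b s ≤ 2 * (Real.exp δ - 1) + Real.exp (-δ) * b (s + δ) := by
    intro s hs δ hδ
    obtain ⟨g, hg, hgu⟩ := hF.tc_two hs (by linarith : s < s + δ)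
    have h1 := hgu u hu
    have h2 := hcara g hg u hu
    have h3 : -2 ≤ (inner ℂ u (tc 2 (fun ζ : ℂ => g (ζ • u)))).re :=
      (abs_le.1 ((Complex.abs_re_le_norm _).trans h2)).1
    have e0 : s - (s + δ) = -δ := by ring
    rw [e0] at h1
    have h4 : (inner ℂ u (tc 2 (fun ζ : ℂ => F s (ζ • u)))).re =
        Real.exp (-δ) ^ 2 * (inner ℂ u (tc 2 (fun ζ : ℂ => F (s + δ) (ζ • u)))).re -
          Real.exp (s + δ) * (1 - Real.exp (-δ)) *
            (inner ℂ u (tc 2 (fun ζ : ℂ => g (ζ • u)))).re := by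
      rw [h1, inner_sub_right, inner_smul_right, inner_smul_right, Complex.sub_re,
        Complex.re_ofReal_mul, ← Complex.ofReal_pow, Complex.re_ofReal_mul]
    simp only [hb]
    rw [h4]
    have e1 : Real.exp (-s) * Real.exp (s + δ) = Real.exp δ := by rw [← Real.exp_add]; congr 1; ring
    have e2 : Real.exp (-δ) * Real.exp δ = 1 := by rw [← Real.exp_add]; simp
    have e3 : Real.exp (-(s + δ)) = Real.exp (-s) * Real.exp (-δ) := by
      rw [← Real.exp_add]; congr 1; ring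
    rw [e3]
    have e4 : Real.exp (-s) * (Real.exp (-δ) ^ 2 *
        (inner ℂ u (tc 2 (fun ζ : ℂ => F (s + δ) (ζ • u)))).re - Real.exp (s + δ) *
        (1 - Real.exp (-δ)) * (inner ℂ u (tc 2 (fun ζ : ℂ => g (ζ • u)))).re) =
        Real.exp (-δ) * (Real.exp (-s) * Real.exp (-δ) *
          (inner ℂ u (tc 2 (fun ζ : ℂ => F (s + δ) (ζ • u)))).re) -
        (Real.exp (-s) * Real.exp (s + δ)) * (1 - Real.exp (-δ)) *
          (inner ℂ u (tc 2 (fun ζ : ℂ => g (ζ • u)))).re := by ring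
    rw [e4, e1]
    have e5 : Real.exp δ * (1 - Real.exp (-δ)) = Real.exp δ - 1 := by linarith
    rw [e5]
    have h5 : 0 ≤ Real.exp δ - 1 := by
      have := Real.one_le_exp hδ.le
      linarith
    nlinarith
  set S : Set ℝ := b '' Ici 0 with hS
  have hSb : BddAbove S := ⟨M, by rintro _ ⟨t, ht, rfl⟩; exact hbM t ht⟩
  have hSn : S.Nonempty := ⟨_, ⟨0, mem_Ici.2 le_rfl, rfl⟩⟩
  set q : ℝ := sSup S with hq
  have hle : ∀ δ : ℝ, 0 < δ → q ≤ 2 * Real.exp δ := by
    intro δ hδ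
    have h1 : q ≤ 2 * (Real.exp δ - 1) + Real.exp (-δ) * q := by
      apply csSup_le hSn
      rintro _ ⟨s, hs, rfl⟩
      have hs' : (0 : ℝ) ≤ s := hs
      refine (hstep s hs' δ hδ).trans ?_
      have h2 : b (s + δ) ≤ q := le_csSup hSb ⟨s + δ, by
        show (0 : ℝ) ≤ s + δ
        linarith, rfl⟩
      have h3 := mul_le_mul_of_nonneg_left h2 (Real.exp_pos (-δ)).le
      linarith
    have h2 : Real.exp (-δ) * Real.exp δ = 1 := by rw [← Real.exp_add]; simp
    have h3 : Real.exp (-δ) < 1 := by rw [Real.exp_lt_one_iff]; linarith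
    have h4 : (1 - Real.exp (-δ)) * q ≤ (1 - Real.exp (-δ)) * (2 * Real.exp δ) := by
      have h5 : (1 - Real.exp (-δ)) * (2 * Real.exp δ) =
          2 * (Real.exp δ - Real.exp (-δ) * Real.exp δ) := by ring
      rw [h5, h2]
      linarith
    exact le_of_mul_le_mul_left h4 (by linarith)
  have hq2 : q ≤ 2 := by
    have h1 : Tendsto (fun δ : ℝ => 2 * Real.exp δ) (𝓝[>] 0) (𝓝 (2 * Real.exp 0)) := by
      apply Tendsto.mono_left _ nhdsWithin_le_nhds
      have : Continuous (fun δ : ℝ => 2 * Real.exp δ) := by fun_prop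
      exact this.tendsto 0
    rw [Real.exp_zero, mul_one] at h1
    apply ge_of_tendsto h1
    filter_upwards [self_mem_nhdsWithin] with δ hδ using hle δ hδ
  have hbt : b t ≤ 2 := (le_csSup hSb ⟨t, ht, rfl⟩).trans hq2
  have h2 : Real.exp (-t) * Real.exp t = 1 := by rw [← Real.exp_add]; simp
  have h3 : (inner ℂ u (tc 2 (fun ζ : ℂ => F t (ζ • u)))).re = b t * Real.exp t := by
    simp only [hb]
    rw [mul_comm (Real.exp (-t)), mul_assoc, h2, mul_one]
  rw [h3]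
  gcongr

end Lip

end Pool.Agent.Helper540
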