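import Mathlib

set_option autoImplicit false

namespace Pool.Agent.Helper540

open Metric Set Filter Topology

/-- The Koebe function. -/
noncomputable def kf (ζ : ℂ) : ℂ := ζ / (1 - ζ) ^ 2

/-- `R = sqrt ((1 - l) + l S^2)`, `S = (1 + ζ) / (1 - ζ)`. -/
noncomputable def koeR (l : ℝ) (ζ : ℂ) : ℂ :=
  Complex.sqrt ((1 - l) + l * ((1 + ζ) / (1 - ζ)) ^ 2)

/-- The Koebe transition map `k⁻¹ (l k(ζ))`. -/
noncomputable def koe (l : ℝ) (ζ : ℂ) : ℂ := (koeR l ζ - 1) / (koeR l ζ + 1)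

theorem one_sub_ne {ζ : ℂ} (hζ : ‖ζ‖ < 1) : (1 : ℂ) - ζ ≠ 0 := by
  intro h
  have : ζ = 1 := by linear_combination -h
  rw [this, norm_one] at hζ
  exact lt_irrefl _ hζ

theorem one_add_ne {ζ : ℂ} (hζ : ‖ζ‖ < 1) : (1 : ℂ) + ζ ≠ 0 := by
  intro h
  have : ζ = -1 := by linear_combination h
  rw [this, norm_neg, norm_one] at hζ
  exact lt_irrefl _ hζ

theorem cayley_re_pos {ζ : ℂ} (hζ : ‖ζ‖ < 1) : 0 < ((1 + ζ) / (1 - ζ)).re := by
  have hne := one_sub_ne hζ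
  have e1 : (1 + ζ) / (1 - ζ) = (1 + ζ) * (starRingEnd ℂ) (1 - ζ) * ((Complex.normSq (1 - ζ))⁻¹ : ℝ) := by
    rw [div_eq_mul_inv, Complex.inv_def]
    push_cast
    ring
  rw [e1, mul_comm, Complex.re_ofReal_mul]
  apply mul_pos (inv_pos.2 (Complex.normSq_pos.2 hne))
  simp only [map_sub, map_one, Complex.mul_re, Complex.add_re, Complex.one_re, Complex.sub_re,
    Complex.conj_re, Complex.add_im, Complex.one_im, Complex.sub_im, Complex.conj_im]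
  have h2 : ζ.re ^ 2 + ζ.im ^ 2 < 1 := by
    have h3 : ‖ζ‖ ^ 2 < 1 := by nlinarith [norm_nonneg ζ]
    rw [← Complex.normSq_eq_norm_sq, Complex.normSq_apply] at h3
    nlinarith
  nlinarith

theorem koeW_mem {l : ℝ} (h0 : 0 ≤ l) (h1 : l ≤ 1) {ζ : ℂ} (hζ : ‖ζ‖ < 1) :
    (1 - l : ℂ) + l * ((1 + ζ) / (1 - ζ)) ^ 2 ∈ Complex.slitPlane := by
  have hS := cayley_re_pos hζ
  set S : ℂ := (1 + ζ) / (1 - ζ) with hSdef
  rw [Complex.mem_slitPlane_iff]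
  have e1 : ((1 - l : ℂ) + l * S ^ 2).re = 1 - l + l * (S.re ^ 2 - S.im ^ 2) := by
    rw [Complex.add_re, Complex.re_ofReal_mul, sq, Complex.mul_re]
    simp
    ring_nf
    tauto
  have e2 : ((1 - l : ℂ) + l * S ^ 2).im = l * (2 * S.re * S.im) := by
    rw [Complex.add_im, Complex.im_ofReal_mul, sq, Complex.mul_im]
    simp
    ring_nf
    tauto
  rw [e1, e2]
  rcases h0.eq_or_lt with h | h
  · left; rw [← h]; norm_num
  · rcases eq_or_ne S.im 0 with h2 | h2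
    · left
      rw [h2]
      have : 0 < l * S.re ^ 2 := by positivity
      nlinarith
    · right
      positivity

theorem koeR_sq {l : ℝ} {ζ : ℂ} :
    koeR l ζ ^ 2 = (1 - l : ℂ) + l * ((1 + ζ) / (1 - ζ)) ^ 2 := by
  rw [koeR, Complex.sqrt]
  exact Complex.cpow_ofNat_inv_pow _ 2

theorem sqrt_re_pos {w : ℂ} (hw : w ∈ Complex.slitPlane) : 0 < (Complex.sqrt w).re := by
  rw [Complex.sqrt, Complex.cpow_inv_two_re]
  apply Real.sqrt_pos.2
  rw [Complex.mem_slitPlane_iff] at hw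
  have h1 := Complex.abs_re_le_norm w
  have h3 := neg_abs_le w.re
  rcases hw with h | h
  · have := norm_nonneg w; linarith
  · have h4 : |w.re| < ‖w‖ := by
      refine lt_of_le_of_ne h1 ?_
      intro h5
      have h6 : ‖w‖ ^ 2 = w.re ^ 2 + w.im ^ 2 := by
        rw [← Complex.normSq_eq_norm_sq, Complex.normSq_apply]; ring
      rw [← h5, sq_abs] at h6
      have : w.im ^ 2 = 0 := by linarith
      exact h (by simpa using this)
    linarith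

theorem koeR_re_pos {l : ℝ} (h0 : 0 ≤ l) (h1 : l ≤ 1) {ζ : ℂ} (hζ : ‖ζ‖ < 1) :
    0 < (koeR l ζ).re := sqrt_re_pos (koeW_mem h0 h1 hζ)

theorem koeR_add_ne {l : ℝ} (h0 : 0 ≤ l) (h1 : l ≤ 1) {ζ : ℂ} (hζ : ‖ζ‖ < 1) :
    koeR l ζ + 1 ≠ 0 := by
  intro h
  have h2 := koeR_re_pos h0 h1 hζ
  have h3 : (koeR l ζ + 1).re = 0 := by rw [h]; rfl
  rw [Complex.add_re, Complex.one_re] at h3
  linarith

theorem koe_norm_lt {l : ℝ} (h0 : 0 ≤ l) (h1 : l ≤ 1) {ζ : ℂ} (hζ : ‖ζ‖ < 1) :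
    ‖koe l ζ‖ < 1 := by
  have h2 := koeR_re_pos h0 h1 hζ
  have h3 := koeR_add_ne h0 h1 hζ
  rw [koe, norm_div, div_lt_one (norm_pos_iff.2 h3)]
  have h4 : ‖koeR l ζ - 1‖ ^ 2 < ‖koeR l ζ + 1‖ ^ 2 := by
    rw [← Complex.normSq_eq_norm_sq, ← Complex.normSq_eq_norm_sq, Complex.normSq_apply,
      Complex.normSq_apply]
    simp
    nlinarith
  exact (pow_lt_pow_iff_left₀ (norm_nonneg _) (norm_nonneg _) two_ne_zero).1 h4

theorem kf_koe {l : ℝ} (h0 : 0 ≤ l) (h1 : l ≤ 1) {ζ : ℂ} (hζ : ‖ζ‖ < 1) :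
    kf (koe l ζ) = l * kf ζ := by
  have h3 := koeR_add_ne h0 h1 hζ
  have h4 := one_sub_ne hζ
  have h5 := @koeR_sq l ζ
  set R := koeR l ζ with hR
  have e1 : kf (koe l ζ) = (R ^ 2 - 1) / 4 := by
    rw [kf, koe, ← hR]
    have e2 : 1 - (R - 1) / (R + 1) = 2 / (R + 1) := by field_simp; ring
    rw [e2]
    field_simp
    ring
  rw [e1, h5, kf]
  field_simp
  ring

theorem kf_inj {a b : ℂ} (ha : ‖a‖ < 1) (hb : ‖b‖ < 1) (h : kf a = kf b) : a = b := by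
  have ha' := one_sub_ne ha
  have hb' := one_sub_ne hb
  rw [kf, kf, div_eq_div_iff (pow_ne_zero 2 ha') (pow_ne_zero 2 hb')] at h
  have h1 : (a - b) * (1 - a * b) = 0 := by linear_combination h
  rcases mul_eq_zero.1 h1 with h2 | h2
  · exact sub_eq_zero.1 h2
  · exfalso
    have : ‖a * b‖ < 1 := by
      rw [norm_mul]; nlinarith [norm_nonneg a, norm_nonneg b]
    exact one_sub_ne this h2

theorem koe_one {ζ : ℂ} (hζ : ‖ζ‖ < 1) : koe 1 ζ = ζ := by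
  apply kf_inj (koe_norm_lt zero_le_one le_rfl hζ) hζ
  rw [kf_koe zero_le_one le_rfl hζ]
  simp

theorem koe_zero (l : ℝ) : koe l 0 = 0 := by
  rw [koe, koeR]
  simp

theorem koe_differentiableOn {l : ℝ} (h0 : 0 ≤ l) (h1 : l ≤ 1) :
    DifferentiableOn ℂ (koe l) (ball 0 1) := by
  intro ζ hζ
  have hζ' : ‖ζ‖ < 1 := by simpa using hζ
  have h2 := koeW_mem h0 h1 hζ'
  have h3 := koeR_add_ne h0 h1 hζ'
  have h4 := one_sub_ne hζ'
  have h5 : DifferentiableAt ℂ (koeR l) ζ := by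
    have h6 : DifferentiableAt ℂ (fun ζ : ℂ => (1 - l : ℂ) + l * ((1 + ζ) / (1 - ζ)) ^ 2) ζ := by
      fun_prop (disch := assumption)
    exact (Complex.differentiableAt_sqrt h2).comp ζ h6
  exact ((h5.sub_const 1).div (h5.add_const 1) h3).differentiableWithinAt

theorem koe_norm_le {l : ℝ} (h0 : 0 ≤ l) (h1 : l ≤ 1) {ζ : ℂ} (hζ : ‖ζ‖ < 1) :
    ‖koe l ζ‖ ≤ ‖ζ‖ := by
  apply Complex.norm_le_norm_of_mapsTo_ball (koe_differentiableOn h0 h1) _ (koe_zero l) hζ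
  intro w hw
  rw [mem_closedBall_zero_iff]
  exact (koe_norm_lt h0 h1 (by simpa using hw)).le

theorem koe_hasDerivAt {ζ : ℂ} (hζ : ‖ζ‖ < 1) {t : ℝ} (ht : 0 ≤ t) :
    HasDerivAt (fun s : ℝ => koe (Real.exp (-s)) ζ)
      (-(koe (Real.exp (-t)) ζ * ((1 - koe (Real.exp (-t)) ζ) / (1 + koe (Real.exp (-t)) ζ)))) t := by
  have hl0 : 0 ≤ Real.exp (-t) := (Real.exp_pos _).le
  have hl1 : Real.exp (-t) ≤ 1 := Real.exp_le_one_iff.2 (by linarith)
  set S2 : ℂ := ((1 + ζ) / (1 - ζ)) ^ 2 with hS2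
  have hW : HasDerivAt (fun s : ℝ => (1 - (Real.exp (-s) : ℝ) : ℂ) + (Real.exp (-s) : ℝ) * S2)
      (-((Real.exp (-t) : ℝ) : ℂ) * (S2 - 1)) t := by
    have h1 : HasDerivAt (fun s : ℝ => Real.exp (-s)) (-Real.exp (-t)) t := by
      have := (hasDerivAt_neg t).exp
      simpa using this
    have h2 : HasDerivAt (fun s : ℝ => ((Real.exp (-s) : ℝ) : ℂ)) ((-Real.exp (-t) : ℝ) : ℂ) t :=
      h1.ofReal_comp
    have h3 := (h2.const_sub 1).add (h2.mul_const S2)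
    refine h3.congr_deriv ?_
    push_cast
    ring
  have hmem := koeW_mem hl0 hl1 hζ
  have hRne := koeR_add_ne hl0 hl1 hζ
  have hRpos := koeR_re_pos hl0 hl1 hζ
  have hsq := @koeR_sq (Real.exp (-t)) ζ
  rw [← hS2] at hmem hsq
  obtain ⟨R', hR'⟩ : ∃ R', HasDerivAt (fun s : ℝ => koeR (Real.exp (-s)) ζ) R' t :=
    ⟨_, (Complex.hasDerivAt_sqrt hmem).comp t hW⟩
  have hR0 : koeR (Real.exp (-t)) ζ ≠ 0 := by
    intro h
    rw [h] at hRpos
    simp at hRpos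
  have h4 : 2 * koeR (Real.exp (-t)) ζ * R' = -((Real.exp (-t) : ℝ) : ℂ) * (S2 - 1) := by
    have h5 := hR'.fun_pow 2
    have h6 : (fun s : ℝ => koeR (Real.exp (-s)) ζ ^ 2) =
        fun s : ℝ => (1 - (Real.exp (-s) : ℝ) : ℂ) + (Real.exp (-s) : ℝ) * S2 := by
      ext s
      exact koeR_sq
    rw [h6] at h5
    have := h5.unique hW
    simpa using this
  set R := koeR (Real.exp (-t)) ζ with hR
  have h7 : R' = -(R ^ 2 - 1) / (2 * R) := by
    rw [eq_div_iff (mul_ne_zero two_ne_zero hR0), hsq]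
    linear_combination h4
  have h8 := (hR'.sub_const 1).div (hR'.add_const 1) hRne
  have h9 : HasDerivAt (fun s : ℝ => koe (Real.exp (-s)) ζ)
      ((R' * (R + 1) - (R - 1) * R') / (R + 1) ^ 2) t := h8
  refine h9.congr_deriv ?_
  have e3 : koe (Real.exp (-t)) ζ = (R - 1) / (R + 1) := rfl
  have e4 : 1 - (R - 1) / (R + 1) = 2 / (R + 1) := by field_simp; ring
  have e5 : 1 + (R - 1) / (R + 1) = 2 * R / (R + 1) := by field_simp; ring
  rw [e3, e4, e5, h7]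
  field_simp
  ring

theorem koe_tendsto {ζ : ℂ} (hζ : ‖ζ‖ < 1) :
    Tendsto (fun t : ℝ => ((Real.exp t : ℝ) : ℂ) * koe (Real.exp (-t)) ζ) atTop (𝓝 (kf ζ)) := by
  have hb : ∀ t : ℝ, 0 ≤ t → ‖koe (Real.exp (-t)) ζ‖ ≤ 4 * (Real.exp (-t) * ‖kf ζ‖) := by
    intro t ht
    have hl0 : 0 ≤ Real.exp (-t) := (Real.exp_pos _).le
    have hl1 : Real.exp (-t) ≤ 1 := Real.exp_le_one_iff.2 (by linarith)
    have h1 := kf_koe hl0 hl1 hζ
    have h2 := koe_norm_lt hl0 hl1 hζ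
    have h3 := one_sub_ne h2
    rw [kf, div_eq_iff (pow_ne_zero 2 h3)] at h1
    rw [h1, norm_mul, norm_mul, norm_pow, Complex.norm_real, Real.norm_of_nonneg hl0]
    have h4 : ‖1 - koe (Real.exp (-t)) ζ‖ ≤ 2 := by
      calc _ ≤ ‖(1 : ℂ)‖ + ‖koe (Real.exp (-t)) ζ‖ := norm_sub_le _ _
        _ ≤ 2 := by rw [norm_one]; linarith
    have h5 : ‖1 - koe (Real.exp (-t)) ζ‖ ^ 2 ≤ 4 := by
      have := norm_nonneg (1 - koe (Real.exp (-t)) ζ)
      nlinarith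
    calc _ ≤ Real.exp (-t) * ‖kf ζ‖ * 4 := by gcongr
      _ = _ := by ring
  have hexp : Tendsto (fun t : ℝ => Real.exp (-t)) atTop (𝓝 0) :=
    Real.tendsto_exp_neg_atTop_nhds_zero
  have h0 : Tendsto (fun t : ℝ => koe (Real.exp (-t)) ζ) atTop (𝓝 0) := by
    apply squeeze_zero_norm' (a := fun t => 4 * (Real.exp (-t) * ‖kf ζ‖))
    · filter_upwards [eventually_ge_atTop 0] with t ht using hb t ht
    · have := (hexp.mul_const ‖kf ζ‖).const_mul 4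
      simpa using this
  have h1 : Tendsto (fun t : ℝ => (1 - koe (Real.exp (-t)) ζ) ^ 2 * kf ζ) atTop (𝓝 (kf ζ)) := by
    have := ((h0.const_sub 1).pow 2).mul_const (kf ζ)
    simpa using this
  refine h1.congr' ?_
  filter_upwards [eventually_ge_atTop 0] with t ht
  have hl0 : 0 ≤ Real.exp (-t) := (Real.exp_pos _).le
  have hl1 : Real.exp (-t) ≤ 1 := Real.exp_le_one_iff.2 (by linarith)
  have h2 := kf_koe hl0 hl1 hζ
  have h3 := one_sub_ne (koe_norm_lt hl0 hl1 hζ)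
  rw [kf, div_eq_iff (pow_ne_zero 2 h3)] at h2
  have h4 : ((Real.exp t : ℝ) : ℂ) * ((Real.exp (-t) : ℝ) : ℂ) = 1 := by
    rw [← Complex.ofReal_mul, ← Real.exp_add]; simp
  calc (1 - koe (Real.exp (-t)) ζ) ^ 2 * kf ζ
      = (((Real.exp t : ℝ) : ℂ) * ((Real.exp (-t) : ℝ) : ℂ)) *
          ((1 - koe (Real.exp (-t)) ζ) ^ 2 * kf ζ) := by rw [h4, one_mul]
    _ = ((Real.exp t : ℝ) : ℂ) * (((Real.exp (-t) : ℝ) : ℂ) * kf ζ *
          (1 - koe (Real.exp (-t)) ζ) ^ 2) := by ring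
    _ = ((Real.exp t : ℝ) : ℂ) * koe (Real.exp (-t)) ζ := by rw [← h2]

end Pool.Agent.Helper540
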