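import Mathlib
import Pool.Agent.Helper540.Koebe
import Pool.Agent.Helper540.Circ

set_option autoImplicit false

namespace Pool.Agent.Helper540

open Metric Set Filter Topology MeasureTheory

section MinP

theorem int_inv_sqrt : IntervalIntegrable (fun φ : ℝ => (Real.sqrt |φ - Real.pi|)⁻¹) volume 0
    (2 * Real.pi) := by
  have h0 : IntervalIntegrable (fun x : ℝ => (Real.sqrt |x|)⁻¹) volume 0 Real.pi := by
    have h1 : IntervalIntegrable (fun x : ℝ => x ^ (-(1 / 2) : ℝ)) volume 0 Real.pi :=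
      intervalIntegral.intervalIntegrable_rpow' (by norm_num)
    refine h1.congr ?_
    intro x hx
    rw [uIoc_of_le Real.pi_pos.le] at hx
    simp only
    rw [abs_of_pos hx.1, Real.sqrt_eq_rpow, ← Real.rpow_neg hx.1.le]
  have h1 : IntervalIntegrable (fun φ : ℝ => (Real.sqrt |φ - Real.pi|)⁻¹) volume Real.pi
      (2 * Real.pi) := by
    have := h0.comp_sub_right Real.pi
    rw [zero_add] at this
    rw [two_mul]
    exact this
  have h2 : IntervalIntegrable (fun φ : ℝ => (Real.sqrt |φ - Real.pi|)⁻¹) volume 0 Real.pi := by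
    have := h0.comp_sub_left Real.pi
    rw [sub_zero, sub_self] at this
    refine this.symm.congr ?_
    intro x _
    simp only
    rw [abs_sub_comm]
  exact h2.trans h1

/-- The Cayley transform. -/
noncomputable def wq (z : ℂ) : ℂ := (1 + z) / (1 - z)

noncomputable def uu (l : ℝ) (z : ℂ) : ℂ := ((wq z) ^ 2 - (1 - l)) / l

noncomputable def Phi (l : ℝ) (z : ℂ) : ℝ :=
  ‖wq z‖ * ‖wq z + 1‖ ^ 2 * Real.sqrt ((‖uu l z‖ - (uu l z).re) / 2) /
    (l * |(wq z).im| * Real.sqrt ‖uu l z‖ *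
      (‖uu l z‖ + 1 + 2 * Real.sqrt ((‖uu l z‖ + (uu l z).re) / 2)))

/-- The weight. -/
noncomputable def Th2 (z : ℂ) : ℝ := (1 - ‖z‖ ^ 2) * ‖wq z‖ / ‖1 - z‖ ^ 4

theorem wq_add_one {z : ℂ} (hz : 1 - z ≠ 0) : wq z + 1 = 2 / (1 - z) := by
  rw [wq]; field_simp; ring

theorem wq_re {z : ℂ} (hz : 1 - z ≠ 0) : (wq z).re = (1 - ‖z‖ ^ 2) / ‖1 - z‖ ^ 2 := by
  have h1 : 0 < ‖1 - z‖ ^ 2 := by have := norm_pos_iff.2 hz; positivity
  rw [eq_div_iff h1.ne', mul_comm]
  have h2 : ((‖1 - z‖ ^ 2 : ℝ) : ℂ) * wq z = (1 + z) * (starRingEnd ℂ) (1 - z) := by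
    rw [← Complex.normSq_eq_norm_sq, ← Complex.mul_conj, wq]
    field_simp
  have h3 := congrArg Complex.re h2
  rw [Complex.re_ofReal_mul] at h3
  rw [h3]
  have h10 : ‖z‖ ^ 2 = z.re ^ 2 + z.im ^ 2 := by
    rw [← Complex.normSq_eq_norm_sq, Complex.normSq_apply]; ring
  rw [h10]
  simp only [map_sub, map_one, Complex.mul_re, Complex.sub_re, Complex.one_re,
    Complex.add_re, Complex.conj_re, Complex.sub_im, Complex.one_im, Complex.add_im,
    Complex.conj_im]
  ring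

theorem wq_im {z : ℂ} (hz : 1 - z ≠ 0) : (wq z).im = 2 * z.im / ‖1 - z‖ ^ 2 := by
  have h1 : 0 < ‖1 - z‖ ^ 2 := by have := norm_pos_iff.2 hz; positivity
  rw [eq_div_iff h1.ne', mul_comm]
  have h2 : ((‖1 - z‖ ^ 2 : ℝ) : ℂ) * wq z = (1 + z) * (starRingEnd ℂ) (1 - z) := by
    rw [← Complex.normSq_eq_norm_sq, ← Complex.mul_conj, wq]
    field_simp
  have h3 := congrArg Complex.im h2
  rw [Complex.im_ofReal_mul] at h3
  rw [h3]
  simp only [map_sub, map_one, Complex.mul_im, Complex.sub_re, Complex.one_re,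
    Complex.add_re, Complex.conj_re, Complex.sub_im, Complex.one_im, Complex.add_im,
    Complex.conj_im]
  ring

theorem Th2_eq {z : ℂ} (hz : 1 - z ≠ 0) :
    Th2 z = (wq z).re * ‖wq z‖ * ‖wq z + 1‖ ^ 2 / 4 := by
  rw [wq_re hz, wq_add_one hz, Th2, norm_div, div_pow]
  have h1 : 0 < ‖1 - z‖ := norm_pos_iff.2 hz
  norm_num
  field_simp

theorem continuousAt_Phi {l : ℝ} (hl : 0 < l) {z : ℂ} (hz : 1 - z ≠ 0) (him : z.im ≠ 0)
    (hu : uu l z ≠ 0) : ContinuousAt (Phi l) z := by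
  have hw : ContinuousAt wq z := by
    unfold wq
    fun_prop (disch := assumption)
  have hlc : (l : ℂ) ≠ 0 := by exact_mod_cast hl.ne'
  have hU : ContinuousAt (uu l) z := by
    unfold uu
    fun_prop (disch := assumption)
  have hur : ContinuousAt (fun z => (uu l z).re) z := Complex.continuous_re.continuousAt.comp hU
  have hwi : ContinuousAt (fun z => (wq z).im) z := Complex.continuous_im.continuousAt.comp hw
  unfold Phi
  apply ContinuousAt.div
  · fun_prop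
  · fun_prop
  · have h1 : (wq z).im ≠ 0 := by
      rw [wq_im hz]
      have := norm_pos_iff.2 hz
      positivity
    have h2 : 0 < ‖uu l z‖ := norm_pos_iff.2 hu
    positivity

theorem Phi_boundary {l : ℝ} (hl : 0 < l) (hl1 : l < 1) {z : ℂ} (hz : ‖z‖ = 1)
    (him : z.im ≠ 0) : 1 - z ≠ 0 ∧ uu l z ≠ 0 ∧ Phi l z = 1 := by
  have h1z : 1 - z ≠ 0 := by
    intro h
    have : z = 1 := by linear_combination -h
    rw [this] at him
    simp at him
  have hre : (wq z).re = 0 := by rw [wq_re h1z, hz]; simp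
  have him' : (wq z).im ≠ 0 := by
    rw [wq_im h1z]
    have := norm_pos_iff.2 h1z
    positivity
  set y : ℝ := (wq z).im with hy
  have hw : wq z = (y : ℂ) * Complex.I := by
    apply Complex.ext
    · simp [hre]
    · simp [hy]
  set K : ℝ := (y ^ 2 + (1 - l)) / l with hK
  have hK0 : 0 < K := by
    rw [hK]
    have : 0 < y ^ 2 := by positivity
    apply div_pos _ hl
    linarith
  have hu : uu l z = ((-K : ℝ) : ℂ) := by
    rw [uu, hw, hK, mul_pow, Complex.I_sq]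
    push_cast
    field_simp
    ring
  have hun : ‖uu l z‖ = K := by
    rw [hu, Complex.norm_real, norm_neg, Real.norm_of_nonneg hK0.le]
  refine ⟨h1z, ?_, ?_⟩
  · rw [hu]
    exact_mod_cast (by linarith : (-K : ℝ) ≠ 0)
  · rw [Phi, hun, ← hy]
    have hur : (uu l z).re = -K := by rw [hu, Complex.ofReal_re]
    rw [hur]
    have e1 : (K - -K) / 2 = K := by ring
    have e2 : (K + -K) / 2 = 0 := by ring
    rw [e1, e2, Real.sqrt_zero]
    have e3 : ‖wq z‖ = |y| := by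
      rw [hw, norm_mul, Complex.norm_I, mul_one, Complex.norm_real, Real.norm_eq_abs]
    have e4 : ‖wq z + 1‖ ^ 2 = y ^ 2 + 1 := by
      rw [← Complex.normSq_eq_norm_sq, Complex.normSq_apply]
      simp [hre, ← hy]
      ring
    rw [e3, e4]
    have h1 : 0 < |y| := abs_pos.2 him'
    have h2 : 0 < Real.sqrt K := Real.sqrt_pos.2 hK0
    have h3 : l * (K + 1) = y ^ 2 + 1 := by
      rw [hK]; field_simp; ring
    rw [div_eq_one_iff_eq (by positivity), mul_zero, add_zero]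
    calc |y| * (y ^ 2 + 1) * Real.sqrt K = |y| * (l * (K + 1)) * Real.sqrt K := by rw [h3]
      _ = _ := by ring

/-- Upper bound for `Phi`. -/
theorem Phi_le {l : ℝ} (hl : 0 < l) {z : ℂ} (hz : 1 - z ≠ 0) (him : z.im ≠ 0) :
    Phi l z ≤ 2 * ‖1 + z‖ / (l * |z.im| * ‖1 - z‖) := by
  have h1 : 0 < ‖1 - z‖ := norm_pos_iff.2 hz
  have h2 : 0 < |z.im| := abs_pos.2 him
  have him' : (wq z).im ≠ 0 := by
    rw [wq_im hz]
    positivity
  have h3 : 0 < |(wq z).im| := abs_pos.2 him'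
  have hU : 0 ≤ ‖uu l z‖ := norm_nonneg _
  have hJ : Real.sqrt ((‖uu l z‖ - (uu l z).re) / 2) ≤ Real.sqrt ‖uu l z‖ := by
    apply Real.sqrt_le_sqrt
    have := (abs_le.1 (Complex.abs_re_le_norm (uu l z))).1
    linarith
  have hH : 0 ≤ Real.sqrt ((‖uu l z‖ + (uu l z).re) / 2) := Real.sqrt_nonneg _
  have hK : 0 ≤ Real.sqrt ‖uu l z‖ := Real.sqrt_nonneg _
  have step : Phi l z ≤ ‖wq z‖ * ‖wq z + 1‖ ^ 2 / (l * |(wq z).im|) := by
    rcases hK.eq_or_lt with h0 | h0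
    · rw [Phi, ← h0]
      simp only [mul_zero, zero_mul, div_zero]
      positivity
    · rw [Phi, div_le_div_iff₀ (by positivity) (by positivity)]
      calc ‖wq z‖ * ‖wq z + 1‖ ^ 2 * Real.sqrt ((‖uu l z‖ - (uu l z).re) / 2) *
            (l * |(wq z).im|)
          ≤ ‖wq z‖ * ‖wq z + 1‖ ^ 2 * Real.sqrt ‖uu l z‖ * (l * |(wq z).im|) := by gcongr
        _ = ‖wq z‖ * ‖wq z + 1‖ ^ 2 * (l * |(wq z).im| * Real.sqrt ‖uu l z‖ * 1) := by ring
        _ ≤ ‖wq z‖ * ‖wq z + 1‖ ^ 2 * (l * |(wq z).im| * Real.sqrt ‖uu l z‖ *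
            (‖uu l z‖ + 1 + 2 * Real.sqrt ((‖uu l z‖ + (uu l z).re) / 2))) := by
          gcongr
          linarith
  refine step.trans (le_of_eq ?_)
  rw [wq_add_one hz, wq_im hz, wq, norm_div, norm_div, abs_div, abs_mul,
    abs_of_pos (by positivity : (0 : ℝ) < ‖1 - z‖ ^ 2)]
  norm_num
  field_simp

theorem Phi_nonneg {l : ℝ} (hl : 0 < l) (z : ℂ) : 0 ≤ Phi l z := by
  rw [Phi]
  positivity

/-- Preimages under the Koebe transition map of nonreal points. -/
theorem exists_preimage {l : ℝ} (hl : 0 < l) {z : ℂ} (hz : ‖z‖ < 1)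
    (him : z.im ≠ 0) : ∃ ζ : ℂ, ‖ζ‖ < 1 ∧ koe l ζ = z ∧ 0 < (wq ζ).re ∧ wq ζ ^ 2 = uu l z := by
  have h1z := one_sub_ne hz
  have hwre : 0 < (wq z).re := cayley_re_pos hz
  have hwim : (wq z).im ≠ 0 := by
    rw [wq_im h1z]
    have := norm_pos_iff.2 h1z
    positivity
  have hlc : (l : ℂ) ≠ 0 := by exact_mod_cast hl.ne'
  have huim : (uu l z).im = 2 * (wq z).re * (wq z).im / l := by
    have h1 : uu l z = ((l⁻¹ : ℝ) : ℂ) * ((wq z) ^ 2 - ((1 - l : ℝ) : ℂ)) := by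
      rw [uu]; push_cast; field_simp
    rw [h1, Complex.im_ofReal_mul, Complex.sub_im, Complex.ofReal_im, sq, Complex.mul_im]
    field_simp
    ring
  have hum : uu l z ∈ Complex.slitPlane := by
    rw [Complex.mem_slitPlane_iff]
    right
    rw [huim]
    have := hwre.ne'
    positivity
  set Q := Complex.sqrt (uu l z) with hQ
  have hQre : 0 < Q.re := sqrt_re_pos hum
  have hQ2 : Q ^ 2 = uu l z := by
    rw [hQ, Complex.sqrt]
    exact Complex.cpow_ofNat_inv_pow _ 2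
  have hQ1 : Q + 1 ≠ 0 := by
    intro h
    have h3 : (Q + 1).re = 0 := by rw [h]; rfl
    rw [Complex.add_re, Complex.one_re] at h3
    linarith
  set ζ : ℂ := (Q - 1) / (Q + 1) with hζ
  have hζn : ‖ζ‖ < 1 := by
    rw [hζ, norm_div, div_lt_one (norm_pos_iff.2 hQ1)]
    have h4 : ‖Q - 1‖ ^ 2 < ‖Q + 1‖ ^ 2 := by
      rw [← Complex.normSq_eq_norm_sq, ← Complex.normSq_eq_norm_sq, Complex.normSq_apply,
        Complex.normSq_apply]
      simp
      nlinarith
    exact (pow_lt_pow_iff_left₀ (norm_nonneg _) (norm_nonneg _) two_ne_zero).1 h4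
  have hwζ : wq ζ = Q := by
    rw [wq, hζ]
    have h5 : 1 - (Q - 1) / (Q + 1) = 2 / (Q + 1) := by field_simp; ring
    rw [h5]
    field_simp
    ring
  refine ⟨ζ, hζn, ?_, by rw [hwζ]; exact hQre, by rw [hwζ, hQ2]⟩
  have hR : koeR l ζ = wq z := by
    rw [koeR]
    have h6 : (1 + ζ) / (1 - ζ) = Q := hwζ
    rw [h6, hQ2]
    have h7 : (1 - (l : ℂ)) + l * uu l z = (wq z) ^ 2 := by
      rw [uu]; field_simp; ring
    rw [h7, Complex.sqrt]
    apply Complex.sq_cpow_two_inv hwre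
  rw [koe, hR]
  have h8 : wq z + 1 ≠ 0 := by
    rw [wq_add_one h1z]
    exact div_ne_zero two_ne_zero h1z
  rw [div_eq_iff h8, wq]
  field_simp
  ring

theorem sq_le_Phi {l : ℝ} (hl : 0 < l) {g : ℂ → ℂ}
    (hyp : ∀ ζ : ℂ, ‖ζ‖ < 1 → ‖g (koe l ζ)‖ ^ 2 * (l ^ 2 * Th2 ζ) ≤ Th2 (koe l ζ)) {z : ℂ}
    (hz : ‖z‖ < 1) (him : z.im ≠ 0) : ‖g z‖ ^ 2 ≤ Phi l z := by
  obtain ⟨ζ, hζ, hkoe, hQre, hQ2⟩ := exists_preimage hl hz him
  have h1 := hyp ζ hζ
  have h1z := one_sub_ne hz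
  rw [hkoe, Th2_eq (one_sub_ne hζ), Th2_eq h1z] at h1
  set Q := wq ζ with hQ
  set w := wq z with hw
  set u := uu l z with hu
  have hwre : 0 < w.re := cayley_re_pos hz
  have hwim : w.im ≠ 0 := by
    rw [hw, wq_im h1z]
    have := norm_pos_iff.2 h1z
    positivity
  have hwi : 0 < |w.im| := abs_pos.2 hwim
  have hQn : ‖Q‖ ^ 2 = ‖u‖ := by rw [← hQ2, norm_pow]
  have hQn2 : ‖Q‖ ^ 2 = Q.re ^ 2 + Q.im ^ 2 := by
    rw [← Complex.normSq_eq_norm_sq, Complex.normSq_apply]; ring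
  have hure : u.re = Q.re ^ 2 - Q.im ^ 2 := by
    rw [← hQ2, sq, Complex.mul_re]; ring
  have huim : u.im = 2 * Q.re * Q.im := by
    rw [← hQ2, sq, Complex.mul_im]; ring
  have huim2 : u.im = 2 * w.re * w.im / l := by
    have h2 : u = ((l⁻¹ : ℝ) : ℂ) * (w ^ 2 - ((1 - l : ℝ) : ℂ)) := by
      rw [hu, uu, ← hw]
      have hlc : (l : ℂ) ≠ 0 := by exact_mod_cast hl.ne'
      push_cast; field_simp
    rw [h2, Complex.im_ofReal_mul, Complex.sub_im, Complex.ofReal_im, sq, Complex.mul_im]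
    field_simp
    ring
  have hprod : Q.re * |Q.im| * l = w.re * |w.im| := by
    have h3 : Q.re * Q.im * l = w.re * w.im := by
      have h4 := huim.symm.trans huim2
      field_simp at h4
      linarith
    have h4 := congrArg abs h3
    rw [abs_mul, abs_mul, abs_mul, abs_of_pos hQre, abs_of_pos hl, abs_of_pos hwre] at h4
    exact h4
  have eJ : Real.sqrt ((‖u‖ - u.re) / 2) = |Q.im| := by
    have : (‖u‖ - u.re) / 2 = Q.im ^ 2 := by rw [← hQn, hQn2, hure]; ring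
    rw [this, Real.sqrt_sq_eq_abs]
  have eH : Real.sqrt ((‖u‖ + u.re) / 2) = Q.re := by
    have : (‖u‖ + u.re) / 2 = Q.re ^ 2 := by rw [← hQn, hQn2, hure]; ring
    rw [this, Real.sqrt_sq hQre.le]
  have eK : Real.sqrt ‖u‖ = ‖Q‖ := by rw [← hQn, Real.sqrt_sq (norm_nonneg _)]
  have eN : ‖u‖ + 1 + 2 * Q.re = ‖Q + 1‖ ^ 2 := by
    rw [← hQn, hQn2, ← Complex.normSq_eq_norm_sq, Complex.normSq_apply]
    simp
    ring
  have hQ0 : 0 < ‖Q‖ := by
    rw [norm_pos_iff]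
    intro h
    rw [h] at hQre
    simp at hQre
  have hQ10 : 0 < ‖Q + 1‖ := by
    rw [norm_pos_iff]
    intro h
    have h3 : (Q + 1).re = 0 := by rw [h]; rfl
    rw [Complex.add_re, Complex.one_re] at h3
    linarith
  rw [Phi, ← hw, ← hu, eJ, eH, eK, eN, le_div_iff₀ (by positivity)]
  have h5 : w.re * (‖g z‖ ^ 2 * (l * |w.im| * ‖Q‖ * ‖Q + 1‖ ^ 2)) ≤
      w.re * (‖w‖ * ‖w + 1‖ ^ 2 * |Q.im|) := by
    calc w.re * (‖g z‖ ^ 2 * (l * |w.im| * ‖Q‖ * ‖Q + 1‖ ^ 2))
        = ‖g z‖ ^ 2 * (l * (w.re * |w.im|) * ‖Q‖ * ‖Q + 1‖ ^ 2) := by ring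
      _ = (‖g z‖ ^ 2 * (l ^ 2 * (Q.re * ‖Q‖ * ‖Q + 1‖ ^ 2 / 4))) * (4 * |Q.im|) := by
          rw [← hprod]; ring
      _ ≤ (w.re * ‖w‖ * ‖w + 1‖ ^ 2 / 4) * (4 * |Q.im|) := by gcongr
      _ = w.re * (‖w‖ * ‖w + 1‖ ^ 2 * |Q.im|) := by ring
  exact le_of_mul_le_mul_left h5 hwre

theorem measurable_Phi (l : ℝ) : Measurable (Phi l) := by
  unfold Phi uu wq
  fun_prop

theorem circle_re_im (r θ : ℝ) : (circleMap 0 r θ).re = r * Real.cos θ ∧
    (circleMap 0 r θ).im = r * Real.sin θ := by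
  rw [circleMap_zero, Complex.re_ofReal_mul, Complex.im_ofReal_mul, Complex.exp_ofReal_mul_I_re,
    Complex.exp_ofReal_mul_I_im]
  exact ⟨rfl, rfl⟩

theorem sin_ne_zero_of {θ : ℝ} (h0 : 0 < θ) (h2 : θ < 2 * Real.pi) (hne : θ ≠ Real.pi) :
    Real.sin θ ≠ 0 := by
  rcases lt_or_gt_of_ne hne with h | h
  · exact (Real.sin_pos_of_pos_of_lt_pi h0 h).ne'
  · have h1 : 0 < Real.sin (θ - Real.pi) :=
      Real.sin_pos_of_pos_of_lt_pi (by linarith) (by linarith)
    rw [Real.sin_sub_pi] at h1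
    intro h3
    rw [h3] at h1
    simp at h1

theorem abs_sub_pi_le {θ : ℝ} (h0 : 0 ≤ θ) (h2 : θ ≤ 2 * Real.pi) :
    (θ - Real.pi) ^ 2 / Real.pi ^ 2 ≤ 1 + Real.cos θ := by
  have hpi := Real.pi_pos
  set x : ℝ := |θ - Real.pi| / 2 with hx
  have hx0 : 0 ≤ x := by positivity
  have hxp : x ≤ Real.pi / 2 := by
    have : |θ - Real.pi| ≤ Real.pi := by rw [abs_le]; constructor <;> linarith
    rw [hx]; linarith
  have h1 := Real.mul_le_sin hx0 hxp
  have h3 : 1 + Real.cos θ = 2 * Real.sin x ^ 2 := by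
    have h4 : Real.cos θ = -Real.cos (2 * x) := by
      have h5 : 2 * x = |θ - Real.pi| := by rw [hx]; ring
      rw [h5, Real.cos_abs, Real.cos_sub_pi, neg_neg]
    rw [h4, Real.cos_two_mul, Real.cos_sq']
    ring
  have h6 : 2 / Real.pi * x = |θ - Real.pi| / Real.pi := by rw [hx]; field_simp
  rw [h6] at h1
  have h7 : (|θ - Real.pi| / Real.pi) ^ 2 ≤ Real.sin x ^ 2 := by
    apply pow_le_pow_left₀ (by positivity) h1
  rw [div_pow, sq_abs] at h7
  rw [h3]
  have h8 : 0 ≤ Real.sin x ^ 2 := by positivity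
  linarith

/-- The boundary minimum principle. -/
theorem re_deriv_nonneg {l : ℝ} (hl : 0 < l) (hl1 : l < 1) {g : ℂ → ℂ}
    (hg : DifferentiableOn ℂ g (ball 0 1)) (hg0 : g 0 = 1)
    (hyp : ∀ ζ : ℂ, ‖ζ‖ < 1 → ‖g (koe l ζ)‖ ^ 2 * (l ^ 2 * Th2 ζ) ≤ Th2 (koe l ζ)) :
    0 ≤ (tc 1 g).re := by
  have hpi := Real.pi_pos
  set F : ℝ → ℝ → ℝ := fun r θ => (1 - Real.cos θ) * Real.sqrt (Phi l (circleMap 0 r θ)) with hF
  set bd : ℝ → ℝ := fun θ => Real.sqrt (16 * Real.pi / l) * (Real.sqrt |θ - Real.pi|)⁻¹ with hbd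
  have hbdi : IntervalIntegrable bd volume 0 (2 * Real.pi) := int_inv_sqrt.const_mul _
  have hae : ∀ᵐ θ : ℝ, θ ≠ Real.pi ∧ θ ≠ 2 * Real.pi := by
    have h1 : ∀ᵐ θ : ℝ, θ ≠ Real.pi := by simp [ae_iff, measure_singleton]
    have h2 : ∀ᵐ θ : ℝ, θ ≠ 2 * Real.pi := by simp [ae_iff, measure_singleton]
    filter_upwards [h1, h2] with θ h3 h4 using ⟨h3, h4⟩
  have hgood : ∀ θ : ℝ, θ ≠ Real.pi ∧ θ ≠ 2 * Real.pi → θ ∈ uIoc 0 (2 * Real.pi) →
      0 < θ ∧ θ < 2 * Real.pi ∧ Real.sin θ ≠ 0 := by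
    intro θ h1 h2
    rw [uIoc_of_le Real.two_pi_pos.le] at h2
    have h3 : θ < 2 * Real.pi := lt_of_le_of_ne h2.2 h1.2
    exact ⟨h2.1, h3, sin_ne_zero_of h2.1 h3 h1.1⟩
  have hmeas : ∀ r, AEStronglyMeasurable (F r) (volume.restrict (uIoc 0 (2 * Real.pi))) := by
    intro r
    apply Measurable.aestronglyMeasurable
    have h1 : Measurable (fun θ : ℝ => Phi l (circleMap 0 r θ)) :=
      (measurable_Phi l).comp (continuous_circleMap 0 r).measurable
    have h2 : Measurable (fun θ : ℝ => 1 - Real.cos θ) := by fun_prop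
    exact h2.mul h1.sqrt
  have hbound : ∀ r : ℝ, 1 / 2 < r → r < 1 → ∀ θ : ℝ, 0 < θ → θ < 2 * Real.pi →
      θ ≠ Real.pi → Real.sin θ ≠ 0 → ‖F r θ‖ ≤ bd θ := by
    intro r hr hr1 θ hθ0 hθ2 hθp hs
    have hr0 : 0 < r := by linarith
    obtain ⟨hzre, hzim⟩ := circle_re_im r θ
    set z := circleMap 0 r θ with hz
    have hzn : ‖z‖ = r := by rw [hz, norm_circleMap_zero, abs_of_pos hr0]
    have h1z : 1 - z ≠ 0 := one_sub_ne (by rw [hzn]; exact hr1)
    have him : z.im ≠ 0 := by rw [hzim]; positivity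
    set t : ℝ := 1 - Real.cos θ with ht
    have ht0 : 0 ≤ t := by have := Real.cos_le_one θ; linarith
    have ht2 : t ≤ 2 := by have := Real.neg_one_le_cos θ; linarith
    have hsq : Real.sin θ ^ 2 = t * (1 + Real.cos θ) := by
      rw [Real.sin_sq]; ring
    have hn1 : t ≤ ‖1 - z‖ ^ 2 := by
      rw [← Complex.normSq_eq_norm_sq, Complex.normSq_apply]
      simp only [Complex.sub_re, Complex.one_re, Complex.sub_im, Complex.one_im, hzre, hzim]
      have h5 : (1 - r * Real.cos θ) * (1 - r * Real.cos θ) +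
          (0 - r * Real.sin θ) * (0 - r * Real.sin θ) = 1 - 2 * r * Real.cos θ + r ^ 2 := by
        have := Real.sin_sq_add_cos_sq θ
        nlinarith
      rw [h5]
      have := Real.cos_le_one θ
      nlinarith
    have hn2 : ‖1 + z‖ ≤ 2 := by
      calc ‖1 + z‖ ≤ ‖(1 : ℂ)‖ + ‖z‖ := norm_add_le _ _
        _ ≤ 2 := by rw [norm_one, hzn]; linarith
    have hPhi := Phi_le hl h1z him
    have h1zn : 0 < ‖1 - z‖ := norm_pos_iff.2 h1z
    have hsa : 0 < |Real.sin θ| := abs_pos.2 hs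
    have hPhi2 : Phi l z ≤ 8 / (l * (|Real.sin θ| * ‖1 - z‖)) := by
      refine hPhi.trans ?_
      rw [hzim, abs_mul, abs_of_pos hr0, div_le_div_iff₀ (by positivity) (by positivity)]
      have h6 : 0 ≤ l * (|Real.sin θ| * ‖1 - z‖) := by positivity
      calc 2 * ‖1 + z‖ * (l * (|Real.sin θ| * ‖1 - z‖))
          ≤ 2 * 2 * (l * (|Real.sin θ| * ‖1 - z‖)) := by gcongr
        _ ≤ 8 * r * (l * (|Real.sin θ| * ‖1 - z‖)) := by
            apply mul_le_mul_of_nonneg_right _ h6; linarith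
        _ = _ := by ring
    have hlow : t * |θ - Real.pi| / Real.pi ≤ |Real.sin θ| * ‖1 - z‖ := by
      have h7 : (t * |θ - Real.pi| / Real.pi) ^ 2 ≤ (|Real.sin θ| * ‖1 - z‖) ^ 2 := by
        rw [mul_pow (|Real.sin θ|), sq_abs, hsq, div_pow, mul_pow, sq_abs]
        have h8 := abs_sub_pi_le hθ0.le hθ2.le
        have h9 : 0 ≤ 1 + Real.cos θ := by have := Real.neg_one_le_cos θ; linarith
        calc t ^ 2 * (θ - Real.pi) ^ 2 / Real.pi ^ 2
            = t * t * ((θ - Real.pi) ^ 2 / Real.pi ^ 2) := by ring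
          _ ≤ t * t * (1 + Real.cos θ) := by gcongr
          _ = t * (1 + Real.cos θ) * t := by ring
          _ ≤ t * (1 + Real.cos θ) * ‖1 - z‖ ^ 2 := by gcongr
      exact (pow_le_pow_iff_left₀ (by positivity) (by positivity) two_ne_zero).1 h7
    have hθa : 0 < |θ - Real.pi| := abs_pos.2 (sub_ne_zero.2 hθp)
    have hFsq : (F r θ) ^ 2 ≤ (bd θ) ^ 2 := by
      simp only [hF, hbd]
      rw [mul_pow, mul_pow, inv_pow, Real.sq_sqrt (Phi_nonneg hl _),
        Real.sq_sqrt (by positivity), Real.sq_sqrt hθa.le, ← hz, ← ht]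
      calc t ^ 2 * Phi l z ≤ t ^ 2 * (8 / (l * (|Real.sin θ| * ‖1 - z‖))) := by gcongr
        _ ≤ 16 * Real.pi / l * |θ - Real.pi|⁻¹ := by
          rw [mul_div_assoc', ← div_eq_mul_inv, div_div, div_le_div_iff₀ (by positivity)
            (by positivity)]
          have h10 : t ^ 2 * |θ - Real.pi| ≤ 2 * Real.pi * (|Real.sin θ| * ‖1 - z‖) := by
            calc t ^ 2 * |θ - Real.pi| = Real.pi * t * (t * |θ - Real.pi| / Real.pi) := by
                  field_simp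
              _ ≤ Real.pi * t * (|Real.sin θ| * ‖1 - z‖) := by gcongr
              _ ≤ Real.pi * 2 * (|Real.sin θ| * ‖1 - z‖) := by gcongr
              _ = _ := by ring
          calc t ^ 2 * 8 * (l * |θ - Real.pi|) = 8 * l * (t ^ 2 * |θ - Real.pi|) := by ring
            _ ≤ 8 * l * (2 * Real.pi * (|Real.sin θ| * ‖1 - z‖)) := by gcongr
            _ = _ := by ring
    have hF0 : 0 ≤ F r θ := mul_nonneg ht0 (Real.sqrt_nonneg _)
    rw [Real.norm_of_nonneg hF0]
    have hbd0 : 0 ≤ bd θ := by simp only [hbd]; positivity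
    exact (pow_le_pow_iff_left₀ hF0 hbd0 two_ne_zero).1 hFsq
  have hI : ∀ r : ℝ, 1 / 2 < r → r < 1 → IntervalIntegrable (F r) volume 0 (2 * Real.pi) := by
    intro r hr hr1
    apply hbdi.mono_fun' (hmeas r)
    rw [EventuallyLE, ae_restrict_iff' measurableSet_uIoc]
    filter_upwards [hae] with θ hθ hθm
    obtain ⟨h1, h2, h3⟩ := hgood θ hθ hθm
    exact hbound r hr hr1 θ h1 h2 hθ.1 h3
  have hIoo : ∀ᶠ r : ℝ in 𝓝[<] 1, 1 / 2 < r ∧ r < 1 := by
    filter_upwards [Ioo_mem_nhdsLT (show (1 / 2 : ℝ) < 1 by norm_num)] with r hr using hr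
  have hlim : Tendsto (fun r => ∫ θ in (0 : ℝ)..(2 * Real.pi), F r θ) (𝓝[<] 1)
      (𝓝 (∫ θ in (0 : ℝ)..(2 * Real.pi), (1 - Real.cos θ))) := by
    apply intervalIntegral.tendsto_integral_filter_of_dominated_convergence bd
    · exact Eventually.of_forall hmeas
    · filter_upwards [hIoo] with r hr
      filter_upwards [hae] with θ hθ hθm
      obtain ⟨h1, h2, h3⟩ := hgood θ hθ hθm
      exact hbound r hr.1 hr.2 θ h1 h2 hθ.1 h3
    · exact hbdi
    · filter_upwards [hae] with θ hθ hθm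
      obtain ⟨h1, h2, h3⟩ := hgood θ hθ hθm
      obtain ⟨hzre, hzim⟩ := circle_re_im 1 θ
      have hz1 : ‖circleMap 0 1 θ‖ = 1 := by rw [norm_circleMap_zero, abs_one]
      have him : (circleMap 0 1 θ).im ≠ 0 := by rw [hzim, one_mul]; exact h3
      obtain ⟨k1, k2, k3⟩ := Phi_boundary hl hl1 hz1 him
      have hc := continuousAt_Phi hl k1 him k2
      have h4 : Tendsto (fun r : ℝ => circleMap 0 r θ) (𝓝[<] 1) (𝓝 (circleMap 0 1 θ)) := by
        apply Tendsto.mono_left _ nhdsWithin_le_nhds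
        have : Continuous (fun r : ℝ => circleMap 0 r θ) := by
          unfold circleMap; fun_prop
        exact this.tendsto 1
      have h5 := (hc.tendsto.comp h4).sqrt
      rw [k3, Real.sqrt_one] at h5
      have h6 := h5.const_mul (1 - Real.cos θ)
      rw [mul_one] at h6
      exact h6
  have hint : ∫ θ in (0 : ℝ)..(2 * Real.pi), (1 - Real.cos θ) = 2 * Real.pi := by
    rw [intervalIntegral.integral_sub (by simp) (by simp), integral_cos]
    simp
  rw [hint] at hlim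
  -- the average of `g`
  have hmain : ∀ r : ℝ, 1 / 2 < r → r < 1 →
      1 - r / 2 * (tc 1 g).re ≤ (2 * Real.pi)⁻¹ * ∫ θ in (0 : ℝ)..(2 * Real.pi), F r θ := by
    intro r hr hr1
    have hr0 : 0 < r := by linarith
    have hrc : (r : ℂ) ≠ 0 := by exact_mod_cast hr0.ne'
    have hdc : DiffContOnCl ℂ g (ball 0 r) :=
      DifferentiableOn.diffContOnCl_ball hg (closedBall_subset_ball hr1)
    have hco : ContinuousOn g (sphere 0 r) := hg.continuousOn.mono (sphere_subset_ball hr1)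
    have c1 : ContinuousOn (fun z => z ^ 1 * g z) (sphere 0 r) :=
      (by fun_prop : ContinuousOn (fun z : ℂ => z ^ 1) (sphere 0 r)).mul hco
    have c2 : ContinuousOn (fun z => (z ^ 1)⁻¹ * g z) (sphere 0 r) :=
      (ContinuousOn.inv₀ (by fun_prop)
        (fun w hw => pow_ne_zero _ (ne_zero_of_sphere hr0 hw))).mul hco
    have h1 : Real.circleAverage (g + ((fun z => (-(1 / (2 * r)) : ℂ) • (z ^ 1 * g z)) +
        fun z => (-(r / 2) : ℂ) • ((z ^ 1)⁻¹ * g z))) 0 r = 1 - (r / 2 : ℂ) * tc 1 g := by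
      have i1 := circInt hr0.le hco
      have i2 := circInt hr0.le c1
      have i3 := circInt hr0.le c2
      have a1 : Real.circleAverage g 0 r = 1 := by
        rw [← hg0]
        exact DiffContOnCl.circleAverage (c := (0 : ℂ)) (R := r) (by rw [abs_of_pos hr0]; exact hdc)
      have a2 : Real.circleAverage (fun z => z ^ 1 * g z) 0 r = 0 := by
        have := avg_pow_mul hr0 hdc 1
        simpa using this
      have a3 : Real.circleAverage (fun z => (z ^ 1)⁻¹ * g z) 0 r = tc 1 g :=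
        tc_circleAverage hr0 1 hdc
      rw [Real.circleAverage_add i1 (i2.const_fun_smul.add i3.const_fun_smul),
        Real.circleAverage_add i2.const_fun_smul i3.const_fun_smul,
        Real.circleAverage_fun_smul, Real.circleAverage_fun_smul, a1, a2, a3]
      simp
      ring
    have h2 : 1 - r / 2 * (tc 1 g).re = (1 - (r / 2 : ℂ) * tc 1 g).re := by
      have : (r / 2 : ℂ) * tc 1 g = ((r / 2 : ℝ) : ℂ) * tc 1 g := by push_cast; ring
      rw [Complex.sub_re, this, Complex.re_ofReal_mul, Complex.one_re]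
    rw [h2, ← h1]
    refine ((le_abs_self _).trans (Complex.abs_re_le_norm _)).trans ?_
    rw [Real.circleAverage, norm_smul, norm_inv, Real.norm_of_nonneg Real.two_pi_pos.le]
    apply mul_le_mul_of_nonneg_left _ (inv_nonneg.2 Real.two_pi_pos.le)
    apply intervalIntegral.norm_integral_le_of_norm_le Real.two_pi_pos.le _ (hI r hr hr1)
    filter_upwards [hae] with θ hθ hθm
    rw [← uIoc_of_le Real.two_pi_pos.le] at hθm
    obtain ⟨h4, h5, h6⟩ := hgood θ hθ hθm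
    obtain ⟨hzre, hzim⟩ := circle_re_im r θ
    set z := circleMap 0 r θ with hz
    have hzn : ‖z‖ = r := by rw [hz, norm_circleMap_zero, abs_of_pos hr0]
    have him : z.im ≠ 0 := by rw [hzim]; positivity
    have hz0 : z ≠ 0 := by
      intro h; rw [h] at him; simp at him
    have h7 := sq_le_Phi hl hyp (by rw [hzn]; exact hr1) him
    have h8 : ‖g z‖ ≤ Real.sqrt (Phi l z) := by
      rw [← Real.sqrt_sq (norm_nonneg (g z))]
      exact Real.sqrt_le_sqrt h7
    have h9 : (g + ((fun z => (-(1 / (2 * r)) : ℂ) • (z ^ 1 * g z)) +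
        fun z => (-(r / 2) : ℂ) • ((z ^ 1)⁻¹ * g z))) z = ((1 - Real.cos θ : ℝ) : ℂ) * g z := by
      have h10 : z⁻¹ = (starRingEnd ℂ) z / ((r : ℂ) ^ 2) := by
        rw [eq_div_iff (pow_ne_zero 2 hrc), inv_mul_eq_iff_eq_mul₀ hz0, Complex.mul_conj,
          Complex.normSq_eq_norm_sq, hzn]
        push_cast; ring
      have h11 : z + (starRingEnd ℂ) z = ((2 * (r * Real.cos θ) : ℝ) : ℂ) := by
        rw [Complex.add_conj, hzre]
      simp only [Pi.add_apply, smul_eq_mul, pow_one]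
      rw [h10]
      have h12 : g z + (-(1 / (2 * r)) * (z * g z) + -(r / 2) *
          ((starRingEnd ℂ) z / (r : ℂ) ^ 2 * g z)) =
          (1 - (z + (starRingEnd ℂ) z) / (2 * r)) * g z := by
        field_simp
        ring
      rw [h12, h11]
      congr 1
      push_cast
      field_simp
    rw [h9, norm_mul, Complex.norm_real, Real.norm_of_nonneg (by
      have := Real.cos_le_one θ; linarith)]
    simp only [hF]
    apply mul_le_mul_of_nonneg_left h8
    have := Real.cos_le_one θ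
    linarith
  have hl1' : Tendsto (fun r : ℝ => 1 - r / 2 * (tc 1 g).re) (𝓝[<] 1)
      (𝓝 (1 - 1 / 2 * (tc 1 g).re)) := by
    apply Tendsto.mono_left _ nhdsWithin_le_nhds
    have : Continuous (fun r : ℝ => 1 - r / 2 * (tc 1 g).re) := by fun_prop
    exact this.tendsto 1
  have hl2' := hlim.const_mul ((2 * Real.pi)⁻¹)
  rw [inv_mul_cancel₀ Real.two_pi_pos.ne'] at hl2'
  have hfin := le_of_tendsto_of_tendsto hl1' hl2' (by
    filter_upwards [hIoo] with r hr using hmain r hr.1 hr.2)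
  linarith

end MinP

end Pool.Agent.Helper540
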