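import Mathlib
import Pool.Agent.Helper540.Pt
import Pool.Agent.Helper540.Circ

set_option autoImplicit false

namespace Pool.Agent.Helper540

open Metric Set Filter Topology

section Herglotz

variable {p : ℂ → ℂ}

theorem cayley_facts (hp : DifferentiableOn ℂ p (ball 0 1)) (hp0 : p 0 = 1)
    (hre : ∀ ζ ∈ ball (0 : ℂ) 1, 0 < (p ζ).re) :
    (∀ w ∈ ball (0 : ℂ) 1, 1 + p w ≠ 0) ∧
    DifferentiableOn ℂ (fun w => (1 - p w) / (1 + p w)) (ball 0 1) ∧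
      MapsTo (fun w => (1 - p w) / (1 + p w)) (ball 0 1) (closedBall 0 1) ∧
      deriv (fun w => (1 - p w) / (1 + p w)) 0 = -(deriv p 0) / 2 := by
  have hne : ∀ w ∈ ball (0 : ℂ) 1, 1 + p w ≠ 0 := by
    intro w hw h
    have := hre w hw
    have h2 : (1 + p w).re = 0 := by rw [h]; rfl
    rw [Complex.add_re, Complex.one_re] at h2
    linarith
  refine ⟨hne, ((differentiableOn_const 1).sub hp).div ((differentiableOn_const 1).add hp) hne,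
    ?_, ?_⟩
  · intro w hw
    rw [mem_closedBall_zero_iff]
    simp only [norm_div]
    rw [div_le_one (norm_pos_iff.2 (hne w hw))]
    have h1 := hre w hw
    have : ‖1 - p w‖ ^ 2 ≤ ‖1 + p w‖ ^ 2 := by
      rw [← Complex.normSq_eq_norm_sq, ← Complex.normSq_eq_norm_sq, Complex.normSq_apply,
        Complex.normSq_apply]
      simp
      nlinarith
    exact (pow_le_pow_iff_left₀ (norm_nonneg _) (norm_nonneg _) two_ne_zero).1 this
  · have h0 : (0 : ℂ) ∈ ball (0 : ℂ) 1 := mem_ball_self one_pos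
    have h1 : HasDerivAt p (deriv p 0) 0 :=
      (hp.differentiableAt (ball_mem_nhds _ one_pos)).hasDerivAt
    have h2 := (h1.const_sub 1).div (h1.const_add 1) (hne 0 h0)
    have h3 : HasDerivAt (fun w => (1 - p w) / (1 + p w)) _ 0 := h2
    rw [h3.deriv, hp0]
    norm_num
    ring

theorem herglotz_deriv_le (hp : DifferentiableOn ℂ p (ball 0 1)) (hp0 : p 0 = 1)
    (hre : ∀ ζ ∈ ball (0 : ℂ) 1, 0 < (p ζ).re) : ‖deriv p 0‖ ≤ 2 := by
  obtain ⟨_, h1, h2, h3⟩ := cayley_facts hp hp0 hre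
  have h4 := Complex.norm_deriv_le_div_of_mapsTo_ball (R₁ := 1) (R₂ := 1) (c := 0) h1 (by
    simp only [hp0]; simpa using h2) one_pos
  rw [h3, norm_div, norm_neg] at h4
  norm_num at h4
  linarith

theorem herglotz_eq (hp : DifferentiableOn ℂ p (ball 0 1)) (hp0 : p 0 = 1)
    (hre : ∀ ζ ∈ ball (0 : ℂ) 1, 0 < (p ζ).re) (hd : deriv p 0 = -2) {ζ : ℂ}
    (hζ : ζ ∈ ball (0 : ℂ) 1) : p ζ = (1 - ζ) / (1 + ζ) := by
  obtain ⟨h0, h1, h2, h3⟩ := cayley_facts hp hp0 hre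
  rw [hd] at h3
  have h4 := Complex.affine_of_mapsTo_ball_of_norm_dslope_eq_div (R₁ := 1) (R₂ := 1) (c := 0)
    (z₀ := 0) h1 (by simp only [hp0]; simpa using h2) (mem_ball_self one_pos) (by
      rw [dslope_same, h3]; norm_num) hζ
  simp only [hp0, dslope_same, h3] at h4
  norm_num at h4
  have h5 := h0 ζ hζ
  rw [div_eq_iff h5] at h4
  have h6 : 1 + ζ ≠ 0 := by
    intro h
    have h7 : ζ = -1 := by linear_combination h
    rw [h7] at hζ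
    simp at hζ
  rw [eq_div_iff h6]
  linear_combination -h4

end Herglotz

section SliceTwo

variable {E : Type} [NormedAddCommGroup E] [InnerProductSpace ℂ E] [CompleteSpace E]

/-- Linear version of the slice function. -/
theorem Cara.slice_lin {h : E → E} (hh : Cara h) {u : E} (hu : ‖u‖ = 1) :
    ∃ p : ℂ → ℂ, DifferentiableOn ℂ p (ball 0 1) ∧ p 0 = 1 ∧
      (∀ ζ ∈ ball (0 : ℂ) 1, 0 < (p ζ).re) ∧
      (∀ ζ ∈ ball (0 : ℂ) 1, inner ℂ u (h (ζ • u)) = ζ * p ζ) ∧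
      deriv p 0 = inner ℂ u (tc 2 (fun ζ : ℂ => h (ζ • u))) := by
  obtain ⟨p, hp, hp0, hpre, hpf⟩ := hh.slice hu
  have hlin : ∀ ζ ∈ ball (0 : ℂ) 1, inner ℂ u (h (ζ • u)) = ζ * p ζ := by
    intro ζ hζ
    rcases eq_or_ne ζ 0 with h0 | h0
    · rw [h0, zero_smul, hh.zero]; simp
    · have h1 := hpf ζ hζ
      rw [inner_smul_left] at h1
      have h2 : ((‖ζ‖ ^ 2 : ℝ) : ℂ) = (starRingEnd ℂ) ζ * ζ := by
        rw [mul_comm, Complex.mul_conj, Complex.normSq_eq_norm_sq]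
      rw [h2, mul_assoc] at h1
      have h3 : (starRingEnd ℂ) ζ ≠ 0 := by simpa using h0
      exact mul_left_cancel₀ h3 h1
  refine ⟨p, hp, hp0, hpre, hlin, ?_⟩
  have hs : DifferentiableOn ℂ (fun ζ : ℂ => h (ζ • u)) (ball 0 1) := slice_diff hh.diff hu.le
  have h1 := tc_clm (innerSL ℂ u) 2 (contDiffAt_of_ball one_pos hs 2)
  have h2 : tc 2 (fun ζ : ℂ => (innerSL ℂ u) (h (ζ • u))) = tc 2 (fun ζ => ζ * p ζ) := by
    apply tc_congr
    filter_upwards [ball_mem_nhds (0 : ℂ) one_pos] with ζ hζ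
    exact hlin ζ hζ
  have h3 := tc_succ one_pos hp 1
  have h4 : tc 1 p = deriv p 0 := tc_one (hp.differentiableAt (ball_mem_nhds _ one_pos)).hasDerivAt
  rw [← h4, ← h3, ← h2, h1]
  rfl

theorem Cara.norm_inner_tc {h : E → E} (hh : Cara h) {u : E} (hu : ‖u‖ = 1) :
    ‖inner ℂ u (tc 2 (fun ζ : ℂ => h (ζ • u)))‖ ≤ 2 := by
  obtain ⟨p, hp, hp0, hpre, _, hd⟩ := hh.slice_lin hu
  rw [← hd]
  exact herglotz_deriv_le hp hp0 hpre

end SliceTwo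

section Two

/-- Shorthand for the plane. -/
abbrev E2 := EuclideanSpace ℂ (Fin 2)

/-- The coefficient inequality in a general direction. -/
theorem Cara.coef_ineq {h : E2 → E2} (hh : Cara h) {c s : ℝ} (hcs : c ^ 2 + s ^ 2 = 1)
    {e : ℂ} (he : ‖e‖ = 1) :
    -2 ≤ c ^ 3 * (qf h (pt 1 0) 0).re + c ^ 2 * s * (e * mf h 0).re +
      c * s ^ 2 * (e ^ 2 * qf h (pt 0 1) 0).re + (c ^ 2 * s) * ((starRingEnd ℂ) e * qf h (pt 1 0) 1).re
      + c * s ^ 2 * (mf h 1).re + s ^ 3 * (e * qf h (pt 0 1) 1).re := by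
  have hu : ‖pt (c : ℂ) ((s : ℂ) * e)‖ = 1 := by
    have h1 := norm_pt_sq (c : ℂ) ((s : ℂ) * e)
    rw [norm_mul, he, mul_one, Complex.norm_real, Complex.norm_real, Real.norm_eq_abs,
      Real.norm_eq_abs, sq_abs, sq_abs, hcs] at h1
    have h2 := norm_nonneg (pt (c : ℂ) ((s : ℂ) * e))
    nlinarith
  have h1 := hh.norm_inner_tc hu
  have h2 : -2 ≤ (inner ℂ (pt (c : ℂ) ((s : ℂ) * e)) (qf h (pt (c : ℂ) ((s : ℂ) * e)))).re := by
    have h3 := (abs_le.1 ((Complex.abs_re_le_norm _).trans h1)).1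
    exact h3
  refine h2.trans (le_of_eq ?_)
  rw [qf_pt hh.diff, inner_pt]
  have hee : (starRingEnd ℂ) e * e = 1 := by
    rw [mul_comm, Complex.mul_conj, Complex.normSq_eq_norm_sq, he]; simp
  simp only [PiLp.add_apply, PiLp.smul_apply, smul_eq_mul, map_mul, Complex.conj_ofReal]
  have e1 : (c : ℂ) * ((c : ℂ) ^ 2 * qf h (pt 1 0) 0 + (c : ℂ) * ((s : ℂ) * e) * mf h 0 +
      ((s : ℂ) * e) ^ 2 * qf h (pt 0 1) 0) + (s : ℂ) * (starRingEnd ℂ) e *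
      ((c : ℂ) ^ 2 * qf h (pt 1 0) 1 + (c : ℂ) * ((s : ℂ) * e) * mf h 1 +
      ((s : ℂ) * e) ^ 2 * qf h (pt 0 1) 1) =
      ((c ^ 3 : ℝ) : ℂ) * qf h (pt 1 0) 0 + ((c ^ 2 * s : ℝ) : ℂ) * (e * mf h 0) +
      ((c * s ^ 2 : ℝ) : ℂ) * (e ^ 2 * qf h (pt 0 1) 0) +
      ((c ^ 2 * s : ℝ) : ℂ) * ((starRingEnd ℂ) e * qf h (pt 1 0) 1) +
      ((c * s ^ 2 : ℝ) : ℂ) * mf h 1 + ((s ^ 3 : ℝ) : ℂ) * (e * qf h (pt 0 1) 1) := by
    push_cast
    linear_combination ((c : ℂ) * (s : ℂ) ^ 2 * mf h 1 + (s : ℂ) ^ 3 * e * qf h (pt 0 1) 1) * hee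
  rw [e1]
  simp only [Complex.add_re, Complex.re_ofReal_mul]

theorem exists_phase (Y : ℂ) : ∃ e : ℂ, ‖e‖ = 1 ∧ (e * Y).re = -‖Y‖ := by
  rcases eq_or_ne Y 0 with h | h
  · exact ⟨1, by simp, by simp [h]⟩
  · have hp : 0 < ‖Y‖ := norm_pos_iff.2 h
    have hpc : (‖Y‖ : ℂ) ≠ 0 := by exact_mod_cast hp.ne'
    refine ⟨-((starRingEnd ℂ) Y / ‖Y‖), ?_, ?_⟩
    · rw [norm_neg, norm_div, Complex.norm_conj, Complex.norm_real, norm_norm, div_self hp.ne']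
    · have h1 : -((starRingEnd ℂ) Y / ‖Y‖) * Y = ((-‖Y‖ : ℝ) : ℂ) := by
        have h2 : (starRingEnd ℂ) Y * Y = (‖Y‖ : ℂ) ^ 2 := by
          rw [mul_comm, Complex.mul_conj, Complex.normSq_eq_norm_sq]; push_cast; ring
        push_cast
        field_simp
        rw [h2]
      rw [h1, Complex.ofReal_re]

theorem Cara.Y_bound {h : E2 → E2} (hh : Cara h) (h0 : (qf h (pt 1 0) 0).re = -2) {c s : ℝ}
    (hcs : c ^ 2 + s ^ 2 = 1) :
    ‖((c ^ 2 * s : ℝ) : ℂ) * (mf h 0 + (starRingEnd ℂ) (qf h (pt 1 0) 1)) +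
      ((s ^ 3 : ℝ) : ℂ) * qf h (pt 0 1) 1‖ ≤ 2 * (2 - 2 * c ^ 3 + c * s ^ 2 * (mf h 1).re) := by
  set Y := ((c ^ 2 * s : ℝ) : ℂ) * (mf h 0 + (starRingEnd ℂ) (qf h (pt 1 0) 1)) +
      ((s ^ 3 : ℝ) : ℂ) * qf h (pt 0 1) 1 with hY
  set Z := qf h (pt 0 1) 0 with hZ
  have key : ∀ e : ℂ, ‖e‖ = 1 → 0 ≤ (2 - 2 * c ^ 3 + c * s ^ 2 * (mf h 1).re) + (e * Y).re +
      c * s ^ 2 * (e ^ 2 * Z).re := by
    intro e he
    have h1 := hh.coef_ineq hcs he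
    rw [h0] at h1
    have h2 : (e * Y).re = c ^ 2 * s * (e * mf h 0).re +
        (c ^ 2 * s) * ((starRingEnd ℂ) e * qf h (pt 1 0) 1).re + s ^ 3 * (e * qf h (pt 0 1) 1).re := by
      have h3 : ((starRingEnd ℂ) e * qf h (pt 1 0) 1).re =
          (e * (starRingEnd ℂ) (qf h (pt 1 0) 1)).re := by
        rw [← Complex.conj_re]
        simp
      rw [h3]
      have h4 : e * Y = ((c ^ 2 * s : ℝ) : ℂ) * (e * mf h 0) + ((c ^ 2 * s : ℝ) : ℂ) *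
          (e * (starRingEnd ℂ) (qf h (pt 1 0) 1)) + ((s ^ 3 : ℝ) : ℂ) * (e * qf h (pt 0 1) 1) := by
        rw [hY]; ring
      rw [h4]
      simp only [Complex.add_re, Complex.re_ofReal_mul]
    rw [h2]
    linarith
  obtain ⟨e, he, heY⟩ := exists_phase Y
  have k1 := key e he
  have k2 := key (Complex.I * e) (by rw [norm_mul, Complex.norm_I, he, mul_one])
  have k3 := key (-(Complex.I * e)) (by rw [norm_neg, norm_mul, Complex.norm_I, he, mul_one])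
  have e1 : (Complex.I * e) ^ 2 * Z = -(e ^ 2 * Z) := by
    rw [mul_pow, Complex.I_sq]; ring
  have e2 : (-(Complex.I * e)) ^ 2 * Z = -(e ^ 2 * Z) := by
    rw [neg_sq, mul_pow, Complex.I_sq]; ring
  rw [e1, Complex.neg_re] at k2
  rw [e2, Complex.neg_re, neg_mul, Complex.neg_re] at k3
  rw [heY] at k1
  linarith

theorem Cara.X_ge {h : E2 → E2} (hh : Cara h) (h0 : (qf h (pt 1 0) 0).re = -2) :
    -3 ≤ (mf h 1).re := by
  have key : ∀ c : ℝ, 0 < c → c < 1 → 0 ≤ 2 * (1 + c + c ^ 2) + c * (1 + c) * (mf h 1).re := by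
    intro c hc0 hc1
    have hs : c ^ 2 + (Real.sqrt (1 - c ^ 2)) ^ 2 = 1 := by
      rw [Real.sq_sqrt (by nlinarith)]; ring
    have h1 := (norm_nonneg _).trans (hh.Y_bound h0 hs)
    rw [Real.sq_sqrt (by nlinarith)] at h1
    have h2 : 2 * (2 - 2 * c ^ 3 + c * (1 - c ^ 2) * (mf h 1).re) =
        (2 * (1 - c)) * (2 * (1 + c + c ^ 2) + c * (1 + c) * (mf h 1).re) := by ring
    rw [h2] at h1
    exact nonneg_of_mul_nonneg_right h1 (by linarith)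
  have hlim : Tendsto (fun c : ℝ => 2 * (1 + c + c ^ 2) + c * (1 + c) * (mf h 1).re) (𝓝[<] 1)
      (𝓝 (2 * (1 + 1 + 1 ^ 2) + 1 * (1 + 1) * (mf h 1).re)) := by
    apply Tendsto.mono_left _ nhdsWithin_le_nhds
    have : Continuous (fun c : ℝ => 2 * (1 + c + c ^ 2) + c * (1 + c) * (mf h 1).re) := by fun_prop
    exact this.tendsto 1
  have h1 := ge_of_tendsto hlim (by
    filter_upwards [Ioo_mem_nhdsLT (zero_lt_one (α := ℝ))] with c hc using key c hc.1 hc.2)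
  linarith

theorem Cara.face {h : E2 → E2} (hh : Cara h) (h0 : (qf h (pt 1 0) 0).re = -2)
    (hX : (mf h 1).re = -3) : qf h (pt 0 1) 1 = 0 := by
  set A := mf h 0 + (starRingEnd ℂ) (qf h (pt 1 0) 1) with hA
  set B := qf h (pt 0 1) 1 with hB
  have key : ∀ s : ℝ, 0 < s → s < 1 → ‖((1 - s ^ 2 : ℝ) : ℂ) * A + ((s ^ 2 : ℝ) : ℂ) * B‖ ≤
      6 * s ^ 3 := by
    intro s hs0 hs1
    set c := Real.sqrt (1 - s ^ 2) with hc
    have hc2 : c ^ 2 = 1 - s ^ 2 := Real.sq_sqrt (by nlinarith)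
    have hcs : c ^ 2 + s ^ 2 = 1 := by rw [hc2]; ring
    have hc0 : 0 ≤ c := Real.sqrt_nonneg _
    have hc1 : c ≤ 1 := by nlinarith
    have h1 := hh.Y_bound h0 hcs
    rw [hX, ← hA, ← hB, hc2] at h1
    have h2 : ((((1 - s ^ 2) * s : ℝ) : ℂ) * A + ((s ^ 3 : ℝ) : ℂ) * B) =
        (s : ℂ) * (((1 - s ^ 2 : ℝ) : ℂ) * A + ((s ^ 2 : ℝ) : ℂ) * B) := by push_cast; ring
    rw [h2, norm_mul, Complex.norm_real, Real.norm_of_nonneg hs0.le] at h1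
    have h3 : 2 - 2 * c ^ 3 + c * s ^ 2 * (-3) = (1 - c) ^ 2 * (2 + c) := by
      have : s ^ 2 = 1 - c ^ 2 := by rw [hc2]; ring
      rw [this]; ring
    have h4 : 1 - c ≤ s ^ 2 := by nlinarith
    have h5 : (1 - c) ^ 2 * (2 + c) ≤ (s ^ 2) ^ 2 * 3 := by
      have : (1 - c) ^ 2 ≤ (s ^ 2) ^ 2 := by
        apply pow_le_pow_left₀ (by linarith) h4
      calc (1 - c) ^ 2 * (2 + c) ≤ (s ^ 2) ^ 2 * (2 + c) := by gcongr
        _ ≤ (s ^ 2) ^ 2 * 3 := by gcongr; linarith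
    rw [h3] at h1
    have h6 : s * ‖((1 - s ^ 2 : ℝ) : ℂ) * A + ((s ^ 2 : ℝ) : ℂ) * B‖ ≤ s * (6 * s ^ 3) := by
      calc _ ≤ 2 * ((1 - c) ^ 2 * (2 + c)) := h1
        _ ≤ 2 * ((s ^ 2) ^ 2 * 3) := by linarith
        _ = s * (6 * s ^ 3) := by ring
    exact le_of_mul_le_mul_left h6 hs0
  have hA0 : A = 0 := by
    have h1 : ∀ s : ℝ, 0 < s → s < 1 → ‖A‖ ≤ 6 * s ^ 3 + s ^ 2 * (‖A‖ + ‖B‖) := by
      intro s hs0 hs1
      have h2 := key s hs0 hs1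
      have h3 : A = (((1 - s ^ 2 : ℝ) : ℂ) * A + ((s ^ 2 : ℝ) : ℂ) * B) +
          ((s ^ 2 : ℝ) : ℂ) * (A - B) := by push_cast; ring
      have h4 : ‖((s ^ 2 : ℝ) : ℂ) * (A - B)‖ ≤ s ^ 2 * (‖A‖ + ‖B‖) := by
        rw [norm_mul, Complex.norm_real, Real.norm_of_nonneg (by positivity)]
        gcongr
        exact norm_sub_le _ _
      calc ‖A‖ = ‖(((1 - s ^ 2 : ℝ) : ℂ) * A + ((s ^ 2 : ℝ) : ℂ) * B) +
          ((s ^ 2 : ℝ) : ℂ) * (A - B)‖ := by rw [← h3]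
        _ ≤ _ := norm_add_le _ _
        _ ≤ _ := by linarith
    have hlim : Tendsto (fun s : ℝ => 6 * s ^ 3 + s ^ 2 * (‖A‖ + ‖B‖)) (𝓝[>] 0)
        (𝓝 (6 * 0 ^ 3 + 0 ^ 2 * (‖A‖ + ‖B‖))) := by
      apply Tendsto.mono_left _ nhdsWithin_le_nhds
      have : Continuous (fun s : ℝ => 6 * s ^ 3 + s ^ 2 * (‖A‖ + ‖B‖)) := by fun_prop
      exact this.tendsto 0
    have h2 := ge_of_tendsto hlim (by
      filter_upwards [Ioo_mem_nhdsGT (zero_lt_one (α := ℝ))] with s hs using h1 s hs.1 hs.2)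
    norm_num at h2
    exact h2
  rw [hA0] at key
  have h1 : ∀ s : ℝ, 0 < s → s < 1 → ‖B‖ ≤ 6 * s := by
    intro s hs0 hs1
    have h2 := key s hs0 hs1
    rw [mul_zero, zero_add, norm_mul, Complex.norm_real, Real.norm_of_nonneg (by positivity)] at h2
    have h3 : s ^ 2 * ‖B‖ ≤ s ^ 2 * (6 * s) := by
      calc _ ≤ _ := h2
        _ = _ := by ring
    exact le_of_mul_le_mul_left h3 (by positivity)
  have hlim : Tendsto (fun s : ℝ => 6 * s) (𝓝[>] 0) (𝓝 (6 * 0)) := by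
    apply Tendsto.mono_left _ nhdsWithin_le_nhds
    have : Continuous (fun s : ℝ => 6 * s) := by fun_prop
    exact this.tendsto 0
  have h2 := ge_of_tendsto hlim (by
    filter_upwards [Ioo_mem_nhdsGT (zero_lt_one (α := ℝ))] with s hs using h1 s hs.1 hs.2)
  norm_num at h2
  exact h2

end Two

end Pool.Agent.Helper540
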