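import Mathlib
import Pool.Agent.Helper540.MinP
import Pool.Agent.Helper540.Lip
import Pool.Agent.Helper540.Pt
import Pool.Agent.Helper540.Rigid

set_option autoImplicit false

namespace Pool.Agent.Helper540

open Metric Set Filter Topology

section Fhat

/-- The algebraic inequality behind the invariance of the ball. -/
theorem psi_ineq {l : ℝ} (hl : 0 < l) (hl1 : l ≤ 1) {Q w : ℂ} (hQ : 0 < Q.re) (hw : 0 < w.re)
    (h : w ^ 2 = (1 - l : ℂ) + l * Q ^ 2) :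
    l ^ 2 * (Q.re * ‖Q‖ * ‖Q + 1‖ ^ 2) ≤ w.re * ‖w‖ * ‖w + 1‖ ^ 2 := by
  rcases hl1.eq_or_lt with h1 | h1
  · have h2 : w ^ 2 = Q ^ 2 := by rw [h, h1]; push_cast; ring
    have h3 : (w - Q) * (w + Q) = 0 := by linear_combination h2
    rcases mul_eq_zero.1 h3 with h4 | h4
    · have : w = Q := sub_eq_zero.1 h4
      rw [this, h1]; simp
    · exfalso
      have h5 : (w + Q).re = 0 := by rw [h4]; rfl
      rw [Complex.add_re] at h5
      linarith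
  set N : ℝ := ‖Q‖ ^ 2 with hN
  set n : ℝ := ‖w‖ ^ 2 with hn
  have hN2 : N = Q.re ^ 2 + Q.im ^ 2 := by
    rw [hN, ← Complex.normSq_eq_norm_sq, Complex.normSq_apply]; ring
  have hn2 : n = w.re ^ 2 + w.im ^ 2 := by
    rw [hn, ← Complex.normSq_eq_norm_sq, Complex.normSq_apply]; ring
  set X : ℝ := Q.re ^ 2 - Q.im ^ 2 with hX
  set x : ℝ := w.re ^ 2 - w.im ^ 2 with hx
  have hre : x = 1 - l + l * X := by
    have h2 := congrArg Complex.re h
    rw [sq, Complex.mul_re, Complex.add_re, Complex.re_ofReal_mul, sq, Complex.mul_re] at h2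
    simp at h2
    rw [hx, hX]
    nlinarith
  have him : w.re * w.im = l * (Q.re * Q.im) := by
    have h2 := congrArg Complex.im h
    rw [sq, Complex.mul_im, Complex.add_im, Complex.im_ofReal_mul, sq, Complex.mul_im] at h2
    simp at h2
    nlinarith
  have hnn : n ^ 2 = (1 - l) ^ 2 + 2 * l * (1 - l) * X + l ^ 2 * N ^ 2 := by
    have h3 : n ^ 2 = x ^ 2 + 4 * (w.re * w.im) ^ 2 := by rw [hn2, hx]; ring
    have h4 : N ^ 2 = X ^ 2 + 4 * (Q.re * Q.im) ^ 2 := by rw [hN2, hX]; ring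
    rw [h3, h4, him, hre]; ring
  have hN0 : 0 ≤ N := by positivity
  have hn0 : 0 ≤ n := by positivity
  have hreQ : Q.re ^ 2 = (N + X) / 2 := by rw [hN2, hX]; ring
  have hrew : w.re ^ 2 = (n + x) / 2 := by rw [hn2, hx]; ring
  -- first claim
  have c1 : l ^ 2 * (N * (N + X)) ≤ n * (n + x) := by
    have e1 : 2 * (1 - l) * (n * (n + x) - l ^ 2 * (N * (N + X))) =
        (n - l * N + (1 - l)) ^ 2 * (l * N + n) := by
      rw [hre]
      linear_combination (-(n - l * N)) * hnn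
    have e2 : 0 ≤ (n - l * N + (1 - l)) ^ 2 * (l * N + n) := by positivity
    rw [← e1] at e2
    have e3 := nonneg_of_mul_nonneg_right e2 (by linarith)
    linarith
  have c1' : l * (Q.re * ‖Q‖) ≤ w.re * ‖w‖ := by
    have e1 : (l * (Q.re * ‖Q‖)) ^ 2 ≤ (w.re * ‖w‖) ^ 2 := by
      rw [mul_pow, mul_pow, mul_pow, hreQ, hrew, ← hN, ← hn]
      nlinarith
    exact (pow_le_pow_iff_left₀ (by positivity) (by positivity) two_ne_zero).1 e1
  -- second claim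
  have htri : l * N - (1 - l) ≤ n := by
    have e1 : ‖(l : ℂ) * Q ^ 2‖ ≤ ‖w ^ 2‖ + ‖(1 - l : ℂ)‖ := by
      have e2 : (l : ℂ) * Q ^ 2 = w ^ 2 - (1 - l : ℂ) := by rw [h]; ring
      rw [e2]
      exact norm_sub_le _ _
    have e3 : ‖(1 - l : ℂ)‖ = 1 - l := by
      have : (1 - l : ℂ) = ((1 - l : ℝ) : ℂ) := by push_cast; ring
      rw [this, Complex.norm_real, Real.norm_of_nonneg (by linarith)]
    rw [norm_mul, norm_pow, norm_pow, e3, Complex.norm_real, Real.norm_of_nonneg hl.le] at e1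
    linarith
  have hlre : l * Q.re ≤ w.re := by
    have hNX : 0 ≤ N + X := by
      have : 0 ≤ Q.re ^ 2 := by positivity
      rw [hreQ] at this
      linarith
    have e1 : (l * Q.re) ^ 2 ≤ w.re ^ 2 := by
      rw [mul_pow, hreQ, hrew, hre]
      have e2 : l ^ 2 * ((N + X) / 2) ≤ l * ((N + X) / 2) := by
        apply mul_le_mul_of_nonneg_right _ (by linarith)
        nlinarith
      nlinarith
    exact (pow_le_pow_iff_left₀ (by positivity) hw.le two_ne_zero).1 e1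
  have c2 : l * ‖Q + 1‖ ^ 2 ≤ ‖w + 1‖ ^ 2 := by
    have e1 : ‖Q + 1‖ ^ 2 = N + 1 + 2 * Q.re := by
      rw [hN2, ← Complex.normSq_eq_norm_sq, Complex.normSq_apply]
      simp
      ring
    have e2 : ‖w + 1‖ ^ 2 = n + 1 + 2 * w.re := by
      rw [hn2, ← Complex.normSq_eq_norm_sq, Complex.normSq_apply]
      simp
      ring
    rw [e1, e2]
    nlinarith
  calc l ^ 2 * (Q.re * ‖Q‖ * ‖Q + 1‖ ^ 2) = (l * (Q.re * ‖Q‖)) * (l * ‖Q + 1‖ ^ 2) := by ring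
    _ ≤ (w.re * ‖w‖) * ‖w + 1‖ ^ 2 := by
        apply mul_le_mul c1' c2 (by positivity) (by positivity)

theorem wq_koe {l : ℝ} (h0 : 0 ≤ l) (h1 : l ≤ 1) {ζ : ℂ} (hζ : ‖ζ‖ < 1) :
    wq (koe l ζ) = koeR l ζ := by
  have h3 := koeR_add_ne h0 h1 hζ
  rw [wq, koe]
  have e2 : 1 - (koeR l ζ - 1) / (koeR l ζ + 1) = 2 / (koeR l ζ + 1) := by field_simp; ring
  rw [e2]
  field_simp
  ring

theorem Th2_mono {l : ℝ} (h0 : 0 < l) (h1 : l ≤ 1) {ζ : ℂ} (hζ : ‖ζ‖ < 1) :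
    l ^ 2 * Th2 ζ ≤ Th2 (koe l ζ) := by
  have h2 := koe_norm_lt h0.le h1 hζ
  rw [Th2_eq (one_sub_ne hζ), Th2_eq (one_sub_ne h2), wq_koe h0.le h1 hζ]
  have h3 := psi_ineq h0 h1 (Q := wq ζ) (w := koeR l ζ) (cayley_re_pos hζ)
    (koeR_re_pos h0.le h1 hζ) koeR_sq
  linarith

/-- The factor of the second component. -/
noncomputable def mm (ζ : ℂ) : ℂ := Complex.sqrt (wq ζ) / (1 - ζ) ^ 2

theorem sqrt_sq' (w : ℂ) : Complex.sqrt w ^ 2 = w := by
  rw [Complex.sqrt]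
  exact Complex.cpow_ofNat_inv_pow _ 2

theorem wq_slit {ζ : ℂ} (hζ : ‖ζ‖ < 1) : wq ζ ∈ Complex.slitPlane := by
  rw [Complex.mem_slitPlane_iff]
  left
  exact cayley_re_pos hζ

theorem mm_ne_zero {ζ : ℂ} (hζ : ‖ζ‖ < 1) : mm ζ ≠ 0 := by
  rw [mm]
  apply div_ne_zero
  · intro h
    have h1 := sqrt_sq' (wq ζ)
    rw [h] at h1
    have h2 : 0 < (wq ζ).re := cayley_re_pos hζ
    rw [← h1] at h2
    simp at h2
  · exact pow_ne_zero 2 (one_sub_ne hζ)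

theorem mm_norm_sq {ζ : ℂ} : (1 - ‖ζ‖ ^ 2) * ‖mm ζ‖ ^ 2 = Th2 ζ := by
  rw [mm, norm_div, div_pow, ← norm_pow (Complex.sqrt (wq ζ)), sqrt_sq', Th2, norm_pow]
  ring

theorem mm_zero : mm 0 = 1 := by
  rw [mm, wq]
  simp

theorem mm_diff : DifferentiableOn ℂ mm (ball 0 1) := by
  intro ζ hζ
  have hζ' : ‖ζ‖ < 1 := by simpa using hζ
  have h1 := one_sub_ne hζ'
  have h2 : DifferentiableAt ℂ wq ζ := by
    unfold wq
    fun_prop (disch := assumption)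
  have h3 : DifferentiableAt ℂ (fun ζ => Complex.sqrt (wq ζ)) ζ :=
    (Complex.differentiableAt_sqrt (wq_slit hζ')).comp ζ h2
  have h4 : DifferentiableAt ℂ (fun ζ : ℂ => (1 - ζ) ^ 2) ζ := by fun_prop
  exact (h3.div h4 (pow_ne_zero 2 h1)).differentiableWithinAt

theorem mm_deriv_zero : HasDerivAt mm 3 0 := by
  have h0 : (0 : ℂ) ∈ ball (0 : ℂ) 1 := mem_ball_self one_pos
  have hw : HasDerivAt wq 2 0 := by
    have h1 : HasDerivAt (fun ζ : ℂ => (1 + ζ) / (1 - ζ)) ((1 * (1 - 0) - (1 + 0) * (-1)) /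
        (1 - 0) ^ 2) 0 :=
      ((hasDerivAt_id (0 : ℂ)).const_add 1).div ((hasDerivAt_id (0 : ℂ)).const_sub 1) (by simp)
    have h2 : HasDerivAt wq ((1 * (1 - 0) - (1 + 0) * (-1)) / (1 - 0) ^ 2) 0 := h1
    refine h2.congr_deriv (by norm_num)
  have hs : DifferentiableAt ℂ (fun ζ => Complex.sqrt (wq ζ)) 0 :=
    (Complex.differentiableAt_sqrt (wq_slit (by simp))).comp (0 : ℂ) hw.differentiableAt
  have hs' : HasDerivAt (fun ζ => Complex.sqrt (wq ζ)) 1 0 := by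
    obtain ⟨d, hd⟩ : ∃ d, HasDerivAt (fun ζ => Complex.sqrt (wq ζ)) d 0 := ⟨_, hs.hasDerivAt⟩
    have h5 := hd.fun_pow 2
    have h6 : (fun ζ => Complex.sqrt (wq ζ) ^ 2) = wq := by
      ext ζ; exact sqrt_sq' _
    rw [h6] at h5
    have h7 := h5.unique hw
    have h8 : Complex.sqrt (wq 0) = 1 := by simp [wq]
    rw [h8] at h7
    have h9 : d = 1 := by
      norm_num at h7
      linear_combination h7
    rwa [h9] at hd
  have hp : HasDerivAt (fun ζ : ℂ => (1 - ζ) ^ 2) (-2) 0 := by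
    have := ((hasDerivAt_id (0 : ℂ)).const_sub 1).fun_pow 2
    refine this.congr_deriv (by norm_num)
  have h10 : HasDerivAt mm _ 0 := hs'.div hp (by norm_num)
  refine h10.congr_deriv ?_
  have h8 : Complex.sqrt (wq 0) = 1 := by simp [wq]
  rw [h8]
  norm_num

/-- The transition maps of the first phase. -/
noncomputable def vA (l : ℝ) (z : E2) : E2 :=
  pt (koe l (z 0)) (l * z 1 * mm (z 0) / mm (koe l (z 0)))

/-- The map of the second phase. -/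
noncomputable def fB (z : E2) : E2 := pt (kf (z 0)) (kf (z 1))

noncomputable def vB (l : ℝ) (z : E2) : E2 := pt (koe l (z 0)) (koe l (z 1))

theorem coord_lt {z : E2} (hz : z ∈ ball (0 : E2) 1) (i : Fin 2) : ‖z i‖ < 1 := by
  rw [mem_ball_zero_iff] at hz
  exact (norm_apply_le_two z i).trans_lt hz

theorem vA_mem {l : ℝ} (h0 : 0 < l) (h1 : l ≤ 1) {z : E2} (hz : z ∈ ball (0 : E2) 1) :
    vA l z ∈ ball (0 : E2) 1 := by
  have hz0 := coord_lt hz 0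
  have h2 := koe_norm_lt h0.le h1 hz0
  have hzz := ball_norm_sq hz
  apply pt_mem_ball
  set ζ := z 0 with hζ
  set ζ' := koe l ζ with hζ'
  have hm := mm_ne_zero hz0
  have hm' := mm_ne_zero h2
  have hmono := Th2_mono h0 h1 hz0
  rw [← mm_norm_sq, ← mm_norm_sq, ← hζ'] at hmono
  have e1 : ‖(l : ℂ) * z 1 * mm ζ / mm ζ'‖ ^ 2 = ‖z 1‖ ^ 2 * (l ^ 2 * ‖mm ζ‖ ^ 2) / ‖mm ζ'‖ ^ 2 := by
    rw [norm_div, norm_mul, norm_mul, Complex.norm_real, Real.norm_of_nonneg h0.le]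
    ring
  rw [e1]
  have p1 : 0 < 1 - ‖ζ‖ ^ 2 := by nlinarith [norm_nonneg ζ]
  have p2 : 0 < ‖mm ζ'‖ ^ 2 := by have := norm_pos_iff.2 hm'; positivity
  have p3 : 0 < ‖mm ζ‖ ^ 2 := by have := norm_pos_iff.2 hm; positivity
  have p4 : 0 < 1 - ‖ζ'‖ ^ 2 := by nlinarith [norm_nonneg ζ']
  have e2 : ‖z 1‖ ^ 2 * (l ^ 2 * ‖mm ζ‖ ^ 2) / ‖mm ζ'‖ ^ 2 < 1 - ‖ζ'‖ ^ 2 := by
    rw [div_lt_iff₀ p2]
    calc ‖z 1‖ ^ 2 * (l ^ 2 * ‖mm ζ‖ ^ 2) < (1 - ‖ζ‖ ^ 2) * (l ^ 2 * ‖mm ζ‖ ^ 2) := by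
          apply mul_lt_mul_of_pos_right (by linarith) (by positivity)
      _ = l ^ 2 * ((1 - ‖ζ‖ ^ 2) * ‖mm ζ‖ ^ 2) := by ring
      _ ≤ (1 - ‖ζ'‖ ^ 2) * ‖mm ζ'‖ ^ 2 := hmono
  linarith

theorem vB_mem {l : ℝ} (h0 : 0 ≤ l) (h1 : l ≤ 1) {z : E2} (hz : z ∈ ball (0 : E2) 1) :
    vB l z ∈ ball (0 : E2) 1 := by
  apply pt_mem_ball
  have hzz := ball_norm_sq hz
  have h2 := koe_norm_le h0 h1 (coord_lt hz 0)
  have h3 := koe_norm_le h0 h1 (coord_lt hz 1)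
  have h4 : ‖koe l (z 0)‖ ^ 2 ≤ ‖z 0‖ ^ 2 := by gcongr
  have h5 : ‖koe l (z 1)‖ ^ 2 ≤ ‖z 1‖ ^ 2 := by gcongr
  linarith

theorem fB_vB {l : ℝ} (h0 : 0 ≤ l) (h1 : l ≤ 1) {z : E2} (hz : z ∈ ball (0 : E2) 1) :
    fB (vB l z) = (l : ℂ) • fB z := by
  rw [fB, fB, smul_pt, vB, pt_zero_apply, pt_one_apply, kf_koe h0 h1 (coord_lt hz 0),
    kf_koe h0 h1 (coord_lt hz 1)]

theorem fB_inj : InjOn fB (ball 0 1) := by
  intro z hz w hw h
  have e0 := congrArg (fun v : E2 => v 0) h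
  have e1 := congrArg (fun v : E2 => v 1) h
  simp only [fB, pt_zero_apply, pt_one_apply] at e0 e1
  rw [← pt_eta z, ← pt_eta w, kf_inj (coord_lt hz 0) (coord_lt hw 0) e0,
    kf_inj (coord_lt hz 1) (coord_lt hw 1) e1]

theorem koe_inj {l : ℝ} (h0 : 0 < l) (h1 : l ≤ 1) {a b : ℂ} (ha : ‖a‖ < 1) (hb : ‖b‖ < 1)
    (h : koe l a = koe l b) : a = b := by
  apply kf_inj ha hb
  have h2 := kf_koe h0.le h1 ha
  rw [h, kf_koe h0.le h1 hb] at h2
  have hlc : (l : ℂ) ≠ 0 := by exact_mod_cast h0.ne'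
  exact (mul_left_cancel₀ hlc h2).symm

theorem vA_inj {l : ℝ} (h0 : 0 < l) (h1 : l ≤ 1) : InjOn (vA l) (ball 0 1) := by
  intro z hz w hw h
  have e0 := congrArg (fun v : E2 => v 0) h
  have e1 := congrArg (fun v : E2 => v 1) h
  simp only [vA, pt_zero_apply, pt_one_apply] at e0 e1
  have e2 := koe_inj h0 h1 (coord_lt hz 0) (coord_lt hw 0) e0
  rw [e2] at e1
  have hlc : (l : ℂ) ≠ 0 := by exact_mod_cast h0.ne'
  have hm := mm_ne_zero (coord_lt hw 0)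
  have hm' := mm_ne_zero (koe_norm_lt h0.le h1 (coord_lt hw 0))
  have e3 : z 1 = w 1 := by
    rw [div_left_inj' hm'] at e1
    have := mul_right_cancel₀ hm e1
    exact mul_left_cancel₀ hlc this
  rw [← pt_eta z, ← pt_eta w, e2, e3]

theorem koe_comp {a b : ℝ} (ha : 0 < a) (ha1 : a ≤ 1) (hb : 0 < b) (hb1 : b ≤ 1) {ζ : ℂ}
    (hζ : ‖ζ‖ < 1) : koe a (koe b ζ) = koe (a * b) ζ := by
  have hab : a * b ≤ 1 := by nlinarith
  have h1 := koe_norm_lt hb.le hb1 hζ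
  apply kf_inj (koe_norm_lt ha.le ha1 h1) (koe_norm_lt (by positivity) hab hζ)
  rw [kf_koe ha.le ha1 h1, kf_koe hb.le hb1 hζ, kf_koe (by positivity) hab hζ]
  push_cast
  ring

theorem vA_comp {a b : ℝ} (ha : 0 < a) (ha1 : a ≤ 1) (hb : 0 < b) (hb1 : b ≤ 1) {z : E2}
    (hz : z ∈ ball (0 : E2) 1) : vA a (vA b z) = vA (a * b) z := by
  have hz0 := coord_lt hz 0
  have h1 := koe_norm_lt hb.le hb1 hz0
  have hm' := mm_ne_zero h1
  simp only [vA, pt_zero_apply, pt_one_apply]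
  rw [koe_comp ha ha1 hb hb1 hz0]
  congr 1
  push_cast
  field_simp

theorem vA_one {z : E2} (hz : z ∈ ball (0 : E2) 1) : vA 1 z = z := by
  have hz0 := coord_lt hz 0
  have hm := mm_ne_zero hz0
  rw [vA, koe_one hz0]
  have : ((1 : ℝ) : ℂ) * z 1 * mm (z 0) / mm (z 0) = z 1 := by
    push_cast
    field_simp
  rw [this, pt_eta]

theorem kf_diff : DifferentiableOn ℂ kf (ball 0 1) := by
  intro ζ hζ
  have hζ' : ‖ζ‖ < 1 := by simpa using hζ
  have h1 : (1 - ζ) ^ 2 ≠ 0 := pow_ne_zero 2 (one_sub_ne hζ')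
  unfold kf
  exact (by fun_prop (disch := assumption) :
    DifferentiableAt ℂ (fun ζ : ℂ => ζ / (1 - ζ) ^ 2) ζ).differentiableWithinAt

theorem coord_diff (i : Fin 2) {s : Set E2} : DifferentiableOn ℂ (fun z : E2 => z i) s :=
  (co i).differentiable.differentiableOn

theorem coord_maps (i : Fin 2) : MapsTo (fun z : E2 => z i) (ball 0 1) (ball (0 : ℂ) 1) := by
  intro z hz
  simpa using coord_lt hz i

theorem pt_diffOn {f g : E2 → ℂ} {s : Set E2} (hs : IsOpen s) (hf : DifferentiableOn ℂ f s)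
    (hg : DifferentiableOn ℂ g s) : DifferentiableOn ℂ (fun z => pt (f z) (g z)) s := fun z hz =>
  (differentiableAt_pt (hf.differentiableAt (hs.mem_nhds hz))
    (hg.differentiableAt (hs.mem_nhds hz))).differentiableWithinAt

theorem fB_diff : DifferentiableOn ℂ fB (ball 0 1) :=
  pt_diffOn isOpen_ball (kf_diff.comp (coord_diff 0) (coord_maps 0))
    (kf_diff.comp (coord_diff 1) (coord_maps 1))

theorem vA_diff {l : ℝ} (h0 : 0 < l) (h1 : l ≤ 1) : DifferentiableOn ℂ (vA l) (ball 0 1) := by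
  have hk : DifferentiableOn ℂ (fun z : E2 => koe l (z 0)) (ball 0 1) :=
    (koe_differentiableOn h0.le h1).comp (coord_diff 0) (coord_maps 0)
  have hkm : MapsTo (koe l) (ball 0 1) (ball 0 1) := by
    intro ζ hζ
    have := koe_norm_lt h0.le h1 (ζ := ζ) (by simpa using hζ)
    simpa using this
  have hm1 : DifferentiableOn ℂ (fun z : E2 => mm (z 0)) (ball 0 1) :=
    mm_diff.comp (coord_diff 0) (coord_maps 0)
  have hm2 : DifferentiableOn ℂ (fun z : E2 => mm (koe l (z 0))) (ball 0 1) :=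
    mm_diff.comp hk (hkm.comp (coord_maps 0))
  apply pt_diffOn isOpen_ball hk
  have hm3 : DifferentiableOn ℂ (fun z : E2 => (mm (koe l (z 0)))⁻¹) (ball 0 1) :=
    hm2.fun_inv (fun z hz => mm_ne_zero (koe_norm_lt h0.le h1 (coord_lt hz 0)))
  have hm4 := (((differentiableOn_const (l : ℂ)).mul (coord_diff 1)).mul hm1).mul hm3
  refine hm4.congr ?_
  intro z _
  simp only [Pi.mul_apply]
  rw [div_eq_mul_inv]

theorem vA_zero (l : ℝ) : vA l 0 = 0 := by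
  rw [vA]
  simp [koe_zero]

theorem vA_norm_le {l : ℝ} (h0 : 0 < l) (h1 : l ≤ 1) {z : E2} (hz : z ∈ ball (0 : E2) 1) :
    ‖vA l z‖ ≤ ‖z‖ :=
  Complex.norm_le_norm_of_mapsTo_ball (vA_diff h0 h1)
    (fun w hw => ball_subset_closedBall (vA_mem h0 h1 hw)) (vA_zero l) (mem_ball_zero_iff.1 hz)

end Fhat

end Pool.Agent.Helper540
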