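import Mathlib
import Pool.Agent.Helper540.Fhat

set_option autoImplicit false

namespace Pool.Agent.Helper540

open Metric Set Filter Topology

section Chain

theorem kf_hasDerivAt_zero : HasDerivAt kf 1 0 := by
  have h1 := (hasDerivAt_id (0 : ℂ)).fun_div (((hasDerivAt_id (0 : ℂ)).const_sub 1).fun_pow 2)
    (by simp)
  have h2 : HasDerivAt kf _ 0 := h1
  exact h2.congr_deriv (by norm_num)

theorem kf_zero : kf 0 = 0 := by simp [kf]

theorem tc_kf : tc 2 kf = 2 := by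
  have hd : DifferentiableOn ℂ (fun ζ : ℂ => ((1 - ζ) ^ 2)⁻¹) (ball 0 1) := by
    intro ζ hζ
    have h1 : (1 - ζ) ^ 2 ≠ 0 := pow_ne_zero 2 (one_sub_ne (by simpa using hζ))
    exact (by fun_prop (disch := assumption) :
      DifferentiableAt ℂ (fun ζ : ℂ => ((1 - ζ) ^ 2)⁻¹) ζ).differentiableWithinAt
  have h1 := tc_succ one_pos hd 1
  have h2 : (fun z : ℂ => z * ((1 - z) ^ 2)⁻¹) = kf := by
    ext z; rw [kf, div_eq_mul_inv]
  rw [h2] at h1
  rw [h1]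
  apply tc_one
  have h3 := (((hasDerivAt_id (0 : ℂ)).const_sub 1).fun_pow 2).fun_inv (by simp)
  refine h3.congr_deriv (by norm_num)

theorem koe_hasDerivAt_zero {l : ℝ} (h0 : 0 < l) (h1 : l ≤ 1) : HasDerivAt (koe l) l 0 := by
  obtain ⟨d, hd⟩ : ∃ d, HasDerivAt (koe l) d 0 :=
    ⟨_, ((koe_differentiableOn h0.le h1).differentiableAt (ball_mem_nhds _ one_pos)).hasDerivAt⟩
  have h2 : HasDerivAt kf 1 (koe l 0) := by rw [koe_zero]; exact kf_hasDerivAt_zero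
  have h3 : HasDerivAt (fun ζ => kf (koe l ζ)) (1 * d) 0 := h2.comp 0 hd
  have h4 : HasDerivAt (fun ζ => (l : ℂ) * kf ζ) ((l : ℂ) * 1) 0 := kf_hasDerivAt_zero.const_mul _
  have h5 : (fun ζ => kf (koe l ζ)) =ᶠ[𝓝 0] fun ζ => (l : ℂ) * kf ζ := by
    filter_upwards [ball_mem_nhds (0 : ℂ) one_pos] with ζ hζ
    exact kf_koe h0.le h1 (by simpa using hζ)
  have h6 := (h4.congr_of_eventuallyEq h5).unique h3
  rw [mul_one, one_mul] at h6
  rwa [← h6] at hd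

theorem id_eq_pt : (co 0).smulRight (pt 1 0) + (co 1).smulRight (pt 0 1) =
    ContinuousLinearMap.id ℂ E2 := by
  ext z i
  fin_cases i
  · show z 0 * 1 + z 1 * 0 = z 0
    ring
  · show z 0 * 0 + z 1 * 1 = z 1
    ring

theorem fB_hasFDerivAt_zero : HasFDerivAt fB (ContinuousLinearMap.id ℂ E2) 0 := by
  have h0 : HasFDerivAt (fun z : E2 => kf (z 0)) ((1 : ℂ) • co 0) 0 :=
    HasDerivAt.comp_hasFDerivAt (h₂ := kf) (f := fun z : E2 => z 0) (0 : E2)
      (by simpa using kf_hasDerivAt_zero) (co 0).hasFDerivAt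
  have h1 : HasFDerivAt (fun z : E2 => kf (z 1)) ((1 : ℂ) • co 1) 0 :=
    HasDerivAt.comp_hasFDerivAt (h₂ := kf) (f := fun z : E2 => z 1) (0 : E2)
      (by simpa using kf_hasDerivAt_zero) (co 1).hasFDerivAt
  have h2 := hasFDerivAt_pt h0 h1
  rw [one_smul, one_smul, id_eq_pt] at h2
  exact h2

theorem vA_hasFDerivAt_zero {l : ℝ} (h0 : 0 < l) (h1 : l ≤ 1) :
    HasFDerivAt (vA l) ((l : ℂ) • ContinuousLinearMap.id ℂ E2) 0 := by
  have hk : HasFDerivAt (fun z : E2 => koe l (z 0)) ((l : ℂ) • co 0) 0 :=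
    HasDerivAt.comp_hasFDerivAt (h₂ := koe l) (f := fun z : E2 => z 0) (0 : E2)
      (by simpa using koe_hasDerivAt_zero h0 h1) (co 0).hasFDerivAt
  have hb : ball (0 : E2) 1 ∈ 𝓝 (0 : E2) := ball_mem_nhds _ one_pos
  have hkd : DifferentiableOn ℂ (fun z : E2 => koe l (z 0)) (ball 0 1) :=
    (koe_differentiableOn h0.le h1).comp (coord_diff 0) (coord_maps 0)
  have hkm : MapsTo (koe l) (ball 0 1) (ball 0 1) := by
    intro ζ hζ
    have := koe_norm_lt h0.le h1 (ζ := ζ) (by simpa using hζ)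
    simpa using this
  have hm1 : DifferentiableOn ℂ (fun z : E2 => mm (z 0)) (ball 0 1) :=
    mm_diff.comp (coord_diff 0) (coord_maps 0)
  have hm2 : DifferentiableOn ℂ (fun z : E2 => mm (koe l (z 0))) (ball 0 1) :=
    mm_diff.comp hkd (hkm.comp (coord_maps 0))
  have hm3 : DifferentiableOn ℂ (fun z : E2 => (mm (koe l (z 0)))⁻¹) (ball 0 1) :=
    hm2.fun_inv (fun z hz => mm_ne_zero (koe_norm_lt h0.le h1 (coord_lt hz 0)))
  obtain ⟨φ', hφ⟩ : ∃ φ', HasFDerivAt (fun z : E2 => mm (z 0) * (mm (koe l (z 0)))⁻¹) φ' 0 :=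
    ⟨_, ((hm1.fun_mul hm3).differentiableAt hb).hasFDerivAt⟩
  have hlin : HasFDerivAt (fun z : E2 => (l : ℂ) * z 1) ((l : ℂ) • co 1) 0 :=
    (co 1).hasFDerivAt.const_mul _
  have h2 : HasFDerivAt (fun z : E2 => (l : ℂ) * z 1 * (mm (z 0) * (mm (koe l (z 0)))⁻¹))
      ((l : ℂ) • co 1) 0 := by
    have h3 := hlin.fun_mul hφ
    refine h3.congr_fderiv ?_
    simp [mm_zero, koe_zero]
    exact zero_smul ℂ φ'
  have h4 : HasFDerivAt (fun z : E2 => (l : ℂ) * z 1 * mm (z 0) / mm (koe l (z 0)))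
      ((l : ℂ) • co 1) 0 := by
    refine h2.congr_of_eventuallyEq (Eventually.of_forall (fun z => ?_))
    simp only
    rw [div_eq_mul_inv, mul_assoc ((l : ℂ) * z 1)]
  have h5 := hasFDerivAt_pt hk h4
  refine h5.congr_fderiv ?_
  rw [← id_eq_pt]
  ext z i
  fin_cases i
  · show (l : ℂ) * z 0 * 1 + (l : ℂ) * z 1 * 0 = (l : ℂ) * (z 0 * 1 + z 1 * 0)
    ring
  · show (l : ℂ) * z 0 * 0 + (l : ℂ) * z 1 * 1 = (l : ℂ) * (z 0 * 0 + z 1 * 1)
    ring

/-- The explicit Loewner chain with a discontinuous vector field. -/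
noncomputable def Fc (t : ℝ) (z : E2) : E2 :=
  ((Real.exp (max t 1) : ℝ) : ℂ) • fB (vA (Real.exp (min t 1 - 1)) z)

theorem lam_pos (t : ℝ) : 0 < Real.exp (min t 1 - 1) := Real.exp_pos _

theorem lam_le (t : ℝ) : Real.exp (min t 1 - 1) ≤ 1 := by
  rw [Real.exp_le_one_iff]
  have := min_le_right t 1
  linarith

theorem exp_ne (t : ℝ) : ((Real.exp t : ℝ) : ℂ) ≠ 0 := by
  exact_mod_cast (Real.exp_pos t).ne'

theorem Fc_holo (t : ℝ) : DifferentiableOn ℂ (Fc t) (ball 0 1) := by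
  have h1 : DifferentiableOn ℂ (fun z => fB (vA (Real.exp (min t 1 - 1)) z)) (ball 0 1) :=
    fB_diff.comp (vA_diff (lam_pos t) (lam_le t)) (fun z hz => vA_mem (lam_pos t) (lam_le t) hz)
  exact h1.fun_const_smul _

theorem Fc_LC : LC Fc := by
  refine ⟨fun t _ => Fc_holo t, ?_, ?_, ?_, ?_, ?_⟩
  · intro t _ z hz w hw h
    have h1 := smul_right_injective E2 (exp_ne (max t 1)) h
    have h2 := fB_inj (vA_mem (lam_pos t) (lam_le t) hz) (vA_mem (lam_pos t) (lam_le t) hw) h1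
    exact vA_inj (lam_pos t) (lam_le t) hz hw h2
  · intro t _
    rw [Fc, vA_zero, fB]
    simp [kf_zero]
  · intro t _
    have h1 : HasFDerivAt fB (ContinuousLinearMap.id ℂ E2) (vA (Real.exp (min t 1 - 1)) 0) := by
      rw [vA_zero]; exact fB_hasFDerivAt_zero
    have h2 := (h1.comp (0 : E2) (vA_hasFDerivAt_zero (lam_pos t) (lam_le t))).const_smul
      ((Real.exp (max t 1) : ℝ) : ℂ)
    have h3 : HasFDerivAt (Fc t) _ 0 := h2
    rw [h3.fderiv, ContinuousLinearMap.id_comp, smul_smul, ← Complex.ofReal_mul, ← Real.exp_add]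
    congr 3
    have := max_add_min t 1
    linarith
  · rintro s t hs hst _ ⟨z, hz, rfl⟩
    rcases le_or_gt t 1 with ht1 | ht1
    · have hs1 : s ≤ 1 := hst.trans ht1
      set a : ℝ := Real.exp (s - t) with ha
      have ha0 : 0 < a := Real.exp_pos _
      have ha1 : a ≤ 1 := by rw [ha, Real.exp_le_one_iff]; linarith
      refine ⟨vA a z, vA_mem ha0 ha1 hz, ?_⟩
      rw [Fc, Fc, max_eq_right ht1, max_eq_right hs1, vA_comp (lam_pos t) (lam_le t) ha0 ha1 hz,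
        min_eq_left ht1, min_eq_left hs1, ha, ← Real.exp_add]
      have : t - 1 + (s - t) = s - 1 := by ring
      rw [this]
    · set x := vA (Real.exp (min s 1 - 1)) z with hx
      have hxm : x ∈ ball (0 : E2) 1 := vA_mem (lam_pos s) (lam_le s) hz
      set b : ℝ := Real.exp (max s 1 - t) with hb
      have hb0 : 0 < b := Real.exp_pos _
      have hb1 : b ≤ 1 := by
        rw [hb, Real.exp_le_one_iff]
        have := max_le hst ht1.le
        linarith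
      refine ⟨vB b x, vB_mem hb0.le hb1 hxm, ?_⟩
      have h1 : Real.exp (min t 1 - 1) = 1 := by rw [min_eq_right ht1.le]; simp
      rw [Fc, h1, vA_one (vB_mem hb0.le hb1 hxm), fB_vB hb0.le hb1 hxm, max_eq_left ht1.le,
        smul_smul, ← Complex.ofReal_mul, hb, ← Real.exp_add, Fc]
      congr 4
      ring
  · intro r hr
    have hcomp : IsCompact (closedBall (0 : E2) r) := isCompact_closedBall _ _
    have hsub : closedBall (0 : E2) r ⊆ ball 0 1 := closedBall_subset_ball hr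
    obtain ⟨M, hM⟩ := hcomp.exists_bound_of_continuousOn (fB_diff.continuousOn.mono hsub)
    refine ⟨|M| * Real.exp 1, fun t ht z hz => ?_⟩
    have hzb : z ∈ ball (0 : E2) 1 := by rw [mem_ball_zero_iff]; linarith
    have h1 := hM (vA (Real.exp (min t 1 - 1)) z) (by
      rw [mem_closedBall_zero_iff]
      exact (vA_norm_le (lam_pos t) (lam_le t) hzb).trans hz)
    rw [Fc, norm_smul, Complex.norm_real, Real.norm_of_nonneg (Real.exp_pos _).le]
    have h2 : Real.exp (max t 1) ≤ Real.exp 1 * Real.exp t := by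
      rw [← Real.exp_add]
      apply Real.exp_le_exp.2
      apply max_le <;> linarith
    calc Real.exp (max t 1) * ‖fB (vA (Real.exp (min t 1 - 1)) z)‖
        ≤ (Real.exp 1 * Real.exp t) * |M| := by
          apply mul_le_mul h2 (h1.trans (le_abs_self M)) (norm_nonneg _) (by positivity)
      _ = |M| * Real.exp 1 * Real.exp t := by ring

/-- The parameter `e^{-1}`. -/
noncomputable def ll : ℝ := Real.exp (-1)

theorem ll_pos : 0 < ll := Real.exp_pos _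

theorem ll_lt : ll < 1 := by rw [ll, Real.exp_lt_one_iff]; norm_num

theorem e_ll : ((Real.exp 1 : ℝ) : ℂ) * (ll : ℂ) = 1 := by
  rw [ll, ← Complex.ofReal_mul, ← Real.exp_add]; simp

theorem Fc_zero_eq (z : E2) : Fc 0 z = ((Real.exp 1 : ℝ) : ℂ) • fB (vA ll z) := by
  rw [Fc, max_eq_right zero_le_one, min_eq_left zero_le_one, ll, zero_sub]

theorem Fc_zero_left {ζ : ℂ} (hζ : ‖ζ‖ < 1) : Fc 0 (pt ζ 0) = pt (kf ζ) 0 := by
  rw [Fc_zero_eq, vA, fB, pt_zero_apply, pt_zero_apply, pt_one_apply, pt_one_apply,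
    kf_koe ll_pos.le ll_lt.le hζ, mul_zero, zero_mul, zero_div, kf_zero, smul_pt, ← mul_assoc,
    e_ll, one_mul, mul_zero]

theorem Fc_zero_right (w : ℂ) :
    Fc 0 (pt 0 w) = pt 0 (((Real.exp 1 : ℝ) : ℂ) * kf (ll * w)) := by
  rw [Fc_zero_eq, vA, fB, pt_zero_apply, pt_zero_apply, pt_one_apply, pt_one_apply,
    koe_zero, mm_zero, kf_zero, smul_pt, mul_one, div_one, mul_zero]

theorem Fc_qf_left : qf (Fc 0) (pt 1 0) 0 = 2 := by
  have hs : DifferentiableOn ℂ (fun ζ : ℂ => Fc 0 (ζ • pt 1 0)) (ball 0 1) :=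
    slice_diff (Fc_holo 0) norm_pt_one_zero.le
  have h1 := tc_clm (co 0) 2 (contDiffAt_of_ball one_pos hs 2)
  have h2 : qf (Fc 0) (pt 1 0) 0 = tc 2 (fun ζ : ℂ => co 0 (Fc 0 (ζ • pt 1 0))) := h1.symm
  rw [h2, ← tc_kf]
  apply tc_congr
  filter_upwards [ball_mem_nhds (0 : ℂ) one_pos] with ζ hζ
  rw [smul_pt, mul_one, mul_zero, Fc_zero_left (by simpa using hζ)]
  rfl

theorem Fc_qf_right : qf (Fc 0) (pt 0 1) 1 = 2 * ll := by
  have hs : DifferentiableOn ℂ (fun ζ : ℂ => Fc 0 (ζ • pt 0 1)) (ball 0 1) :=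
    slice_diff (Fc_holo 0) norm_pt_zero_one.le
  have h1 := tc_clm (co 1) 2 (contDiffAt_of_ball one_pos hs 2)
  have h2 : qf (Fc 0) (pt 0 1) 1 = tc 2 (fun ζ : ℂ => co 1 (Fc 0 (ζ • pt 0 1))) := h1.symm
  have h3 : (fun ζ : ℂ => co 1 (Fc 0 (ζ • pt 0 1))) =
      fun ζ : ℂ => (((Real.exp 1 : ℝ) : ℂ) • ContinuousLinearMap.id ℂ ℂ) (kf (ζ • (ll : ℂ))) := by
    ext ζ
    rw [smul_pt, mul_one, mul_zero, Fc_zero_right]
    simp only [co_apply, pt_one_apply, smul_apply, ContinuousLinearMap.id_apply, smul_eq_mul]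
    rw [mul_comm (ll : ℂ)]
  have hd : DifferentiableOn ℂ (fun ζ : ℂ => kf (ζ • (ll : ℂ))) (ball 0 1) := by
    apply kf_diff.comp (by fun_prop)
    intro ζ hζ
    rw [mem_ball_zero_iff] at *
    rw [norm_smul, Complex.norm_real, Real.norm_of_nonneg ll_pos.le]
    nlinarith [norm_nonneg ζ, ll_lt, ll_pos]
  rw [h2, h3, tc_clm _ 2 (contDiffAt_of_ball one_pos hd 2), tc_comp_smul one_pos kf_diff 2, tc_kf]
  simp only [smul_apply, ContinuousLinearMap.id_apply, smul_eq_mul]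
  linear_combination 2 * (ll : ℂ) * e_ll

theorem Fc_gamma {ζ : ℂ} (hζ : ‖ζ‖ < 1) :
    fderiv ℂ (Fc 0) (pt ζ 0) (pt 0 1) 1 = mm ζ / mm (koe ll ζ) := by
  have hm : pt ζ 0 ∈ ball (0 : E2) 1 := pt_left_mem hζ
  have h1 : HasFDerivAt (Fc 0) (fderiv ℂ (Fc 0) (pt ζ 0)) (pt ζ 0) :=
    ((Fc_holo 0).differentiableAt (isOpen_ball.mem_nhds hm)).hasFDerivAt
  have h2 : HasDerivAt (fun w : ℂ => pt ζ w) (pt 0 1) 0 :=
    hasDerivAt_pt (hasDerivAt_const _ _) (hasDerivAt_id _)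
  have h3 : HasDerivAt (fun w : ℂ => Fc 0 (pt ζ w)) (fderiv ℂ (Fc 0) (pt ζ 0) (pt 0 1)) 0 :=
    HasFDerivAt.comp_hasDerivAt (f := fun w : ℂ => pt ζ w) 0 h1 h2
  have h4 : HasDerivAt (fun w : ℂ => (Fc 0 (pt ζ w)) 1) (fderiv ℂ (Fc 0) (pt ζ 0) (pt 0 1) 1) 0 :=
    (co 1).hasFDerivAt.comp_hasDerivAt 0 h3
  have h5 : (fun w : ℂ => (Fc 0 (pt ζ w)) 1) = fun w : ℂ => ((Real.exp 1 : ℝ) : ℂ) *
      kf (ll * w * mm ζ / mm (koe ll ζ)) := by
    ext w
    rw [Fc_zero_eq, vA, fB, smul_pt]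
    simp
  rw [h5] at h4
  have h6 : HasDerivAt (fun w : ℂ => (ll : ℂ) * w * mm ζ / mm (koe ll ζ))
      ((ll : ℂ) * 1 * mm ζ / mm (koe ll ζ)) 0 :=
    (((hasDerivAt_id (0 : ℂ)).const_mul (ll : ℂ)).mul_const (mm ζ)).div_const _
  have h7 : HasDerivAt kf 1 ((ll : ℂ) * 0 * mm ζ / mm (koe ll ζ)) := by
    simpa using kf_hasDerivAt_zero
  have h8 : HasDerivAt (fun w : ℂ => kf (ll * w * mm ζ / mm (koe ll ζ)))
      (1 * ((ll : ℂ) * 1 * mm ζ / mm (koe ll ζ))) 0 :=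
    HasDerivAt.comp (h := fun w : ℂ => (ll : ℂ) * w * mm ζ / mm (koe ll ζ)) (0 : ℂ) h7 h6
  have h9 := h8.const_mul ((Real.exp 1 : ℝ) : ℂ)
  rw [h4.unique h9]
  linear_combination (mm ζ / mm (koe ll ζ)) * e_ll

theorem Fc_mf : mf (Fc 0) 1 = 3 - 3 * ll := by
  have hpt : DifferentiableOn ℂ (fun ζ : ℂ => pt ζ 0) (ball 0 1) := fun ζ _ =>
    (differentiableAt_pt differentiableAt_id (differentiableAt_const _)).differentiableWithinAt
  have hptm : MapsTo (fun ζ : ℂ => pt ζ 0) (ball 0 1) (ball (0 : E2) 1) := by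
    intro ζ hζ
    exact pt_left_mem (by simpa using hζ)
  have hfd : DifferentiableOn ℂ (fun z => fderiv ℂ (Fc 0) z (pt 0 1)) (ball 0 1) :=
    differentiableOn_fderiv_apply isOpen_ball (Fc_holo 0) _
  have hs : DifferentiableOn ℂ (fun ζ : ℂ => fderiv ℂ (Fc 0) (pt ζ 0) (pt 0 1)) (ball 0 1) :=
    hfd.comp hpt hptm
  have h1 := tc_clm (co 1) 1 (contDiffAt_of_ball one_pos hs 1)
  have h2 : mf (Fc 0) 1 = tc 1 (fun ζ : ℂ => co 1 (fderiv ℂ (Fc 0) (pt ζ 0) (pt 0 1))) := h1.symm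
  rw [h2]
  have h3 : tc 1 (fun ζ : ℂ => co 1 (fderiv ℂ (Fc 0) (pt ζ 0) (pt 0 1))) =
      tc 1 (fun ζ : ℂ => mm ζ / mm (koe ll ζ)) := by
    apply tc_congr
    filter_upwards [ball_mem_nhds (0 : ℂ) one_pos] with ζ hζ
    exact Fc_gamma (by simpa using hζ)
  rw [h3]
  apply tc_one
  have h4 : HasDerivAt mm 3 (koe ll 0) := by rw [koe_zero]; exact mm_deriv_zero
  have h5 : HasDerivAt (fun ζ => mm (koe ll ζ)) (3 * ll) 0 :=
    HasDerivAt.comp (h := koe ll) (0 : ℂ) h4 (koe_hasDerivAt_zero ll_pos ll_lt.le)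
  have h6 := mm_deriv_zero.fun_div h5 (by rw [koe_zero, mm_zero]; exact one_ne_zero)
  refine h6.congr_deriv ?_
  rw [koe_zero, mm_zero]
  ring

end Chain

end Pool.Agent.Helper540
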