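import Mathlib
import Pool.Agent.Helper540.Taylor

set_option autoImplicit false

namespace Pool.Agent.Helper540

open Metric Set Filter Topology Asymptotics

section Jet

/-- `f` agrees with a cubic polynomial up to fourth order at the origin. -/
def J (f : ℂ → ℂ) (a0 a1 a2 a3 : ℂ) : Prop :=
  (fun ζ : ℂ => f ζ - (a0 + a1 * ζ + a2 * ζ ^ 2 + a3 * ζ ^ 3)) =O[𝓝 0] (fun ζ : ℂ => ζ ^ 4)

theorem isBigO_one_of_continuousAt {f : ℂ → ℂ} (hf : ContinuousAt f 0) :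
    f =O[𝓝 0] (fun _ : ℂ => (1 : ℂ)) :=
  hf.isBigO_one ℂ

theorem J.isBigO_one {f : ℂ → ℂ} {a0 a1 a2 a3 : ℂ} (h : J f a0 a1 a2 a3) :
    f =O[𝓝 0] (fun _ : ℂ => (1 : ℂ)) := by
  have h1 : (fun ζ : ℂ => a0 + a1 * ζ + a2 * ζ ^ 2 + a3 * ζ ^ 3) =O[𝓝 0] (fun _ : ℂ => (1 : ℂ)) :=
    isBigO_one_of_continuousAt (by fun_prop)
  have h2 : (fun ζ : ℂ => ζ ^ 4) =O[𝓝 0] (fun _ : ℂ => (1 : ℂ)) :=
    isBigO_one_of_continuousAt (by fun_prop)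
  have h3 := (IsBigO.trans h h2).add h1
  refine h3.congr_left (fun ζ => by ring)

theorem J.mul {f g : ℂ → ℂ} {a0 a1 a2 a3 b0 b1 b2 b3 : ℂ} (hf : J f a0 a1 a2 a3)
    (hg : J g b0 b1 b2 b3) :
    J (fun ζ => f ζ * g ζ) (a0 * b0) (a0 * b1 + a1 * b0) (a0 * b2 + a1 * b1 + a2 * b0)
      (a0 * b3 + a1 * b2 + a2 * b1 + a3 * b0) := by
  have h1 : (fun ζ : ℂ => (f ζ - (a0 + a1 * ζ + a2 * ζ ^ 2 + a3 * ζ ^ 3)) * g ζ) =O[𝓝 0]
      (fun ζ : ℂ => ζ ^ 4 * 1) := IsBigO.mul hf hg.isBigO_one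
  have hP : (fun ζ : ℂ => a0 + a1 * ζ + a2 * ζ ^ 2 + a3 * ζ ^ 3) =O[𝓝 0] (fun _ : ℂ => (1 : ℂ)) :=
    isBigO_one_of_continuousAt (by fun_prop)
  have h2 : (fun ζ : ℂ => (a0 + a1 * ζ + a2 * ζ ^ 2 + a3 * ζ ^ 3) *
      (g ζ - (b0 + b1 * ζ + b2 * ζ ^ 2 + b3 * ζ ^ 3))) =O[𝓝 0] (fun ζ : ℂ => 1 * ζ ^ 4) :=
    IsBigO.mul hP hg
  have h3 : (fun ζ : ℂ => ζ ^ 4 * ((a1 * b3 + a2 * b2 + a3 * b1) + (a2 * b3 + a3 * b2) * ζ +
      a3 * b3 * ζ ^ 2)) =O[𝓝 0] (fun ζ : ℂ => ζ ^ 4 * 1) :=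
    IsBigO.mul (isBigO_refl _ _) (isBigO_one_of_continuousAt (by fun_prop))
  simp only [mul_one, one_mul] at h1 h2 h3
  have h4 := (h1.add h2).add h3
  refine h4.congr_left (fun ζ => by ring)

theorem J.add {f g : ℂ → ℂ} {a0 a1 a2 a3 b0 b1 b2 b3 : ℂ} (hf : J f a0 a1 a2 a3)
    (hg : J g b0 b1 b2 b3) :
    J (fun ζ => f ζ + g ζ) (a0 + b0) (a1 + b1) (a2 + b2) (a3 + b3) := by
  have h4 := IsBigO.add hf hg
  refine h4.congr_left (fun ζ => by ring)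

theorem J.sub {f g : ℂ → ℂ} {a0 a1 a2 a3 b0 b1 b2 b3 : ℂ} (hf : J f a0 a1 a2 a3)
    (hg : J g b0 b1 b2 b3) :
    J (fun ζ => f ζ - g ζ) (a0 - b0) (a1 - b1) (a2 - b2) (a3 - b3) := by
  have h4 := IsBigO.sub hf hg
  refine h4.congr_left (fun ζ => by ring)

theorem J.const (c : ℂ) : J (fun _ => c) c 0 0 0 := by
  have : (fun ζ : ℂ => c - (c + 0 * ζ + 0 * ζ ^ 2 + 0 * ζ ^ 3)) = fun _ => 0 := by
    ext ζ; ring
  rw [J, this]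
  exact isBigO_zero _ _

theorem J.id : J (fun ζ => ζ) 0 1 0 0 := by
  have : (fun ζ : ℂ => ζ - (0 + 1 * ζ + 0 * ζ ^ 2 + 0 * ζ ^ 3)) = fun _ => 0 := by
    ext ζ; ring
  rw [J, this]
  exact isBigO_zero _ _

theorem J.const_mul {f : ℂ → ℂ} {a0 a1 a2 a3 : ℂ} (c : ℂ) (hf : J f a0 a1 a2 a3) :
    J (fun ζ => c * f ζ) (c * a0) (c * a1) (c * a2) (c * a3) := by
  have h4 := IsBigO.const_mul_left hf c
  refine h4.congr_left (fun ζ => by ring)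

theorem J.congr {f g : ℂ → ℂ} {a0 a1 a2 a3 : ℂ} (hf : J f a0 a1 a2 a3)
    (h : f =ᶠ[𝓝 0] g) : J g a0 a1 a2 a3 := by
  refine IsBigO.congr' hf ?_ EventuallyEq.rfl
  filter_upwards [h] with ζ hζ
  rw [hζ]

theorem holo_split {f : ℂ → ℂ} {R : ℝ} (hR : 0 < R) (hf : DifferentiableOn ℂ f (ball 0 R)) :
    ∃ g : ℂ → ℂ, DifferentiableOn ℂ g (ball 0 R) ∧ ∀ ζ, f ζ = f 0 + ζ * g ζ := by
  refine ⟨dslope f 0, (Complex.differentiableOn_dslope (ball_mem_nhds _ hR)).2 hf, fun ζ => ?_⟩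
  have := sub_smul_dslope f 0 ζ
  rw [sub_zero, smul_eq_mul] at this
  rw [this]
  ring

theorem J.exists_of_holo {f : ℂ → ℂ} {R : ℝ} (hR : 0 < R) (hf : DifferentiableOn ℂ f (ball 0 R)) :
    ∃ a1 a2 a3, J f (f 0) a1 a2 a3 := by
  obtain ⟨g, hg, hfg⟩ := holo_split hR hf
  obtain ⟨k, hk, hgk⟩ := holo_split hR hg
  obtain ⟨m, hm, hkm⟩ := holo_split hR hk
  obtain ⟨n, hn, hmn⟩ := holo_split hR hm
  refine ⟨g 0, k 0, m 0, ?_⟩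
  have h1 : (fun ζ : ℂ => ζ ^ 4 * n ζ) =O[𝓝 0] (fun ζ : ℂ => ζ ^ 4 * 1) :=
    IsBigO.mul (isBigO_refl _ _) (isBigO_one_of_continuousAt
      (hn.differentiableAt (ball_mem_nhds _ hR)).continuousAt)
  simp only [mul_one] at h1
  refine h1.congr_left (fun ζ => ?_)
  rw [hfg ζ, hgk ζ, hkm ζ, hmn ζ]
  ring

theorem J.tc_eq {f : ℂ → ℂ} {R : ℝ} (hR : 0 < R) (hf : DifferentiableOn ℂ f (ball 0 R))
    {a0 a1 a2 a3 : ℂ} (h : J f a0 a1 a2 a3) :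
    tc 0 f = a0 ∧ tc 1 f = a1 ∧ tc 2 f = a2 ∧ tc 3 f = a3 := by
  obtain ⟨C, hC⟩ := IsBigO.bound h
  rw [Metric.eventually_nhds_iff_ball] at hC
  obtain ⟨δ, hδ, hb⟩ := hC
  set r : ℝ := min R (min δ 1) with hr
  have hr0 : 0 < r := by positivity
  set P : ℂ → ℂ := fun ζ => a0 + a1 * ζ + a2 * ζ ^ 2 + a3 * ζ ^ 3 with hP
  have hfr : DifferentiableOn ℂ f (ball 0 r) := hf.mono (ball_subset_ball (min_le_left _ _))
  have hPd : Differentiable ℂ P := by fun_prop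
  have hCf : ∀ n : ℕ, ContDiffAt ℂ n f 0 := fun n => contDiffAt_of_ball hr0 hfr n
  have hCP : ∀ n : ℕ, ContDiffAt ℂ n P 0 := fun n =>
    contDiffAt_of_ball hr0 hPd.differentiableOn n
  have key : ∀ n : ℕ, n ≤ 3 → tc n f = tc n P := by
    intro n hn
    have h1 : tc n (fun ζ => f ζ - P ζ) = 0 := by
      apply tc_eq_zero_of_bound (C := |C|) n hr0 (hfr.sub hPd.differentiableOn)
      intro z hz
      have hzr : ‖z‖ < r := by simpa using hz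
      have hz1 : ‖z‖ ≤ 1 := hzr.le.trans ((min_le_right _ _).trans (min_le_right _ _))
      have hzδ : z ∈ ball (0 : ℂ) δ := by
        rw [mem_ball_zero_iff]
        exact hzr.trans_le ((min_le_right _ _).trans (min_le_left _ _))
      have h2 := hb z hzδ
      refine h2.trans ?_
      rw [norm_pow]
      have h3 : ‖z‖ ^ 4 ≤ ‖z‖ ^ (n + 1) := pow_le_pow_of_le_one (norm_nonneg _) hz1 (by omega)
      calc C * ‖z‖ ^ 4 ≤ |C| * ‖z‖ ^ 4 := by gcongr; exact le_abs_self _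
        _ ≤ |C| * ‖z‖ ^ (n + 1) := by gcongr
    rw [tc_sub n (hCf n) (hCP n)] at h1
    exact sub_eq_zero.1 h1
  have hPn : ∀ n : ℕ, tc n P = (if n = 0 then a0 else 0) + (if n = 1 then a1 else 0) +
      (if n = 2 then a2 else 0) + (if n = 3 then a3 else 0) := by
    intro n
    have e : P = fun ζ : ℂ => ((ζ ^ 0 • a0 + ζ ^ 1 • a1) + ζ ^ 2 • a2) + ζ ^ 3 • a3 := by
      ext ζ; simp [hP]; ring
    have c : ∀ (m : ℕ) (a : ℂ), ContDiffAt ℂ n (fun ζ : ℂ => ζ ^ m • a) 0 := fun m a => by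
      fun_prop
    rw [e, tc_add n (((c 0 a0).add (c 1 a1)).add (c 2 a2)) (c 3 a3),
      tc_add n ((c 0 a0).add (c 1 a1)) (c 2 a2), tc_add n (c 0 a0) (c 1 a1),
      tc_pow_smul, tc_pow_smul, tc_pow_smul, tc_pow_smul]
  refine ⟨?_, ?_, ?_, ?_⟩
  · rw [key 0 (by norm_num), hPn]; simp
  · rw [key 1 (by norm_num), hPn]; simp
  · rw [key 2 (by norm_num), hPn]; simp
  · rw [key 3 (by norm_num), hPn]; simp

theorem J.unique {f : ℂ → ℂ} {a0 a1 a2 a3 b0 b1 b2 b3 : ℂ} (h : J f a0 a1 a2 a3)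
    (h' : J f b0 b1 b2 b3) : a0 = b0 ∧ a1 = b1 ∧ a2 = b2 ∧ a3 = b3 := by
  have h1 := h.sub h'
  have e : (fun ζ => f ζ - f ζ) = fun _ : ℂ => (0 : ℂ) := by ext ζ; ring
  rw [e] at h1
  have hd : DifferentiableOn ℂ (fun _ : ℂ => (0 : ℂ)) (ball 0 1) := differentiableOn_const _
  obtain ⟨h2, h3, h4, h5⟩ := h1.tc_eq one_pos hd
  obtain ⟨g2, g3, g4, g5⟩ := (J.const 0).tc_eq one_pos hd
  rw [g2] at h2
  rw [g3] at h3
  rw [g4] at h4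
  rw [g5] at h5
  exact ⟨(sub_eq_zero.1 h2.symm), (sub_eq_zero.1 h3.symm), (sub_eq_zero.1 h4.symm),
    (sub_eq_zero.1 h5.symm)⟩

end Jet

end Pool.Agent.Helper540
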