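import Mathlib
import Pool.Agent.Helper540.Chain

set_option autoImplicit false

namespace Pool.Agent.Helper540

open Metric Set Filter Topology

section Rot

/-- Conjugation of a chain by an isometric linear change of coordinates. -/
theorem LC.conj {F : ℝ → E2 → E2} (hF : LC F) {L L' : E2 →L[ℂ] E2} (hL : ∀ z, ‖L z‖ = ‖z‖)
    (hL' : ∀ z, ‖L' z‖ = ‖z‖) (h1 : ∀ z, L' (L z) = z) (h2 : ∀ z, L (L' z) = z) :
    LC (fun t z => L' (F t (L z))) := by
  have hm : MapsTo L (ball (0 : E2) 1) (ball 0 1) := by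
    intro z hz
    rw [mem_ball_zero_iff] at *
    rw [hL]; exact hz
  have hm' : MapsTo L' (ball (0 : E2) 1) (ball 0 1) := by
    intro z hz
    rw [mem_ball_zero_iff] at *
    rw [hL']; exact hz
  refine ⟨?_, ?_, ?_, ?_, ?_, ?_⟩
  · intro t ht
    exact L'.differentiable.comp_differentiableOn
      ((hF.holo t ht).comp L.differentiable.differentiableOn hm)
  · intro t ht z hz w hw h
    have h3 : F t (L z) = F t (L w) := by
      have := congrArg L h
      simpa [h2] using this
    have h4 := hF.inj t ht (hm hz) (hm hw) h3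
    have := congrArg L' h4
    simpa [h1] using this
  · intro t ht
    rw [map_zero, hF.zero t ht, map_zero]
  · intro t ht
    have hb : ball (0 : E2) 1 ∈ 𝓝 (L 0) := by rw [map_zero]; exact ball_mem_nhds _ one_pos
    have h3 : HasFDerivAt (F t) (((Real.exp t : ℝ) : ℂ) • ContinuousLinearMap.id ℂ E2) (L 0) := by
      rw [map_zero, ← hF.deriv t ht]
      exact ((hF.holo t ht).differentiableAt (ball_mem_nhds _ one_pos)).hasFDerivAt
    have h4 : HasFDerivAt (fun z => L' (F t (L z)))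
        (L'.comp ((((Real.exp t : ℝ) : ℂ) • ContinuousLinearMap.id ℂ E2).comp L)) 0 :=
      (L'.hasFDerivAt (x := F t (L 0))).comp (0 : E2) (h3.comp (0 : E2) L.hasFDerivAt)
    rw [h4.fderiv]
    apply ContinuousLinearMap.ext
    intro z
    simp only [ContinuousLinearMap.comp_apply, smul_apply, ContinuousLinearMap.id_apply, map_smul]
    rw [h1]
  · rintro s t hs hst _ ⟨z, hz, rfl⟩
    obtain ⟨w, hw, hwz⟩ := hF.sub s t hs hst ⟨L z, hm hz, rfl⟩
    refine ⟨L' w, hm' hw, ?_⟩
    simp only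
    rw [h2, hwz]
  · intro r hr
    obtain ⟨M, hM⟩ := hF.bdd r hr
    refine ⟨M, fun t ht z hz => ?_⟩
    rw [hL']
    exact hM t ht (L z) (by rw [hL]; exact hz)

/-- A starlike map preceded by the first phase. -/
theorem LC.glue {Ψ : E2 → E2} (hΨ : LC (fun t z => ((Real.exp t : ℝ) : ℂ) • Ψ z)) {T : ℝ}
    (hT : 0 ≤ T) : LC (fun t z => ((Real.exp (max t T) : ℝ) : ℂ) •
      Ψ (vA (Real.exp (min t T - T)) z)) := by
  have lp : ∀ t : ℝ, 0 < Real.exp (min t T - T) := fun t => Real.exp_pos _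
  have ll' : ∀ t : ℝ, Real.exp (min t T - T) ≤ 1 := by
    intro t
    rw [Real.exp_le_one_iff]
    have := min_le_right t T
    linarith
  have hΨd : DifferentiableOn ℂ Ψ (ball 0 1) := by
    have := hΨ.holo 0 le_rfl
    simpa using this
  have hΨi : InjOn Ψ (ball 0 1) := by
    have := hΨ.inj 0 le_rfl
    simpa using this
  have hΨ0 : Ψ 0 = 0 := by
    have := hΨ.zero 0 le_rfl
    simpa using this
  have hΨf : HasFDerivAt Ψ (ContinuousLinearMap.id ℂ E2) 0 := by
    have h1 := hΨ.deriv 0 le_rfl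
    simp only [Real.exp_zero, Complex.ofReal_one, one_smul] at h1
    have h2 : HasFDerivAt Ψ (fderiv ℂ Ψ 0) 0 :=
      (hΨd.differentiableAt (ball_mem_nhds _ one_pos)).hasFDerivAt
    rwa [h1] at h2
  refine ⟨?_, ?_, ?_, ?_, ?_, ?_⟩
  · intro t ht
    exact (hΨd.comp (vA_diff (lp t) (ll' t)) (fun z hz => vA_mem (lp t) (ll' t) hz)).fun_const_smul _
  · intro t _ z hz w hw h
    have h1 := smul_right_injective E2 (exp_ne (max t T)) h
    have h2 := hΨi (vA_mem (lp t) (ll' t) hz) (vA_mem (lp t) (ll' t) hw) h1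
    exact vA_inj (lp t) (ll' t) hz hw h2
  · intro t _
    rw [vA_zero, hΨ0, smul_zero]
  · intro t _
    have h1 : HasFDerivAt Ψ (ContinuousLinearMap.id ℂ E2) (vA (Real.exp (min t T - T)) 0) := by
      rw [vA_zero]; exact hΨf
    have h2 := (h1.comp (0 : E2) (vA_hasFDerivAt_zero (lp t) (ll' t))).fun_const_smul
      ((Real.exp (max t T) : ℝ) : ℂ)
    have h3 : HasFDerivAt (fun z => ((Real.exp (max t T) : ℝ) : ℂ) •
      Ψ (vA (Real.exp (min t T - T)) z)) _ 0 := h2
    rw [h3.fderiv, ContinuousLinearMap.id_comp, smul_smul, ← Complex.ofReal_mul, ← Real.exp_add]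
    congr 3
    have := max_add_min t T
    linarith
  · rintro s t hs hst _ ⟨z, hz, rfl⟩
    rcases le_or_gt t T with ht1 | ht1
    · have hs1 : s ≤ T := hst.trans ht1
      set a : ℝ := Real.exp (s - t) with ha
      have ha0 : 0 < a := Real.exp_pos _
      have ha1 : a ≤ 1 := by rw [ha, Real.exp_le_one_iff]; linarith
      refine ⟨vA a z, vA_mem ha0 ha1 hz, ?_⟩
      simp only
      rw [max_eq_right ht1, max_eq_right hs1, vA_comp (lp t) (ll' t) ha0 ha1 hz,
        min_eq_left ht1, min_eq_left hs1, ha, ← Real.exp_add]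
      have : t - T + (s - t) = s - T := by ring
      rw [this]
    · set x := vA (Real.exp (min s T - T)) z with hx
      have hxm : x ∈ ball (0 : E2) 1 := vA_mem (lp s) (ll' s) hz
      have hmax : max s T ≤ t := max_le hst ht1.le
      obtain ⟨y, hy, hyx⟩ := hΨ.sub (max s T) t (hs.trans (le_max_left _ _)) hmax ⟨x, hxm, rfl⟩
      refine ⟨y, hy, ?_⟩
      simp only at hyx ⊢
      have h1 : Real.exp (min t T - T) = 1 := by rw [min_eq_right ht1.le]; simp
      rw [h1, vA_one hy, max_eq_left ht1.le, hyx]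
  · intro r hr
    have hcomp : IsCompact (closedBall (0 : E2) r) := isCompact_closedBall _ _
    have hsub : closedBall (0 : E2) r ⊆ ball 0 1 := closedBall_subset_ball hr
    obtain ⟨M, hM⟩ := hcomp.exists_bound_of_continuousOn (hΨd.continuousOn.mono hsub)
    refine ⟨|M| * Real.exp T, fun t ht z hz => ?_⟩
    have hzb : z ∈ ball (0 : E2) 1 := by rw [mem_ball_zero_iff]; linarith
    have h1 := hM (vA (Real.exp (min t T - T)) z) (by
      rw [mem_closedBall_zero_iff]
      exact (vA_norm_le (lp t) (ll' t) hzb).trans hz)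
    rw [norm_smul, Complex.norm_real, Real.norm_of_nonneg (Real.exp_pos _).le]
    have h2 : Real.exp (max t T) ≤ Real.exp T * Real.exp t := by
      rw [← Real.exp_add]
      apply Real.exp_le_exp.2
      apply max_le <;> linarith
    calc Real.exp (max t T) * ‖Ψ (vA (Real.exp (min t T - T)) z)‖
        ≤ (Real.exp T * Real.exp t) * |M| := by
          apply mul_le_mul h2 (h1.trans (le_abs_self M)) (norm_nonneg _) (by positivity)
      _ = |M| * Real.exp T * Real.exp t := by ring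

/-- The map `(k(z₁), z₂)`. -/
noncomputable def KK (z : E2) : E2 := pt (kf (z 0)) (z 1)

theorem KK_diff : DifferentiableOn ℂ KK (ball 0 1) :=
  pt_diffOn isOpen_ball (kf_diff.comp (coord_diff 0) (coord_maps 0)) (coord_diff 1)

theorem KK_hasFDerivAt_zero : HasFDerivAt KK (ContinuousLinearMap.id ℂ E2) 0 := by
  have h0 : HasFDerivAt (fun z : E2 => kf (z 0)) ((1 : ℂ) • co 0) 0 :=
    HasDerivAt.comp_hasFDerivAt (h₂ := kf) (f := fun z : E2 => z 0) (0 : E2)
      (by simpa using kf_hasDerivAt_zero) (co 0).hasFDerivAt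
  have h1 : HasFDerivAt (fun z : E2 => z 1) (co 1) 0 := (co 1).hasFDerivAt
  have h2 := hasFDerivAt_pt h0 h1
  rw [one_smul, id_eq_pt] at h2
  exact h2

theorem KK_chain : LC (fun t z => ((Real.exp t : ℝ) : ℂ) • KK z) := by
  refine ⟨fun t _ => KK_diff.fun_const_smul _, ?_, ?_, ?_, ?_, ?_⟩
  · intro t _ z hz w hw h
    have h1 := smul_right_injective E2 (exp_ne t) h
    have e0 := congrArg (fun v : E2 => v 0) h1
    have e1 := congrArg (fun v : E2 => v 1) h1
    simp only [KK, pt_zero_apply, pt_one_apply] at e0 e1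
    rw [← pt_eta z, ← pt_eta w, kf_inj (coord_lt hz 0) (coord_lt hw 0) e0, e1]
  · intro t _
    simp [KK, kf_zero]
  · intro t _
    have h1 : HasFDerivAt (fun z => ((Real.exp t : ℝ) : ℂ) • KK z) _ 0 :=
      KK_hasFDerivAt_zero.fun_const_smul ((Real.exp t : ℝ) : ℂ)
    exact h1.fderiv
  · rintro s t hs hst _ ⟨z, hz, rfl⟩
    set b : ℝ := Real.exp (s - t) with hb
    have hb0 : 0 < b := Real.exp_pos _
    have hb1 : b ≤ 1 := by rw [hb, Real.exp_le_one_iff]; linarith
    refine ⟨pt (koe b (z 0)) ((b : ℂ) * z 1), ?_, ?_⟩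
    · apply pt_mem_ball
      have hzz := ball_norm_sq hz
      have h2 := koe_norm_le hb0.le hb1 (coord_lt hz 0)
      have h3 : ‖(b : ℂ) * z 1‖ ≤ ‖z 1‖ := by
        rw [norm_mul, Complex.norm_real, Real.norm_of_nonneg hb0.le]
        exact mul_le_of_le_one_left (norm_nonneg _) hb1
      have h4 : ‖koe b (z 0)‖ ^ 2 ≤ ‖z 0‖ ^ 2 := by gcongr
      have h5 : ‖(b : ℂ) * z 1‖ ^ 2 ≤ ‖z 1‖ ^ 2 := by gcongr
      linarith
    · simp only [KK, pt_zero_apply, pt_one_apply]
      rw [kf_koe hb0.le hb1 (coord_lt hz 0), smul_pt, smul_pt, ← mul_assoc, ← mul_assoc,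
        ← Complex.ofReal_mul, hb, ← Real.exp_add]
      have : t + (s - t) = s := by ring
      rw [this]
  · intro r hr
    have hcomp : IsCompact (closedBall (0 : E2) r) := isCompact_closedBall _ _
    have hsub : closedBall (0 : E2) r ⊆ ball 0 1 := closedBall_subset_ball hr
    obtain ⟨M, hM⟩ := hcomp.exists_bound_of_continuousOn (KK_diff.continuousOn.mono hsub)
    refine ⟨M, fun t ht z hz => ?_⟩
    rw [norm_smul, Complex.norm_real, Real.norm_of_nonneg (Real.exp_pos _).le, mul_comm]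
    gcongr
    exact hM z (by simpa using hz)

/-- Rotation of the two coordinates. -/
noncomputable def rt (c s : ℂ) : E2 →L[ℂ] E2 :=
  (c • co 0 + s • co 1).smulRight (pt 1 0) + (-s • co 0 + c • co 1).smulRight (pt 0 1)

theorem rt_apply (c s : ℂ) (z : E2) :
    rt c s z = pt (c * z 0 + s * z 1) (-s * z 0 + c * z 1) := by
  rw [pt_eq]
  simp [rt]

theorem rt_rt {c s : ℂ} (h : c ^ 2 + s ^ 2 = 1) (z : E2) : rt c (-s) (rt c s z) = z := by
  rw [rt_apply, rt_apply, pt_zero_apply, pt_one_apply]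
  conv_rhs => rw [← pt_eta z]
  congr 1
  · linear_combination (z 0) * h
  · linear_combination (z 1) * h

theorem rt_rt' {c s : ℂ} (h : c ^ 2 + s ^ 2 = 1) (z : E2) : rt c s (rt c (-s) z) = z := by
  have h1 : c ^ 2 + (-s) ^ 2 = 1 := by rw [neg_sq]; exact h
  have h2 := rt_rt h1 z
  rwa [neg_neg] at h2

theorem norm_rt {c s : ℝ} (h : c ^ 2 + s ^ 2 = 1) (z : E2) : ‖rt c s z‖ = ‖z‖ := by
  have h1 : ‖rt c s z‖ ^ 2 = ‖z‖ ^ 2 := by
    rw [rt_apply, norm_pt_sq, norm_sq_two, ← Complex.normSq_eq_norm_sq, ← Complex.normSq_eq_norm_sq,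
      ← Complex.normSq_eq_norm_sq, ← Complex.normSq_eq_norm_sq, Complex.normSq_apply,
      Complex.normSq_apply, Complex.normSq_apply, Complex.normSq_apply]
    simp
    linear_combination ((z 0).re ^ 2 + (z 0).im ^ 2 + (z 1).re ^ 2 + (z 1).im ^ 2) * h
  exact (pow_left_inj₀ (norm_nonneg _) (norm_nonneg _) two_ne_zero).1 h1

end Rot

end Pool.Agent.Helper540
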