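import Mathlib
import Pool.Agent.Helper540.Rot
import Pool.Agent.Helper540.Jet

set_option autoImplicit false

namespace Pool.Agent.Helper540

open Metric Set Filter Topology

section Coef

variable {l c : ℝ}

theorem V_eq (h0 : 0 < l) (h1 : l ≤ 1) {w : ℂ} (hw : ‖w‖ < 1) :
    koe l w * ((1 - w) * (1 - w)) = (l * w) * ((1 - koe l w) * (1 - koe l w)) := by
  have h2 := kf_koe h0.le h1 hw
  have h3 := one_sub_ne hw
  have h4 := one_sub_ne (koe_norm_lt h0.le h1 hw)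
  rw [kf, kf] at h2
  field_simp at h2
  linear_combination h2

theorem mm_sq {w : ℂ} (hw : ‖w‖ < 1) : mm w ^ 2 * (1 - w) ^ 5 = 1 + w := by
  have h3 := one_sub_ne hw
  rw [mm, div_pow, sqrt_sq', wq]
  field_simp

theorem N_eq (h0 : 0 < l) (h1 : l ≤ 1) {w : ℂ} (hw : ‖w‖ < 1) :
    (mm w / mm (koe l w)) * (mm w / mm (koe l w)) *
      ((1 - w) * (1 - w) * ((1 - w) * (1 - w)) * (1 - w) * (1 + koe l w)) =
      (1 + w) * ((1 - koe l w) * (1 - koe l w) * ((1 - koe l w) * (1 - koe l w)) *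
        (1 - koe l w)) := by
  have hV := koe_norm_lt h0.le h1 hw
  have e1 := mm_sq hw
  have e2 := mm_sq hV
  have h3 := mm_ne_zero hV
  have h4 := one_sub_ne hw
  rw [div_mul_div_comm, div_mul_eq_mul_div, div_eq_iff (mul_ne_zero h3 h3)]
  linear_combination (1 + koe l w) * e1 - (1 + w) * e2

theorem cball (hc0 : 0 ≤ c) (hc1 : c ≤ 1) {ζ : ℂ} (hζ : ‖ζ‖ < 1) : ‖(c : ℂ) * ζ‖ < 1 := by
  rw [norm_mul, Complex.norm_real, Real.norm_of_nonneg hc0]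
  nlinarith [norm_nonneg ζ]

theorem V_holo (h0 : 0 < l) (h1 : l ≤ 1) (hc0 : 0 ≤ c) (hc1 : c ≤ 1) :
    DifferentiableOn ℂ (fun ζ : ℂ => koe l ((c : ℂ) * ζ)) (ball 0 1) := by
  apply (koe_differentiableOn h0.le h1).comp (by fun_prop)
  intro ζ hζ
  simpa using cball hc0 hc1 (by simpa using hζ : ‖ζ‖ < 1)

theorem N_holo (h0 : 0 < l) (h1 : l ≤ 1) (hc0 : 0 ≤ c) (hc1 : c ≤ 1) :
    DifferentiableOn ℂ (fun ζ : ℂ => mm ((c : ℂ) * ζ) / mm (koe l ((c : ℂ) * ζ))) (ball 0 1) := by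
  have h2 : DifferentiableOn ℂ (fun ζ : ℂ => mm ((c : ℂ) * ζ)) (ball 0 1) := by
    apply mm_diff.comp (by fun_prop)
    intro ζ hζ
    simpa using cball hc0 hc1 (by simpa using hζ : ‖ζ‖ < 1)
  have h3 : DifferentiableOn ℂ (fun ζ : ℂ => mm (koe l ((c : ℂ) * ζ))) (ball 0 1) := by
    apply mm_diff.comp (V_holo h0 h1 hc0 hc1)
    intro ζ hζ
    simpa using koe_norm_lt h0.le h1 (cball hc0 hc1 (by simpa using hζ : ‖ζ‖ < 1))
  intro ζ hζ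
  have h4 := mm_ne_zero (koe_norm_lt h0.le h1 (cball hc0 hc1 (by simpa using hζ : ‖ζ‖ < 1)))
  exact (h2 ζ hζ).fun_div (h3 ζ hζ) h4

theorem J_V (h0 : 0 < l) (h1 : l ≤ 1) (hc0 : 0 ≤ c) (hc1 : c ≤ 1) :
    J (fun ζ : ℂ => koe l ((c : ℂ) * ζ)) 0 (l * c) (2 * l * (1 - l) * c ^ 2)
      (l * (1 - l) * (3 - 5 * l) * c ^ 3) := by
  obtain ⟨v1, v2, v3, hV⟩ := J.exists_of_holo one_pos (V_holo h0 h1 hc0 hc1)
  rw [mul_zero, koe_zero] at hV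
  have hw : J (fun ζ : ℂ => 1 - (c : ℂ) * ζ) (1 - c * 0) (0 - c * 1) (0 - c * 0) (0 - c * 0) :=
    (J.const 1).sub (J.id.const_mul (c : ℂ))
  have hlw : J (fun ζ : ℂ => (l : ℂ) * ((c : ℂ) * ζ)) (l * (c * 0)) (l * (c * 1)) (l * (c * 0))
      (l * (c * 0)) := (J.id.const_mul (c : ℂ)).const_mul (l : ℂ)
  have hV1 := (J.const 1).sub hV
  have e1 := hV.mul (hw.mul hw)
  have e2 := hlw.mul (hV1.mul hV1)
  have e3 : (fun ζ : ℂ => koe l ((c : ℂ) * ζ) * ((1 - (c : ℂ) * ζ) * (1 - (c : ℂ) * ζ))) =ᶠ[𝓝 0]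
      fun ζ : ℂ => (l * ((c : ℂ) * ζ)) * ((1 - koe l ((c : ℂ) * ζ)) *
        (1 - koe l ((c : ℂ) * ζ))) := by
    filter_upwards [ball_mem_nhds (0 : ℂ) one_pos] with ζ hζ
    exact V_eq h0 h1 (cball hc0 hc1 (by simpa using hζ))
  obtain ⟨-, q1, q2, q3⟩ := (e1.congr e3).unique e2
  have r1 : v1 = l * c := by linear_combination q1
  rw [r1] at q2 q3 hV
  have r2 : v2 = 2 * l * (1 - l) * c ^ 2 := by linear_combination q2
  rw [r2] at q3 hV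
  have r3 : v3 = l * (1 - l) * (3 - 5 * l) * c ^ 3 := by linear_combination q3
  rw [r3] at hV
  exact hV

theorem J_N (h0 : 0 < l) (h1 : l ≤ 1) (hc0 : 0 ≤ c) (hc1 : c ≤ 1) :
    ∃ n3, J (fun ζ : ℂ => mm ((c : ℂ) * ζ) / mm (koe l ((c : ℂ) * ζ))) 1 (3 * (1 - l) * c)
      ((1 - l) * (11 / 2 - 19 / 2 * l) * c ^ 2) n3 := by
  obtain ⟨n1, n2, n3, hN⟩ := J.exists_of_holo one_pos (N_holo h0 h1 hc0 hc1)
  rw [mul_zero, koe_zero, mm_zero, div_one] at hN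
  have hV := J_V h0 h1 hc0 hc1
  have hw : J (fun ζ : ℂ => 1 - (c : ℂ) * ζ) (1 - c * 0) (0 - c * 1) (0 - c * 0) (0 - c * 0) :=
    (J.const 1).sub (J.id.const_mul (c : ℂ))
  have hw' : J (fun ζ : ℂ => 1 + (c : ℂ) * ζ) (1 + c * 0) (0 + c * 1) (0 + c * 0) (0 + c * 0) :=
    (J.const 1).add (J.id.const_mul (c : ℂ))
  have hV1 := (J.const 1).sub hV
  have hV2 := (J.const 1).add hV
  have e1 := (hN.mul hN).mul ((((hw.mul hw).mul (hw.mul hw)).mul hw).mul hV2)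
  have e2 := hw'.mul (((hV1.mul hV1).mul (hV1.mul hV1)).mul hV1)
  have e3 : (fun ζ : ℂ => (mm ((c : ℂ) * ζ) / mm (koe l ((c : ℂ) * ζ))) *
      (mm ((c : ℂ) * ζ) / mm (koe l ((c : ℂ) * ζ))) *
      ((1 - (c : ℂ) * ζ) * (1 - (c : ℂ) * ζ) * ((1 - (c : ℂ) * ζ) * (1 - (c : ℂ) * ζ)) *
        (1 - (c : ℂ) * ζ) * (1 + koe l ((c : ℂ) * ζ)))) =ᶠ[𝓝 0]
      fun ζ : ℂ => (1 + (c : ℂ) * ζ) * ((1 - koe l ((c : ℂ) * ζ)) * (1 - koe l ((c : ℂ) * ζ)) *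
        ((1 - koe l ((c : ℂ) * ζ)) * (1 - koe l ((c : ℂ) * ζ))) * (1 - koe l ((c : ℂ) * ζ))) := by
    filter_upwards [ball_mem_nhds (0 : ℂ) one_pos] with ζ hζ
    exact N_eq h0 h1 (cball hc0 hc1 (by simpa using hζ))
  obtain ⟨-, q1, q2, -⟩ := (e1.congr e3).unique e2
  have r1 : n1 = 3 * (1 - l) * c := by linear_combination (1 / 2) * q1
  rw [r1] at q2 hN
  have r2 : n2 = (1 - l) * (11 / 2 - 19 / 2 * l) * c ^ 2 := by linear_combination (1 / 2) * q2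
  rw [r2] at hN
  exact ⟨n3, hN⟩

theorem J.cast {f : ℂ → ℂ} {a0 a1 a2 a3 b0 b1 b2 b3 : ℂ} (h : J f a0 a1 a2 a3) (e0 : a0 = b0)
    (e1 : a1 = b1) (e2 : a2 = b2) (e3 : a3 = b3) : J f b0 b1 b2 b3 := by
  rw [← e0, ← e1, ← e2, ← e3]; exact h

/-- The first component of the slice. -/
theorem J_main (h0 : 0 < l) (h1 : l ≤ 1) (hc0 : 0 ≤ c) (hc1 : c ≤ 1) {s a b : ℝ}
    (hcs : c ^ 2 + s ^ 2 = 1) (hab : a ^ 2 + b ^ 2 = 1) {f : ℂ → ℂ} {e : ℂ}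
    (hf : ∀ ζ : ℂ, ‖ζ‖ < 1 → f ζ = (rt c (-s) (e • rt a (-b) (KK (rt a b
      (vA l (rt c s (pt ζ 0))))))) 0)
    {y1 y2 y3 x3 : ℂ}
    (hy1 : y1 = a * (l * c) + b * (l * (-s)))
    (hy2 : y2 = a * (2 * l * (1 - l) * c ^ 2) + b * (l * (-s) * (3 * (1 - l) * c)))
    (hy3 : y3 = a * (l * (1 - l) * (3 - 5 * l) * c ^ 3) +
      b * (l * (-s) * ((1 - l) * (11 / 2 - 19 / 2 * l) * c ^ 2)))
    (hx3 : x3 = -b * (l * (1 - l) * (3 - 5 * l) * c ^ 3) +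
      a * (l * (-s) * ((1 - l) * (11 / 2 - 19 / 2 * l) * c ^ 2))) :
    ∃ f1 f2, J f 0 f1 f2 (e * ((c * a - s * b) * (y3 + 4 * y1 * y2 + 3 * y1 ^ 3) -
      (c * b + s * a) * x3)) := by
  set V : ℂ → ℂ := fun ζ => koe l ((c : ℂ) * ζ) with hVd
  set N : ℂ → ℂ := fun ζ => mm ((c : ℂ) * ζ) / mm (koe l ((c : ℂ) * ζ)) with hNd
  have hV := J_V h0 h1 hc0 hc1
  obtain ⟨n3, hN⟩ := J_N h0 h1 hc0 hc1
  -- the second component after the first phase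
  have hW := (J.id.const_mul ((l : ℂ) * (-s))).mul hN
  set W : ℂ → ℂ := fun ζ => (l : ℂ) * (-s) * ζ * N ζ with hWd
  have hY := (hV.const_mul (a : ℂ)).add (hW.const_mul (b : ℂ))
  set Y : ℂ → ℂ := fun ζ => (a : ℂ) * V ζ + b * W ζ with hYd
  have hX := (hV.const_mul (-b : ℂ)).add (hW.const_mul (a : ℂ))
  set X : ℂ → ℂ := fun ζ => (-b : ℂ) * V ζ + a * W ζ with hXd
  have hpt : ∀ ζ : ℂ, rt a b (vA l (rt c s (pt ζ 0))) = pt (Y ζ) (X ζ) := by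
    intro ζ
    have e0 : rt c s (pt ζ 0) = pt ((c : ℂ) * ζ) (-s * ζ) := by
      rw [rt_apply, pt_zero_apply, pt_one_apply, mul_zero, mul_zero, add_zero, add_zero]
    rw [e0, vA, rt_apply, pt_zero_apply, pt_one_apply, pt_zero_apply, pt_one_apply]
    have e1 : (l : ℂ) * (-s * ζ) * mm ((c : ℂ) * ζ) / mm (koe l ((c : ℂ) * ζ)) = W ζ := by
      simp only [hWd, hNd]
      ring
    rw [e1]
  have hmem : ∀ ζ : ℂ, ‖ζ‖ < 1 → pt (Y ζ) (X ζ) ∈ ball (0 : E2) 1 := by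
    intro ζ hζ
    rw [← hpt, mem_ball_zero_iff, norm_rt hab, ← mem_ball_zero_iff]
    apply vA_mem h0 h1
    rw [mem_ball_zero_iff, norm_rt hcs, ← mem_ball_zero_iff]
    exact pt_left_mem hζ
  have hVh : DifferentiableOn ℂ V (ball 0 1) := V_holo h0 h1 hc0 hc1
  have hNh : DifferentiableOn ℂ N (ball 0 1) := N_holo h0 h1 hc0 hc1
  have hYh : DifferentiableOn ℂ Y (ball 0 1) := by
    have h2 : DifferentiableOn ℂ W (ball 0 1) :=
      (DifferentiableOn.const_mul differentiableOn_id ((l : ℂ) * (-s))).fun_mul hNh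
    exact (hVh.const_mul (a : ℂ)).fun_add (h2.const_mul (b : ℂ))
  have hYm : ∀ ζ : ℂ, ‖ζ‖ < 1 → ‖Y ζ‖ < 1 := by
    intro ζ hζ
    have := coord_lt (hmem ζ hζ) 0
    simpa using this
  have hZh : DifferentiableOn ℂ (fun ζ => kf (Y ζ)) (ball 0 1) := by
    apply kf_diff.comp hYh
    intro ζ hζ
    simpa using hYm ζ (by simpa using hζ)
  obtain ⟨z1, z2, z3, hZ⟩ := J.exists_of_holo one_pos hZh
  have hY0 : Y 0 = 0 := by simp [hYd, hVd, hWd, koe_zero]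
  rw [hY0, kf_zero] at hZ
  have hY1 := (J.const 1).sub hY
  have e1 := hZ.mul (hY1.mul hY1)
  have e3 : (fun ζ : ℂ => kf (Y ζ) * ((1 - Y ζ) * (1 - Y ζ))) =ᶠ[𝓝 0] Y := by
    filter_upwards [ball_mem_nhds (0 : ℂ) one_pos] with ζ hζ
    have h2 := one_sub_ne (hYm ζ (by simpa using hζ))
    rw [kf]
    field_simp
  obtain ⟨-, q1, q2, q3⟩ := (e1.congr e3).unique hY
  have r1 : z1 = y1 := by rw [hy1]; linear_combination q1
  rw [r1] at q2 q3 hZ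
  have r2 : z2 = y2 + 2 * y1 ^ 2 := by
    rw [hy2]
    have : y1 = a * (l * c) + b * (l * (-s)) := hy1
    linear_combination q2 - 2 * y1 * this
  rw [r2] at q3 hZ
  have r3 : z3 = y3 + 4 * y1 * y2 + 3 * y1 ^ 3 := by
    rw [hy1, hy2] at q3
    rw [hy1, hy2, hy3]
    linear_combination q3
  rw [r3] at hZ
  -- assemble
  have hF := ((hZ.const_mul (e * (c * a - s * b))).sub (hX.const_mul (e * (c * b + s * a))))
  refine ⟨_, _, (hF.congr ?_).cast ?_ rfl rfl ?_⟩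
  · filter_upwards [ball_mem_nhds (0 : ℂ) one_pos] with ζ hζ
    rw [hf ζ (by simpa using hζ), hpt, KK, pt_zero_apply, pt_one_apply, rt_apply a, smul_pt,
      rt_apply c, pt_zero_apply, pt_one_apply, pt_zero_apply, pt_one_apply, pt_zero_apply]
    ring
  · ring
  · rw [hx3]; ring

end Coef

end Pool.Agent.Helper540
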