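import Mathlib
import Pool.Agent.Helper540.Lip
import Pool.Agent.Helper540.Ode

set_option autoImplicit false

namespace Pool.Agent.Helper540

open Metric Set Filter Topology MeasureTheory

section TimeReg

variable {E : Type} [NormedAddCommGroup E] [InnerProductSpace ℂ E] [FiniteDimensional ℂ E]

/-- A chain generated by a continuous Herglotz vector field `-h`. -/
structure Gen (F : ℝ → E → E) (h : ℝ → E → E) : Prop where
  lc : LC F
  cara : ∀ t, 0 ≤ t → Cara (h t)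
  cont : ∀ t, 0 ≤ t → TendstoLocallyUniformlyOn h (h t) (𝓝[Ici 0] t) (ball 0 1)
  gen : ∀ z ∈ ball (0 : E) 1, ∀ᵐ t : ℝ, 0 < t →
    HasDerivAt (fun s => F s z) (fderiv ℂ (F t) z (h t z)) t

/-- The right hand side of the Loewner equation. -/
noncomputable def HH (F : ℝ → E → E) (h : ℝ → E → E) (t : ℝ) (z : E) : E :=
  fderiv ℂ (F t) z (h t z)

variable {F : ℝ → E → E} {h : ℝ → E → E}

theorem Gen.HH_unif (G : Gen F h) {t₀ : ℝ} (ht₀ : 0 ≤ t₀) {r : ℝ} (hr1 : r < 1) {ε : ℝ}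
    (hε : 0 < ε) : ∃ δ > 0, ∀ t : ℝ, 0 ≤ t → |t - t₀| < δ → ∀ z : E, ‖z‖ ≤ r →
      ‖HH F h t z - HH F h t₀ z‖ ≤ ε := by
  obtain ⟨K₁, hK₁0, hK₁⟩ := G.lc.fderiv_bound hr1 (t₀ + 1)
  obtain ⟨K₂, hK₂0, hK₂⟩ := G.lc.fderiv_lip hr1 (t₀ + 1)
  obtain ⟨C, hC0, hC⟩ := exists_cara_bound (E := E) hr1
  have hsub : closedBall (0 : E) r ⊆ ball 0 1 := closedBall_subset_ball hr1
  have h1 := (tendstoLocallyUniformlyOn_iff_forall_isCompact isOpen_ball).1 (G.cont t₀ ht₀)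
    (closedBall (0 : E) r) hsub (isCompact_closedBall _ _)
  rw [Metric.tendstoUniformlyOn_iff] at h1
  have h2 := h1 (ε / (2 * (K₁ + 1))) (by positivity)
  rw [eventually_nhdsWithin_iff, Metric.eventually_nhds_iff] at h2
  obtain ⟨δ₁, hδ₁, h3⟩ := h2
  refine ⟨min δ₁ (min 1 (ε / (2 * (K₂ * C + 1)))), by positivity, fun t ht htd z hz => ?_⟩
  have htd1 : |t - t₀| < δ₁ := htd.trans_le (min_le_left _ _)
  have htd2 : |t - t₀| < 1 := htd.trans_le ((min_le_right _ _).trans (min_le_left _ _))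
  have htd3 : |t - t₀| < ε / (2 * (K₂ * C + 1)) :=
    htd.trans_le ((min_le_right _ _).trans (min_le_right _ _))
  have hb1 : ‖h t z - h t₀ z‖ ≤ ε / (2 * (K₁ + 1)) := by
    have h4 := h3 (y := t) (by rw [Real.dist_eq]; exact htd1) ht z (by simpa using hz)
    rw [dist_comm, dist_eq_norm] at h4
    exact h4.le
  have hb2 : ‖fderiv ℂ (F t) z - fderiv ℂ (F t₀) z‖ ≤ K₂ * |t - t₀| := by
    have h5 := abs_lt.1 htd2
    rcases le_total t₀ t with h6 | h6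
    · rw [abs_of_nonneg (by linarith)]
      exact hK₂ t₀ t ht₀ h6 (by linarith) z hz
    · rw [norm_sub_rev, abs_sub_comm, abs_of_nonneg (by linarith)]
      exact hK₂ t t₀ ht h6 (by linarith) z hz
  have e1 : HH F h t z - HH F h t₀ z = (fderiv ℂ (F t) z - fderiv ℂ (F t₀) z) (h t z) +
      fderiv ℂ (F t₀) z (h t z - h t₀ z) := by
    simp only [HH, map_sub, sub_apply]
    abel
  rw [e1]
  have hb3 : ‖(fderiv ℂ (F t) z - fderiv ℂ (F t₀) z) (h t z)‖ ≤ ε / 2 := by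
    calc _ ≤ ‖fderiv ℂ (F t) z - fderiv ℂ (F t₀) z‖ * ‖h t z‖ :=
          ContinuousLinearMap.le_opNorm _ _
      _ ≤ (K₂ * |t - t₀|) * C := by
          apply mul_le_mul hb2 (hC _ (G.cara t ht) z hz) (norm_nonneg _) (by positivity)
      _ = (K₂ * C) * |t - t₀| := by ring
      _ ≤ (K₂ * C + 1) * (ε / (2 * (K₂ * C + 1))) := by
          apply mul_le_mul (by linarith) htd3.le (abs_nonneg _) (by positivity)
      _ = ε / 2 := by field_simp
  have hb4 : ‖fderiv ℂ (F t₀) z (h t z - h t₀ z)‖ ≤ ε / 2 := by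
    calc _ ≤ ‖fderiv ℂ (F t₀) z‖ * ‖h t z - h t₀ z‖ := ContinuousLinearMap.le_opNorm _ _
      _ ≤ K₁ * (ε / (2 * (K₁ + 1))) := by
          apply mul_le_mul (hK₁ t₀ ht₀ (by linarith) z hz) hb1 (norm_nonneg _) hK₁0
      _ ≤ (K₁ + 1) * (ε / (2 * (K₁ + 1))) := by gcongr; linarith
      _ = ε / 2 := by field_simp
  calc _ ≤ _ := norm_add_le _ _
    _ ≤ ε := by linarith

/-- The main estimate: uniform differentiability in time. -/
theorem Gen.est (G : Gen F h) {t₀ : ℝ} (ht₀ : 0 ≤ t₀) {r : ℝ} (hr1 : r < 1) {ε : ℝ}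
    (hε : 0 < ε) : ∃ δ > 0, ∀ s t : ℝ, 0 ≤ s → s ≤ t → |s - t₀| < δ → |t - t₀| < δ →
      ∀ z : E, ‖z‖ ≤ r →
      ‖F t z - F s z - ((t - s : ℝ) : ℂ) • HH F h t₀ z‖ ≤ ε * (t - s) := by
  obtain ⟨δ, hδ, hH⟩ := G.HH_unif ht₀ hr1 hε
  refine ⟨δ, hδ, fun s t hs hst hsd htd z hz => ?_⟩
  set c : E := HH F h t₀ z with hc
  set d : E := F t z - F s z - ((t - s : ℝ) : ℂ) • c with hd
  rcases eq_or_ne d 0 with h0 | h0
  · rw [h0, norm_zero]
    exact mul_nonneg hε.le (by linarith)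
  have hdp : 0 < ‖d‖ := norm_pos_iff.2 h0
  set w : E := ((‖d‖ : ℂ)⁻¹) • d with hw
  have hwn : ‖w‖ = 1 := by
    rw [hw, norm_smul, norm_inv, Complex.norm_real, norm_norm, inv_mul_cancel₀ hdp.ne']
  have hwi : inner ℂ w d = (‖d‖ : ℂ) := by
    rw [hw, inner_smul_left, inner_self_eq_norm_sq_to_K, map_inv₀, Complex.conj_ofReal]
    have : (‖d‖ : ℂ) ≠ 0 := by exact_mod_cast hdp.ne'
    simp only [Complex.coe_algebraMap]
    field_simp
  have hzb : z ∈ ball (0 : E) 1 := by rw [mem_ball_zero_iff]; linarith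
  obtain ⟨K, hK0, hK⟩ := G.lc.lip hr1 t
  have hre : ∀ x y : E, (inner ℂ w x : ℂ).re - (inner ℂ w y).re ≤ ‖x - y‖ := by
    intro x y
    rw [← Complex.sub_re, ← inner_sub_right]
    refine (Complex.re_le_norm _).trans ?_
    have := norm_inner_le_norm (𝕜 := ℂ) w (x - y)
    rwa [hwn, one_mul] at this
  have hAC1 : AbsolutelyContinuousOnInterval (fun τ => (inner ℂ w (F τ z) : ℂ).re) s t := by
    have hid : AbsolutelyContinuousOnInterval (fun τ : ℝ => τ) s t := by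
      have : ContDiffOn ℝ 1 (fun s : ℝ => s) (uIcc s t) := contDiffOn_id
      exact this.absolutelyContinuousOnInterval
    apply ac_of_dist_le hK0 hid
    intro x hx y hy
    rw [uIcc_of_le hst] at hx hy
    have hlip : ‖F x z - F y z‖ ≤ K * |x - y| := by
      rcases le_total x y with h6 | h6
      · rw [norm_sub_rev, abs_sub_comm, abs_of_nonneg (by linarith)]
        exact hK x y (hs.trans hx.1) h6 hy.2 z hz
      · rw [abs_of_nonneg (by linarith)]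
        exact hK y x (hs.trans hy.1) h6 hx.2 z hz
    rw [Real.dist_eq, Real.dist_eq]
    refine le_trans ?_ hlip
    rw [abs_le]
    constructor
    · have := hre (F y z) (F x z)
      rw [norm_sub_rev] at this
      linarith
    · exact hre _ _
  have hAC2 : AbsolutelyContinuousOnInterval
      (fun τ => (inner ℂ w (F τ z) : ℂ).re + (-(inner ℂ w c : ℂ).re - ε) * τ) s t := by
    apply hAC1.fun_add
    have : ContDiffOn ℝ 1 (fun τ : ℝ => (-(inner ℂ w c : ℂ).re - ε) * τ) (uIcc s t) := by fun_prop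
    exact this.absolutelyContinuousOnInterval
  have hfin := ac_le_of_deriv_nonpos
    (f := fun τ => (inner ℂ w (F τ z) : ℂ).re + (-(inner ℂ w c : ℂ).re - ε) * τ)
    (f' := fun τ => (inner ℂ w (HH F h τ z) : ℂ).re + (-(inner ℂ w c : ℂ).re - ε)) hst hAC2 (by
    filter_upwards [G.gen z hzb] with τ hτ hτm
    have hτ0 : 0 < τ := hs.trans_lt hτm.1
    have h1 := hτ hτ0
    have h2 := (innerSL ℂ w).hasFDerivAt.restrictScalars ℝ |>.comp_hasDerivAt τ h1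
    have h3 := Complex.reCLM.hasFDerivAt.comp_hasDerivAt τ h2
    have h4 : HasDerivAt (fun τ => (inner ℂ w (F τ z) : ℂ).re)
      (inner ℂ w (HH F h τ z) : ℂ).re τ := h3
    have h5 := h4.add ((hasDerivAt_id τ).const_mul (-(inner ℂ w c : ℂ).re - ε))
    rw [mul_one] at h5
    refine ⟨h5, ?_⟩
    have h6 := hre (HH F h τ z) c
    have h7 : |τ - t₀| < δ := by
      rw [abs_lt] at hsd htd ⊢
      constructor <;> linarith [hτm.1, hτm.2]
    have h8 := hH τ hτ0.le h7 z hz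
    linarith)
  have h9 : ‖d‖ = (inner ℂ w (F t z) : ℂ).re - (inner ℂ w (F s z) : ℂ).re -
      (t - s) * (inner ℂ w c : ℂ).re := by
    have h10 : inner ℂ w d = inner ℂ w (F t z) - inner ℂ w (F s z) -
        ((t - s : ℝ) : ℂ) * inner ℂ w c := by
      rw [hd, inner_sub_right, inner_sub_right, inner_smul_right]
    rw [hwi] at h10
    have h11 := congrArg Complex.re h10
    rwa [Complex.sub_re, Complex.sub_re, Complex.re_ofReal_mul, Complex.ofReal_re] at h11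
  rw [h9]
  linarith

/-- Two-sided version. -/
theorem Gen.est' (G : Gen F h) {t₀ : ℝ} (ht₀ : 0 < t₀) {r : ℝ} (hr1 : r < 1) {ε : ℝ}
    (hε : 0 < ε) : ∀ᶠ t in 𝓝 t₀, ∀ z : E, ‖z‖ ≤ r →
      ‖F t z - F t₀ z - ((t - t₀ : ℝ) : ℂ) • HH F h t₀ z‖ ≤ ε * |t - t₀| := by
  obtain ⟨δ, hδ, h1⟩ := G.est ht₀.le hr1 hε
  have h2 : ∀ᶠ t in 𝓝 t₀, |t - t₀| < min δ t₀ := by
    have := ball_mem_nhds t₀ (lt_min hδ ht₀)
    filter_upwards [this] with t ht
    rwa [mem_ball, Real.dist_eq] at ht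
  filter_upwards [h2] with t ht z hz
  have ht1 : |t - t₀| < δ := ht.trans_le (min_le_left _ _)
  have ht2 : |t - t₀| < t₀ := ht.trans_le (min_le_right _ _)
  have ht3 := abs_lt.1 ht2
  rcases le_total t₀ t with h6 | h6
  · have := h1 t₀ t ht₀.le h6 (by simpa using hδ) ht1 z hz
    rwa [abs_of_nonneg (by linarith)]
  · have := h1 t t₀ (by linarith) h6 ht1 (by simpa using hδ) z hz
    rw [abs_sub_comm, abs_of_nonneg (by linarith)]
    have e1 : F t z - F t₀ z - ((t - t₀ : ℝ) : ℂ) • HH F h t₀ z =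
        -(F t₀ z - F t z - ((t₀ - t : ℝ) : ℂ) • HH F h t₀ z) := by
      have : ((t - t₀ : ℝ) : ℂ) = -((t₀ - t : ℝ) : ℂ) := by push_cast; ring
      rw [this, neg_smul]
      abel
    rwa [e1, norm_neg]

omit [FiniteDimensional ℂ E] in
theorem fderiv_diff' [FiniteDimensional ℂ E] {f : E → E} (hf : DifferentiableOn ℂ f (ball 0 1)) :
    DifferentiableOn ℂ (fderiv ℂ f) (ball 0 1) := by
  have h1 : ContDiffOn ℂ (2 : ℕ) f (ball 0 1) := contDiffOn_of_differentiableOn isOpen_ball hf 2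
  have h2 : ContDiffOn ℂ 1 (fderiv ℂ f) (ball 0 1) :=
    h1.fderiv_of_isOpen isOpen_ball (by norm_num)
  exact h2.differentiableOn (by norm_num)

theorem Gen.HH_diff (G : Gen F h) {t : ℝ} (ht : 0 ≤ t) :
    DifferentiableOn ℂ (HH F h t) (ball 0 1) :=
  (fderiv_diff' (G.lc.holo t ht)).clm_apply (G.cara t ht).diff

/-- Derivative along a moving point. -/
theorem Gen.hasDerivAt_path (G : Gen F h) {t₀ : ℝ} (ht₀ : 0 < t₀) {z : ℝ → E} {z' : E}
    (hz : HasDerivAt z z' t₀) (hz1 : ‖z t₀‖ < 1) :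
    HasDerivAt (fun t => F t (z t)) (HH F h t₀ (z t₀) + fderiv ℂ (F t₀) (z t₀) z') t₀ := by
  have hzb : z t₀ ∈ ball (0 : E) 1 := by simpa using hz1
  have hd1 : HasDerivAt (fun t => F t₀ (z t)) (fderiv ℂ (F t₀) (z t₀) z') t₀ := by
    have h1 : HasFDerivAt (F t₀) (fderiv ℂ (F t₀) (z t₀)) (z t₀) :=
      ((G.lc.holo t₀ ht₀.le).differentiableAt (isOpen_ball.mem_nhds hzb)).hasFDerivAt
    exact (h1.restrictScalars ℝ).comp_hasDerivAt t₀ hz
  have hd2 : HasDerivAt (fun t => F t (z t) - F t₀ (z t)) (HH F h t₀ (z t₀)) t₀ := by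
    rw [hasDerivAt_iff_isLittleO, Asymptotics.isLittleO_iff]
    intro ε hε
    set r : ℝ := (1 + ‖z t₀‖) / 2 with hr
    have hr1 : r < 1 := by rw [hr]; linarith
    have h1 := G.est' ht₀ hr1 (half_pos hε)
    have hcz : ContinuousAt z t₀ := hz.continuousAt
    have h2 : ∀ᶠ t in 𝓝 t₀, ‖z t‖ ≤ r := by
      have := hcz.norm.eventually_lt (continuousAt_const (y := r)) (by rw [hr]; linarith)
      filter_upwards [this] with t ht using ht.le
    have hcH : ContinuousAt (fun t => HH F h t₀ (z t)) t₀ := by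
      have h3 : ContinuousAt (HH F h t₀) (z t₀) :=
        ((G.HH_diff ht₀.le).differentiableAt (isOpen_ball.mem_nhds hzb)).continuousAt
      exact ContinuousAt.comp (f := z) h3 hcz
    have h4 : ∀ᶠ t in 𝓝 t₀, ‖HH F h t₀ (z t) - HH F h t₀ (z t₀)‖ < ε / 2 := by
      have := Metric.tendsto_nhds.1 hcH.tendsto (ε / 2) (half_pos hε)
      filter_upwards [this] with t ht
      rwa [dist_eq_norm] at ht
    filter_upwards [h1, h2, h4] with t ht1 ht2 ht4
    have h5 := ht1 (z t) ht2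
    have e1 : F t (z t) - F t₀ (z t) - (F t₀ (z t₀) - F t₀ (z t₀)) - (t - t₀) • HH F h t₀ (z t₀) =
        (F t (z t) - F t₀ (z t) - ((t - t₀ : ℝ) : ℂ) • HH F h t₀ (z t)) +
          ((t - t₀ : ℝ) : ℂ) • (HH F h t₀ (z t) - HH F h t₀ (z t₀)) := by
      rw [sub_self, sub_zero, smul_sub, Complex.coe_smul, Complex.coe_smul]
      abel
    rw [e1]
    calc _ ≤ _ := norm_add_le _ _
      _ ≤ ε / 2 * |t - t₀| + |t - t₀| * (ε / 2) := by
          apply add_le_add h5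
          rw [norm_smul, Complex.norm_real, Real.norm_eq_abs]
          gcongr
      _ = ε * ‖t - t₀‖ := by rw [Real.norm_eq_abs]; ring
  have h3 := hd2.add hd1
  refine h3.congr_of_eventuallyEq ?_
  filter_upwards with t
  simp

/-- Derivative of the second coefficient, raw form. -/
theorem Gen.hasDerivAt_tc (G : Gen F h) {t₀ : ℝ} (ht₀ : 0 < t₀) {u : E} (hu : ‖u‖ ≤ 1) :
    HasDerivAt (fun t => tc 2 (fun ζ : ℂ => F t (ζ • u)))
      (tc 2 (fun ζ : ℂ => HH F h t₀ (ζ • u))) t₀ := by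
  rw [hasDerivAt_iff_isLittleO, Asymptotics.isLittleO_iff]
  intro ε hε
  have h1 := G.est' ht₀ (r := 1 / 2) (by norm_num) (ε := ε / 4) (by positivity)
  have h2 : ∀ᶠ t in 𝓝 t₀, 0 ≤ t := by
    filter_upwards [lt_mem_nhds ht₀] with t ht using ht.le
  filter_upwards [h1, h2] with t ht1 ht2
  have hd : DifferentiableOn ℂ (fun z => F t z - F t₀ z - ((t - t₀ : ℝ) : ℂ) • HH F h t₀ z)
      (ball 0 1) :=
    ((G.lc.holo t ht2).fun_sub (G.lc.holo t₀ ht₀.le)).fun_sub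
      ((G.HH_diff ht₀.le).fun_const_smul _)
  have h3 := norm_tc_two_le hd hu (r := 1 / 2) (C := ε / 4 * |t - t₀|) (by norm_num) (by norm_num)
    ht1
  have s1 : ContDiffAt ℂ 2 (fun ζ : ℂ => F t (ζ • u)) 0 :=
    contDiffAt_of_ball one_pos (slice_diff (G.lc.holo t ht2) hu) 2
  have s2 : ContDiffAt ℂ 2 (fun ζ : ℂ => F t₀ (ζ • u)) 0 :=
    contDiffAt_of_ball one_pos (slice_diff (G.lc.holo t₀ ht₀.le) hu) 2
  have s3 : ContDiffAt ℂ 2 (fun ζ : ℂ => HH F h t₀ (ζ • u)) 0 :=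
    contDiffAt_of_ball one_pos (slice_diff (G.HH_diff ht₀.le) hu) 2
  have h4 := tc_clm (((t - t₀ : ℝ) : ℂ) • ContinuousLinearMap.id ℂ E) 2 s3
  simp only [smul_apply, ContinuousLinearMap.id_apply] at h4
  have s4 : ContDiffAt ℂ 2 (fun ζ : ℂ => ((t - t₀ : ℝ) : ℂ) • HH F h t₀ (ζ • u)) 0 :=
    s3.const_smul _
  rw [tc_sub 2 (s1.sub s2) s4, tc_sub 2 s1 s2, h4] at h3
  rw [← Complex.coe_smul]
  refine h3.trans (le_of_eq ?_)
  rw [Real.norm_eq_abs]
  ring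

omit [FiniteDimensional ℂ E] in
theorem tc_succ_smul [CompleteSpace E] {f : ℂ → E} (hf : DifferentiableOn ℂ f (ball 0 1)) (n : ℕ) :
    tc (n + 1) (fun z => z • f z) = tc n f := by
  have hs : closedBall (0 : ℂ) (1 / 2) ⊆ ball 0 1 := closedBall_subset_ball (by norm_num)
  have h1 : DiffContOnCl ℂ f (ball 0 (1 / 2)) := DifferentiableOn.diffContOnCl_ball hf hs
  have h2 : DiffContOnCl ℂ (fun z => z • f z) (ball 0 (1 / 2)) :=
    DifferentiableOn.diffContOnCl_ball (differentiableOn_id.smul hf) hs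
  rw [← tc_circleAverage (by norm_num : (0 : ℝ) < 1 / 2) (n + 1) h2,
    ← tc_circleAverage (by norm_num : (0 : ℝ) < 1 / 2) n h1]
  apply Real.circleAverage_congr_sphere
  intro z hz
  have hz0 : z ≠ 0 := by
    intro h
    rw [h] at hz
    simp at hz
  simp only
  rw [smul_smul, pow_succ, mul_inv, mul_assoc, inv_mul_cancel₀ hz0, mul_one]

/-- The second coefficient of the right hand side. -/
theorem tc_HH {f g : E → E} (hf : DifferentiableOn ℂ f (ball 0 1)) {a : ℂ}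
    (hfd : fderiv ℂ f 0 = a • ContinuousLinearMap.id ℂ E) (hg : Cara g) {u : E} (hu : ‖u‖ ≤ 1) :
    tc 2 (fun ζ : ℂ => fderiv ℂ f (ζ • u) (g (ζ • u))) =
      (2 : ℂ) • tc 2 (fun ζ : ℂ => f (ζ • u)) + a • tc 2 (fun ζ : ℂ => g (ζ • u)) := by
  have hfs : DifferentiableOn ℂ (fun ζ : ℂ => f (ζ • u)) (ball 0 1) := slice_diff hf hu
  have hmem : ∀ ζ ∈ ball (0 : ℂ) 1, ζ • u ∈ ball (0 : E) 1 := by
    intro ζ hζ
    rw [mem_ball_zero_iff] at *
    rw [norm_smul]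
    calc ‖ζ‖ * ‖u‖ ≤ ‖ζ‖ * 1 := by gcongr
      _ < 1 := by linarith
  have hder : ∀ ζ ∈ ball (0 : ℂ) 1, HasDerivAt (fun ζ : ℂ => f (ζ • u)) (fderiv ℂ f (ζ • u) u) ζ := by
    intro ζ hζ
    have h1 : HasFDerivAt f (fderiv ℂ f (ζ • u)) (ζ • u) :=
      (hf.differentiableAt (isOpen_ball.mem_nhds (hmem ζ hζ))).hasFDerivAt
    have h2 : HasDerivAt (fun ζ : ℂ => ζ • u) u ζ := by
      have := (hasDerivAt_id ζ).smul_const u
      simpa using this
    exact h1.comp_hasDerivAt ζ h2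
  have hfdd := fderiv_diff' hf
  have hsl : DifferentiableOn ℂ (fun ζ : ℂ => fderiv ℂ f (ζ • u)) (ball 0 1) :=
    hfdd.comp (by fun_prop) hmem
  -- first part
  have hp1 : DifferentiableOn ℂ (fun ζ : ℂ => fderiv ℂ f (ζ • u) u) (ball 0 1) :=
    hsl.clm_apply (differentiableOn_const u)
  have t1 : tc 2 (fun ζ : ℂ => ζ • fderiv ℂ f (ζ • u) u) =
      (2 : ℂ) • tc 2 (fun ζ : ℂ => f (ζ • u)) := by
    rw [tc_succ_smul hp1 1]
    have h3 : tc 1 (fun ζ : ℂ => fderiv ℂ f (ζ • u) u) =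
        tc 1 (deriv (fun ζ : ℂ => f (ζ • u))) := by
      apply tc_congr
      filter_upwards [ball_mem_nhds (0 : ℂ) one_pos] with ζ hζ
      exact (hder ζ hζ).deriv.symm
    rw [h3, tc, tc, smul_smul]
    have h4 : iteratedDeriv 1 (deriv (fun ζ : ℂ => f (ζ • u))) 0 =
        iteratedDeriv 2 (fun ζ : ℂ => f (ζ • u)) 0 := by
      rw [iteratedDeriv_succ' (n := 1)]
    rw [h4]
    norm_num [Nat.factorial]
  -- second part
  set k : ℂ → E := fun ζ => g (ζ • u) - ζ ^ 1 • u with hk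
  have hkd : DifferentiableOn ℂ k (ball 0 1) := (slice_diff hg.diff hu).sub (by fun_prop)
  have hp2 : DifferentiableOn ℂ (fun ζ : ℂ => fderiv ℂ f (ζ • u) (k ζ)) (ball 0 1) :=
    hsl.clm_apply hkd
  have hp3 : DifferentiableOn ℂ (fun ζ : ℂ => fderiv ℂ f 0 (k ζ)) (ball 0 1) :=
    (fderiv ℂ f 0).differentiable.comp_differentiableOn hkd
  have t2 : tc 2 (fun ζ : ℂ => fderiv ℂ f (ζ • u) (k ζ) - fderiv ℂ f 0 (k ζ)) = 0 := by
    obtain ⟨R, hR, M, hM0, hsub, hM⟩ := exists_bound isOpen_ball hfdd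
      (mem_ball_self (one_pos : (0 : ℝ) < 1) : (0 : E) ∈ ball (0 : E) 1)
    have hlip : ∀ z ∈ ball (0 : E) (R / 2), ‖fderiv ℂ f z - fderiv ℂ f 0‖ ≤ 4 * M / R * ‖z‖ := by
      intro z hz
      have := lipschitz_half (hfdd.mono hsub) hM (w := 0) (z := z)
        (mem_ball_self (by linarith)) hz
      simpa using this
    set ρ : ℝ := min (R / 2) (1 / 4) with hρ
    have hρ0 : 0 < ρ := by positivity
    have hρ1 : ρ ≤ 1 / 4 := min_le_right _ _
    have hρ2 : ρ ≤ R / 2 := min_le_left _ _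
    apply tc_eq_zero_of_bound (R := ρ) (C := 4 * M / R * 800) 2 hρ0
    · exact (hp2.fun_sub hp3).mono (ball_subset_ball (by linarith))
    · intro ζ hζ
      rw [mem_ball_zero_iff] at hζ
      have hζu : ‖ζ • u‖ ≤ ‖ζ‖ := by
        rw [norm_smul]; exact mul_le_of_le_one_right (norm_nonneg _) hu
      have h5 := hlip (ζ • u) (by rw [mem_ball_zero_iff]; linarith)
      have h6 : ‖k ζ‖ ≤ 800 * ‖ζ‖ ^ 2 := by
        have h7 := hg.second_order (z := ζ • u) (by linarith)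
        simp only [hk, pow_one]
        refine h7.trans ?_
        gcongr
      have e1 : fderiv ℂ f (ζ • u) (k ζ) - fderiv ℂ f 0 (k ζ) =
          (fderiv ℂ f (ζ • u) - fderiv ℂ f 0) (k ζ) := by simp
      rw [e1]
      calc _ ≤ ‖fderiv ℂ f (ζ • u) - fderiv ℂ f 0‖ * ‖k ζ‖ := ContinuousLinearMap.le_opNorm _ _
        _ ≤ (4 * M / R * ‖ζ • u‖) * (800 * ‖ζ‖ ^ 2) := by gcongr
        _ ≤ (4 * M / R * ‖ζ‖) * (800 * ‖ζ‖ ^ 2) := by gcongr
        _ = 4 * M / R * 800 * ‖ζ‖ ^ (2 + 1) := by ring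
  have t3 : tc 2 (fun ζ : ℂ => fderiv ℂ f 0 (k ζ)) = a • tc 2 (fun ζ : ℂ => g (ζ • u)) := by
    have sg : ContDiffAt ℂ 2 (fun ζ : ℂ => g (ζ • u)) 0 :=
      contDiffAt_of_ball one_pos (slice_diff hg.diff hu) 2
    rw [tc_clm _ 2 (contDiffAt_of_ball one_pos hkd 2), hk, tc_sub 2 sg (by fun_prop), tc_pow_smul,
      if_neg (by norm_num), sub_zero, hfd]
    simp
  have hA1 : ContDiffAt ℂ 2 (fun ζ : ℂ => ζ • fderiv ℂ f (ζ • u) u) 0 :=
    contDiffAt_of_ball one_pos (differentiableOn_id.smul hp1) 2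
  have hA2 : ContDiffAt ℂ 2 (fun ζ : ℂ => fderiv ℂ f (ζ • u) (k ζ)) 0 :=
    contDiffAt_of_ball one_pos hp2 2
  have hA3 : ContDiffAt ℂ 2 (fun ζ : ℂ => fderiv ℂ f 0 (k ζ)) 0 :=
    contDiffAt_of_ball one_pos hp3 2
  have hdec : (fun ζ : ℂ => fderiv ℂ f (ζ • u) (g (ζ • u))) =
      fun ζ : ℂ => ζ • fderiv ℂ f (ζ • u) u + fderiv ℂ f (ζ • u) (k ζ) := by
    ext1 ζ
    simp only [hk, pow_one, map_sub, map_smul]
    abel
  rw [hdec, tc_add 2 hA1 hA2, t1]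
  rw [tc_sub 2 hA2 hA3, t3, sub_eq_zero] at t2
  rw [t2]

/-- The evolution of normalized second coefficients. -/
theorem Gen.hasDerivAt_B (G : Gen F h) {t₀ : ℝ} (ht₀ : 0 < t₀) {u : E} (hu : ‖u‖ ≤ 1) :
    HasDerivAt (fun t => Real.exp (-2 * t) • tc 2 (fun ζ : ℂ => F t (ζ • u)))
      (Real.exp (-t₀) • tc 2 (fun ζ : ℂ => h t₀ (ζ • u))) t₀ := by
  have h1 := G.hasDerivAt_tc ht₀ hu
  have h2 : HasDerivAt (fun t : ℝ => Real.exp (-2 * t)) (Real.exp (-2 * t₀) * (-2)) t₀ := by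
    have := ((hasDerivAt_id t₀).const_mul (-2 : ℝ)).exp
    simpa using this
  have h3 := h2.smul h1
  have h4 := tc_HH (G.lc.holo t₀ ht₀.le) (G.lc.deriv t₀ ht₀.le) (G.cara t₀ ht₀.le) hu
  have h5 : tc 2 (fun ζ : ℂ => HH F h t₀ (ζ • u)) = (2 : ℂ) • tc 2 (fun ζ : ℂ => F t₀ (ζ • u)) +
      ((Real.exp t₀ : ℝ) : ℂ) • tc 2 (fun ζ : ℂ => h t₀ (ζ • u)) := h4
  refine h3.congr_deriv ?_
  rw [h5, smul_add]
  have e1 : Real.exp (-2 * t₀) • ((Real.exp t₀ : ℝ) : ℂ) • tc 2 (fun ζ : ℂ => h t₀ (ζ • u)) =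
      Real.exp (-t₀) • tc 2 (fun ζ : ℂ => h t₀ (ζ • u)) := by
    rw [Complex.coe_smul, smul_smul, ← Real.exp_add]
    congr 2
    ring
  have e2 : Real.exp (-2 * t₀) • (2 : ℂ) • tc 2 (fun ζ : ℂ => F t₀ (ζ • u)) =
      -((Real.exp (-2 * t₀) * -2) • tc 2 (fun ζ : ℂ => F t₀ (ζ • u))) := by
    rw [← neg_smul]
    have : (2 : ℂ) • tc 2 (fun ζ : ℂ => F t₀ (ζ • u)) =
        (2 : ℝ) • tc 2 (fun ζ : ℂ => F t₀ (ζ • u)) := by
      rw [← Complex.coe_smul]; norm_num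
    rw [this, smul_smul]
    congr 1
    ring
  rw [e1, e2]
  abel

/-- Continuity of the normalized second coefficients up to time zero. -/
theorem LC.continuousOn_tc {F : ℝ → E → E} (hF : LC F) {u : E} (hu : ‖u‖ ≤ 1) :
    ContinuousOn (fun t => tc 2 (fun ζ : ℂ => F t (ζ • u))) (Ici 0) := by
  intro t₀ ht₀
  have ht₀' : (0 : ℝ) ≤ t₀ := ht₀
  obtain ⟨K, hK0, hK⟩ := hF.lip (r := 1 / 2) (by norm_num) (t₀ + 1)
  rw [ContinuousWithinAt, Metric.tendsto_nhdsWithin_nhds]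
  intro ε hε
  refine ⟨min 1 (ε / (4 * K + 1)), by positivity, fun t ht htd => ?_⟩
  have ht' : (0 : ℝ) ≤ t := ht
  rw [Real.dist_eq] at htd
  have htd1 : |t - t₀| < 1 := htd.trans_le (min_le_left _ _)
  have htd2 : |t - t₀| < ε / (4 * K + 1) := htd.trans_le (min_le_right _ _)
  have h5 := abs_lt.1 htd1
  have hb : ∀ z : E, ‖z‖ ≤ 1 / 2 → ‖F t z - F t₀ z‖ ≤ K * |t - t₀| := by
    intro z hz
    rcases le_total t₀ t with h6 | h6
    · rw [abs_of_nonneg (by linarith)]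
      exact hK t₀ t ht₀' h6 (by linarith) z hz
    · rw [norm_sub_rev, abs_sub_comm, abs_of_nonneg (by linarith)]
      exact hK t t₀ ht' h6 (by linarith) z hz
  have h3 := norm_tc_two_le ((hF.holo t ht').fun_sub (hF.holo t₀ ht₀')) hu (r := 1 / 2)
    (C := K * |t - t₀|) (by norm_num) (by norm_num) hb
  have s1 : ContDiffAt ℂ 2 (fun ζ : ℂ => F t (ζ • u)) 0 :=
    contDiffAt_of_ball one_pos (slice_diff (hF.holo t ht') hu) 2
  have s2 : ContDiffAt ℂ 2 (fun ζ : ℂ => F t₀ (ζ • u)) 0 :=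
    contDiffAt_of_ball one_pos (slice_diff (hF.holo t₀ ht₀') hu) 2
  rw [tc_sub 2 s1 s2] at h3
  rw [dist_eq_norm]
  refine h3.trans_lt ?_
  have h7 : (4 * K + 1) * |t - t₀| < ε := by
    rw [lt_div_iff₀ (by positivity)] at htd2
    linarith
  have h8 : 0 ≤ |t - t₀| := abs_nonneg _
  have e : K * |t - t₀| / (1 / 2) ^ 2 = 4 * K * |t - t₀| := by ring
  rw [e]
  nlinarith

end TimeReg

end Pool.Agent.Helper540
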