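import Mathlib
import Pool.Agent.Helper540.Rigid

set_option autoImplicit false

namespace Pool.Agent.Helper540

open Metric Set Filter Topology

section Vanish

variable {h : E2 → E2}

theorem slice_comp_diff (hh : Cara h) {ζ : ℂ} {R : ℝ} (hR : ‖ζ‖ ^ 2 + R ^ 2 ≤ 1) (i : Fin 2) :
    DifferentiableOn ℂ (fun w : ℂ => h (pt ζ w) i) (ball 0 R) := by
  intro w hw
  have hw' : ‖w‖ < R := by simpa using hw
  have hm : pt ζ w ∈ ball (0 : E2) 1 := by
    apply pt_mem_ball
    have : ‖w‖ ^ 2 < R ^ 2 := by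
      apply pow_lt_pow_left₀ hw' (norm_nonneg _) (by norm_num)
    linarith
  have h1 : DifferentiableAt ℂ (fun w : ℂ => pt ζ w) w :=
    differentiableAt_pt (differentiableAt_const _) differentiableAt_id
  have h2 : DifferentiableAt ℂ h (pt ζ w) := hh.diff.differentiableAt (isOpen_ball.mem_nhds hm)
  have h3 : DifferentiableAt ℂ (fun w : ℂ => h (pt ζ w)) w :=
    DifferentiableAt.comp (f := fun w : ℂ => pt ζ w) w h2 h1
  exact ((co i).differentiableAt.comp w h3).differentiableWithinAt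

/-- First averaged inequality. -/
theorem avg_ineq (hh : Cara h) {ζ : ℂ} {ρ : ℝ} (hρ : 0 < ρ) (hζρ : ‖ζ‖ ^ 2 + ρ ^ 2 < 1) :
    ‖h (pt ζ 0) 1 + ζ * (starRingEnd ℂ) (fderiv ℂ h (pt ζ 0) (pt 0 1) 0) +
        ((ρ ^ 2 : ℝ) : ℂ) * (starRingEnd ℂ) (tc 2 (fun w : ℂ => h (pt ζ w) 1))‖ ≤
      2 / ρ * (((starRingEnd ℂ) ζ * h (pt ζ 0) 0).re +
        ρ ^ 2 * (fderiv ℂ h (pt ζ 0) (pt 0 1) 1).re) := by
  set R : ℝ := Real.sqrt (1 - ‖ζ‖ ^ 2) with hRdef
  have hR2 : R ^ 2 = 1 - ‖ζ‖ ^ 2 := Real.sq_sqrt (by nlinarith)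
  have hR0 : 0 ≤ R := Real.sqrt_nonneg _
  have hρR : ρ < R := by nlinarith
  have hRpos : 0 < R := hρ.trans hρR
  have hd : ∀ i, DifferentiableOn ℂ (fun w : ℂ => h (pt ζ w) i) (ball 0 R) := fun i =>
    slice_comp_diff hh (by rw [hR2]; linarith) i
  have hdc : ∀ i, DiffContOnCl ℂ (fun w : ℂ => h (pt ζ w) i) (ball 0 ρ) := fun i =>
    DifferentiableOn.diffContOnCl_ball (hd i) (closedBall_subset_ball hρR)
  have hcont : ∀ i, ContinuousOn (fun w : ℂ => h (pt ζ w) i) (sphere 0 ρ) := fun i =>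
    (hd i).continuousOn.mono (sphere_subset_ball hρR)
  have hB : ∀ i, tc 1 (fun w : ℂ => h (pt ζ w) i) = fderiv ℂ h (pt ζ 0) (pt 0 1) i := by
    intro i
    apply tc_one
    have h1 : HasDerivAt (fun w : ℂ => pt ζ w) (pt 0 1) 0 :=
      hasDerivAt_pt (hasDerivAt_const _ _) (hasDerivAt_id _)
    have hm : pt ζ 0 ∈ ball (0 : E2) 1 := by
      apply pt_mem_ball
      rw [norm_zero]
      nlinarith
    have h2 : HasFDerivAt h (fderiv ℂ h (pt ζ 0)) (pt ζ 0) :=
      (hh.diff.differentiableAt (isOpen_ball.mem_nhds hm)).hasFDerivAt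
    have h3 : HasDerivAt (fun w : ℂ => h (pt ζ w)) (fderiv ℂ h (pt ζ 0) (pt 0 1)) 0 :=
      HasFDerivAt.comp_hasDerivAt (f := fun w : ℂ => pt ζ w) 0 h2 h1
    exact (co i).hasFDerivAt.comp_hasDerivAt 0 h3
  set C : ℂ := tc 2 (fun w : ℂ => h (pt ζ w) 1) with hC
  set B0 : ℂ := fderiv ℂ h (pt ζ 0) (pt 0 1) 0 with hB0
  set B1 : ℂ := fderiv ℂ h (pt ζ 0) (pt 0 1) 1 with hB1
  set V : ℂ := h (pt ζ 0) 1 + ζ * (starRingEnd ℂ) B0 + ((ρ ^ 2 : ℝ) : ℂ) * (starRingEnd ℂ) C
    with hV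
  set N : ℝ := ((starRingEnd ℂ) ζ * h (pt ζ 0) 0).re + ρ ^ 2 * B1.re with hN
  obtain ⟨e, he, heV⟩ := exists_phase V
  have hρC : (ρ : ℂ) ≠ 0 := by exact_mod_cast hρ.ne'
  -- the quantity on the circle
  set X : ℂ → ℂ := fun w => (starRingEnd ℂ) ζ * h (pt ζ w) 0 +
    ((ρ ^ 2 : ℝ) : ℂ) * (w⁻¹ * h (pt ζ w) 1) with hX
  have hXeq : ∀ w ∈ sphere (0 : ℂ) ρ, X w = inner ℂ (pt ζ w) (h (pt ζ w)) := by
    intro w hw
    have hw0 := ne_zero_of_sphere hρ hw
    have hwn : ‖w‖ = ρ := by simpa using hw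
    rw [inner_pt]
    have h1 : ((ρ ^ 2 : ℝ) : ℂ) * w⁻¹ = (starRingEnd ℂ) w := by
      rw [mul_inv_eq_iff_eq_mul₀ hw0, mul_comm, Complex.mul_conj, Complex.normSq_eq_norm_sq, hwn]
    simp only [hX]
    rw [← mul_assoc ((ρ ^ 2 : ℝ) : ℂ), h1]
  set G : ℂ → ℂ := fun w => X w + ((e / (2 * ρ) : ℂ) • (w * X w) +
    ((starRingEnd ℂ) e * ρ / 2 : ℂ) • (w⁻¹ * X w)) with hG
  have hGpos : ∀ w ∈ sphere (0 : ℂ) ρ, 0 ≤ (G w).re := by
    intro w hw
    have hw0 := ne_zero_of_sphere hρ hw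
    have hwn : ‖w‖ = ρ := by simpa using hw
    have h1 : (e / (2 * ρ) : ℂ) * w + ((starRingEnd ℂ) e * ρ / 2 : ℂ) * w⁻¹ =
        (((e * w / ρ).re : ℝ) : ℂ) := by
      have h2 : w⁻¹ = (starRingEnd ℂ) w / ((ρ : ℂ) ^ 2) := by
        rw [eq_div_iff (pow_ne_zero 2 hρC), inv_mul_eq_iff_eq_mul₀ hw0, Complex.mul_conj,
          Complex.normSq_eq_norm_sq, hwn]
        push_cast; ring
      rw [h2, Complex.re_eq_add_conj]
      simp only [map_div₀, map_mul, Complex.conj_ofReal]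
      field_simp
    have h3 : G w = ((1 + (e * w / ρ).re : ℝ) : ℂ) * X w := by
      have : G w = (1 + ((e / (2 * ρ) : ℂ) * w + ((starRingEnd ℂ) e * ρ / 2 : ℂ) * w⁻¹)) * X w := by
        simp only [hG, smul_eq_mul]; ring
      rw [this, h1]
      push_cast
      ring
    rw [h3, Complex.re_ofReal_mul]
    apply mul_nonneg
    · have h4 : ‖e * w / ρ‖ = 1 := by
        rw [norm_div, norm_mul, he, one_mul, hwn, Complex.norm_real, Real.norm_of_nonneg hρ.le,
          div_self hρ.ne']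
      have h5 := (abs_le.1 ((Complex.abs_re_le_norm (e * w / ρ)).trans_eq h4)).1
      linarith
    · rw [hXeq w hw]
      apply hh.re_inner_nonneg
      have := norm_pt_sq ζ w
      rw [hwn] at this
      have h6 := norm_nonneg (pt ζ w)
      nlinarith
  -- integrability
  have cX : ContinuousOn X (sphere 0 ρ) := by
    apply ContinuousOn.add
    · exact continuousOn_const.mul (hcont 0)
    · apply continuousOn_const.mul
      apply ContinuousOn.mul _ (hcont 1)
      exact ContinuousOn.inv₀ continuousOn_id (fun w hw => ne_zero_of_sphere hρ hw)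
  have cwX : ContinuousOn (fun w => w * X w) (sphere 0 ρ) := continuousOn_id.mul cX
  have ciX : ContinuousOn (fun w => w⁻¹ * X w) (sphere 0 ρ) :=
    (ContinuousOn.inv₀ continuousOn_id (fun w hw => ne_zero_of_sphere hρ hw)).mul cX
  have iX := circInt hρ.le cX
  have iwX := circInt hρ.le cwX
  have iiX := circInt hρ.le ciX
  -- averages of monomials
  have c0 : ∀ i, ContinuousOn (fun w => (w ^ 1)⁻¹ * h (pt ζ w) i) (sphere 0 ρ) := fun i =>
    (ContinuousOn.inv₀ (by fun_prop) (fun w hw => pow_ne_zero _ (ne_zero_of_sphere hρ hw))).mul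
      (hcont i)
  have c2 : ∀ i, ContinuousOn (fun w => (w ^ 2)⁻¹ * h (pt ζ w) i) (sphere 0 ρ) := fun i =>
    (ContinuousOn.inv₀ (by fun_prop) (fun w hw => pow_ne_zero _ (ne_zero_of_sphere hρ hw))).mul
      (hcont i)
  have a1 : ∀ i, Real.circleAverage (fun w => (w ^ 1)⁻¹ * h (pt ζ w) i) 0 ρ =
      fderiv ℂ h (pt ζ 0) (pt 0 1) i := by
    intro i
    rw [← hB i]
    exact tc_circleAverage hρ 1 (hdc i)
  have a2 : Real.circleAverage (fun w => (w ^ 2)⁻¹ * h (pt ζ w) 1) 0 ρ = C :=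
    tc_circleAverage hρ 2 (hdc 1)
  have a0 : ∀ i, Real.circleAverage (fun w => h (pt ζ w) i) 0 ρ = h (pt ζ 0) i := by
    intro i
    have := DiffContOnCl.circleAverage (c := (0 : ℂ)) (R := ρ) (by rw [abs_of_pos hρ]; exact hdc i)
    exact this
  have am : Real.circleAverage (fun w => w ^ 1 * h (pt ζ w) 0) 0 ρ = 0 := by
    have := avg_pow_mul hρ (hdc 0) 1
    simpa using this
  have avX : Real.circleAverage X 0 ρ = (starRingEnd ℂ) ζ * h (pt ζ 0) 0 +
      ((ρ ^ 2 : ℝ) : ℂ) * B1 := by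
    have h1 : X = (fun w => (starRingEnd ℂ) ζ • h (pt ζ w) 0) +
        fun w => ((ρ ^ 2 : ℝ) : ℂ) • ((w ^ 1)⁻¹ * h (pt ζ w) 1) := by
      ext w; simp [hX]
    rw [h1, Real.circleAverage_add ((circInt hρ.le (hcont 0)).const_fun_smul)
      ((circInt hρ.le (c0 1)).const_fun_smul), Real.circleAverage_fun_smul,
      Real.circleAverage_fun_smul, a0, a1]
    rfl
  have avwX : Real.circleAverage (fun w => w * X w) 0 ρ = ((ρ ^ 2 : ℝ) : ℂ) * h (pt ζ 0) 1 := by
    have cm : ContinuousOn (fun w : ℂ => w ^ 1 * h (pt ζ w) 0) (sphere 0 ρ) :=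
      (by fun_prop : ContinuousOn (fun w : ℂ => w ^ 1) (sphere 0 ρ)).mul (hcont 0)
    have h1 : Real.circleAverage (fun w => w * X w) 0 ρ =
        Real.circleAverage ((fun w => (starRingEnd ℂ) ζ • (w ^ 1 * h (pt ζ w) 0)) +
        fun w => ((ρ ^ 2 : ℝ) : ℂ) • h (pt ζ w) 1) 0 ρ := by
      apply Real.circleAverage_congr_sphere
      intro w hw
      rw [abs_of_pos hρ] at hw
      have hw0 := ne_zero_of_sphere hρ hw
      simp only [hX, Pi.add_apply, smul_eq_mul]
      field_simp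
    rw [h1, Real.circleAverage_add ((circInt hρ.le cm).const_fun_smul)
      ((circInt hρ.le (hcont 1)).const_fun_smul), Real.circleAverage_fun_smul,
      Real.circleAverage_fun_smul, a0, am]
    simp
  have aviX : Real.circleAverage (fun w => w⁻¹ * X w) 0 ρ = (starRingEnd ℂ) ζ * B0 +
      ((ρ ^ 2 : ℝ) : ℂ) * C := by
    have h1 : (fun w => w⁻¹ * X w) = (fun w => (starRingEnd ℂ) ζ • ((w ^ 1)⁻¹ * h (pt ζ w) 0)) +
        fun w => ((ρ ^ 2 : ℝ) : ℂ) • ((w ^ 2)⁻¹ * h (pt ζ w) 1) := by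
      ext w
      simp only [hX, Pi.add_apply, smul_eq_mul, sq w, mul_inv, pow_one]
      ring
    rw [h1, Real.circleAverage_add ((circInt hρ.le (c0 0)).const_fun_smul)
      ((circInt hρ.le (c2 1)).const_fun_smul), Real.circleAverage_fun_smul,
      Real.circleAverage_fun_smul, a1, a2]
    rfl
  have avG : Real.circleAverage G 0 ρ = ((starRingEnd ℂ) ζ * h (pt ζ 0) 0 +
      ((ρ ^ 2 : ℝ) : ℂ) * B1) + ((e / (2 * ρ) : ℂ) * (((ρ ^ 2 : ℝ) : ℂ) * h (pt ζ 0) 1) +
      ((starRingEnd ℂ) e * ρ / 2 : ℂ) * ((starRingEnd ℂ) ζ * B0 + ((ρ ^ 2 : ℝ) : ℂ) * C)) := by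
    have h1 : G = X + ((fun w => (e / (2 * ρ) : ℂ) • (w * X w)) +
        fun w => ((starRingEnd ℂ) e * ρ / 2 : ℂ) • (w⁻¹ * X w)) := rfl
    rw [h1, Real.circleAverage_add iX (iwX.const_fun_smul.add iiX.const_fun_smul),
      Real.circleAverage_add iwX.const_fun_smul iiX.const_fun_smul,
      Real.circleAverage_fun_smul, Real.circleAverage_fun_smul, avX, avwX, aviX]
    rfl
  have hGi : CircleIntegrable G 0 ρ := by
    have h1 : G = X + ((fun w => (e / (2 * ρ) : ℂ) • (w * X w)) +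
        fun w => ((starRingEnd ℂ) e * ρ / 2 : ℂ) • (w⁻¹ * X w)) := rfl
    rw [h1]
    exact iX.add (iwX.const_fun_smul.add iiX.const_fun_smul)
  have hfin : 0 ≤ (Real.circleAverage G 0 ρ).re := by
    rw [← re_circleAverage hGi]
    apply Real.circleAverage_nonneg_of_nonneg
    intro w hw
    rw [abs_of_pos hρ] at hw
    exact hGpos w hw
  rw [avG] at hfin
  have e1 : ((starRingEnd ℂ) ζ * h (pt ζ 0) 0 + ((ρ ^ 2 : ℝ) : ℂ) * B1).re = N := by
    rw [Complex.add_re, Complex.re_ofReal_mul]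
  have e2 : ((e / (2 * ρ) : ℂ) * (((ρ ^ 2 : ℝ) : ℂ) * h (pt ζ 0) 1) +
      ((starRingEnd ℂ) e * ρ / 2 : ℂ) * ((starRingEnd ℂ) ζ * B0 + ((ρ ^ 2 : ℝ) : ℂ) * C)).re =
      ρ / 2 * (e * V).re := by
    have h1 : (((starRingEnd ℂ) e * ρ / 2 : ℂ) * ((starRingEnd ℂ) ζ * B0 +
        ((ρ ^ 2 : ℝ) : ℂ) * C)).re = ((ρ / 2 : ℝ) * (e * (ζ * (starRingEnd ℂ) B0 +
          ((ρ ^ 2 : ℝ) : ℂ) * (starRingEnd ℂ) C))).re := by
      rw [← Complex.conj_re]
      simp only [map_mul, map_add, map_div₀, Complex.conj_conj, Complex.conj_ofReal, map_ofNat]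
      congr 1
      push_cast
      ring
    rw [Complex.add_re, h1, Complex.re_ofReal_mul]
    have h2 : ((e / (2 * ρ) : ℂ) * (((ρ ^ 2 : ℝ) : ℂ) * h (pt ζ 0) 1)) =
        ((ρ / 2 : ℝ) : ℂ) * (e * h (pt ζ 0) 1) := by
      push_cast
      field_simp
    rw [h2, Complex.re_ofReal_mul, ← mul_add, ← Complex.add_re]
    congr 2
    rw [hV]
    ring
  rw [Complex.add_re, e1, e2, heV] at hfin
  rw [div_mul_eq_mul_div, le_div_iff₀ hρ]
  linarith

theorem avg_ineq_two (hh : Cara h) {ζ : ℂ} {τ : ℝ} (hζ : ‖ζ‖ < 1) (hτ : τ = 1 - ‖ζ‖ ^ 2) :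
    ‖h (pt ζ 0) 1 + ζ * (starRingEnd ℂ) (fderiv ℂ h (pt ζ 0) (pt 0 1) 0)‖ ≤
      1 / Real.sqrt τ * (12 * ((starRingEnd ℂ) ζ * h (pt ζ 0) 0).re +
        τ * (fderiv ℂ h (pt ζ 0) (pt 0 1) 1).re) := by
  have hτ0 : 0 < τ := by rw [hτ]; nlinarith [norm_nonneg ζ]
  set σ : ℝ := Real.sqrt τ with hσ
  have hσ0 : 0 < σ := Real.sqrt_pos.2 hτ0
  have hσ2 : σ ^ 2 = τ := Real.sq_sqrt hτ0.le
  have h1 := avg_ineq hh (ζ := ζ) (ρ := σ / 4) (by positivity) (by nlinarith)
  have h2 := avg_ineq hh (ζ := ζ) (ρ := σ / 2) (by positivity) (by nlinarith)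
  set W : ℂ := h (pt ζ 0) 1 + ζ * (starRingEnd ℂ) (fderiv ℂ h (pt ζ 0) (pt 0 1) 0) with hW
  set C : ℂ := (starRingEnd ℂ) (tc 2 (fun w : ℂ => h (pt ζ w) 1)) with hC
  set a : ℝ := ((starRingEnd ℂ) ζ * h (pt ζ 0) 0).re with ha
  set b : ℝ := (fderiv ℂ h (pt ζ 0) (pt 0 1) 1).re with hb
  set V1 : ℂ := W + (((σ / 4) ^ 2 : ℝ) : ℂ) * C with hV1
  set V2 : ℂ := W + (((σ / 2) ^ 2 : ℝ) : ℂ) * C with hV2
  have e1 : W = (4 / 3 : ℂ) * V1 - (1 / 3 : ℂ) * V2 := by
    rw [hV1, hV2]; push_cast; ring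
  have e2 : ‖W‖ ≤ 4 / 3 * ‖V1‖ + 1 / 3 * ‖V2‖ := by
    rw [e1]
    refine (norm_sub_le _ _).trans ?_
    rw [norm_mul, norm_mul]
    norm_num
  refine e2.trans ?_
  have e3 : 4 / 3 * ‖V1‖ ≤ 4 / 3 * (2 / (σ / 4) * (a + (σ / 4) ^ 2 * b)) := by gcongr
  have e4 : 1 / 3 * ‖V2‖ ≤ 1 / 3 * (2 / (σ / 2) * (a + (σ / 2) ^ 2 * b)) := by gcongr
  refine (add_le_add e3 e4).trans (le_of_eq ?_)
  rw [← hσ2]
  field_simp
  ring

/-- The second component vanishes on the first axis for extremal Caratheodory maps. -/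
theorem Cara.rigid (hh : Cara h) (h0 : (qf h (pt 1 0) 0).re = -2) {ζ₀ : ℂ}
    (hζ₀ : ζ₀ ∈ ball (0 : ℂ) 1) :
    h (pt ζ₀ 0) = pt (ζ₀ * ((1 - ζ₀) / (1 + ζ₀))) 0 := by
  -- first component
  obtain ⟨p, hp, hp0, hpre, hplin, hpd⟩ := hh.slice_lin norm_pt_one_zero
  have hq : inner ℂ (pt 1 0) (tc 2 (fun ζ : ℂ => h (ζ • pt 1 0))) = qf h (pt 1 0) 0 := by
    rw [inner_pt]; simp [qf]
  rw [hq] at hpd
  have hpd2 : deriv p 0 = -2 := by
    have h1 := herglotz_deriv_le hp hp0 hpre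
    rw [hpd] at h1 ⊢
    have h2 : ‖qf h (pt 1 0) 0‖ ^ 2 = (qf h (pt 1 0) 0).re ^ 2 + (qf h (pt 1 0) 0).im ^ 2 := by
      rw [← Complex.normSq_eq_norm_sq, Complex.normSq_apply]; ring
    have h3 : (qf h (pt 1 0) 0).im = 0 := by
      rw [h0] at h2
      have : ‖qf h (pt 1 0) 0‖ ^ 2 ≤ 4 := by nlinarith [norm_nonneg (qf h (pt 1 0) 0)]
      have h4 : (qf h (pt 1 0) 0).im ^ 2 ≤ 0 := by linarith
      exact pow_eq_zero_iff (two_ne_zero) |>.1 (le_antisymm h4 (sq_nonneg _))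
    apply Complex.ext
    · rw [h0]; simp
    · rw [h3]; simp
  have hfirst : ∀ ζ ∈ ball (0 : ℂ) 1, h (pt ζ 0) 0 = ζ * ((1 - ζ) / (1 + ζ)) := by
    intro ζ hζ
    have h1 := hplin ζ hζ
    rw [herglotz_eq hp hp0 hpre hpd2 hζ, inner_pt, smul_pt] at h1
    simpa using h1
  -- second component
  set Ef : ℂ → ℂ := fun ζ => h (pt ζ 0) 1 with hEf
  set Bf : ℂ → ℂ := fun ζ => fderiv ℂ h (pt ζ 0) (pt 0 1) 0 with hBf
  set Pf : ℂ → ℂ := fun ζ => fderiv ℂ h (pt ζ 0) (pt 0 1) 1 with hPf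
  have hpt : DifferentiableOn ℂ (fun ζ : ℂ => pt ζ 0) (ball 0 1) := fun ζ _ =>
    (differentiableAt_pt differentiableAt_id (differentiableAt_const _)).differentiableWithinAt
  have hptm : MapsTo (fun ζ : ℂ => pt ζ 0) (ball 0 1) (ball (0 : E2) 1) := by
    intro ζ hζ
    exact pt_left_mem (by simpa using hζ)
  have hEd : DifferentiableOn ℂ Ef (ball 0 1) :=
    (co 1).differentiable.comp_differentiableOn (hh.diff.comp hpt hptm)
  have hfd : DifferentiableOn ℂ (fun z => fderiv ℂ h z (pt 0 1)) (ball 0 1) :=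
    differentiableOn_fderiv_apply isOpen_ball hh.diff _
  have hBd : DifferentiableOn ℂ Bf (ball 0 1) :=
    (co 0).differentiable.comp_differentiableOn (hfd.comp hpt hptm)
  have hPd : DifferentiableOn ℂ Pf (ball 0 1) :=
    (co 1).differentiable.comp_differentiableOn (hfd.comp hpt hptm)
  have hB0 : Bf 0 = 0 := by
    simp [hBf, hh.fder]
  have hP0 : Pf 0 = 1 := by
    simp [hPf, hh.fder]
  have hE0 : Ef 0 = 0 := by simp [hEf, hh.zero]
  set c1 : ℂ := tc 1 Pf with hc1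
  set W : ℂ → ℂ := fun ζ => Ef ζ + ζ * (starRingEnd ℂ) (Bf ζ) with hW
  have hreω : ∀ ζ : ℂ, ‖ζ‖ < 1 → ((starRingEnd ℂ) ζ * h (pt ζ 0) 0).re =
      ‖ζ‖ ^ 2 * ((1 - ζ) / (1 + ζ)).re := by
    intro ζ hζ
    rw [hfirst ζ (by simpa using hζ), ← mul_assoc, mul_comm ((starRingEnd ℂ) ζ), Complex.mul_conj,
      Complex.normSq_eq_norm_sq, Complex.re_ofReal_mul]
  have hω : DifferentiableOn ℂ (fun ζ : ℂ => (1 - ζ) / (1 + ζ)) (ball 0 1) := by
    intro ζ hζ
    have h1 : 1 + ζ ≠ 0 := by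
      intro h
      have h7 : ζ = -1 := by linear_combination h
      rw [h7] at hζ
      simp at hζ
    exact (by fun_prop (disch := assumption) :
      DifferentiableAt ℂ (fun ζ : ℂ => (1 - ζ) / (1 + ζ)) ζ).differentiableWithinAt
  have hWb : ∀ ζ : ℂ, ‖ζ‖ < 1 → ‖W ζ‖ ≤ 1 / Real.sqrt (1 - ‖ζ‖ ^ 2) *
      (12 * (‖ζ‖ ^ 2 * ((1 - ζ) / (1 + ζ)).re) + (1 - ‖ζ‖ ^ 2) * (Pf ζ).re) := by
    intro ζ hζ
    have h1 := avg_ineq_two hh hζ rfl
    rw [hreω ζ hζ] at h1
    exact h1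
  -- circle facts
  have hdc : ∀ {f : ℂ → ℂ} {r : ℝ}, DifferentiableOn ℂ f (ball 0 1) → r < 1 →
      DiffContOnCl ℂ f (ball 0 r) := fun hf hr =>
    DifferentiableOn.diffContOnCl_ball hf (closedBall_subset_ball hr)
  have hco : ∀ {f : ℂ → ℂ} {r : ℝ}, DifferentiableOn ℂ f (ball 0 1) → r < 1 →
      ContinuousOn f (sphere 0 r) := fun hf hr =>
    hf.continuousOn.mono (sphere_subset_ball hr)
  have hinv : ∀ (k : ℕ) {r : ℝ}, 0 < r → ContinuousOn (fun z : ℂ => (z ^ k)⁻¹) (sphere 0 r) := by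
    intro k r hr
    exact ContinuousOn.inv₀ (by fun_prop) (fun w hw => pow_ne_zero _ (ne_zero_of_sphere hr hw))
  have hconj : ∀ {f : ℂ → ℂ} {s : Set ℂ}, ContinuousOn f s →
      ContinuousOn (fun z => (starRingEnd ℂ) (f z)) s := fun hf =>
    Complex.continuous_conj.comp_continuousOn hf
  have havB : ∀ (k : ℕ) {r : ℝ}, 0 < r → r < 1 →
      Real.circleAverage (fun z => (z ^ k)⁻¹ * (starRingEnd ℂ) (Bf z)) 0 r = 0 := by
    intro k r hr hr1
    rw [avg_conj hr (hdc hBd hr1)]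
    split_ifs with h1
    · rw [hB0]; simp
    · rfl
  -- growth of coefficients
  have ineqA : ∀ (k : ℕ) (r : ℝ), 2 ≤ k → 0 < r → r < 1 →
      ‖tc k Ef‖ * r ^ k ≤ 12 / Real.sqrt (1 - r ^ 2) := by
    intro k r hk hr hr1
    have hτ0 : 0 < 1 - r ^ 2 := by nlinarith
    have hσ0 : 0 < Real.sqrt (1 - r ^ 2) := Real.sqrt_pos.2 hτ0
    obtain ⟨j, rfl⟩ : ∃ j, k = j + 2 := ⟨k - 2, by omega⟩
    have cW : ContinuousOn (fun z => (z ^ (j + 2))⁻¹ * Ef z) (sphere 0 r) :=
      (hinv _ hr).mul (hco hEd hr1)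
    have cB : ContinuousOn (fun z => (z ^ (j + 1))⁻¹ * (starRingEnd ℂ) (Bf z)) (sphere 0 r) :=
      (hinv _ hr).mul (hconj (hco hBd hr1))
    have h1 : Real.circleAverage (fun z => (z ^ (j + 2))⁻¹ * W z) 0 r = tc (j + 2) Ef := by
      have h2 : Real.circleAverage (fun z => (z ^ (j + 2))⁻¹ * W z) 0 r =
          Real.circleAverage ((fun z => (z ^ (j + 2))⁻¹ * Ef z) +
            fun z => (z ^ (j + 1))⁻¹ * (starRingEnd ℂ) (Bf z)) 0 r := by
        apply Real.circleAverage_congr_sphere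
        intro z hz
        rw [abs_of_pos hr] at hz
        have hz0 := ne_zero_of_sphere hr hz
        simp only [hW, Pi.add_apply]
        rw [mul_add]
        congr 1
        rw [← mul_assoc]
        congr 1
        rw [show z ^ (j + 2) = z ^ (j + 1) * z by ring, mul_inv, mul_assoc, inv_mul_cancel₀ hz0,
          mul_one]
      rw [h2, Real.circleAverage_add (circInt hr.le cW) (circInt hr.le cB), havB _ hr hr1, add_zero]
      exact tc_circleAverage hr (j + 2) (hdc hEd hr1)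
    set g : ℂ → ℂ := fun z => ((12 * r ^ 2 : ℝ) : ℂ) • ((1 - z) / (1 + z)) +
      ((1 - r ^ 2 : ℝ) : ℂ) • Pf z with hg
    have cg : ContinuousOn g (sphere 0 r) :=
      (continuousOn_const.mul (hco hω hr1)).add (continuousOn_const.mul (hco hPd hr1))
    have havg : Real.circleAverage g 0 r = ((12 * r ^ 2 + (1 - r ^ 2) : ℝ) : ℂ) := by
      have h2 : DiffContOnCl ℂ g (ball 0 r) := by
        apply hdc _ hr1
        exact ((differentiableOn_const _).mul hω).add ((differentiableOn_const _).mul hPd)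
      have h3 := DiffContOnCl.circleAverage (c := (0 : ℂ)) (R := r)
        (by rw [abs_of_pos hr]; exact h2)
      rw [h3, hg]
      simp only [hP0]
      push_cast
      simp
    have h4 : ‖Real.circleAverage (fun z => (z ^ (j + 2))⁻¹ * W z) 0 r‖ ≤
        Real.circleAverage (fun z => ((r ^ (j + 2))⁻¹ * (1 / Real.sqrt (1 - r ^ 2))) • (g z).re)
          0 r := by
      apply norm_circleAverage_le _ hr.le
      · intro z hz
        have hzn : ‖z‖ = r := by simpa using hz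
        have h5 := hWb z (by rw [hzn]; exact hr1)
        rw [hzn] at h5
        rw [norm_mul, norm_inv, norm_pow, hzn, smul_eq_mul, mul_assoc]
        apply mul_le_mul_of_nonneg_left _ (by positivity)
        refine h5.trans (le_of_eq ?_)
        simp only [hg, smul_eq_mul, Complex.add_re, Complex.re_ofReal_mul]
        ring
      · apply CircleIntegrable.const_fun_smul
        exact circInt_re hr.le (Complex.continuous_re.comp_continuousOn cg)
    rw [h1, Real.circleAverage_fun_smul, re_circleAverage (circInt hr.le cg), havg,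
      Complex.ofReal_re, smul_eq_mul] at h4
    have hrk : 0 < r ^ (j + 2) := by positivity
    calc ‖tc (j + 2) Ef‖ * r ^ (j + 2) ≤ ((r ^ (j + 2))⁻¹ * (1 / Real.sqrt (1 - r ^ 2)) *
          (12 * r ^ 2 + (1 - r ^ 2))) * r ^ (j + 2) := by gcongr
      _ = (12 * r ^ 2 + (1 - r ^ 2)) / Real.sqrt (1 - r ^ 2) := by field_simp
      _ ≤ 12 / Real.sqrt (1 - r ^ 2) := by
          apply div_le_div_of_nonneg_right _ hσ0.le
          nlinarith
  -- the recursion
  have recB : ∀ k : ℕ, tc (k + 3) Ef + 2 * tc (k + 2) Ef + tc (k + 1) Ef = 0 := by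
    intro k
    set K : ℝ := 14 + ‖c1‖ with hK
    have hbound : ∀ r : ℝ, 0 < r → r < 1 →
        ‖tc (k + 3) Ef + 2 * tc (k + 2) Ef + tc (k + 1) Ef‖ ≤
          (r ^ (k + 3))⁻¹ * (Real.sqrt (1 - r ^ 2) * K) := by
      intro r hr hr1
      have hτ0 : 0 < 1 - r ^ 2 := by nlinarith
      have hσ0 : 0 < Real.sqrt (1 - r ^ 2) := Real.sqrt_pos.2 hτ0
      have hσ2 : Real.sqrt (1 - r ^ 2) ^ 2 = 1 - r ^ 2 := Real.sq_sqrt hτ0.le
      have cE : ∀ j : ℕ, ContinuousOn (fun z => (z ^ j)⁻¹ * Ef z) (sphere 0 r) := fun j =>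
        (hinv _ hr).mul (hco hEd hr1)
      have cB : ∀ j : ℕ, ContinuousOn (fun z => (z ^ j)⁻¹ * (starRingEnd ℂ) (Bf z))
          (sphere 0 r) := fun j => (hinv _ hr).mul (hconj (hco hBd hr1))
      have iE := fun j => circInt hr.le (cE j)
      have iB := fun j => circInt hr.le (cB j)
      have avE : ∀ j : ℕ, Real.circleAverage (fun z => (z ^ j)⁻¹ * Ef z) 0 r = tc j Ef :=
        fun j => tc_circleAverage hr j (hdc hEd hr1)
      have h1 : Real.circleAverage (fun z => (z ^ (k + 3))⁻¹ * ((1 + z) ^ 2 * W z)) 0 r =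
          tc (k + 3) Ef + 2 * tc (k + 2) Ef + tc (k + 1) Ef := by
        have h2 : Real.circleAverage (fun z => (z ^ (k + 3))⁻¹ * ((1 + z) ^ 2 * W z)) 0 r =
            Real.circleAverage (((fun z => (z ^ (k + 3))⁻¹ * Ef z) +
              (fun z => (2 : ℂ) • ((z ^ (k + 2))⁻¹ * Ef z)) +
              (fun z => (z ^ (k + 1))⁻¹ * Ef z)) +
              ((fun z => (z ^ (k + 2))⁻¹ * (starRingEnd ℂ) (Bf z)) +
              (fun z => (2 : ℂ) • ((z ^ (k + 1))⁻¹ * (starRingEnd ℂ) (Bf z))) +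
              (fun z => (z ^ k)⁻¹ * (starRingEnd ℂ) (Bf z)))) 0 r := by
          apply Real.circleAverage_congr_sphere
          intro z hz
          rw [abs_of_pos hr] at hz
          have hz0 := ne_zero_of_sphere hr hz
          simp only [hW, Pi.add_apply, smul_eq_mul, pow_succ]
          field_simp
          ring
        rw [h2, Real.circleAverage_add (((iE _).add (iE _).const_fun_smul).add (iE _))
          (((iB _).add (iB _).const_fun_smul).add (iB _)),
          Real.circleAverage_add ((iE _).add (iE _).const_fun_smul) (iE _),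
          Real.circleAverage_add (iE _) (iE _).const_fun_smul,
          Real.circleAverage_add ((iB _).add (iB _).const_fun_smul) (iB _),
          Real.circleAverage_add (iB _) (iB _).const_fun_smul,
          Real.circleAverage_fun_smul, Real.circleAverage_fun_smul, avE, avE, avE,
          havB _ hr hr1, havB _ hr hr1, havB _ hr hr1]
        simp
      -- the majorant
      set g : ℂ → ℂ := fun z => ((12 * r ^ 2 * (1 - r ^ 2) : ℝ) : ℂ) +
        ((1 - r ^ 2 : ℝ) : ℂ) • (((1 + r ^ 2 : ℝ) : ℂ) • Pf z + (z ^ 1 * Pf z +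
          ((r ^ 2 : ℝ) : ℂ) • ((z ^ 1)⁻¹ * Pf z))) with hg
      have cP := hco hPd hr1
      have czP : ContinuousOn (fun z : ℂ => z ^ 1 * Pf z) (sphere 0 r) :=
        (by fun_prop : ContinuousOn (fun z : ℂ => z ^ 1) (sphere 0 r)).mul cP
      have ciP : ContinuousOn (fun z : ℂ => (z ^ 1)⁻¹ * Pf z) (sphere 0 r) := (hinv 1 hr).mul cP
      have cg : ContinuousOn g (sphere 0 r) :=
        continuousOn_const.add (continuousOn_const.mul ((continuousOn_const.mul cP).add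
          (czP.add (continuousOn_const.mul ciP))))
      have havg : Real.circleAverage g 0 r = ((12 * r ^ 2 * (1 - r ^ 2) : ℝ) : ℂ) +
        ((1 - r ^ 2 : ℝ) : ℂ) * (((1 + r ^ 2 : ℝ) : ℂ) * 1 + (0 +
          ((r ^ 2 : ℝ) : ℂ) * c1)) := by
        have iP := circInt hr.le cP
        have izP := circInt hr.le czP
        have iiP := circInt hr.le ciP
        have hg' : g = (fun _ => ((12 * r ^ 2 * (1 - r ^ 2) : ℝ) : ℂ)) +
            fun z => ((1 - r ^ 2 : ℝ) : ℂ) • ((fun z => ((1 + r ^ 2 : ℝ) : ℂ) • Pf z) +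
              ((fun z => z ^ 1 * Pf z) + fun z => ((r ^ 2 : ℝ) : ℂ) • ((z ^ 1)⁻¹ * Pf z))) z := rfl
        have aP : Real.circleAverage Pf 0 r = 1 := by
          rw [← hP0]
          exact DiffContOnCl.circleAverage (c := (0 : ℂ)) (R := r)
            (by rw [abs_of_pos hr]; exact hdc hPd hr1)
        have azP : Real.circleAverage (fun z => z ^ 1 * Pf z) 0 r = 0 := by
          have := avg_pow_mul hr (hdc hPd hr1) 1
          simpa using this
        have aiP : Real.circleAverage (fun z => (z ^ 1)⁻¹ * Pf z) 0 r = c1 :=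
          tc_circleAverage hr 1 (hdc hPd hr1)
        rw [hg', Real.circleAverage_add (circInt hr.le continuousOn_const)
          ((iP.const_fun_smul.add (izP.add iiP.const_fun_smul)).const_fun_smul),
          Real.circleAverage_fun_smul,
          Real.circleAverage_add iP.const_fun_smul (izP.add iiP.const_fun_smul),
          Real.circleAverage_add izP iiP.const_fun_smul, Real.circleAverage_fun_smul,
          Real.circleAverage_fun_smul, Real.circleAverage_const, aP, azP, aiP]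
        rfl
      have h4 : ‖Real.circleAverage (fun z => (z ^ (k + 3))⁻¹ * ((1 + z) ^ 2 * W z)) 0 r‖ ≤
          Real.circleAverage (fun z => ((r ^ (k + 3))⁻¹ * (1 / Real.sqrt (1 - r ^ 2))) • (g z).re)
            0 r := by
        apply norm_circleAverage_le _ hr.le
        · intro z hz
          have hzn : ‖z‖ = r := by simpa using hz
          have hz0 := ne_zero_of_sphere hr hz
          have h5 := hWb z (by rw [hzn]; exact hr1)
          rw [hzn] at h5
          have h6 : 1 + z ≠ 0 := by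
            intro h
            have h7 : z = -1 := by linear_combination h
            rw [h7] at hzn
            simp at hzn
            linarith
          -- `|1+z|^2`
          have hcz : (starRingEnd ℂ) z = ((r ^ 2 : ℝ) : ℂ) * z⁻¹ := by
            rw [eq_mul_inv_iff_mul_eq₀ hz0, mul_comm, Complex.mul_conj, Complex.normSq_eq_norm_sq,
              hzn]
          have hn1 : ((‖1 + z‖ ^ 2 : ℝ) : ℂ) = ((1 + r ^ 2 : ℝ) : ℂ) + z ^ 1 +
              ((r ^ 2 : ℝ) : ℂ) * (z ^ 1)⁻¹ := by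
            rw [← Complex.normSq_eq_norm_sq, ← Complex.mul_conj, map_add, map_one, hcz]
            have : z * z⁻¹ = 1 := mul_inv_cancel₀ hz0
            push_cast
            rw [pow_one]
            linear_combination (r : ℂ) ^ 2 * this
          have hn2 : ‖1 + z‖ ^ 2 * ((1 - z) / (1 + z)).re = 1 - r ^ 2 := by
            have h8 : ((‖1 + z‖ ^ 2 : ℝ) : ℂ) * ((1 - z) / (1 + z)) =
                (1 - z) * (starRingEnd ℂ) (1 + z) := by
              rw [← Complex.normSq_eq_norm_sq, ← Complex.mul_conj]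
              field_simp
            have h9 := congrArg Complex.re h8
            rw [Complex.re_ofReal_mul] at h9
            rw [h9]
            have h10 : ‖z‖ ^ 2 = z.re ^ 2 + z.im ^ 2 := by
              rw [← Complex.normSq_eq_norm_sq, Complex.normSq_apply]; ring
            rw [hzn] at h10
            simp only [map_add, map_one, Complex.mul_re, Complex.sub_re, Complex.one_re,
              Complex.add_re, Complex.conj_re, Complex.sub_im, Complex.one_im, Complex.add_im,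
              Complex.conj_im]
            linarith
          have hn3 : (g z).re = ‖1 + z‖ ^ 2 *
              (12 * (r ^ 2 * ((1 - z) / (1 + z)).re) + (1 - r ^ 2) * (Pf z).re) := by
            have h8 : g z = ((12 * r ^ 2 * (1 - r ^ 2) : ℝ) : ℂ) +
                ((1 - r ^ 2 : ℝ) : ℂ) * (((‖1 + z‖ ^ 2 : ℝ) : ℂ) * Pf z) := by
              rw [hn1]
              simp only [hg, smul_eq_mul]
              ring
            rw [h8, Complex.add_re, Complex.ofReal_re, Complex.re_ofReal_mul,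
              Complex.re_ofReal_mul]
            linear_combination (-(12 * r ^ 2)) * hn2
          rw [norm_mul, norm_inv, norm_pow, hzn, smul_eq_mul, mul_assoc]
          apply mul_le_mul_of_nonneg_left _ (by positivity)
          rw [norm_mul, norm_pow, hn3]
          calc ‖1 + z‖ ^ 2 * ‖W z‖ ≤ ‖1 + z‖ ^ 2 * (1 / Real.sqrt (1 - r ^ 2) *
                (12 * (r ^ 2 * ((1 - z) / (1 + z)).re) + (1 - r ^ 2) * (Pf z).re)) := by gcongr
            _ = _ := by ring
        · apply CircleIntegrable.const_fun_smul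
          exact circInt_re hr.le (Complex.continuous_re.comp_continuousOn cg)
      rw [h1, Real.circleAverage_fun_smul, re_circleAverage (circInt hr.le cg), havg,
        smul_eq_mul] at h4
      refine h4.trans ?_
      have h7 : (((12 * r ^ 2 * (1 - r ^ 2) : ℝ) : ℂ) + ((1 - r ^ 2 : ℝ) : ℂ) *
          (((1 + r ^ 2 : ℝ) : ℂ) * 1 + (0 + ((r ^ 2 : ℝ) : ℂ) * c1))).re =
          (1 - r ^ 2) * (12 * r ^ 2 + (1 + r ^ 2) + r ^ 2 * c1.re) := by
        rw [Complex.add_re, Complex.ofReal_re, Complex.re_ofReal_mul, mul_one, zero_add,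
          Complex.add_re, Complex.ofReal_re, Complex.re_ofReal_mul]
        ring
      rw [h7, mul_assoc]
      apply mul_le_mul_of_nonneg_left _ (by positivity)
      have h8 : 12 * r ^ 2 + (1 + r ^ 2) + r ^ 2 * c1.re ≤ K := by
        have h9 : c1.re ≤ ‖c1‖ := (le_abs_self _).trans (Complex.abs_re_le_norm _)
        have h10 : r ^ 2 ≤ 1 := by nlinarith
        have h11 : r ^ 2 * c1.re ≤ ‖c1‖ := by
          calc r ^ 2 * c1.re ≤ r ^ 2 * ‖c1‖ := by gcongr
            _ ≤ 1 * ‖c1‖ := by gcongr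
            _ = ‖c1‖ := one_mul _
        rw [hK]; linarith
      rw [one_div, inv_mul_eq_div, div_le_iff₀ hσ0]
      calc (1 - r ^ 2) * (12 * r ^ 2 + (1 + r ^ 2) + r ^ 2 * c1.re) ≤ (1 - r ^ 2) * K := by gcongr
        _ = Real.sqrt (1 - r ^ 2) ^ 2 * K := by rw [hσ2]
        _ = Real.sqrt (1 - r ^ 2) * K * Real.sqrt (1 - r ^ 2) := by ring
    have hlim : Tendsto (fun r : ℝ => (r ^ (k + 3))⁻¹ * (Real.sqrt (1 - r ^ 2) * K)) (𝓝[<] 1)
        (𝓝 (((1 : ℝ) ^ (k + 3))⁻¹ * (Real.sqrt (1 - 1 ^ 2) * K))) := by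
      apply Tendsto.mono_left _ nhdsWithin_le_nhds
      have h1 : ContinuousAt (fun r : ℝ => (r ^ (k + 3))⁻¹ * (Real.sqrt (1 - r ^ 2) * K)) 1 := by
        apply ContinuousAt.mul
        · apply ContinuousAt.inv₀ (by fun_prop) (by simp)
        · fun_prop
      exact h1.tendsto
    have h2 := ge_of_tendsto hlim (by
      filter_upwards [Ioo_mem_nhdsLT (zero_lt_one (α := ℝ))] with r hr using hbound r hr.1 hr.2)
    norm_num at h2
    exact h2
  -- conclusion
  have h00 : tc 0 Ef = 0 := by rw [tc_zero_eq]; exact hE0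
  have h11 : tc 1 Ef = 0 := by
    apply tc_one
    have h1 : HasDerivAt (fun ζ : ℂ => pt ζ 0) (pt 1 0) 0 :=
      hasDerivAt_pt (hasDerivAt_id 0) (hasDerivAt_const 0 0)
    have h2 : HasFDerivAt h (ContinuousLinearMap.id ℂ E2) (pt 0 0) := by
      rw [pt_zero_zero, ← hh.fder]
      exact (hh.diff.differentiableAt (ball_mem_nhds _ one_pos)).hasFDerivAt
    have h3 : HasDerivAt (fun ζ : ℂ => h (pt ζ 0)) (pt 1 0) 0 :=
      HasFDerivAt.comp_hasDerivAt (f := fun ζ : ℂ => pt ζ 0) 0 h2 h1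
    have h4 := (co 1).hasFDerivAt.comp_hasDerivAt 0 h3
    exact h4
  set e2 : ℂ := tc 2 Ef with he2
  have hpat : ∀ n : ℕ, tc (n + 2) Ef = (-1) ^ n * ((n : ℂ) + 1) * e2 ∧
      tc (n + 1) Ef = (-1) ^ (n + 1) * (n : ℂ) * e2 := by
    intro n
    induction n with
    | zero => simp [h11, he2]
    | succ n ih =>
      obtain ⟨ih1, ih2⟩ := ih
      refine ⟨?_, ?_⟩
      · have h1 := recB n
        rw [ih1, ih2] at h1
        have h2 : tc (n + 1 + 2) Ef = tc (n + 3) Ef := rfl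
        rw [h2]
        push_cast
        rw [pow_succ] at h1 ⊢
        linear_combination h1
      · have h2 : tc (n + 1 + 1) Ef = tc (n + 2) Ef := rfl
        rw [h2, ih1]
        push_cast
        rw [pow_succ, pow_succ]
        ring
  have he20 : e2 = 0 := by
    have hb : ∀ n : ℕ, ((n : ℝ) + 1) * ‖e2‖ ^ 2 ≤ 2304 := by
      intro n
      have hn : (0 : ℝ) < (n : ℝ) + 1 := by positivity
      set τ : ℝ := 1 / (2 * ((n : ℝ) + 2)) with hτ
      have hτ0 : 0 < τ := by positivity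
      have hτ1 : τ < 1 := by
        rw [hτ, div_lt_one (by positivity)]
        have : (0 : ℝ) ≤ n := Nat.cast_nonneg n
        linarith
      set r : ℝ := Real.sqrt (1 - τ) with hr
      have hr2 : r ^ 2 = 1 - τ := Real.sq_sqrt (by linarith)
      have hr0 : 0 < r := Real.sqrt_pos.2 (by linarith)
      have hr1 : r < 1 := by nlinarith
      have h1 := ineqA (n + 2) r (by omega) hr0 hr1
      rw [(hpat n).1] at h1
      have h2 : ‖(-1 : ℂ) ^ n * ((n : ℂ) + 1) * e2‖ = ((n : ℝ) + 1) * ‖e2‖ := by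
        rw [norm_mul, norm_mul, norm_pow, norm_neg, norm_one, one_pow, one_mul]
        congr 1
        have : ((n : ℂ) + 1) = (((n : ℝ) + 1 : ℝ) : ℂ) := by push_cast; ring
        rw [this, Complex.norm_real, Real.norm_of_nonneg hn.le]
      rw [h2] at h1
      have h3 : 1 / 2 ≤ (r ^ (n + 2)) ^ 2 := by
        rw [← pow_mul, mul_comm (n + 2) 2, pow_mul, hr2]
        have h4 := one_add_mul_le_pow (a := -τ) (by linarith) (n + 2)
        have h5 : 1 + ((n + 2 : ℕ) : ℝ) * (-τ) = 1 / 2 := by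
          rw [hτ]; push_cast; field_simp; ring
        rw [h5] at h4
        have h6 : (1 + -τ) = 1 - τ := by ring
        rwa [h6] at h4
      have h4 : 1 - r ^ 2 = τ := by rw [hr2]; ring
      rw [h4] at h1
      have hστ : Real.sqrt τ ^ 2 = τ := Real.sq_sqrt hτ0.le
      have hσ0 : 0 < Real.sqrt τ := Real.sqrt_pos.2 hτ0
      have h5 : (((n : ℝ) + 1) * ‖e2‖ * r ^ (n + 2)) ^ 2 ≤ (12 / Real.sqrt τ) ^ 2 := by
        apply pow_le_pow_left₀ (by positivity) h1
      rw [mul_pow, div_pow, hστ] at h5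
      have h6 : (12 : ℝ) ^ 2 / τ = 288 * ((n : ℝ) + 2) := by
        rw [hτ]; field_simp; ring
      rw [h6] at h5
      have h7 : (((n : ℝ) + 1) * ‖e2‖) ^ 2 * (1 / 2) ≤ 288 * ((n : ℝ) + 2) := by
        refine le_trans ?_ h5
        gcongr
      have h8 : ((n : ℝ) + 1) * (((n : ℝ) + 1) * ‖e2‖ ^ 2) ≤ ((n : ℝ) + 1) * 2304 := by
        nlinarith
      exact le_of_mul_le_mul_left h8 hn
    by_contra hne
    have hpos : 0 < ‖e2‖ ^ 2 := by
      have := norm_pos_iff.2 hne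
      positivity
    obtain ⟨n, hn⟩ := exists_nat_gt (2304 / ‖e2‖ ^ 2)
    rw [div_lt_iff₀ hpos] at hn
    have := hb n
    nlinarith
  have hall : ∀ n, tc n Ef = 0 := by
    intro n
    rcases Nat.eq_zero_or_pos n with h | h
    · rw [h]; exact h00
    · obtain ⟨m, rfl⟩ : ∃ m, n = m + 1 := ⟨n - 1, by omega⟩
      rw [(hpat m).2, he20, mul_zero]
  have hEz : Ef ζ₀ = 0 := eq_zero_of_tc hEd hall hζ₀
  rw [← pt_eta (h (pt ζ₀ 0)), hfirst ζ₀ hζ₀]
  congr 1

end Vanish

end Pool.Agent.Helper540
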