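import Mathlib
import Pool.Agent.Helper540.Chain
import Pool.Agent.Helper540.TimeReg
import Pool.Agent.Helper540.Vanish

set_option autoImplicit false

namespace Pool.Agent.Helper540

open Metric Set Filter Topology

section Core

theorem const_of_mono {φ φ' : ℝ → ℝ} {a b : ℝ} (hc : ContinuousOn φ (Icc a b))
    (hd : ∀ t ∈ Ioo a b, HasDerivAt φ (φ' t) t) (hn : ∀ t ∈ Ioo a b, 0 ≤ φ' t)
    (h : φ b ≤ φ a) : (∀ t ∈ Icc a b, φ t = φ a) ∧ ∀ t ∈ Ioo a b, φ' t = 0 := by
  have hmono : MonotoneOn φ (Icc a b) := by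
    apply monotoneOn_of_deriv_nonneg (convex_Icc a b) hc
    · rw [interior_Icc]
      intro t ht
      exact (hd t ht).differentiableAt.differentiableWithinAt
    · rw [interior_Icc]
      intro t ht
      rw [(hd t ht).deriv]
      exact hn t ht
  have h1 : ∀ t ∈ Icc a b, φ t = φ a := by
    intro t ht
    have hab : a ≤ b := ht.1.trans ht.2
    apply le_antisymm
    · exact (hmono ht ⟨hab, le_rfl⟩ ht.2).trans h
    · exact hmono ⟨le_rfl, hab⟩ ht ht.1
  refine ⟨h1, fun t ht => ?_⟩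
  have h2 : HasDerivAt φ 0 t := by
    apply (hasDerivAt_const t (φ a)).congr_of_eventuallyEq
    filter_upwards [Ioo_mem_nhds ht.1 ht.2] with s hs
    exact h1 s ⟨hs.1.le, hs.2.le⟩
  exact (hd t ht).unique h2

theorem mf_eq {f : E2 → E2} (hf : DifferentiableOn ℂ f (ball 0 1)) :
    mf f = (4 : ℂ) • qf f (pt (1 / 2) (1 / 2)) - qf f (pt 1 0) - qf f (pt 0 1) := by
  rw [qf_pt hf (1 / 2) (1 / 2)]
  module

theorem norm_half : ‖pt (1 / 2) (1 / 2)‖ ≤ 1 := by
  have h1 := norm_pt_sq (1 / 2) (1 / 2)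
  norm_num at h1
  have h2 := norm_nonneg (pt (1 / 2) (1 / 2))
  have h3 : ‖pt (1 / 2) (1 / 2)‖ ^ 2 = 1 / 2 := by
    norm_num
    exact h1
  nlinarith

variable {F : ℝ → E2 → E2} {h : ℝ → E2 → E2}

theorem beta_deriv (G : Gen F h) {t : ℝ} (ht : 0 < t) {u : E2} (hu : ‖u‖ ≤ 1) (i : Fin 2) :
    HasDerivAt (fun t => Real.exp (-2 * t) * (qf (F t) u i).re)
      (Real.exp (-t) * (qf (h t) u i).re) t := by
  have h1 := G.hasDerivAt_B ht hu
  have h2 := ((co i).hasFDerivAt.restrictScalars ℝ).comp_hasDerivAt t h1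
  have h3 := Complex.reCLM.hasFDerivAt.comp_hasDerivAt t h2
  have e1 : ∀ (r : ℝ) (x : E2), ((r • x) i : ℂ).re = r * (x i : ℂ).re := by
    intro r x
    show (r • (x i : ℂ)).re = r * (x i : ℂ).re
    rw [Complex.real_smul, Complex.re_ofReal_mul]
  have h4 : (Complex.reCLM ∘ (((co i).restrictScalars ℝ : E2 →L[ℝ] ℂ) ∘
      fun t => Real.exp (-2 * t) • tc 2 (fun ζ : ℂ => F t (ζ • u)))) =
      fun t => Real.exp (-2 * t) * (qf (F t) u i).re := by
    ext t
    exact e1 _ _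
  have h5 : Complex.reCLM (((co i).restrictScalars ℝ : E2 →L[ℝ] ℂ)
      (Real.exp (-t) • tc 2 (fun ζ : ℂ => h t (ζ • u)))) = Real.exp (-t) * (qf (h t) u i).re :=
    e1 _ _
  rw [← h4, ← h5]
  exact h3

theorem beta_cont (hF : LC F) {u : E2} (hu : ‖u‖ ≤ 1) (i : Fin 2) :
    ContinuousOn (fun t => Real.exp (-2 * t) * (qf (F t) u i).re) (Ici 0) := by
  apply ContinuousOn.mul (by fun_prop)
  exact Complex.continuous_re.comp_continuousOn
    ((co i).continuous.comp_continuousOn (hF.continuousOn_tc hu))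

theorem mu_deriv (G : Gen F h) {t : ℝ} (ht : 0 < t) :
    HasDerivAt (fun t => Real.exp (-2 * t) * (mf (F t) 1).re)
      (Real.exp (-t) * (mf (h t) 1).re) t := by
  have h1 := beta_deriv G ht norm_half 1
  have h2 := beta_deriv G ht norm_pt_one_zero.le 1
  have h3 := beta_deriv G ht norm_pt_zero_one.le 1
  have h4 := ((h1.const_mul 4).sub h2).sub h3
  have e : ∀ {f : E2 → E2}, DifferentiableOn ℂ f (ball 0 1) → (mf f 1).re =
      4 * (qf f (pt (1 / 2) (1 / 2)) 1).re - (qf f (pt 1 0) 1).re - (qf f (pt 0 1) 1).re := by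
    intro f hf
    rw [mf_eq hf]
    simp only [PiLp.sub_apply, PiLp.smul_apply, smul_eq_mul, Complex.sub_re]
    congr 2
    simp
  refine (h4.congr_deriv ?_).congr_of_eventuallyEq ?_
  · rw [e (G.cara t ht.le).diff]; ring
  · filter_upwards [lt_mem_nhds ht] with s hs
    rw [e (G.lc.holo s hs.le)]
    simp only [Pi.sub_apply]
    ring

theorem mu_cont (hF : LC F) :
    ContinuousOn (fun t => Real.exp (-2 * t) * (mf (F t) 1).re) (Ici 0) := by
  have h1 := beta_cont hF norm_half 1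
  have h2 := beta_cont hF norm_pt_one_zero.le 1
  have h3 := beta_cont hF norm_pt_zero_one.le 1
  have h4 := ((continuousOn_const (c := (4 : ℝ))).mul h1 |>.sub h2).sub h3
  refine h4.congr ?_
  intro t ht
  have ht' : (0 : ℝ) ≤ t := ht
  simp only
  rw [mf_eq (hF.holo t ht')]
  simp only [PiLp.sub_apply, PiLp.smul_apply, smul_eq_mul, Complex.sub_re]
  have : ((4 : ℂ) * qf (F t) (pt (1 / 2) (1 / 2)) 1).re =
      4 * (qf (F t) (pt (1 / 2) (1 / 2)) 1).re := by simp
  rw [this]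
  simp only [Pi.sub_apply, Pi.mul_apply]
  ring

theorem const_of_zero {E : Type*} [NormedAddCommGroup E] [NormedSpace ℝ E] {f : ℝ → E} {a b : ℝ}
    (hab : a ≤ b) (hc : ContinuousOn f (Icc a b)) (hd : ∀ t ∈ Ioo a b, HasDerivAt f 0 t) :
    f b = f a := by
  rcases hab.eq_or_lt with h | h
  · rw [h]
  have h1 : ∀ s ∈ Ioo a b, f b = f s := by
    intro s hs
    have hsub : Icc s b ⊆ Icc a b := Icc_subset_Icc_left hs.1.le
    exact constant_of_has_deriv_right_zero (hc.mono hsub) (fun x hx =>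
      (hd x ⟨hs.1.trans_le hx.1, hx.2⟩).hasDerivWithinAt) b ⟨hs.2.le, le_rfl⟩
  have h2 : Tendsto f (𝓝[>] a) (𝓝 (f a)) := by
    have h3 := hc a ⟨le_rfl, hab⟩
    have h4 : 𝓝[>] a ≤ 𝓝[Icc a b] a := by
      rw [nhdsWithin_le_iff]
      exact mem_of_superset (Ioo_mem_nhdsGT h) Ioo_subset_Icc_self
    exact h3.tendsto.mono_left h4
  have h3 : Tendsto f (𝓝[>] a) (𝓝 (f b)) := by
    refine tendsto_const_nhds.congr' ?_
    filter_upwards [Ioo_mem_nhdsGT h] with s hs using h1 s hs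
  exact tendsto_nhds_unique h3 h2

theorem exp_neg_deriv (c t : ℝ) :
    HasDerivAt (fun t : ℝ => c * Real.exp (-t)) (-(c * Real.exp (-t))) t := by
  have h1 : HasDerivAt (fun s : ℝ => Real.exp (-s)) (-Real.exp (-t)) t := by
    have := (hasDerivAt_neg t).exp
    simpa using this
  have := h1.const_mul c
  refine this.congr_deriv (by ring)

theorem qf_le (hF : LC F) {t : ℝ} (ht : 0 ≤ t) :
    Real.exp (-2 * t) * (qf (F t) (pt 1 0) 0).re ≤ 2 * Real.exp (-t) ∧
      Real.exp (-2 * t) * (qf (F t) (pt 0 1) 1).re ≤ 2 * Real.exp (-t) := by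
  have e : Real.exp (-2 * t) * Real.exp t = Real.exp (-t) := by
    rw [← Real.exp_add]; congr 1; ring
  have h1 := hF.re_tc_le (fun g hg u hu => hg.norm_inner_tc hu) norm_pt_one_zero ht
  have h2 := hF.re_tc_le (fun g hg u hu => hg.norm_inner_tc hu) norm_pt_zero_one ht
  rw [inner_pt] at h1 h2
  have h1' : (qf (F t) (pt 1 0) 0).re ≤ 2 * Real.exp t := by simpa [qf] using h1
  have h2' : (qf (F t) (pt 0 1) 1).re ≤ 2 * Real.exp t := by simpa [qf] using h2
  constructor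
  · calc _ ≤ Real.exp (-2 * t) * (2 * Real.exp t) := by gcongr
      _ = 2 * Real.exp (-t) := by rw [← e]; ring
  · calc _ ≤ Real.exp (-2 * t) * (2 * Real.exp t) := by gcongr
      _ = 2 * Real.exp (-t) := by rw [← e]; ring

theorem qf_congr {f g : E2 → E2} (hfg : ∀ z ∈ ball (0 : E2) 1, f z = g z) {u : E2}
    (hu : ‖u‖ ≤ 1) : qf f u = qf g u := by
  apply tc_congr
  filter_upwards [ball_mem_nhds (0 : ℂ) one_pos] with ζ hζ
  apply hfg
  rw [mem_ball_zero_iff] at *
  rw [norm_smul]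
  calc ‖ζ‖ * ‖u‖ ≤ ‖ζ‖ * 1 := by gcongr
    _ < 1 := by linarith

theorem mf_congr {f g : E2 → E2} (hfg : ∀ z ∈ ball (0 : E2) 1, f z = g z) : mf f = mf g := by
  apply tc_congr
  filter_upwards [ball_mem_nhds (0 : ℂ) one_pos] with ζ hζ
  have h1 : f =ᶠ[𝓝 (pt ζ 0)] g := by
    filter_upwards [isOpen_ball.mem_nhds (pt_left_mem (by simpa using hζ : ‖ζ‖ < 1))] with z hz
    exact hfg z hz
  rw [h1.fderiv_eq]

/-- First rigidity: extremality for the coefficient of `z₁²`. -/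
theorem face_one (G : Gen F h) (h0 : ∀ z ∈ ball (0 : E2) 1, F 0 z = Fc 0 z) {t : ℝ} (ht : 0 < t) :
    (qf (h t) (pt 1 0) 0).re = -2 := by
  have hcont : ContinuousOn (fun t => Real.exp (-2 * t) * (qf (F t) (pt 1 0) 0).re -
      2 * Real.exp (-t)) (Icc 0 (t + 1)) := by
    apply ContinuousOn.sub
    · exact (beta_cont G.lc norm_pt_one_zero.le 0).mono Icc_subset_Ici_self
    · fun_prop
  have hder : ∀ s ∈ Ioo 0 (t + 1), HasDerivAt (fun t => Real.exp (-2 * t) *
      (qf (F t) (pt 1 0) 0).re - 2 * Real.exp (-t))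
      (Real.exp (-s) * (qf (h s) (pt 1 0) 0).re - -(2 * Real.exp (-s))) s := fun s hs =>
    (beta_deriv G hs.1 norm_pt_one_zero.le 0).sub (exp_neg_deriv 2 s)
  have hnn : ∀ s ∈ Ioo 0 (t + 1),
      0 ≤ Real.exp (-s) * (qf (h s) (pt 1 0) 0).re - -(2 * Real.exp (-s)) := by
    intro s hs
    have h1 := (G.cara s hs.1.le).norm_inner_tc norm_pt_one_zero
    rw [inner_pt] at h1
    have h2 : ‖qf (h s) (pt 1 0) 0‖ ≤ 2 := by simpa [qf] using h1
    have h3 := (abs_le.1 ((Complex.abs_re_le_norm _).trans h2)).1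
    have h4 := Real.exp_pos (-s)
    nlinarith
  have hend : Real.exp (-2 * (t + 1)) * (qf (F (t + 1)) (pt 1 0) 0).re - 2 * Real.exp (-(t + 1)) ≤
      Real.exp (-2 * 0) * (qf (F 0) (pt 1 0) 0).re - 2 * Real.exp (-0) := by
    have h1 := (qf_le G.lc (by linarith : (0 : ℝ) ≤ t + 1)).1
    rw [qf_congr h0 norm_pt_one_zero.le, Fc_qf_left]
    simp only [mul_zero, Real.exp_zero, one_mul, neg_zero, mul_one, Complex.re_ofNat, sub_self]
    linarith
  have h1 := (const_of_mono hcont hder hnn hend).2 t ⟨ht, by linarith⟩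
  have h4 := Real.exp_pos (-t)
  have h5 : Real.exp (-t) * ((qf (h t) (pt 1 0) 0).re + 2) = 0 := by linarith
  rcases mul_eq_zero.1 h5 with h6 | h6
  · linarith
  · linarith

/-- The chain on the first axis. -/
theorem axis (G : Gen F h) (h0 : ∀ z ∈ ball (0 : E2) 1, F 0 z = Fc 0 z) {t : ℝ} (ht : 0 ≤ t)
    {η : ℂ} (hη : ‖η‖ < 1) : F t (pt η 0) = pt (((Real.exp t : ℝ) : ℂ) * kf η) 0 := by
  -- along the flow
  have hflow : ∀ ζ : ℂ, ‖ζ‖ < 1 → F t (pt (koe (Real.exp (-t)) ζ) 0) = pt (kf ζ) 0 := by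
    intro ζ hζ
    have hkn : ∀ s : ℝ, 0 ≤ s → ‖koe (Real.exp (-s)) ζ‖ < 1 := fun s hs =>
      koe_norm_lt (Real.exp_pos _).le (Real.exp_le_one_iff.2 (by linarith)) hζ
    have hkn' : ∀ s : ℝ, 0 ≤ s → ‖koe (Real.exp (-s)) ζ‖ ≤ ‖ζ‖ := fun s hs =>
      koe_norm_le (Real.exp_pos _).le (Real.exp_le_one_iff.2 (by linarith)) hζ
    set z : ℝ → E2 := fun s => pt (koe (Real.exp (-s)) ζ) 0 with hz
    have hzd : ∀ s : ℝ, 0 ≤ s → HasDerivAt z (-(pt (koe (Real.exp (-s)) ζ *
        ((1 - koe (Real.exp (-s)) ζ) / (1 + koe (Real.exp (-s)) ζ))) 0)) s := by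
      intro s hs
      have h1 := koe_hasDerivAt hζ hs
      have h2 := h1.smul_const (pt 1 0)
      have e1 : z = fun s : ℝ => koe (Real.exp (-s)) ζ • pt 1 0 := by
        ext1 s
        simp only [hz]
        rw [smul_pt, mul_one, mul_zero]
      rw [e1]
      refine h2.congr_deriv ?_
      rw [smul_pt, mul_one, mul_zero]
      ext i
      fin_cases i <;> simp
    have hcont : ContinuousOn (fun s => F s (z s)) (Icc 0 t) := by
      obtain ⟨K, hK0, hK⟩ := G.lc.lip hζ t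
      intro s hs
      have hs0 : 0 ≤ s := hs.1
      have hzb : z s ∈ ball (0 : E2) 1 := pt_left_mem (hkn s hs0)
      have c1 : ContinuousAt (F s) (z s) :=
        ((G.lc.holo s hs0).differentiableAt (isOpen_ball.mem_nhds hzb)).continuousAt
      have c2 : ContinuousAt z s := (hzd s hs0).continuousAt
      have c3 : ContinuousWithinAt (fun r => F s (z r)) (Icc 0 t) s :=
        (ContinuousAt.comp (f := z) c1 c2).continuousWithinAt
      have c4 : ContinuousWithinAt (fun r => F r (z r) - F s (z r)) (Icc 0 t) s := by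
        have h5 : Tendsto (fun r : ℝ => K * |r - s|) (𝓝[Icc 0 t] s) (𝓝 0) := by
          have : Continuous (fun r : ℝ => K * |r - s|) := by fun_prop
          have h6 := (this.tendsto s).mono_left (nhdsWithin_le_nhds (s := Icc 0 t))
          simpa using h6
        rw [ContinuousWithinAt, sub_self]
        apply squeeze_zero_norm' _ h5
        filter_upwards [self_mem_nhdsWithin] with r hr
        have hzr : ‖z r‖ ≤ ‖ζ‖ := by
          simp only [hz]
          rw [norm_pt_left]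
          exact hkn' r hr.1
        rcases le_total s r with h6 | h6
        · rw [abs_of_nonneg (by linarith)]
          exact hK s r hs0 h6 hr.2 _ hzr
        · rw [norm_sub_rev, abs_sub_comm, abs_of_nonneg (by linarith)]
          exact hK r s hr.1 h6 hs.2 _ hzr
      have c5 := c4.add c3
      refine c5.congr (fun r _ => by simp) (by simp)
    have hder : ∀ s ∈ Ioo 0 t, HasDerivAt (fun s => F s (z s)) 0 s := by
      intro s hs
      have h1 := G.hasDerivAt_path hs.1 (hzd s hs.1.le) (by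
        have := pt_left_mem (hkn s hs.1.le)
        simpa using this)
      refine h1.congr_deriv ?_
      have h2 := (G.cara s hs.1.le).rigid (face_one G h0 hs.1) (ζ₀ := koe (Real.exp (-s)) ζ)
        (by simpa using hkn s hs.1.le)
      simp only [HH, hz]
      rw [h2, map_neg, add_neg_cancel]
    have hconst : F t (z t) = F 0 (z 0) := const_of_zero ht hcont hder
    have e3 : z 0 = pt ζ 0 := by
      simp only [hz, neg_zero, Real.exp_zero]
      rw [koe_one hζ]
    rw [e3, h0 _ (pt_left_mem hζ), Fc_zero_left hζ] at hconst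
    exact hconst
  -- identity theorem
  have hlam0 : 0 < Real.exp (-t) := Real.exp_pos _
  have hlam1 : Real.exp (-t) ≤ 1 := Real.exp_le_one_iff.2 (by linarith)
  have hpt : DifferentiableOn ℂ (fun ζ : ℂ => pt ζ 0) (ball 0 1) := fun ζ _ =>
    (differentiableAt_pt differentiableAt_id (differentiableAt_const _)).differentiableWithinAt
  have hptm : MapsTo (fun ζ : ℂ => pt ζ 0) (ball 0 1) (ball (0 : E2) 1) := by
    intro ζ hζ
    exact pt_left_mem (by simpa using hζ)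
  have hd1 : DifferentiableOn ℂ (fun ζ : ℂ => F t (pt ζ 0)) (ball 0 1) :=
    (G.lc.holo t ht).comp hpt hptm
  have hd2 : DifferentiableOn ℂ (fun ζ : ℂ => pt (((Real.exp t : ℝ) : ℂ) * kf ζ) 0) (ball 0 1) :=
    fun ζ hζ => (differentiableAt_pt
      ((kf_diff.differentiableAt (isOpen_ball.mem_nhds hζ)).const_mul _)
      (differentiableAt_const _)).differentiableWithinAt
  have heq := (hd1.analyticOnNhd isOpen_ball).eqOn_of_preconnected_of_frequently_eq
    (hd2.analyticOnNhd isOpen_ball) (convex_ball (0 : ℂ) 1).isPreconnected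
    (mem_ball_self one_pos) (by
      have hkd := koe_hasDerivAt_zero hlam0 hlam1
      have hk0 : Tendsto (koe (Real.exp (-t))) (𝓝[≠] 0) (𝓝[≠] 0) := by
        have h1 := hkd.tendsto_nhdsNE (by exact_mod_cast hlam0.ne')
        rwa [koe_zero] at h1
      have hev : ∀ᶠ ζ in 𝓝[≠] (0 : ℂ), F t (pt (koe (Real.exp (-t)) ζ) 0) =
          pt (((Real.exp t : ℝ) : ℂ) * kf (koe (Real.exp (-t)) ζ)) 0 := by
        filter_upwards [nhdsWithin_le_nhds (ball_mem_nhds (0 : ℂ) one_pos)] with ζ hζ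
        have hζ' : ‖ζ‖ < 1 := by simpa using hζ
        rw [hflow ζ hζ', kf_koe hlam0.le hlam1 hζ', ← mul_assoc, ← Complex.ofReal_mul,
          ← Real.exp_add]
        simp
      exact hk0.frequently hev.frequently)
  exact heq (by simpa using hη)

/-- Schwarz and Pick by averaging. -/
theorem schwarz_avg {v : E2 → E2} (hvd : DifferentiableOn ℂ v (ball 0 1))
    (hvm : MapsTo v (ball 0 1) (ball 0 1)) {ζ : ℂ} (hζ : ‖ζ‖ < 1) :
    ‖v (pt ζ 0) 0‖ ^ 2 + (1 - ‖ζ‖ ^ 2) * ‖fderiv ℂ v (pt ζ 0) (pt 0 1) 1‖ ^ 2 ≤ 1 := by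
  set D : ℂ := fderiv ℂ v (pt ζ 0) (pt 0 1) 1 with hD
  set A : ℂ := v (pt ζ 0) 0 with hA
  have key : ∀ ρ : ℝ, 0 < ρ → ‖ζ‖ ^ 2 + ρ ^ 2 < 1 → ‖A‖ ^ 2 + ρ ^ 2 * ‖D‖ ^ 2 ≤ 1 := by
    intro ρ hρ hζρ
    set R : ℝ := Real.sqrt (1 - ‖ζ‖ ^ 2) with hRdef
    have hR2 : R ^ 2 = 1 - ‖ζ‖ ^ 2 := Real.sq_sqrt (by nlinarith)
    have hR0 : 0 ≤ R := Real.sqrt_nonneg _
    have hρR : ρ < R := by nlinarith
    have hd : ∀ i : Fin 2, DifferentiableOn ℂ (fun w : ℂ => v (pt ζ w) i) (ball 0 R) := by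
      intro i w hw
      have hw' : ‖w‖ < R := by simpa using hw
      have hm : pt ζ w ∈ ball (0 : E2) 1 := by
        apply pt_mem_ball
        have : ‖w‖ ^ 2 < R ^ 2 := pow_lt_pow_left₀ hw' (norm_nonneg _) (by norm_num)
        linarith
      have h1 : DifferentiableAt ℂ (fun w : ℂ => pt ζ w) w :=
        differentiableAt_pt (differentiableAt_const _) differentiableAt_id
      have h2 : DifferentiableAt ℂ v (pt ζ w) := hvd.differentiableAt (isOpen_ball.mem_nhds hm)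
      have h3 : DifferentiableAt ℂ (fun w : ℂ => v (pt ζ w)) w :=
        DifferentiableAt.comp (f := fun w : ℂ => pt ζ w) w h2 h1
      exact ((co i).differentiableAt.comp w h3).differentiableWithinAt
    have hdc : ∀ i : Fin 2, DiffContOnCl ℂ (fun w : ℂ => v (pt ζ w) i) (ball 0 ρ) := fun i =>
      DifferentiableOn.diffContOnCl_ball (hd i) (closedBall_subset_ball hρR)
    have hco : ∀ i : Fin 2, ContinuousOn (fun w : ℂ => v (pt ζ w) i) (sphere 0 ρ) := fun i =>
      (hd i).continuousOn.mono (sphere_subset_ball hρR)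
    have hinv : ContinuousOn (fun w : ℂ => (w ^ 1)⁻¹) (sphere 0 ρ) :=
      ContinuousOn.inv₀ (by fun_prop) (fun w hw => pow_ne_zero _ (ne_zero_of_sphere hρ hw))
    have hB : tc 1 (fun w : ℂ => v (pt ζ w) 1) = D := by
      apply tc_one
      have h1 : HasDerivAt (fun w : ℂ => pt ζ w) (pt 0 1) 0 :=
        hasDerivAt_pt (hasDerivAt_const _ _) (hasDerivAt_id _)
      have h2 : HasFDerivAt v (fderiv ℂ v (pt ζ 0)) (pt ζ 0) :=
        (hvd.differentiableAt (isOpen_ball.mem_nhds (pt_left_mem hζ))).hasFDerivAt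
      have h3 : HasDerivAt (fun w : ℂ => v (pt ζ w)) (fderiv ℂ v (pt ζ 0) (pt 0 1)) 0 :=
        HasFDerivAt.comp_hasDerivAt (f := fun w : ℂ => pt ζ w) 0 h2 h1
      exact (co 1).hasFDerivAt.comp_hasDerivAt 0 h3
    set X : ℝ := ‖A‖ ^ 2 + ρ ^ 2 * ‖D‖ ^ 2 with hX
    have hX0 : 0 ≤ X := by positivity
    have i0 := circInt hρ.le (hco 0)
    have i1 : CircleIntegrable (fun w : ℂ => (w ^ 1)⁻¹ * v (pt ζ w) 1) 0 ρ :=
      circInt hρ.le (hinv.mul (hco 1))
    have avg : Real.circleAverage ((fun w => (starRingEnd ℂ) A • v (pt ζ w) 0) +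
        fun w => ((starRingEnd ℂ) D * (ρ ^ 2 : ℝ)) • ((w ^ 1)⁻¹ * v (pt ζ w) 1)) 0 ρ = (X : ℂ) := by
      have a0 : Real.circleAverage (fun w => v (pt ζ w) 0) 0 ρ = A :=
        DiffContOnCl.circleAverage (c := (0 : ℂ)) (R := ρ) (by rw [abs_of_pos hρ]; exact hdc 0)
      have a1 : Real.circleAverage (fun w => (w ^ 1)⁻¹ * v (pt ζ w) 1) 0 ρ = D := by
        rw [← hB]
        exact tc_circleAverage hρ 1 (hdc 1)
      rw [Real.circleAverage_add i0.const_fun_smul i1.const_fun_smul,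
        Real.circleAverage_fun_smul, Real.circleAverage_fun_smul, a0, a1, hX]
      have e1 : (starRingEnd ℂ) A * A = ((‖A‖ ^ 2 : ℝ) : ℂ) := by
        rw [mul_comm, Complex.mul_conj, Complex.normSq_eq_norm_sq]
      have e2 : (starRingEnd ℂ) D * D = ((‖D‖ ^ 2 : ℝ) : ℂ) := by
        rw [mul_comm, Complex.mul_conj, Complex.normSq_eq_norm_sq]
      simp only [smul_eq_mul]
      rw [e1]
      push_cast
      push_cast at e2
      linear_combination (ρ : ℂ) ^ 2 * e2
    have hbd : ‖Real.circleAverage ((fun w => (starRingEnd ℂ) A • v (pt ζ w) 0) +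
        fun w => ((starRingEnd ℂ) D * (ρ ^ 2 : ℝ)) • ((w ^ 1)⁻¹ * v (pt ζ w) 1)) 0 ρ‖ ≤
        Real.circleAverage (fun _ => Real.sqrt X) 0 ρ := by
      apply norm_circleAverage_le (circInt_re hρ.le continuousOn_const) hρ.le
      intro w hw
      have hw0 := ne_zero_of_sphere hρ hw
      have hwn : ‖w‖ = ρ := by simpa using hw
      have hm : pt ζ w ∈ ball (0 : E2) 1 := by
        apply pt_mem_ball
        rw [hwn]; exact hζρ
      have h1 := ball_norm_sq (hvm hm)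
      have h2 : ‖((fun w => (starRingEnd ℂ) A • v (pt ζ w) 0) +
        fun w => ((starRingEnd ℂ) D * (ρ ^ 2 : ℝ)) • ((w ^ 1)⁻¹ * v (pt ζ w) 1)) w‖ ≤
          ‖A‖ * ‖v (pt ζ w) 0‖ + (ρ * ‖D‖) * ‖v (pt ζ w) 1‖ := by
        simp only [Pi.add_apply, smul_eq_mul, pow_one]
        refine (norm_add_le _ _).trans (le_of_eq ?_)
        rw [norm_mul, norm_mul, norm_mul, norm_mul, norm_inv, hwn, Complex.norm_conj,
          Complex.norm_conj, Complex.norm_real, Real.norm_of_nonneg (by positivity)]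
        field_simp
      refine h2.trans ?_
      apply Real.le_sqrt_of_sq_le
      have h3 : (‖A‖ * ‖v (pt ζ w) 0‖ + (ρ * ‖D‖) * ‖v (pt ζ w) 1‖) ^ 2 ≤
          X * (‖v (pt ζ w) 0‖ ^ 2 + ‖v (pt ζ w) 1‖ ^ 2) := by
        rw [hX]
        nlinarith [sq_nonneg (‖A‖ * ‖v (pt ζ w) 1‖ - (ρ * ‖D‖) * ‖v (pt ζ w) 0‖)]
      calc _ ≤ _ := h3
        _ ≤ X * 1 := by gcongr
        _ = X := mul_one _
    rw [avg, Real.circleAverage_const, Complex.norm_real, Real.norm_of_nonneg hX0] at hbd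
    have h4 : X ^ 2 ≤ X := by
      calc X ^ 2 ≤ Real.sqrt X ^ 2 := pow_le_pow_left₀ hX0 hbd 2
        _ = X := Real.sq_sqrt hX0
    nlinarith
  -- limit
  have hz2 : 0 < 1 - ‖ζ‖ ^ 2 := by nlinarith [norm_nonneg ζ]
  set R : ℝ := Real.sqrt (1 - ‖ζ‖ ^ 2) with hRdef
  have hR2 : R ^ 2 = 1 - ‖ζ‖ ^ 2 := Real.sq_sqrt hz2.le
  have hRp : 0 < R := Real.sqrt_pos.2 hz2
  have hlim : Tendsto (fun ρ : ℝ => ‖A‖ ^ 2 + ρ ^ 2 * ‖D‖ ^ 2) (𝓝[<] R)
      (𝓝 (‖A‖ ^ 2 + R ^ 2 * ‖D‖ ^ 2)) := by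
    apply Tendsto.mono_left _ nhdsWithin_le_nhds
    have : Continuous (fun ρ : ℝ => ‖A‖ ^ 2 + ρ ^ 2 * ‖D‖ ^ 2) := by fun_prop
    exact this.tendsto R
  rw [← hR2]
  apply le_of_tendsto hlim
  filter_upwards [Ioo_mem_nhdsLT hRp] with ρ hρ
  apply key ρ hρ.1
  have : ρ ^ 2 < R ^ 2 := pow_lt_pow_left₀ hρ.2 hρ.1.le (by norm_num)
  linarith

/-- The key consequence at time one: `Re` of the mixed coefficient is nonpositive. -/
theorem mixed_nonpos (G : Gen F h) (h0 : ∀ z ∈ ball (0 : E2) 1, F 0 z = Fc 0 z) :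
    (mf (F 1) 1).re ≤ 0 := by
  obtain ⟨v, hvd, hvm, hv0, hvF, hvD⟩ := G.lc.transition le_rfl (zero_le_one (α := ℝ))
  have hF1 := G.lc.holo 1 zero_le_one
  set e : ℂ := ((Real.exp 1 : ℝ) : ℂ) with he
  have he0 : e ≠ 0 := exp_ne 1
  set γ : ℂ → ℂ := fun η => fderiv ℂ (F 1) (pt η 0) (pt 0 1) 1 with hγ
  have hpt : DifferentiableOn ℂ (fun ζ : ℂ => pt ζ 0) (ball 0 1) := fun ζ _ =>
    (differentiableAt_pt differentiableAt_id (differentiableAt_const _)).differentiableWithinAt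
  have hptm : MapsTo (fun ζ : ℂ => pt ζ 0) (ball 0 1) (ball (0 : E2) 1) := by
    intro ζ hζ
    exact pt_left_mem (by simpa using hζ)
  have hfd : DifferentiableOn ℂ (fun z => fderiv ℂ (F 1) z (pt 0 1)) (ball 0 1) :=
    differentiableOn_fderiv_apply isOpen_ball hF1 _
  have hγv : DifferentiableOn ℂ (fun ζ : ℂ => fderiv ℂ (F 1) (pt ζ 0) (pt 0 1)) (ball 0 1) :=
    hfd.comp hpt hptm
  have hγd : DifferentiableOn ℂ γ (ball 0 1) :=
    (co 1).differentiable.comp_differentiableOn hγv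
  -- derivative along the axis
  have hax : ∀ η : ℂ, ‖η‖ < 1 → fderiv ℂ (F 1) (pt η 0) (pt 1 0) 1 = 0 := by
    intro η hη
    have h1 : HasDerivAt (fun w : ℂ => pt w 0) (pt 1 0) η :=
      hasDerivAt_pt (hasDerivAt_id _) (hasDerivAt_const _ _)
    have h2 : HasFDerivAt (F 1) (fderiv ℂ (F 1) (pt η 0)) (pt η 0) :=
      (hF1.differentiableAt (isOpen_ball.mem_nhds (pt_left_mem hη))).hasFDerivAt
    have h3 : HasDerivAt (fun w : ℂ => F 1 (pt w 0)) (fderiv ℂ (F 1) (pt η 0) (pt 1 0)) η :=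
      HasFDerivAt.comp_hasDerivAt (f := fun w : ℂ => pt w 0) η h2 h1
    have h4 : HasDerivAt (fun w : ℂ => (F 1 (pt w 0)) 1) (fderiv ℂ (F 1) (pt η 0) (pt 1 0) 1) η :=
      (co 1).hasFDerivAt.comp_hasDerivAt η h3
    have h5 : (fun w : ℂ => (F 1 (pt w 0)) 1) =ᶠ[𝓝 η] fun _ => 0 := by
      filter_upwards [isOpen_ball.mem_nhds (by simpa using hη : η ∈ ball (0 : ℂ) 1)] with w hw
      rw [axis G h0 zero_le_one (by simpa using hw)]
      rfl
    exact h4.unique ((hasDerivAt_const η (0 : ℂ)).congr_of_eventuallyEq h5)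
  have hγne : ∀ η : ℂ, ‖η‖ < 1 → γ η ≠ 0 := by
    intro η hη h
    have hinj := osgood (Module.finrank ℂ E2) E2 E2 rfl rfl (ball 0 1) isOpen_ball (F 1) hF1
      (G.lc.inj 1 zero_le_one) (pt η 0) (pt_left_mem hη)
    set T := fderiv ℂ (F 1) (pt η 0) with hT
    set a := T (pt 1 0) 0 with ha
    set b := T (pt 0 1) 0 with hb
    have hT1 : T (pt 1 0) = pt a 0 := by
      rw [← pt_eta (T (pt 1 0)), hax η hη]
    have hT2 : T (pt 0 1) = pt b 0 := by
      rw [← pt_eta (T (pt 0 1))]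
      have : T (pt 0 1) 1 = 0 := h
      rw [this]
    have h6 : T (b • pt 1 0 - a • pt 0 1) = T 0 := by
      rw [map_sub, map_smul, map_smul, hT1, hT2, map_zero, smul_pt, smul_pt, mul_comm a b,
        mul_zero, mul_zero, sub_self]
    have h7 := hinj h6
    have h8 : a = 0 := by
      have := congrArg (fun z : E2 => z 1) h7
      simpa using this
    have h9 : T (pt 1 0) = T 0 := by rw [hT1, h8, map_zero, pt_zero_zero]
    have h10 := hinj h9
    have h11 := congrArg (fun z : E2 => z 0) h10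
    simp at h11
  have hγ0 : γ 0 = e := by
    have h1 : fderiv ℂ (F 1) (pt 0 0) = e • ContinuousLinearMap.id ℂ E2 := by
      rw [pt_zero_zero]
      exact G.lc.deriv 1 zero_le_one
    simp only [hγ]
    rw [h1]
    simp
  have hmf : mf (F 1) 1 = tc 1 γ :=
    (tc_clm (co 1) 1 (contDiffAt_of_ball one_pos hγv 1)).symm
  set g : ℂ → ℂ := fun η => e / γ η with hg
  have hgd : DifferentiableOn ℂ g (ball 0 1) :=
    (differentiableOn_const e).div hγd (fun η hη => hγne η (by simpa using hη))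
  have hg0 : g 0 = 1 := by simp only [hg]; rw [hγ0, div_self he0]
  have hyp : ∀ ζ : ℂ, ‖ζ‖ < 1 → ‖g (koe ll ζ)‖ ^ 2 * (ll ^ 2 * Th2 ζ) ≤ Th2 (koe ll ζ) := by
    intro ζ hζ
    have hζ' := koe_norm_lt ll_pos.le ll_lt.le hζ
    set ζ' := koe ll ζ with hζ'def
    have hvζ : v (pt ζ 0) = pt ζ' 0 := by
      apply G.lc.inj 1 zero_le_one (hvm (pt_left_mem hζ)) (pt_left_mem hζ')
      rw [hvF _ (pt_left_mem hζ), h0 _ (pt_left_mem hζ), Fc_zero_left hζ,
        axis G h0 zero_le_one hζ', hζ'def, kf_koe ll_pos.le ll_lt.le hζ, ← mul_assoc, e_ll,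
        one_mul]
    set V : ℂ := fderiv ℂ v (pt ζ 0) (pt 0 1) 1 with hV
    have hsp := schwarz_avg hvd hvm hζ
    rw [hvζ, pt_zero_apply, ← hV] at hsp
    -- chain rule
    have hrel : mm ζ / mm ζ' = γ ζ' * V := by
      rw [← Fc_gamma hζ]
      have h1 : F 0 =ᶠ[𝓝 (pt ζ 0)] Fc 0 := by
        filter_upwards [isOpen_ball.mem_nhds (pt_left_mem hζ)] with z hz using h0 z hz
      rw [← h1.fderiv_eq]
      have h2 : HasFDerivAt v (fderiv ℂ v (pt ζ 0)) (pt ζ 0) :=
        (hvd.differentiableAt (isOpen_ball.mem_nhds (pt_left_mem hζ))).hasFDerivAt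
      have h3 : HasFDerivAt (F 1) (fderiv ℂ (F 1) (pt ζ' 0)) (v (pt ζ 0)) := by
        rw [hvζ]
        exact (hF1.differentiableAt (isOpen_ball.mem_nhds (pt_left_mem hζ'))).hasFDerivAt
      have h4 := h3.comp (pt ζ 0) h2
      have h5 : F 1 ∘ v =ᶠ[𝓝 (pt ζ 0)] F 0 := by
        filter_upwards [isOpen_ball.mem_nhds (pt_left_mem hζ)] with z hz using hvF z hz
      have h6 := (h4.congr_of_eventuallyEq h5.symm).fderiv
      rw [h6, ContinuousLinearMap.comp_apply]
      set y := fderiv ℂ v (pt ζ 0) (pt 0 1) with hy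
      have h7 : y = y 0 • pt 1 0 + y 1 • pt 0 1 := by rw [← pt_eq, pt_eta]
      rw [h7, map_add, map_smul, map_smul, PiLp.add_apply, PiLp.smul_apply, PiLp.smul_apply,
        hax ζ' hζ', smul_zero, zero_add, smul_eq_mul, mul_comm]
    have hm := mm_ne_zero hζ
    have hm' := mm_ne_zero hζ'
    have hγ' := hγne ζ' hζ'
    have hgv : g ζ' = e * V * mm ζ' / mm ζ := by
      simp only [hg]
      rw [div_eq_div_iff hγ' hm]
      rw [div_eq_iff hm'] at hrel
      rw [hrel]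
      ring
    have hel : Real.exp 1 * ll = 1 := by
      have := e_ll
      exact_mod_cast this
    have hen : ‖e‖ = Real.exp 1 := by
      rw [he, Complex.norm_real, Real.norm_of_nonneg (Real.exp_pos _).le]
    rw [← mm_norm_sq, ← mm_norm_sq, hgv, norm_div, norm_mul, norm_mul, hen]
    have p3 : 0 < ‖mm ζ‖ := norm_pos_iff.2 hm
    have e1 : (Real.exp 1 * ‖V‖ * ‖mm ζ'‖ / ‖mm ζ‖) ^ 2 * (ll ^ 2 * ((1 - ‖ζ‖ ^ 2) * ‖mm ζ‖ ^ 2)) =
        (Real.exp 1 * ll) ^ 2 * ((1 - ‖ζ‖ ^ 2) * ‖V‖ ^ 2) * ‖mm ζ'‖ ^ 2 := by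
      field_simp
    rw [e1, hel, one_pow, one_mul]
    apply mul_le_mul_of_nonneg_right _ (by positivity)
    linarith
  have hfin := re_deriv_nonneg ll_pos ll_lt hgd hg0 hyp
  -- derivative of the quotient
  have hγ' : HasDerivAt γ (tc 1 γ) 0 := by
    have h1 : HasDerivAt γ (deriv γ 0) 0 :=
      (hγd.differentiableAt (ball_mem_nhds _ one_pos)).hasDerivAt
    rwa [← tc_one h1] at h1
  have hg' : HasDerivAt g ((0 * γ 0 - e * tc 1 γ) / γ 0 ^ 2) 0 :=
    (hasDerivAt_const (0 : ℂ) e).div hγ' (hγne 0 (by simp))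
  rw [tc_one hg', hγ0] at hfin
  have h2 : (0 * e - e * tc 1 γ) / e ^ 2 = -(((Real.exp 1)⁻¹ : ℝ) : ℂ) * tc 1 γ := by
    rw [Complex.ofReal_inv, ← he]
    field_simp
    ring
  rw [h2, neg_mul, Complex.neg_re, Complex.re_ofReal_mul] at hfin
  rw [hmf]
  have h3 : 0 < (Real.exp 1)⁻¹ := inv_pos.2 (Real.exp_pos 1)
  by_contra hcon
  push Not at hcon
  have := mul_pos h3 hcon
  linarith

/-- No continuous Herglotz vector field generates a chain starting at `Fc 0`. -/
theorem no_gen (G : Gen F h) (h0 : ∀ z ∈ ball (0 : E2) 1, F 0 z = Fc 0 z) : False := by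
  -- the mixed coefficient on `[0,1]`
  have hX : ∀ t ∈ Ioo (0 : ℝ) 1, (mf (h t) 1).re = -3 := by
    have hcont : ContinuousOn (fun t => Real.exp (-2 * t) * (mf (F t) 1).re -
        3 * Real.exp (-t)) (Icc 0 1) := by
      apply ContinuousOn.sub
      · exact (mu_cont G.lc).mono Icc_subset_Ici_self
      · fun_prop
    have hder : ∀ s ∈ Ioo (0 : ℝ) 1, HasDerivAt (fun t => Real.exp (-2 * t) *
        (mf (F t) 1).re - 3 * Real.exp (-t))
        (Real.exp (-s) * (mf (h s) 1).re - -(3 * Real.exp (-s))) s := fun s hs =>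
      (mu_deriv G hs.1).sub (exp_neg_deriv 3 s)
    have hnn : ∀ s ∈ Ioo (0 : ℝ) 1,
        0 ≤ Real.exp (-s) * (mf (h s) 1).re - -(3 * Real.exp (-s)) := by
      intro s hs
      have h3 := (G.cara s hs.1.le).X_ge (face_one G h0 hs.1)
      have h4 := Real.exp_pos (-s)
      nlinarith
    have hend : Real.exp (-2 * 1) * (mf (F 1) 1).re - 3 * Real.exp (-1) ≤
        Real.exp (-2 * 0) * (mf (F 0) 1).re - 3 * Real.exp (-0) := by
      have h1 := mixed_nonpos G h0
      rw [mf_congr h0, Fc_mf]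
      have h2 : (3 - 3 * (ll : ℂ)).re = 3 - 3 * ll := by
        have : (3 - 3 * (ll : ℂ)) = ((3 - 3 * ll : ℝ) : ℂ) := by push_cast; ring
        rw [this, Complex.ofReal_re]
      rw [h2]
      simp only [mul_zero, Real.exp_zero, one_mul, neg_zero, mul_one]
      have h5 : Real.exp (-1) = ll := rfl
      rw [h5]
      have h6 : Real.exp (-2) * (mf (F 1) 1).re ≤ 0 :=
        mul_nonpos_of_nonneg_of_nonpos (Real.exp_pos _).le h1
      linarith
    intro t ht
    have h1 := (const_of_mono hcont hder hnn hend).2 t ht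
    have h4 := Real.exp_pos (-t)
    have h5 : Real.exp (-t) * ((mf (h t) 1).re + 3) = 0 := by linarith
    rcases mul_eq_zero.1 h5 with h6 | h6
    · linarith
    · linarith
  -- the coefficient of `z₂²`
  set c : ℝ → ℝ := fun t => Real.exp (-2 * t) * (qf (F t) (pt 0 1) 1).re with hc
  have hcc : ContinuousOn c (Ici 0) := beta_cont G.lc norm_pt_zero_one.le 1
  have hc0 : c 0 = 2 * ll := by
    simp only [hc]
    rw [qf_congr h0 norm_pt_zero_one.le, Fc_qf_right]
    simp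
  have hc1 : ∀ t ∈ Icc (0 : ℝ) 1, c t = 2 * ll := by
    intro t ht
    rw [← hc0]
    apply const_of_zero ht.1 (hcc.mono Icc_subset_Ici_self)
    intro s hs
    have hs1 : s < 1 := hs.2.trans_le ht.2
    have h1 := beta_deriv G hs.1 norm_pt_zero_one.le 1
    have h2 := (G.cara s hs.1.le).face (face_one G h0 hs.1) (hX s ⟨hs.1, hs1⟩)
    rw [h2, Complex.zero_re, mul_zero] at h1
    exact h1
  have hc2 : ∀ t : ℝ, 1 ≤ t → c t = 2 * Real.exp (-t) := by
    intro t ht
    have hcont : ContinuousOn (fun t => c t - 2 * Real.exp (-t)) (Icc 1 t) := by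
      apply ContinuousOn.sub
      · apply hcc.mono
        intro s hs
        exact zero_le_one.trans hs.1
      · fun_prop
    have hder : ∀ s ∈ Ioo 1 t, HasDerivAt (fun t => c t - 2 * Real.exp (-t))
        (Real.exp (-s) * (qf (h s) (pt 0 1) 1).re - -(2 * Real.exp (-s))) s := fun s hs =>
      (beta_deriv G (zero_lt_one.trans hs.1) norm_pt_zero_one.le 1).sub (exp_neg_deriv 2 s)
    have hnn : ∀ s ∈ Ioo 1 t,
        0 ≤ Real.exp (-s) * (qf (h s) (pt 0 1) 1).re - -(2 * Real.exp (-s)) := by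
      intro s hs
      have h1 := (G.cara s (zero_le_one.trans hs.1.le)).norm_inner_tc norm_pt_zero_one
      rw [inner_pt] at h1
      have h2 : ‖qf (h s) (pt 0 1) 1‖ ≤ 2 := by simpa [qf] using h1
      have h3 := (abs_le.1 ((Complex.abs_re_le_norm _).trans h2)).1
      have h4 := Real.exp_pos (-s)
      nlinarith
    have h11 : c 1 - 2 * Real.exp (-1) = 0 := by
      rw [hc1 1 ⟨zero_le_one, le_rfl⟩]
      show 2 * ll - 2 * ll = 0
      ring
    have hend : c t - 2 * Real.exp (-t) ≤ c 1 - 2 * Real.exp (-1) := by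
      have h1 := (qf_le G.lc (zero_le_one.trans ht)).2
      rw [h11]
      simp only [hc]
      linarith
    have h1 := (const_of_mono hcont hder hnn hend).1 t ⟨ht, le_rfl⟩
    rw [h11] at h1
    linarith
  -- the kink
  have hd := beta_deriv G zero_lt_one norm_pt_zero_one.le 1
  set d : ℝ := Real.exp (-1) * (qf (h 1) (pt 0 1) 1).re with hdd
  have hd' : HasDerivAt c d 1 := hd
  have hleft : d = 0 := by
    have h1 : HasDerivWithinAt c d (Icc 0 1) 1 := hd'.hasDerivWithinAt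
    have h2 : HasDerivWithinAt c 0 (Icc 0 1) 1 := by
      refine (hasDerivWithinAt_const (1 : ℝ) (Icc 0 1) (2 * ll)).congr ?_ ?_
      · intro s hs; exact hc1 s hs
      · exact hc1 1 ⟨zero_le_one, le_rfl⟩
    exact (uniqueDiffOn_Icc zero_lt_one 1 ⟨zero_le_one, le_rfl⟩).eq_deriv _ h1 h2
  have hright : d = -(2 * Real.exp (-1)) := by
    have h1 : HasDerivWithinAt c d (Icc 1 2) 1 := hd'.hasDerivWithinAt
    have h2 : HasDerivWithinAt c (-(2 * Real.exp (-1))) (Icc 1 2) 1 := by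
      refine (exp_neg_deriv 2 1).hasDerivWithinAt.congr ?_ ?_
      · intro s hs; exact hc2 s hs.1
      · exact hc2 1 le_rfl
    exact (uniqueDiffOn_Icc one_lt_two 1 ⟨le_rfl, one_lt_two.le⟩).eq_deriv _ h1 h2
  have := Real.exp_pos (-1)
  linarith

end Core

end Pool.Agent.Helper540
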