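import Mathlib

set_option autoImplicit false

namespace Pool.Agent.Helper540

open Set

/-- The admissible region and the critical equation. -/
structure Crit (p S : ℝ) : Prop where
  p0 : 0 < p
  p1 : p < 1
  S0 : 0 < S
  eq : (2 - p) * S ^ 2 + (1 - p) * (1 - p - p ^ 2) * S = p ^ 2

theorem Crit.lo {p S : ℝ} (c : Crit p S) : p ^ 2 < S := by
  have h0 := c.p0
  have h1 := c.p1
  have hS := c.S0
  have e := c.eq
  by_contra h
  push Not at h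
  -- c is increasing in S: at S <= p^2 it is negative
  have h2 : (2 - p) * S ^ 2 ≤ (2 - p) * (S * p ^ 2) := by
    apply mul_le_mul_of_nonneg_left _ (by linarith)
    nlinarith
  have h3 : S * ((2 - p) * p ^ 2 + (1 - p) * (1 - p - p ^ 2)) =
      S * (1 - 2 * p + 2 * p ^ 2) := by ring
  have h4 : p ^ 2 ≤ S * (1 - 2 * p + 2 * p ^ 2) := by linarith
  have h5 : 0 < 1 - 2 * p + 2 * p ^ 2 := by nlinarith [sq_nonneg (1 - 2 * p)]
  have h6 : S * (1 - 2 * p + 2 * p ^ 2) ≤ p ^ 2 * (1 - 2 * p + 2 * p ^ 2) :=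
    mul_le_mul_of_nonneg_right h h5.le
  have h7 : p ^ 2 * (1 - 2 * p + 2 * p ^ 2) < p ^ 2 * 1 := by
    apply mul_lt_mul_of_pos_left _ (by positivity)
    nlinarith
  linarith

theorem Crit.hi {p S : ℝ} (c : Crit p S) : S < p := by
  have h0 := c.p0
  have h1 := c.p1
  have hS := c.S0
  have hl := c.lo
  have e := c.eq
  by_contra h
  push Not at h
  have h3 : p ^ 2 - (2 - p) * p ^ 2 - (1 - p) * (1 - p - p ^ 2) * p =
      (S - p) * ((2 - p) * (S + p) + (1 - p) * (1 - p - p ^ 2)) := by linear_combination -e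
  have h4 : p ^ 2 - (2 - p) * p ^ 2 - (1 - p) * (1 - p - p ^ 2) * p =
      -(p * (1 - p) ^ 2 * (1 + p)) := by ring
  have h5 : 0 < p * (1 - p) ^ 2 * (1 + p) := by
    have : 0 < 1 - p := by linarith
    positivity
  have h6 : 0 ≤ (S - p) * ((2 - p) * (S + p) + (1 - p) * (1 - p - p ^ 2)) := by
    apply mul_nonneg (by linarith)
    have h7 : (2 - p) * (p + p) ≤ (2 - p) * (S + p) :=
      mul_le_mul_of_nonneg_left (by linarith) (by linarith)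
    nlinarith [mul_pos h0 (sub_pos.2 h1), pow_pos h0 3]
  linarith

theorem Crit.Q0 {p S : ℝ} (c : Crit p S) : 0 < p + (2 - p) * S := by
  have h0 := c.p0
  have h1 := c.p1
  have hS := c.S0
  have : 0 < (2 - p) * S := mul_pos (by linarith) hS
  linarith

theorem Crit.R_lo {p S R : ℝ} (c : Crit p S)
    (hR : R * (p + (2 - p) * S) = S * (p * (1 + p) + (1 - p) * S)) : p ^ 2 < R := by
  have h0 := c.p0
  have h1 := c.p1
  have hS := c.S0
  have hl := c.lo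
  have hQ := c.Q0
  have h2 : 0 < (R - p ^ 2) * (p + (2 - p) * S) := by
    have h3 : (R - p ^ 2) * (p + (2 - p) * S) =
        (S - p ^ 2) * ((1 - p) * (S + p ^ 2) + p * (1 - p + p ^ 2)) := by
      linear_combination hR
    rw [h3]
    apply mul_pos (by linarith)
    have h4 : 0 < (1 - p) * (S + p ^ 2) := mul_pos (by linarith) (by positivity)
    have h5 : 0 < p * (1 - p + p ^ 2) := mul_pos h0 (by nlinarith)
    linarith
  have h6 := pos_of_mul_pos_left h2 hQ.le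
  linarith

theorem Crit.R_hi {p S R : ℝ} (c : Crit p S)
    (hR : R * (p + (2 - p) * S) = S * (p * (1 + p) + (1 - p) * S)) : R < p := by
  have h0 := c.p0
  have h1 := c.p1
  have hS := c.S0
  have hh := c.hi
  have hQ := c.Q0
  have h2 : 0 < (p - R) * (p + (2 - p) * S) := by
    have h3 : (p - R) * (p + (2 - p) * S) =
        p ^ 2 * (1 - p) + (p - S) * ((1 - p) * S + p ^ 2) := by
      linear_combination -hR
    rw [h3]
    have h4 : 0 < p ^ 2 * (1 - p) := mul_pos (by positivity) (by linarith)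
    have h5 : 0 ≤ (p - S) * ((1 - p) * S + p ^ 2) := by
      apply mul_nonneg (by linarith)
      have : 0 < (1 - p) * S := mul_pos (by linarith) hS
      positivity
    linarith
  have h6 := pos_of_mul_pos_left h2 hQ.le
  linarith

theorem Crit.main {p S R m : ℝ} (c : Crit p S)
    (hR : R * (p + (2 - p) * S) = S * (p * (1 + p) + (1 - p) * S))
    (hm : m * (1 - p) ^ 4 = p * (1 - S) * (p + (2 - p) * S)) {x : ℝ} (hx : 0 ≤ x) :
    p ^ 2 * (1 + x) ^ 2 * (p - (1 - p) * x) ≤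
      m * ((1 - p) ^ 2 * ((p - (1 - p) * x) - R + x ^ 2)) := by
  have h0 := c.p0
  have h1 := c.p1
  have hS := c.S0
  have hh := c.hi
  have hQ := c.Q0
  have e := c.eq
  have hp1 : 0 < 1 - p := by linarith
  have hg : 0 ≤ (1 - S) * (p + (2 - p) * S) + (2 - p - 2 * S) * (p * (1 - p) ^ 2) := by
    have g1 : (1 - p) * p ≤ (1 - S) * (p + (2 - p) * S) := by
      apply mul_le_mul _ _ h0.le (by linarith)
      · linarith
      · have : 0 < (2 - p) * S := mul_pos (by linarith) hS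
        linarith
    have g2 : (-1) * (p * (1 - p) ^ 2) ≤ (2 - p - 2 * S) * (p * (1 - p) ^ 2) := by
      apply mul_le_mul_of_nonneg_right _ (by positivity)
      linarith
    have g3 : 0 ≤ (1 - p) * p + (-1) * (p * (1 - p) ^ 2) := by
      have : (1 - p) * p + (-1) * (p * (1 - p) ^ 2) = p ^ 2 * (1 - p) := by ring
      rw [this]; positivity
    linarith
  have key : (m * ((1 - p) ^ 2 * ((p - (1 - p) * x) - R + x ^ 2)) -
      p ^ 2 * (1 + x) ^ 2 * (p - (1 - p) * x)) * ((1 - p) ^ 4 * (p + (2 - p) * S)) =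
      p * (((1 - p) * x - (p - S)) ^ 2 * (p * (1 - p) ^ 2 * (1 - p) * x +
        ((1 - S) * (p + (2 - p) * S) + (2 - p - 2 * S) * (p * (1 - p) ^ 2))) *
        (p + (2 - p) * S)) := by
    linear_combination ((1 - p) ^ 2 * ((p - (1 - p) * x) - R + x ^ 2) * (p + (2 - p) * S)) * hm
      - (p * (1 - S) * (p + (2 - p) * S) * (1 - p) ^ 2) * hR
      + p * (2 * p ^ 2 * S ^ 2 * x + p ^ 2 * S ^ 2 - 4 * p ^ 2 * S * x - 2 * p ^ 2 * S
        + 2 * p ^ 2 * x + p ^ 2 - p * S ^ 3 - 6 * p * S ^ 2 * x + 8 * p * S * x + p * S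
        - 2 * p * x + 2 * S ^ 3 + 4 * S ^ 2 * x - 2 * S ^ 2 - 4 * S * x) * e
  have h2 : 0 ≤ (m * ((1 - p) ^ 2 * ((p - (1 - p) * x) - R + x ^ 2)) -
      p ^ 2 * (1 + x) ^ 2 * (p - (1 - p) * x)) * ((1 - p) ^ 4 * (p + (2 - p) * S)) := by
    rw [key]
    apply mul_nonneg h0.le
    apply mul_nonneg _ hQ.le
    apply mul_nonneg (sq_nonneg _)
    have : 0 ≤ p * (1 - p) ^ 2 * (1 - p) * x := by positivity
    linarith
  have h3 := nonneg_of_mul_nonneg_left h2 (by positivity)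
  linarith

theorem Crit.K0 {p S : ℝ} (c : Crit p S) : 0 < 3 * S - p ^ 2 := by
  have := c.lo
  have := c.S0
  linarith

theorem Crit.norm_pt {p S R : ℝ} (c : Crit p S)
    (hR : R * (p + (2 - p) * S) = S * (p * (1 + p) + (1 - p) * S)) :
    R * ((3 * S - p ^ 2) * (1 - p) ^ 2) = 2 * S ^ 2 * (1 - p) ^ 2 + (S - p ^ 2) * (p - S) ^ 2 := by
  have e := c.eq
  have hQ := c.Q0.ne'
  apply mul_right_cancel₀ hQ
  linear_combination ((3 * S - p ^ 2) * (1 - p) ^ 2) * hR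
    - (p ^ 3 - p ^ 2 * S - p * S + S ^ 2) * e

theorem Crit.value {p S m : ℝ} (c : Crit p S)
    (hm : m * (1 - p) ^ 4 = p * (1 - S) * (p + (2 - p) * S)) :
    m * ((3 * S - p ^ 2) * (1 - p) ^ 4) =
      2 * S ^ 2 * (1 - p ^ 2) ^ 2 + (S - p ^ 2) * (p + (2 - p) * S) ^ 2 := by
  have e := c.eq
  linear_combination (3 * S - p ^ 2) * hm - (2 * p * S + 2 * S) * e

theorem Crit.sig_mono {p₁ S₁ p₂ S₂ : ℝ} (c₁ : Crit p₁ S₁) (c₂ : Crit p₂ S₂) (h : p₁ < p₂) :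
    S₁ / p₁ < S₂ / p₂ := by
  have a0 := c₁.p0
  have a1 := c₁.p1
  have b0 := c₂.p0
  have b1 := c₂.p1
  set σ₁ := S₁ / p₁ with h1
  set σ₂ := S₂ / p₂ with h2
  have hs1 : S₁ = σ₁ * p₁ := by rw [h1]; field_simp
  have hs2 : S₂ = σ₂ * p₂ := by rw [h2]; field_simp
  have p1 : 0 < σ₁ := div_pos c₁.S0 a0
  have p2 : 0 < σ₂ := div_pos c₂.S0 b0
  have l1 : σ₁ < 1 := (div_lt_one a0).2 c₁.hi
  have e1 : (2 - p₁) * p₁ * σ₁ ^ 2 + (1 - 2 * p₁ + p₁ ^ 3) * σ₁ - p₁ = 0 := by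
    have e := c₁.eq
    rw [hs1] at e
    apply mul_left_cancel₀ a0.ne'
    linear_combination e
  have e2 : (2 - p₂) * p₂ * σ₂ ^ 2 + (1 - 2 * p₂ + p₂ ^ 3) * σ₂ - p₂ = 0 := by
    have e := c₂.eq
    rw [hs2] at e
    apply mul_left_cancel₀ b0.ne'
    linear_combination e
  by_contra hc
  push Not at hc
  have n1 : (2 - p₂) * p₂ * σ₁ ^ 2 + (1 - 2 * p₂ + p₂ ^ 3) * σ₁ - p₂ =
      (p₂ - p₁) * (σ₁ ^ 2 * (2 - p₁ - p₂) + σ₁ * (-2 + p₁ ^ 2 + p₁ * p₂ + p₂ ^ 2) - 1) := by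
    linear_combination e1
  have n2 : σ₁ ^ 2 * (2 - p₁ - p₂) + σ₁ * (-2 + p₁ ^ 2 + p₁ * p₂ + p₂ ^ 2) - 1 < 0 := by
    have k1 : σ₁ ^ 2 * (2 - p₁ - p₂) ≤ σ₁ * (2 - p₁ - p₂) := by
      apply mul_le_mul_of_nonneg_right _ (by linarith)
      nlinarith
    have k2 : σ₁ * (2 - p₁ - p₂) + σ₁ * (-2 + p₁ ^ 2 + p₁ * p₂ + p₂ ^ 2) =
        σ₁ * (p₁ * p₂) - σ₁ * (p₁ * (1 - p₁) + p₂ * (1 - p₂)) := by ring
    have k3 : σ₁ * (p₁ * p₂) < 1 := by
      have : p₁ * p₂ < 1 := by nlinarith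
      nlinarith [mul_pos a0 b0]
    have k4 : 0 ≤ σ₁ * (p₁ * (1 - p₁) + p₂ * (1 - p₂)) := by
      apply mul_nonneg p1.le
      apply add_nonneg
      · exact mul_nonneg a0.le (by linarith)
      · exact mul_nonneg b0.le (by linarith)
    linarith
  have n3 : (2 - p₂) * p₂ * σ₁ ^ 2 + (1 - 2 * p₂ + p₂ ^ 3) * σ₁ - p₂ < 0 := by
    rw [n1]
    exact mul_neg_of_pos_of_neg (by linarith) n2
  have n4 : σ₂ * ((2 - p₂) * p₂ * σ₁ ^ 2 + (1 - 2 * p₂ + p₂ ^ 3) * σ₁ - p₂) =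
      (σ₁ - σ₂) * ((2 - p₂) * p₂ * σ₁ * σ₂ + p₂) := by
    linear_combination σ₁ * e2
  have n5 : 0 ≤ (σ₁ - σ₂) * ((2 - p₂) * p₂ * σ₁ * σ₂ + p₂) := by
    apply mul_nonneg (by linarith)
    have : 0 < (2 - p₂) * p₂ * σ₁ * σ₂ := by
      have : 0 < 2 - p₂ := by linarith
      positivity
    linarith
  rw [← n4] at n5
  have n6 := nonneg_of_mul_nonneg_right n5 p2
  linarith

/-- The radius increases with `p`. -/
theorem Crit.R_mono {p₁ S₁ R₁ p₂ S₂ R₂ : ℝ} (c₁ : Crit p₁ S₁) (c₂ : Crit p₂ S₂)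
    (hR₁ : R₁ * (p₁ + (2 - p₁) * S₁) = S₁ * (p₁ * (1 + p₁) + (1 - p₁) * S₁))
    (hR₂ : R₂ * (p₂ + (2 - p₂) * S₂) = S₂ * (p₂ * (1 + p₂) + (1 - p₂) * S₂)) (h : p₁ < p₂) :
    R₁ < R₂ := by
  have a0 := c₁.p0
  have a1 := c₁.p1
  have b0 := c₂.p0
  have b1 := c₂.p1
  have hσ := c₁.sig_mono c₂ h
  set σ₁ := S₁ / p₁ with h1
  set σ₂ := S₂ / p₂ with h2
  have hs1 : S₁ = σ₁ * p₁ := by rw [h1]; field_simp
  have hs2 : S₂ = σ₂ * p₂ := by rw [h2]; field_simp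
  have p1 : 0 < σ₁ := div_pos c₁.S0 a0
  have p2 : 0 < σ₂ := div_pos c₂.S0 b0
  have l1 : σ₁ < 1 := (div_lt_one a0).2 c₁.hi
  have l2 : σ₂ < 1 := (div_lt_one b0).2 c₂.hi
  have e1 : R₁ * (1 + (2 - p₁) * σ₁) = σ₁ * (p₁ + p₁ ^ 2 + σ₁ * (p₁ - p₁ ^ 2)) := by
    rw [hs1] at hR₁
    apply mul_left_cancel₀ a0.ne'
    linear_combination hR₁
  have e2 : R₂ * (1 + (2 - p₂) * σ₂) = σ₂ * (p₂ + p₂ ^ 2 + σ₂ * (p₂ - p₂ ^ 2)) := by
    rw [hs2] at hR₂
    apply mul_left_cancel₀ b0.ne'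
    linear_combination hR₂
  have D1 : 0 < 1 + (2 - p₁) * σ₁ := by
    have : 0 < (2 - p₁) * σ₁ := mul_pos (by linarith) p1
    linarith
  have D2 : 0 < 1 + (2 - p₂) * σ₂ := by
    have : 0 < (2 - p₂) * σ₂ := mul_pos (by linarith) p2
    linarith
  have D3 : 0 < 1 + (2 - p₁) * σ₂ := by
    have : 0 < (2 - p₁) * σ₂ := mul_pos (by linarith) p2
    linarith
  -- intermediate value
  set R₃ := σ₂ * (p₁ + p₁ ^ 2 + σ₂ * (p₁ - p₁ ^ 2)) / (1 + (2 - p₁) * σ₂) with h3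
  have e3 : R₃ * (1 + (2 - p₁) * σ₂) = σ₂ * (p₁ + p₁ ^ 2 + σ₂ * (p₁ - p₁ ^ 2)) := by
    rw [h3]; exact div_mul_cancel₀ _ D3.ne'
  have s1 : R₁ < R₃ := by
    have k : 0 < (R₃ - R₁) * ((1 + (2 - p₁) * σ₁) * (1 + (2 - p₁) * σ₂)) := by
      have k1 : (R₃ - R₁) * ((1 + (2 - p₁) * σ₁) * (1 + (2 - p₁) * σ₂)) =
          p₁ * (σ₂ - σ₁) * ((1 + p₁) + (1 - p₁) * (σ₁ + σ₂) +
            (1 - p₁) * (2 - p₁) * (σ₁ * σ₂)) := by
        linear_combination (1 + (2 - p₁) * σ₁) * e3 - (1 + (2 - p₁) * σ₂) * e1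
      rw [k1]
      have k2 : 0 < σ₂ - σ₁ := by linarith
      have k3 : 0 < 1 - p₁ := by linarith
      have k4 : 0 < 2 - p₁ := by linarith
      positivity
    have := pos_of_mul_pos_left k (by positivity)
    linarith
  have s2 : R₃ < R₂ := by
    have k : 0 < (R₂ - R₃) * ((1 + (2 - p₂) * σ₂) * (1 + (2 - p₁) * σ₂)) := by
      have k1 : (R₂ - R₃) * ((1 + (2 - p₂) * σ₂) * (1 + (2 - p₁) * σ₂)) =
          (1 + (2 - p₂) * σ₂) * (σ₂ * ((p₂ - p₁) * (1 + σ₂ + (p₁ + p₂) * (1 - σ₂)))) +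
          ((p₂ - p₁) * σ₂) * (σ₂ * (p₂ + p₂ ^ 2 + σ₂ * (p₂ - p₂ ^ 2))) := by
        linear_combination (1 + (2 - p₁) * σ₂) * e2 - (1 + (2 - p₂) * σ₂) * e3
      rw [k1]
      have k2 : 0 < p₂ - p₁ := by linarith
      have k3 : 0 < 1 - σ₂ := by linarith
      have k4 : 0 < p₂ - p₂ ^ 2 := by nlinarith
      positivity
    have := pos_of_mul_pos_left k (by positivity)
    linarith
  linarith

end Pool.Agent.Helper540
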