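import Mathlib
import Pool.Agent.Helper540.Cert
import Pool.Agent.Helper540.Crit

set_option autoImplicit false

namespace Pool.Agent.Helper540

open Metric Set Filter Topology

section Lower

variable {n : ℕ}

theorem sq_add_sq_le {i j : Fin n} (hij : i ≠ j) (z : EuclideanSpace ℂ (Fin n)) :
    ‖z i‖ ^ 2 + ‖z j‖ ^ 2 ≤ ‖z‖ ^ 2 := by
  rw [EuclideanSpace.norm_sq_eq]
  have h1 : ∑ k ∈ ({i, j} : Finset (Fin n)), ‖z k‖ ^ 2 ≤ ∑ k, ‖z k‖ ^ 2 :=
    Finset.sum_le_sum_of_subset_of_nonneg (Finset.subset_univ _) (fun _ _ _ => sq_nonneg _)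
  rwa [Finset.sum_pair hij] at h1

/-- The extremal map. -/
noncomputable def exMap (i j : Fin n) (a b : ℝ) (z : EuclideanSpace ℂ (Fin n)) :
    EuclideanSpace ℂ (Fin n) :=
  ((1 + b * z i) / (1 - b * z i)) • z +
    (z i * (a * z i / (1 - b * z i) ^ 2)) • EuclideanSpace.single j (1 : ℂ)

theorem ex_den {b : ℝ} (hb : 0 < b) (hb1 : b < 1) {w : ℂ} (hw : ‖w‖ < 1) :
    (1 - (b : ℂ) * w) ≠ 0 := by
  intro h
  have h2 : (b : ℂ) * w = 1 := by linear_combination -h
  have h3 : ‖(b : ℂ) * w‖ = 1 := by rw [h2, norm_one]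
  rw [norm_mul, Complex.norm_real, Real.norm_of_nonneg hb.le] at h3
  nlinarith [norm_nonneg w]

theorem norm_coord_le (i : Fin n) (z : EuclideanSpace ℂ (Fin n)) : ‖z i‖ ≤ ‖z‖ :=
  PiLp.norm_apply_le z i

theorem coord_diff (i : Fin n) (z : EuclideanSpace ℂ (Fin n)) :
    DifferentiableAt ℂ (fun z : EuclideanSpace ℂ (Fin n) => z i) z :=
  (EuclideanSpace.proj i : EuclideanSpace ℂ (Fin n) →L[ℂ] ℂ).differentiableAt

theorem diffAt_div {f g : EuclideanSpace ℂ (Fin n) → ℂ} {z : EuclideanSpace ℂ (Fin n)}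
    (hf : DifferentiableAt ℂ f z) (hg : DifferentiableAt ℂ g z) (h : g z ≠ 0) :
    DifferentiableAt ℂ (fun z => f z / g z) z := by
  simp only [div_eq_mul_inv]
  exact hf.mul (hg.inv h)

theorem exMap_diffAt (i j : Fin n) (a : ℝ) {b : ℝ} {z : EuclideanSpace ℂ (Fin n)}
    (hz : (1 - (b : ℂ) * z i) ≠ 0) : DifferentiableAt ℂ (exMap i j a b) z := by
  have hi := coord_diff i z
  have h1 : DifferentiableAt ℂ (fun z : EuclideanSpace ℂ (Fin n) => 1 - (b : ℂ) * z i) z :=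
    (differentiableAt_const _).sub (hi.const_mul _)
  have h2 : DifferentiableAt ℂ (fun z : EuclideanSpace ℂ (Fin n) => 1 + (b : ℂ) * z i) z :=
    (differentiableAt_const _).add (hi.const_mul _)
  have h3 : DifferentiableAt ℂ
      (fun z : EuclideanSpace ℂ (Fin n) => (1 + (b : ℂ) * z i) / (1 - (b : ℂ) * z i)) z :=
    diffAt_div h2 h1 hz
  have h4 : DifferentiableAt ℂ
      (fun z : EuclideanSpace ℂ (Fin n) => (a : ℂ) * z i / (1 - (b : ℂ) * z i) ^ 2) z :=
    diffAt_div (hi.const_mul _) (h1.pow 2) (pow_ne_zero 2 hz)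
  have h5 : DifferentiableAt ℂ
      (fun z : EuclideanSpace ℂ (Fin n) => z i * ((a : ℂ) * z i / (1 - (b : ℂ) * z i) ^ 2)) z :=
    hi.mul h4
  exact (h3.smul differentiableAt_id).add (h5.smul (differentiableAt_const _))

theorem exMap_zero (i j : Fin n) (a b : ℝ) : exMap i j a b 0 = 0 := by
  simp [exMap]

theorem exMap_fderiv (i j : Fin n) (a b : ℝ) :
    fderiv ℂ (exMap i j a b) 0 = ContinuousLinearMap.id ℂ _ := by
  have hi := coord_diff i (0 : EuclideanSpace ℂ (Fin n))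
  have h0 : (1 - (b : ℂ) * (0 : EuclideanSpace ℂ (Fin n)) i) ≠ 0 := by simp
  have h1 : DifferentiableAt ℂ (fun z : EuclideanSpace ℂ (Fin n) => 1 - (b : ℂ) * z i) 0 :=
    (differentiableAt_const _).sub (hi.const_mul _)
  have h2 : DifferentiableAt ℂ (fun z : EuclideanSpace ℂ (Fin n) => 1 + (b : ℂ) * z i) 0 :=
    (differentiableAt_const _).add (hi.const_mul _)
  have h30 : DifferentiableAt ℂ
      (fun z : EuclideanSpace ℂ (Fin n) => (1 + (b : ℂ) * z i) / (1 - (b : ℂ) * z i)) 0 :=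
    diffAt_div h2 h1 h0
  have h3 := h30.hasFDerivAt.smul (hasFDerivAt_id (𝕜 := ℂ) (0 : EuclideanSpace ℂ (Fin n)))
  have h4 : DifferentiableAt ℂ
      (fun z : EuclideanSpace ℂ (Fin n) => (a : ℂ) * z i / (1 - b * z i) ^ 2) 0 :=
    diffAt_div (hi.const_mul _) (h1.pow 2) (pow_ne_zero 2 h0)
  have h5 := (hi.hasFDerivAt.mul h4.hasFDerivAt).smul
    (hasFDerivAt_const (EuclideanSpace.single j (1 : ℂ)) (0 : EuclideanSpace ℂ (Fin n)))
  have h6 := h3.add h5
  have h7 : HasFDerivAt (exMap i j a b) (ContinuousLinearMap.id ℂ _) 0 := by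
    refine HasFDerivAt.congr_fderiv h6 ?_
    ext v
    simp
  exact h7.fderiv

theorem re_cayley {w : ℂ} (hw : (1 - w) ≠ 0) :
    ((1 + w) / (1 - w)).re = (1 - ‖w‖ ^ 2) / ‖1 - w‖ ^ 2 := by
  have h1 : (1 + w) / (1 - w) = (1 + w) * (starRingEnd ℂ) (1 - w) / ((‖1 - w‖ ^ 2 : ℝ) : ℂ) := by
    have h2 : ((‖1 - w‖ ^ 2 : ℝ) : ℂ) = (1 - w) * (starRingEnd ℂ) (1 - w) := by
      rw [Complex.mul_conj, Complex.normSq_eq_norm_sq]
    have h3 : (starRingEnd ℂ) (1 - w) ≠ 0 := (map_ne_zero _).2 hw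
    rw [h2]
    field_simp
  rw [h1, Complex.div_ofReal_re]
  congr 1
  rw [← Complex.normSq_eq_norm_sq, Complex.normSq_apply]
  simp
  ring

theorem exMap_pos {i j : Fin n} (hij : i ≠ j) {p S t g K : ℝ} (c : Crit p S)
    (hK : K = 3 * S - p ^ 2) (ht : 0 < t) (ht2 : t ^ 2 = 2 / K) (hg : 0 < g)
    (hg2 : g ^ 2 = (S - p ^ 2) * K) {z : EuclideanSpace ℂ (Fin n)} (hz : z ∈ ball 0 1)
    (hz0 : z ≠ 0) : 0 < (inner ℂ z (exMap i j (K * g / (2 * S ^ 2)) (p / (S * t)) z)).re := by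
  have hp0 := c.p0
  have hp1 := c.p1
  have hS := c.S0
  have hl := c.lo
  have hK0 : 0 < K := by rw [hK]; exact c.K0
  set a := K * g / (2 * S ^ 2) with ha
  set b := p / (S * t) with hb
  have hb0 : 0 < b := by positivity
  have ha0 : 0 < a := by positivity
  have hb2 : b ^ 2 = p ^ 2 * K / (2 * S ^ 2) := by
    rw [hb, div_pow, mul_pow, ht2]
    field_simp
  have ha2 : a ^ 2 = K ^ 3 * (S - p ^ 2) / (4 * S ^ 4) := by
    rw [ha, div_pow, mul_pow, hg2]
    field_simp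
    ring
  have hb1 : b < 1 := by
    have h1 : b ^ 2 < 1 := by
      rw [hb2, div_lt_one (by positivity), hK]
      have h2 : 0 < (2 * S - p ^ 2) * (S - p ^ 2) := mul_pos (by linarith) (by linarith)
      nlinarith
    nlinarith
  rw [mem_ball_zero_iff] at hz
  have hN0 : 0 < ‖z‖ := norm_pos_iff.2 hz0
  have hzi : ‖z i‖ ≤ ‖z‖ := norm_coord_le i z
  have hden := ex_den hb0 hb1 (hzi.trans_lt hz)
  set X := ‖z i‖ ^ 2 with hX
  set W := ‖z j‖ with hW
  have hXW : X + W ^ 2 ≤ ‖z‖ ^ 2 := sq_add_sq_le hij z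
  have hX0 : 0 ≤ X := sq_nonneg _
  have hW0 : 0 ≤ W := norm_nonneg _
  have hN1 : ‖z‖ ^ 2 < 1 := by nlinarith
  have hN2 : 0 < ‖z‖ ^ 2 := by positivity
  set N := ‖z‖ ^ 2 with hN
  -- the key inequality
  have k1 : N * (N - b ^ 2 * X) ^ 2 - a ^ 2 * X ^ 2 * (N - X) =
      (K * X / (2 * S) - N) ^ 2 * ((S - p ^ 2) * K * X / S ^ 2 + N) := by
    rw [hb2, ha2, hK]
    field_simp
    ring
  have k2 : 0 ≤ (K * X / (2 * S) - N) ^ 2 * ((S - p ^ 2) * K * X / S ^ 2 + N) := by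
    apply mul_nonneg (sq_nonneg _)
    have : 0 ≤ (S - p ^ 2) * K * X / S ^ 2 :=
      div_nonneg (mul_nonneg (mul_nonneg (by linarith) hK0.le) hX0) (by positivity)
    linarith
  have k3 : (a * X * W) ^ 2 ≤ (N - b ^ 2 * X) ^ 2 := by
    have h1 : (a * X * W) ^ 2 ≤ a ^ 2 * X ^ 2 * (N - X) := by
      have : (a * X * W) ^ 2 = a ^ 2 * X ^ 2 * W ^ 2 := by ring
      rw [this]
      exact mul_le_mul_of_nonneg_left (by linarith) (by positivity)
    have h2 : N * (N - b ^ 2 * X) ^ 2 ≤ (N - b ^ 2 * X) ^ 2 :=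
      mul_le_of_le_one_left (sq_nonneg _) hN1.le
    linarith
  have k4 : 0 ≤ N - b ^ 2 * X := by
    have : b ^ 2 * X ≤ 1 * X := mul_le_mul_of_nonneg_right (by nlinarith) hX0
    nlinarith [sq_nonneg W]
  have k5 : a * X * W ≤ N - b ^ 2 * X :=
    (pow_le_pow_iff_left₀ (by positivity) k4 two_ne_zero).1 k3
  have k6 : a * X * W < N * (1 - b ^ 2 * X) := by
    rcases hX0.eq_or_lt with h' | h'
    · rw [← h']
      simpa using hN2
    · have : 0 < b ^ 2 * X * (1 - N) := mul_pos (by positivity) (by linarith)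
      nlinarith
  -- the real part
  have hD : 0 < ‖1 - (b : ℂ) * z i‖ ^ 2 := by
    have := norm_pos_iff.2 hden
    positivity
  have e1 : (inner ℂ z (exMap i j a b z)).re =
      ((1 + (b : ℂ) * z i) / (1 - b * z i)).re * N +
      Complex.re ((z i * (a * z i / (1 - b * z i) ^ 2)) * (starRingEnd ℂ) (z j)) := by
    unfold exMap
    rw [inner_add_right, inner_smul_right, inner_smul_right, EuclideanSpace.inner_single_right,
      inner_self_eq_norm_sq_to_K, Complex.add_re]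
    congr 1
    · have : ((‖z‖ : ℂ)) ^ 2 = ((‖z‖ ^ 2 : ℝ) : ℂ) := by push_cast; ring
      rw [show ((RCLike.ofReal ‖z‖ : ℂ)) = (‖z‖ : ℂ) from rfl, this, Complex.re_mul_ofReal]
    · rw [one_mul]
  have e2 : ((1 + (b : ℂ) * z i) / (1 - b * z i)).re =
      (1 - b ^ 2 * X) / ‖1 - (b : ℂ) * z i‖ ^ 2 := by
    rw [re_cayley hden, norm_mul, Complex.norm_real, mul_pow, Real.norm_eq_abs, sq_abs]
  have e3 : -(a * X * W / ‖1 - (b : ℂ) * z i‖ ^ 2) ≤
      Complex.re ((z i * (a * z i / (1 - b * z i) ^ 2)) * (starRingEnd ℂ) (z j)) := by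
    have h1 := (abs_le.1 (Complex.abs_re_le_norm
      ((z i * (a * z i / (1 - b * z i) ^ 2)) * (starRingEnd ℂ) (z j)))).1
    have h2 : ‖(z i * (a * z i / (1 - b * z i) ^ 2)) * (starRingEnd ℂ) (z j)‖ =
        a * X * W / ‖1 - (b : ℂ) * z i‖ ^ 2 := by
      rw [norm_mul, norm_mul, norm_div, norm_mul, norm_pow, RCLike.norm_conj, Complex.norm_real,
        Real.norm_of_nonneg ha0.le, hX, hW]
      ring
    rw [h2] at h1
    exact h1
  rw [e1, e2]
  have e4 : 0 < (N * (1 - b ^ 2 * X) - a * X * W) / ‖1 - (b : ℂ) * z i‖ ^ 2 :=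
    div_pos (by linarith) hD
  have e5 : (N * (1 - b ^ 2 * X) - a * X * W) / ‖1 - (b : ℂ) * z i‖ ^ 2 =
      (1 - b ^ 2 * X) / ‖1 - (b : ℂ) * z i‖ ^ 2 * N - a * X * W / ‖1 - (b : ℂ) * z i‖ ^ 2 := by
    ring
  rw [e5] at e4
  linarith

/-- The extremal map attains the bound. -/
theorem exMap_attains {i j : Fin n} (hij : i ≠ j) {p S R m : ℝ} (c : Crit p S)
    (hR : R * (p + (2 - p) * S) = S * (p * (1 + p) + (1 - p) * S))
    (hm : m * (1 - p) ^ 4 = p * (1 - S) * (p + (2 - p) * S)) :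
    ∃ h : EuclideanSpace ℂ (Fin n) → EuclideanSpace ℂ (Fin n),
      DifferentiableOn ℂ h (ball 0 1) ∧ h 0 = 0 ∧
      fderiv ℂ h 0 = ContinuousLinearMap.id ℂ _ ∧
      (∀ z ∈ ball (0 : EuclideanSpace ℂ (Fin n)) 1, z ≠ 0 → 0 < (inner ℂ z (h z)).re) ∧
      ∃ z : EuclideanSpace ℂ (Fin n), ‖z‖ ^ 2 = R ∧ ‖h z‖ ^ 2 = m := by
  have hp0 := c.p0
  have hp1 := c.p1
  have hS := c.S0
  have hl := c.lo
  have hK0 : 0 < 3 * S - p ^ 2 := c.K0
  set K := 3 * S - p ^ 2 with hK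
  set t := √(2 / K) with ht
  have ht0 : 0 < t := Real.sqrt_pos.2 (by positivity)
  have ht2 : t ^ 2 = 2 / K := Real.sq_sqrt (by positivity)
  set g := √((S - p ^ 2) * K) with hg
  have hgp : 0 < (S - p ^ 2) * K := mul_pos (by linarith) hK0
  have hg0 : 0 < g := Real.sqrt_pos.2 hgp
  have hg2 : g ^ 2 = (S - p ^ 2) * K := Real.sq_sqrt hgp.le
  set a := K * g / (2 * S ^ 2) with ha
  set b := p / (S * t) with hb
  have hb0 : 0 < b := by positivity
  have hb2 : b ^ 2 = p ^ 2 * K / (2 * S ^ 2) := by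
    rw [hb, div_pow, mul_pow, ht2]
    field_simp
  have hb1 : b < 1 := by
    have h1 : b ^ 2 < 1 := by
      rw [hb2, div_lt_one (by positivity), hK]
      have h2 : 0 < (2 * S - p ^ 2) * (S - p ^ 2) := mul_pos (by linarith) (by linarith)
      nlinarith
    nlinarith
  have hq : 0 < 1 - p := by linarith
  refine ⟨exMap i j a b, ?_, exMap_zero i j a b, exMap_fderiv i j a b, ?_, ?_⟩
  · intro z hz
    rw [mem_ball_zero_iff] at hz
    exact (exMap_diffAt i j a (ex_den hb0 hb1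
      ((norm_coord_le i z).trans_lt hz))).differentiableWithinAt
  · intro z hz hz0
    exact exMap_pos hij c hK ht0 ht2 hg0 hg2 hz hz0
  · set e0 : EuclideanSpace ℂ (Fin n) := EuclideanSpace.single i (1 : ℂ) with he0
    set e1 : EuclideanSpace ℂ (Fin n) := EuclideanSpace.single j (1 : ℂ) with he1
    have hn0 : ‖e0‖ = 1 := by rw [he0, PiLp.norm_single, norm_one]
    have hn1 : ‖e1‖ = 1 := by rw [he1, PiLp.norm_single, norm_one]
    have h01 : inner ℂ e0 e1 = (0 : ℂ) := by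
      rw [he0, he1, EuclideanSpace.inner_single_left]
      simp [hij]
    set x0 := S * t with hx0
    set x1 := (p - S) / (1 - p) * (g / K) with hx1
    have hnorm : ∀ x y : ℝ, ‖(x : ℂ) • e0 + (y : ℂ) • e1‖ ^ 2 = x ^ 2 + y ^ 2 := by
      intro x y
      rw [norm_pair hn0 h01, hn1, Complex.norm_real, Complex.norm_real]
      simp
    refine ⟨(x0 : ℂ) • e0 + (x1 : ℂ) • e1, ?_, ?_⟩
    · rw [hnorm]
      have h1 := c.norm_pt hR
      rw [← hK] at h1
      have h2 : x0 ^ 2 = 2 * S ^ 2 / K := by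
        rw [hx0, mul_pow, ht2]; ring
      have h3 : x1 ^ 2 = (p - S) ^ 2 * (S - p ^ 2) / ((1 - p) ^ 2 * K) := by
        rw [hx1, mul_pow, div_pow, div_pow, hg2]
        field_simp
      rw [h2, h3]
      field_simp
      linear_combination -h1
    · have hco : ((x0 : ℂ) • e0 + (x1 : ℂ) • e1) i = x0 := by
        rw [he0, he1]
        simp [hij]
      have hbx : (b : ℂ) * (x0 : ℂ) = (p : ℂ) := by
        rw [← Complex.ofReal_mul]
        congr 1
        rw [hb, hx0]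
        field_simp
      have hax : a * x0 ^ 2 = g := by
        rw [ha, hx0, mul_pow, ht2]
        field_simp
      have hval : exMap i j a b ((x0 : ℂ) • e0 + (x1 : ℂ) • e1) =
          (((1 + p) / (1 - p) * x0 : ℝ) : ℂ) • e0 +
          (((1 + p) / (1 - p) * x1 + g / (1 - p) ^ 2 : ℝ) : ℂ) • e1 := by
        unfold exMap
        rw [hco, hbx, ← he1]
        have h5 : (x0 : ℂ) * (a * x0 / (1 - p) ^ 2) = ((g / (1 - p) ^ 2 : ℝ) : ℂ) := by
          rw [← hax]
          push_cast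
          ring
        rw [h5]
        push_cast
        module
      rw [hval, hnorm]
      have h1 := c.value hm
      rw [← hK] at h1
      have h2 : ((1 + p) / (1 - p) * x0) ^ 2 = 2 * S ^ 2 * (1 + p) ^ 2 / ((1 - p) ^ 2 * K) := by
        rw [hx0, mul_pow, mul_pow, ht2, div_pow]
        field_simp
      have h3 : (1 + p) / (1 - p) * x1 + g / (1 - p) ^ 2 =
          g * (p + (2 - p) * S) / (K * (1 - p) ^ 2) := by
        have hKe : (1 + p) * (p - S) + K = p + (2 - p) * S := by rw [hK]; ring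
        rw [hx1, ← hKe]
        field_simp
      have h4 : ((1 + p) / (1 - p) * x1 + g / (1 - p) ^ 2) ^ 2 =
          (S - p ^ 2) * (p + (2 - p) * S) ^ 2 / (K * (1 - p) ^ 4) := by
        rw [h3, div_pow, mul_pow, mul_pow, hg2]
        field_simp
      rw [h2, h4]
      field_simp
      linear_combination -h1

end Lower

end Pool.Agent.Helper540
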