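import Mathlib
import Pool.Agent.Helper540.Cert
import Pool.Agent.Helper540.Crit

set_option autoImplicit false

namespace Pool.Agent.Helper540

open Metric Set Filter Topology

variable {E : Type*} [NormedAddCommGroup E] [InnerProductSpace ℂ E]

/-- One certificate, in terms of the two real numbers `V₁ = |⟨h(re),e⟩|` and `V₂`, the norm of the
component of `h(re)` orthogonal to `e`. -/
theorem cert_real {h : E → E} (hd : DifferentiableOn ℂ h (ball 0 1)) (h0 : h 0 = 0)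
    (h1 : fderiv ℂ h 0 = ContinuousLinearMap.id ℂ E)
    (hpos : ∀ z ∈ ball (0 : E) 1, z ≠ 0 → 0 < (inner ℂ z (h z)).re) {e : E} (he : ‖e‖ = 1)
    {r S x : ℝ} (hr : 0 < r) (hS : r ^ 2 ≤ S) (hS1 : S < 1) (hx : 0 ≤ x) (hxr : x < r) :
    (1 - S) * (‖inner ℂ e (h ((r : ℂ) • e))‖ * (x * √S) +
      ‖h ((r : ℂ) • e) - (inner ℂ e (h ((r : ℂ) • e))) • e‖ * (√(S - r ^ 2) * √(r ^ 2 - x ^ 2))) ≤
      (S + x) * (1 + x) * (r * √S) := by
  set v := h ((r : ℂ) • e) with hv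
  set v₁ : ℂ := inner ℂ e v with hv₁
  set w : E := v - v₁ • e with hw
  have hee : inner ℂ e e = (1 : ℂ) := by rw [inner_self_eq_norm_sq_to_K, he]; norm_num
  have hew : inner ℂ e w = (0 : ℂ) := by
    rw [hw, inner_sub_right, inner_smul_right, hee, hv₁]; ring
  have hwe : inner ℂ w e = (0 : ℂ) := by rw [← inner_conj_symm, hew, map_zero]
  have hwv : inner ℂ w v = ((‖w‖ ^ 2 : ℝ) : ℂ) := by
    have h2 : v = w + v₁ • e := by rw [hw]; abel
    rw [h2, inner_add_right, inner_smul_right, hwe, inner_self_eq_norm_sq_to_K]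
    simp
  have hS0 : 0 < S := lt_of_lt_of_le (by positivity) hS
  set s := √S with hs
  have hs0 : 0 < s := Real.sqrt_pos.2 hS0
  have hs2 : s ^ 2 = S := Real.sq_sqrt hS0.le
  have hs1 : s < 1 := by nlinarith
  have hrs : r ≤ s := by
    have : r ^ 2 ≤ s ^ 2 := by rw [hs2]; exact hS
    exact (pow_le_pow_iff_left₀ hr.le hs0.le two_ne_zero).1 this
  set ρ := r / s with hρ
  have hρ0 : 0 < ρ := div_pos hr hs0
  have hρ1 : ρ ≤ 1 := (div_le_one hs0).2 hrs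
  have hsρ : s * ρ = r := by rw [hρ]; field_simp
  set τ := √(1 - ρ ^ 2) with hτ
  have hτ0 : 0 ≤ 1 - ρ ^ 2 := by nlinarith
  have hτ2 : τ ^ 2 = 1 - ρ ^ 2 := Real.sq_sqrt hτ0
  -- a unit complex number
  obtain ⟨u, hu, huv⟩ : ∃ u : ℂ, ‖u‖ = 1 ∧ (starRingEnd ℂ) u * v₁ = (‖v₁‖ : ℂ) := by
    by_cases hz : v₁ = 0
    · exact ⟨1, by simp, by simp [hz]⟩
    · refine ⟨v₁ / ‖v₁‖, ?_, ?_⟩
      · rw [norm_div, Complex.norm_real, norm_norm, div_self (norm_ne_zero_iff.2 hz)]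
      · have hn : (‖v₁‖ : ℂ) ≠ 0 := by exact_mod_cast norm_ne_zero_iff.2 hz
        rw [map_div₀, Complex.conj_ofReal, div_mul_eq_mul_div, div_eq_iff hn,
          mul_comm, Complex.mul_conj, Complex.normSq_eq_norm_sq]
        push_cast
        ring
  set ν : ℂ := ((x / r : ℝ) : ℂ) * u with hν
  have hνn : ‖ν‖ = x / r := by
    rw [hν, norm_mul, hu, mul_one, Complex.norm_real, Real.norm_of_nonneg (by positivity)]
  have hxr1 : x / r < 1 := (div_lt_one hr).2 hxr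
  set y : E := ((√(1 - (x / r) ^ 2) * ‖w‖⁻¹ : ℝ) : ℂ) • w with hy
  have hq0 : 0 ≤ 1 - (x / r) ^ 2 := by
    have : 0 ≤ x / r := by positivity
    nlinarith
  have hyn : ‖y‖ ≤ √(1 - (x / r) ^ 2) := by
    rw [hy, norm_smul, Complex.norm_real, Real.norm_of_nonneg (by positivity), mul_assoc]
    apply mul_le_of_le_one_right (Real.sqrt_nonneg _)
    exact inv_mul_le_one
  have hνy : ‖ν‖ ^ 2 + ‖y‖ ^ 2 ≤ 1 := by
    have h2 : ‖y‖ ^ 2 ≤ 1 - (x / r) ^ 2 := by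
      rw [← Real.sq_sqrt hq0]
      exact pow_le_pow_left₀ (norm_nonneg _) hyn 2
    rw [hνn]
    linarith
  have hey : inner ℂ e y = (0 : ℂ) := by rw [hy, inner_smul_right, hew, mul_zero]
  have hρν : ρ * ‖ν‖ < 1 := by
    rw [hνn]
    have : 0 ≤ x / r := by positivity
    nlinarith
  have key := cert hd h0 h1 hpos he hey hνy hs0 hs1 hρ0.le (by rw [hτ2]; ring) hρν (τ := τ)
  rw [hsρ, ← hv] at key
  have hI : (inner ℂ (ν • e + (τ : ℂ) • y) v).re =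
      x / r * ‖v₁‖ + τ * (√(1 - (x / r) ^ 2) * ‖w‖) := by
    rw [inner_add_left, inner_smul_left, inner_smul_left, Complex.add_re]
    congr 1
    · rw [← hv₁, hν, map_mul, Complex.conj_ofReal, mul_assoc, huv, ← Complex.ofReal_mul,
        Complex.ofReal_re]
    · rw [Complex.conj_ofReal, hy, inner_smul_left, Complex.conj_ofReal, hwv,
        ← Complex.ofReal_mul, ← Complex.ofReal_mul, Complex.ofReal_re]
      by_cases hz : ‖w‖ = 0
      · rw [hz]; ring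
      · field_simp
  rw [hI, hνn, hs2] at key
  have hνre : ν.re ≤ x / r := by
    have := Complex.re_le_norm ν
    rwa [hνn] at this
  have k1 : S + r * (1 + S) * ν.re + r ^ 2 * (x / r) ^ 2 ≤ (S + x) * (1 + x) := by
    have k2 : r * (1 + S) * ν.re ≤ r * (1 + S) * (x / r) :=
      mul_le_mul_of_nonneg_left hνre (by positivity)
    have k3 : r * (1 + S) * (x / r) = (1 + S) * x := by field_simp
    have k4 : r ^ 2 * (x / r) ^ 2 = x ^ 2 := by field_simp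
    rw [k4]
    nlinarith
  have k5 := key.trans k1
  -- multiply by r * s
  have k6 : τ * √(1 - (x / r) ^ 2) * (r * s) = √(S - r ^ 2) * √(r ^ 2 - x ^ 2) := by
    have a1 : √(S - r ^ 2) = s * τ := by
      rw [hs, hτ, ← Real.sqrt_mul hS0.le]
      congr 1
      rw [mul_sub, mul_one, hρ, div_pow, hs2]
      field_simp
    have a2 : √(r ^ 2 - x ^ 2) = r * √(1 - (x / r) ^ 2) := by
      have : r = √(r ^ 2) := (Real.sqrt_sq hr.le).symm
      conv_rhs => rw [this]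
      rw [← Real.sqrt_mul (sq_nonneg r)]
      congr 1
      rw [Real.sqrt_sq hr.le]
      field_simp
    rw [a1, a2]
    ring
  have k7 := mul_le_mul_of_nonneg_right k5 (show 0 ≤ r * s by positivity)
  calc (1 - S) * (‖v₁‖ * (x * s) + ‖w‖ * (√(S - r ^ 2) * √(r ^ 2 - x ^ 2)))
      = (1 - S) * (x / r * ‖v₁‖ + τ * (√(1 - (x / r) ^ 2) * ‖w‖)) * (r * s) := by
        rw [← k6]
        field_simp
    _ ≤ (S + x) * (1 + x) * (r * s) := k7

/-- The sharp upper bound. -/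
theorem growth_le {h : E → E} (hd : DifferentiableOn ℂ h (ball 0 1)) (h0 : h 0 = 0)
    (h1 : fderiv ℂ h 0 = ContinuousLinearMap.id ℂ E)
    (hpos : ∀ z ∈ ball (0 : E) 1, z ≠ 0 → 0 < (inner ℂ z (h z)).re) {p S : ℝ} (c : Crit p S)
    {m : ℝ} (hm : m * (1 - p) ^ 4 = p * (1 - S) * (p + (2 - p) * S)) {z : E} {r : ℝ} (hr : 0 < r)
    (hz : ‖z‖ = r)
    (hR : r ^ 2 * (p + (2 - p) * S) = S * (p * (1 + p) + (1 - p) * S)) :
    ‖h z‖ ^ 2 ≤ m := by
  have hp0 := c.p0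
  have hp1 := c.p1
  have hRl := c.R_lo hR
  have hRh := c.R_hi hR
  have hpr : p < r := (pow_lt_pow_iff_left₀ hp0.le hr.le two_ne_zero).1 hRl
  have hq : 0 < 1 - p := by linarith
  set e : E := ((r⁻¹ : ℝ) : ℂ) • z with he
  have hen : ‖e‖ = 1 := by
    rw [he, norm_smul, Complex.norm_real, Real.norm_of_nonneg (by positivity), hz]
    field_simp
  have hze : z = (r : ℂ) • e := by
    rw [he, smul_smul, ← Complex.ofReal_mul, mul_inv_cancel₀ hr.ne', Complex.ofReal_one, one_smul]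
  set v := h z with hv
  set v₁ : ℂ := inner ℂ e v with hv₁
  set w : E := v - v₁ • e with hw
  have hee : inner ℂ e e = (1 : ℂ) := by rw [inner_self_eq_norm_sq_to_K, hen]; norm_num
  have hew : inner ℂ e w = (0 : ℂ) := by
    rw [hw, inner_sub_right, inner_smul_right, hee, hv₁]; ring
  have hvn : ‖v‖ ^ 2 = ‖v₁‖ ^ 2 + ‖w‖ ^ 2 := by
    have h2 : v = v₁ • e + (1 : ℂ) • w := by rw [hw]; module
    rw [h2, norm_pair hen hew]
    simp
  -- the choice of x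
  set xR := (p - r ^ 2) / (1 - p) with hxR
  have hxR0 : 0 < xR := div_pos (by linarith) hq
  have hxRr : xR < r := by
    rw [hxR, div_lt_iff₀ hq]
    nlinarith
  set φ : ℝ → ℝ := fun x => ‖w‖ * (x * √(p - (1 - p) * x)) -
    ‖v₁‖ * (√((p - (1 - p) * x) - r ^ 2) * √(r ^ 2 - x ^ 2)) with hφ
  have hφc : ContinuousOn φ (Icc 0 xR) := by
    simp only [hφ]
    fun_prop
  have hφ0 : φ 0 ≤ 0 := by
    simp only [hφ]
    rw [zero_mul, mul_zero, zero_sub]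
    have := mul_nonneg (norm_nonneg v₁) (mul_nonneg (Real.sqrt_nonneg ((p - (1 - p) * 0) - r ^ 2))
      (Real.sqrt_nonneg (r ^ 2 - 0 ^ 2)))
    linarith
  have hSx : (p - (1 - p) * xR) = r ^ 2 := by
    rw [hxR]; field_simp; ring
  have hφ1 : 0 ≤ φ xR := by
    simp only [hφ]
    rw [hSx, sub_self, Real.sqrt_zero, zero_mul, mul_zero, sub_zero]
    positivity
  obtain ⟨x, hx, hφx⟩ : ∃ x ∈ Icc 0 xR, φ x = 0 := by
    have := intermediate_value_Icc hxR0.le hφc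
    exact this ⟨hφ0, hφ1⟩
  set Sx := p - (1 - p) * x with hSxd
  have hSx1 : r ^ 2 ≤ Sx := by
    rw [← hSx, hSxd]
    have := mul_le_mul_of_nonneg_left hx.2 hq.le
    linarith
  have hSx2 : Sx < 1 := by
    rw [hSxd]
    have := mul_nonneg hq.le hx.1
    linarith
  have hSx0 : 0 < Sx := lt_of_lt_of_le (by positivity) hSx1
  have key := cert_real hd h0 h1 hpos hen hr hSx1 hSx2 hx.1 (hx.2.trans_lt hxRr)
  rw [← hze, ← hv, ← hv₁, ← hw] at key
  set A := x * √Sx with hA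
  set B := √(Sx - r ^ 2) * √(r ^ 2 - x ^ 2) with hB
  have hpar : ‖w‖ * A = ‖v₁‖ * B := by
    have := hφx
    simp only [hφ] at this
    linarith
  have hA2 : A ^ 2 = x ^ 2 * Sx := by rw [hA, mul_pow, Real.sq_sqrt hSx0.le]
  have hxr2 : x ^ 2 ≤ r ^ 2 := pow_le_pow_left₀ hx.1 (hx.2.trans hxRr.le) 2
  have hB2 : B ^ 2 = (Sx - r ^ 2) * (r ^ 2 - x ^ 2) := by
    rw [hB, mul_pow, Real.sq_sqrt (by linarith), Real.sq_sqrt (by linarith)]
  have hAB : A ^ 2 + B ^ 2 = r ^ 2 * (Sx - r ^ 2 + x ^ 2) := by rw [hA2, hB2]; ring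
  have e1 : 1 - Sx = (1 - p) * (1 + x) := by rw [hSxd]; ring
  have e2 : Sx + x = p * (1 + x) := by rw [hSxd]; ring
  rw [e1, e2] at key
  have h1x : 0 < 1 + x := by linarith [hx.1]
  have hA0 : 0 ≤ A := mul_nonneg hx.1 (Real.sqrt_nonneg _)
  have hB0 : 0 ≤ B := mul_nonneg (Real.sqrt_nonneg _) (Real.sqrt_nonneg _)
  have key2 : (1 - p) * (‖v₁‖ * A + ‖w‖ * B) ≤ p * (1 + x) * (r * √Sx) := by
    have k : (1 + x) * ((1 - p) * (‖v₁‖ * A + ‖w‖ * B)) ≤ (1 + x) * (p * (1 + x) * (r * √Sx)) := by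
      linarith
    exact le_of_mul_le_mul_left k h1x
  have key3 : ((1 - p) * (‖v₁‖ * A + ‖w‖ * B)) ^ 2 ≤ (p * (1 + x) * (r * √Sx)) ^ 2 := by
    apply pow_le_pow_left₀ _ key2
    positivity
  have e3 : ((1 - p) * (‖v₁‖ * A + ‖w‖ * B)) ^ 2 =
      (1 - p) ^ 2 * ((‖v₁‖ ^ 2 + ‖w‖ ^ 2) * (A ^ 2 + B ^ 2)) := by
    linear_combination (-(1 - p) ^ 2 * (‖w‖ * A - ‖v₁‖ * B)) * hpar
  have e4 : (p * (1 + x) * (r * √Sx)) ^ 2 = p ^ 2 * (1 + x) ^ 2 * (r ^ 2 * Sx) := by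
    rw [mul_pow, mul_pow, mul_pow, Real.sq_sqrt hSx0.le]
  rw [e3, e4, hAB, ← hvn] at key3
  have hmain := c.main hR hm hx.1
  rw [← hSxd] at hmain
  have hpos2 : 0 < Sx - r ^ 2 + x ^ 2 := by
    rcases hx.1.eq_or_lt with h' | h'
    · rw [hSxd, ← h']
      linarith
    · have : 0 < x ^ 2 := by positivity
      linarith
  have k8 : r ^ 2 * ((1 - p) ^ 2 * (Sx - r ^ 2 + x ^ 2)) * ‖v‖ ^ 2 ≤
      r ^ 2 * ((1 - p) ^ 2 * (Sx - r ^ 2 + x ^ 2)) * m := by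
    have k9 := mul_le_mul_of_nonneg_left hmain (sq_nonneg r)
    calc r ^ 2 * ((1 - p) ^ 2 * (Sx - r ^ 2 + x ^ 2)) * ‖v‖ ^ 2
        = (1 - p) ^ 2 * (‖v‖ ^ 2 * (r ^ 2 * (Sx - r ^ 2 + x ^ 2))) := by ring
      _ ≤ p ^ 2 * (1 + x) ^ 2 * (r ^ 2 * Sx) := key3
      _ = r ^ 2 * (p ^ 2 * (1 + x) ^ 2 * Sx) := by ring
      _ ≤ r ^ 2 * (m * ((1 - p) ^ 2 * (Sx - r ^ 2 + x ^ 2))) := k9
      _ = r ^ 2 * ((1 - p) ^ 2 * (Sx - r ^ 2 + x ^ 2)) * m := by ring
  exact le_of_mul_le_mul_left k8 (by positivity)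

end Pool.Agent.Helper540
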